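import Mathlib

set_option autoImplicit false

namespace Pool.Agent.Helper213.Walk

open Finset

/-- The four kinds of steps of a walk. -/
inductive St
  | u | d | q | p
deriving DecidableEq

/-- The height after the steps of the list (the newest step is the head). -/
def ht : List St → ℕ
  | [] => 0
  | St.u :: s => ht s + 1
  | St.d :: s => ht s - 1
  | St.q :: s => ht s
  | St.p :: s => ht s

/-- Number of up steps from level `i` to level `i+1`. -/
def np : List St → ℕ → ℕ
  | [], _ => 0
  | St.u :: s, i => if i = ht s then np s i + 1 else np s i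
  | St.d :: s, i => np s i
  | St.q :: s, i => np s i
  | St.p :: s, i => np s i

/-- Number of down steps from level `i+1` to level `i`. -/
def nm : List St → ℕ → ℕ
  | [], _ => 0
  | St.u :: s, i => nm s i
  | St.d :: s, i => if i + 1 = ht s then nm s i + 1 else nm s i
  | St.q :: s, i => nm s i
  | St.p :: s, i => nm s i

/-- The points of block `i`. -/
def U : List St → ℕ → Finset ℕ
  | [], _ => ∅
  | St.u :: s, i => if i = ht s then insert s.length (U s i) else U s i
  | St.d :: s, i => if i + 1 = ht s then insert s.length (U s i) else U s i
  | St.q :: s, i => U s i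
  | St.p :: s, i => if i + 1 = ht s then insert s.length (U s i) else U s i

/-- The reopening steps of block `i`. -/
def ms : List St → ℕ → Finset ℕ
  | [], _ => ∅
  | St.u :: s, i => if i = ht s ∧ 1 ≤ np s i then insert s.length (ms s i) else ms s i
  | St.d :: s, i => ms s i
  | St.q :: s, i => ms s i
  | St.p :: s, i => ms s i

/-- Validity of a walk staying in `[0,h]`; loops are allowed only when `fl` is true. -/
def Good (fl : Bool) (h : ℕ) : List St → Prop
  | [] => True
  | St.u :: s => Good fl h s ∧ ht s + 1 ≤ h
  | St.d :: s => Good fl h s ∧ 1 ≤ ht s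
  | St.q :: s => Good fl h s ∧ fl = true
  | St.p :: s => Good fl h s ∧ fl = true

/-- No `p` loop at height zero. -/
def NoP : List St → Prop
  | [] => True
  | St.u :: s => NoP s
  | St.d :: s => NoP s
  | St.q :: s => NoP s
  | St.p :: s => NoP s ∧ 1 ≤ ht s

/-- The finite set of walks of length `k` in `[0,h]` ending at height `a`. -/
def T (fl : Bool) (h : ℕ) : ℕ → ℕ → Finset (List St)
  | 0, a => if a = 0 then {[]} else ∅
  | k + 1, a =>
      (if 1 ≤ a ∧ a ≤ h then (T fl h k (a - 1)).image (List.cons St.u) else ∅) ∪
      ((T fl h k (a + 1)).image (List.cons St.d)) ∪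
      ((if fl = true then (T fl h k a).image (List.cons St.q) else ∅) ∪
       (if fl = true then (T fl h k a).image (List.cons St.p) else ∅))

theorem mem_T {fl : Bool} {h : ℕ} : ∀ {k a : ℕ} {s : List St},
    s ∈ T fl h k a ↔ s.length = k ∧ Good fl h s ∧ ht s = a := by
  intro k
  induction k with
  | zero =>
    intro a s
    simp only [T]
    constructor
    · intro hs
      split_ifs at hs with h0
      · simp at hs; subst hs; simp [Good, ht, h0]
      · simp at hs
    · rintro ⟨h1, h2, h3⟩
      have : s = [] := List.length_eq_zero_iff.mp h1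
      subst this
      simp [ht] at h3
      simp [← h3]
  | succ k ih =>
    intro a s
    simp only [T, mem_union]
    constructor
    · rintro ((hs | hs) | (hs | hs))
      · split_ifs at hs with h0
        · simp only [mem_image] at hs
          obtain ⟨s', hs', rfl⟩ := hs
          obtain ⟨h1, h2, h3⟩ := ih.1 hs'
          refine ⟨by simp [h1], ⟨h2, by omega⟩, ?_⟩
          simp only [ht]; omega
        · simp at hs
      · simp only [mem_image] at hs
        obtain ⟨s', hs', rfl⟩ := hs
        obtain ⟨h1, h2, h3⟩ := ih.1 hs'
        refine ⟨by simp [h1], ⟨h2, by omega⟩, ?_⟩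
        simp only [ht]; omega
      · split_ifs at hs with h0
        · simp only [mem_image] at hs
          obtain ⟨s', hs', rfl⟩ := hs
          obtain ⟨h1, h2, h3⟩ := ih.1 hs'
          exact ⟨by simp [h1], ⟨h2, h0⟩, by simp only [ht]; omega⟩
        · simp at hs
      · split_ifs at hs with h0
        · simp only [mem_image] at hs
          obtain ⟨s', hs', rfl⟩ := hs
          obtain ⟨h1, h2, h3⟩ := ih.1 hs'
          exact ⟨by simp [h1], ⟨h2, h0⟩, by simp only [ht]; omega⟩
        · simp at hs
    · rintro ⟨h1, h2, h3⟩
      match s, h1, h2, h3 with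
      | St.u :: s', h1, h2, h3 =>
        left; left
        simp only [ht] at h3
        simp only [Good] at h2
        rw [if_pos (by omega)]
        exact mem_image_of_mem _ (ih.2 ⟨by simpa using h1, h2.1, by omega⟩)
      | St.d :: s', h1, h2, h3 =>
        left; right
        simp only [ht] at h3
        simp only [Good] at h2
        exact mem_image_of_mem _ (ih.2 ⟨by simpa using h1, h2.1, by omega⟩)
      | St.q :: s', h1, h2, h3 =>
        right; left
        simp only [ht] at h3
        simp only [Good] at h2
        rw [if_pos h2.2]
        exact mem_image_of_mem _ (ih.2 ⟨by simpa using h1, h2.1, by omega⟩)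
      | St.p :: s', h1, h2, h3 =>
        right; right
        simp only [ht] at h3
        simp only [Good] at h2
        rw [if_pos h2.2]
        exact mem_image_of_mem _ (ih.2 ⟨by simpa using h1, h2.1, by omega⟩)

theorem ht_le {fl : Bool} {h : ℕ} : ∀ {s : List St}, Good fl h s → ht s ≤ h
  | [], _ => by simp [ht]
  | St.u :: s, hs => by simp only [ht]; exact hs.2
  | St.d :: s, hs => by simp only [ht]; have := ht_le hs.1; omega
  | St.q :: s, hs => by simp only [ht]; exact ht_le hs.1
  | St.p :: s, hs => by simp only [ht]; exact ht_le hs.1

theorem ht_le_length : ∀ (s : List St), ht s ≤ s.length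
  | [] => by simp [ht]
  | St.u :: s => by simp only [ht, List.length_cons]; have := ht_le_length s; omega
  | St.d :: s => by simp only [ht, List.length_cons]; have := ht_le_length s; omega
  | St.q :: s => by simp only [ht, List.length_cons]; have := ht_le_length s; omega
  | St.p :: s => by simp only [ht, List.length_cons]; have := ht_le_length s; omega

/-- relation of up and down counts. -/
theorem np_eq {fl : Bool} {h : ℕ} : ∀ {s : List St}, Good fl h s → ∀ i,
    (i < ht s → np s i = nm s i + 1) ∧ (ht s ≤ i → np s i = nm s i)
  | [], _, i => by simp [np, nm, ht]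
  | St.u :: s, hs, i => by
    have := np_eq hs.1 i
    simp only [np, nm, ht]
    by_cases h1 : i = ht s
    · rw [if_pos h1]; omega
    · rw [if_neg h1]; omega
  | St.d :: s, hs, i => by
    have := np_eq hs.1 i
    have h1 := hs.2
    simp only [np, nm, ht]
    by_cases h1 : i + 1 = ht s
    · rw [if_pos h1]; omega
    · rw [if_neg h1]; omega
  | St.q :: s, hs, i => np_eq (s := s) hs.1 i
  | St.p :: s, hs, i => np_eq (s := s) hs.1 i

theorem U_lt : ∀ (s : List St) (i j : ℕ), j ∈ U s i → j < s.length
  | [], i, j, hj => by simp [U] at hj
  | St.u :: s, i, j, hj => by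
    simp only [U] at hj
    have ih := U_lt s i j
    simp only [List.length_cons]
    split_ifs at hj
    · rcases mem_insert.1 hj with h | h
      · omega
      · have := ih h; omega
    · have := ih hj; omega
  | St.d :: s, i, j, hj => by
    simp only [U] at hj
    have ih := U_lt s i j
    simp only [List.length_cons]
    split_ifs at hj
    · rcases mem_insert.1 hj with h | h
      · omega
      · have := ih h; omega
    · have := ih hj; omega
  | St.q :: s, i, j, hj => by
    simp only [U] at hj
    have ih := U_lt s i j hj
    simp only [List.length_cons]; omega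
  | St.p :: s, i, j, hj => by
    simp only [U] at hj
    have ih := U_lt s i j
    simp only [List.length_cons]
    split_ifs at hj
    · rcases mem_insert.1 hj with h | h
      · omega
      · have := ih h; omega
    · have := ih hj; omega

theorem ms_lt : ∀ (s : List St) (i j : ℕ), j ∈ ms s i → j < s.length
  | [], i, j, hj => by simp [ms] at hj
  | St.u :: s, i, j, hj => by
    simp only [ms] at hj
    have ih := ms_lt s i j
    simp only [List.length_cons]
    split_ifs at hj
    · rcases mem_insert.1 hj with h | h
      · omega
      · have := ih h; omega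
    · have := ih hj; omega
  | St.d :: s, i, j, hj => by
    simp only [ms] at hj
    have ih := ms_lt s i j hj
    simp only [List.length_cons]; omega
  | St.q :: s, i, j, hj => by
    simp only [ms] at hj
    have ih := ms_lt s i j hj
    simp only [List.length_cons]; omega
  | St.p :: s, i, j, hj => by
    simp only [ms] at hj
    have ih := ms_lt s i j hj
    simp only [List.length_cons]; omega

theorem card_ms : ∀ (s : List St) (i : ℕ), (ms s i).card = np s i - 1
  | [], i => by simp [ms, np]
  | St.u :: s, i => by
    have ih := card_ms s i
    have hlt : s.length ∉ ms s i := fun h => lt_irrefl _ (ms_lt s i _ h)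
    simp only [ms, np]
    by_cases h1 : i = ht s
    · by_cases h2 : 1 ≤ np s i
      · rw [if_pos ⟨h1, h2⟩, if_pos h1, card_insert_of_notMem hlt]; omega
      · rw [if_neg (fun h => h2 h.2), if_pos h1]; omega
    · rw [if_neg (fun h => h1 h.1), if_neg h1]; exact ih
  | St.d :: s, i => card_ms s i
  | St.q :: s, i => card_ms s i
  | St.p :: s, i => card_ms s i

/-- an untouched block has no point. -/
theorem U_empty {fl : Bool} {h : ℕ} : ∀ {s : List St}, Good fl h s → ∀ i, np s i = 0 → U s i = ∅
  | [], _, i, _ => by simp [U]
  | St.u :: s, hs, i, hi => by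
    simp only [np] at hi
    simp only [U]
    split_ifs at hi ⊢ with h1
    exact U_empty hs.1 i hi
  | St.d :: s, hs, i, hi => by
    simp only [np] at hi
    simp only [U]
    have h2 := np_eq hs.1 i
    by_cases h1 : i + 1 = ht s
    · omega
    · rw [if_neg h1]; exact U_empty hs.1 i hi
  | St.q :: s, hs, i, hi => U_empty hs.1 i hi
  | St.p :: s, hs, i, hi => by
    simp only [np] at hi
    simp only [U]
    have h2 := np_eq hs.1 i
    by_cases h1 : i + 1 = ht s
    · omega
    · rw [if_neg h1]; exact U_empty hs.1 i hi

/-- blocks above the bound are untouched -/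
theorem np_zero {fl : Bool} {h : ℕ} : ∀ {s : List St}, Good fl h s → ∀ i, h ≤ i → np s i = 0
  | [], _, i, _ => by simp [np]
  | St.u :: s, hs, i, hi => by
    simp only [np]
    have := hs.2
    rw [if_neg (by omega)]
    exact np_zero hs.1 i hi
  | St.d :: s, hs, i, hi => np_zero hs.1 i hi
  | St.q :: s, hs, i, hi => np_zero hs.1 i hi
  | St.p :: s, hs, i, hi => np_zero hs.1 i hi

/-- sums over `T` split according to the newest step. -/
theorem sum_T_succ {M : Type*} [AddCommMonoid M] (fl : Bool) (h k a : ℕ) (f : List St → M) :
    ∑ s ∈ T fl h (k + 1) a, f s =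
      (if 1 ≤ a ∧ a ≤ h then ∑ s ∈ T fl h k (a - 1), f (St.u :: s) else 0) +
      (∑ s ∈ T fl h k (a + 1), f (St.d :: s)) +
      ((if fl = true then ∑ s ∈ T fl h k a, f (St.q :: s) else 0) +
       (if fl = true then ∑ s ∈ T fl h k a, f (St.p :: s) else 0)) := by
  have inj : ∀ x : St, ∀ S : Finset (List St),
      ∑ s ∈ S.image (List.cons x), f s = ∑ s ∈ S, f (x :: s) := by
    intro x S
    rw [Finset.sum_image]
    intro a _ b _ hab
    exact (List.cons.inj hab).2
  simp only [T]
  rw [Finset.sum_union, Finset.sum_union, Finset.sum_union]
  · rw [inj]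
    congr 1
    · congr 1
      split_ifs
      · rw [inj]
      · simp
    · congr 1
      · split_ifs
        · rw [inj]
        · simp
      · split_ifs
        · rw [inj]
        · simp
  · rw [Finset.disjoint_left]
    intro x hx hx'
    split_ifs at hx hx'
    · simp only [mem_image] at hx hx'
      obtain ⟨a, _, rfl⟩ := hx
      obtain ⟨b, _, hb⟩ := hx'
      simp at hb
    · simp at hx
  · rw [Finset.disjoint_left]
    intro x hx hx'
    split_ifs at hx
    · simp only [mem_image] at hx hx'
      obtain ⟨a, _, rfl⟩ := hx
      obtain ⟨b, _, hb⟩ := hx'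
      simp at hb
    · simp at hx
  · rw [Finset.disjoint_left]
    intro x hx hx'
    rw [mem_union] at hx hx'
    rcases hx with hx | hx
    · split_ifs at hx
      · simp only [mem_image] at hx
        obtain ⟨a, _, rfl⟩ := hx
        rcases hx' with hx' | hx' <;> (split_ifs at hx' <;> simp at hx')
      · simp at hx
    · simp only [mem_image] at hx
      obtain ⟨a, _, rfl⟩ := hx
      rcases hx' with hx' | hx' <;> (split_ifs at hx' <;> simp at hx')

end Pool.Agent.Helper213.Walk
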