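import Mathlib
import Pool.Agent.Helper213.Walk

set_option autoImplicit false

namespace Pool.Agent.Helper213.Count

open Finset Walk

/-- number of sequences of signs of length N with initial sums in [0,w] and total w -/
noncomputable def PC (N : ℕ) (w : ℤ) : ℕ :=
  {c : Fin N → Bool |
    (∀ k : Fin (N + 1),
      0 ≤ (∑ i ∈ Finset.univ.filter (fun i : Fin N => i.val < k.val),
            (if c i then (1 : ℤ) else -1)) ∧
      (∑ i ∈ Finset.univ.filter (fun i : Fin N => i.val < k.val),
            (if c i then (1 : ℤ) else -1)) ≤ w) ∧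
    (∑ i : Fin N, (if c i then (1 : ℤ) else -1)) = w}.ncard


namespace Cnt170

def ps {N : ℕ} (c : Fin N → Bool) (k : ℕ) : ℤ :=
  ∑ i ∈ Finset.univ.filter (fun i : Fin N => i.val < k), (if c i then (1 : ℤ) else -1)

def PS (N : ℕ) (w e : ℤ) : Set (Fin N → Bool) :=
  {c | (∀ k : Fin (N + 1), 0 ≤ ps c k.val ∧ ps c k.val ≤ w) ∧ ps c N = e}

def pth (w : ℕ) : ℕ → ℕ → ℕ
  | 0, y => if y = 0 then 1 else 0
  | k + 1, y => if w < y then 0 else (if 1 ≤ y then pth w k (y - 1) else 0) + pth w k (y + 1)

lemma pth_gt (w k y : ℕ) (h : w < y) : pth w k y = 0 := by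
  cases k with
  | zero => simp only [pth]; rw [if_neg (by omega)]
  | succ k => simp only [pth]; rw [if_pos h]

lemma ps_all {N : ℕ} (c : Fin N → Bool) :
    ps c N = ∑ i : Fin N, (if c i then (1 : ℤ) else -1) := by
  unfold ps
  rw [Finset.filter_true_of_mem]
  intro i _
  exact i.isLt

lemma ps_zero {N : ℕ} (c : Fin N → Bool) : ps c 0 = 0 := by
  unfold ps
  rw [Finset.filter_false_of_mem]
  · simp
  · intro i _; omega

lemma ps_snoc_le {N : ℕ} (c : Fin N → Bool) (b : Bool) (k : ℕ) (hk : k ≤ N) :
    ps (Fin.snoc c b : Fin (N + 1) → Bool) k = ps c k := by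
  unfold ps
  rw [Finset.sum_filter, Finset.sum_filter, Fin.sum_univ_castSucc]
  have h1 : ¬ ((Fin.last N).val < k) := by
    rw [Fin.val_last]; omega
  rw [if_neg h1, add_zero]
  apply Finset.sum_congr rfl
  intro i _
  rw [Fin.snoc_castSucc, Fin.val_castSucc]

lemma ps_snoc_last {N : ℕ} (c : Fin N → Bool) (b : Bool) :
    ps (Fin.snoc c b : Fin (N + 1) → Bool) (N + 1) = ps c N + (if b then (1 : ℤ) else -1) := by
  rw [ps_all, ps_all, Fin.sum_univ_castSucc]
  congr 1
  · apply Finset.sum_congr rfl
    intro i _
    rw [Fin.snoc_castSucc]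
  · rw [Fin.snoc_last]

lemma mem_snoc {N : ℕ} (w e : ℤ) (he : 0 ≤ e) (hw : e ≤ w) (c : Fin N → Bool) (b : Bool) :
    (Fin.snoc c b : Fin (N + 1) → Bool) ∈ PS (N + 1) w e ↔
      c ∈ PS N w (e - (if b then (1 : ℤ) else -1)) := by
  unfold PS
  rw [Set.mem_ofPred_eq, Set.mem_ofPred_eq, ps_snoc_last]
  constructor
  · rintro ⟨h1, h2⟩
    refine ⟨?_, by linarith⟩
    intro k
    have := h1 (Fin.castSucc k)
    rw [Fin.val_castSucc, ps_snoc_le c b k.val (by omega)] at this
    exact this
  · rintro ⟨h1, h2⟩
    refine ⟨?_, by linarith⟩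
    intro k
    rcases Nat.lt_or_ge k.val (N + 1) with hk | hk
    · have := h1 ⟨k.val, hk⟩
      rw [ps_snoc_le c b k.val (by omega)]
      exact this
    · have : k.val = N + 1 := by omega
      rw [this, ps_snoc_last, h2]
      constructor <;> linarith

lemma PS_neg (N : ℕ) (w e : ℤ) (he : e < 0) : PS N w e = ∅ := by
  rw [Set.eq_empty_iff_forall_notMem]
  rintro c ⟨h1, h2⟩
  have := (h1 (Fin.last N)).1
  rw [Fin.val_last, h2] at this
  omega

lemma PS_gt (N : ℕ) (w e : ℤ) (he : w < e) : PS N w e = ∅ := by
  rw [Set.eq_empty_iff_forall_notMem]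
  rintro c ⟨h1, h2⟩
  have := (h1 (Fin.last N)).2
  rw [Fin.val_last, h2] at this
  omega

lemma snoc_inj {N : ℕ} (b : Bool) :
    Function.Injective (fun c : Fin N → Bool => (Fin.snoc c b : Fin (N + 1) → Bool)) := by
  intro c c' h
  funext i
  have := congrFun h (Fin.castSucc i)
  simpa [Fin.snoc_castSucc] using this

lemma PS_succ (N : ℕ) (w e : ℤ) (he : 0 ≤ e) (hw : e ≤ w) :
    PS (N + 1) w e = (fun c : Fin N → Bool => (Fin.snoc c true : Fin (N + 1) → Bool)) ''
      PS N w (e - 1) ∪ (fun c : Fin N → Bool => (Fin.snoc c false : Fin (N + 1) → Bool)) ''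
      PS N w (e + 1) := by
  ext c
  constructor
  · intro hc
    have e1 : (Fin.snoc (Fin.init c) (c (Fin.last N)) : Fin (N + 1) → Bool) = c :=
      Fin.snoc_init_self c
    rw [← e1, mem_snoc w e he hw] at hc
    cases hb : c (Fin.last N)
    · right
      rw [hb] at hc
      refine ⟨Fin.init c, ?_, ?_⟩
      · simpa using hc
      · simp only; rw [← hb]; exact e1
    · left
      rw [hb] at hc
      refine ⟨Fin.init c, ?_, ?_⟩
      · simpa using hc
      · simp only; rw [← hb]; exact e1
  · rintro (⟨c', hc', rfl⟩ | ⟨c', hc', rfl⟩)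
    · simp only
      rw [mem_snoc w e he hw]
      simpa using hc'
    · simp only
      rw [mem_snoc w e he hw]
      simpa using hc'

lemma PS_card (w N : ℕ) : ∀ e : ℕ, (PS N (w : ℤ) (e : ℤ)).ncard = pth w N e := by
  induction N with
  | zero =>
    intro e
    by_cases he : e = 0
    · subst he
      have : PS 0 (w : ℤ) ((0 : ℕ) : ℤ) = {(fun i => Fin.elim0 i)} := by
        rw [Set.eq_singleton_iff_unique_mem]
        refine ⟨?_, fun c _ => by funext i; exact Fin.elim0 i⟩
        refine ⟨?_, ?_⟩
        · intro k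
          have hk : k.val = 0 := by omega
          rw [hk, ps_zero]
          exact ⟨le_refl _, by positivity⟩
        · rw [ps_zero]; simp
      rw [this, Set.ncard_singleton]
      simp [pth]
    · have : PS 0 (w : ℤ) (e : ℤ) = ∅ := by
        rw [Set.eq_empty_iff_forall_notMem]
        rintro c ⟨_, h2⟩
        rw [ps_zero] at h2
        omega
      rw [this, Set.ncard_empty]
      simp [pth, he]
  | succ N ih =>
    intro e
    by_cases hew : w < e
    · rw [PS_gt _ _ _ (by exact_mod_cast hew), pth_gt _ _ _ hew, Set.ncard_empty]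
    · have he0 : (0 : ℤ) ≤ e := by positivity
      have hew' : (e : ℤ) ≤ w := by
        have : e ≤ w := by omega
        exact_mod_cast this
      rw [PS_succ N w e he0 hew', Set.ncard_union_eq _ (Set.toFinite _) (Set.toFinite _),
        Set.ncard_image_of_injective _ (snoc_inj true),
        Set.ncard_image_of_injective _ (snoc_inj false)]
      · simp only [pth]
        rw [if_neg hew]
        congr 1
        · by_cases h1 : 1 ≤ e
          · rw [if_pos h1, ← ih (e - 1)]
            congr 2
            omega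
          · rw [if_neg h1, PS_neg _ _ _ (by omega), Set.ncard_empty]
        · rw [← ih (e + 1)]
          congr 2
      · rw [Set.disjoint_left]
        rintro _ ⟨c, _, rfl⟩ ⟨c', _, h⟩
        have := congrFun h (Fin.last N)
        simp [Fin.snoc_last] at this

lemma PC_eq (N : ℕ) (w : ℤ) : PC N w = (PS N w w).ncard := by
  unfold PC PS
  congr 1
  ext c
  rw [Set.mem_ofPred_eq, Set.mem_ofPred_eq, ps_all]
  rfl

lemma PC_pth (N w : ℕ) : PC N (w : ℤ) = pth w N w := by
  rw [PC_eq, PS_card]

lemma cons_inj (x : St) : Function.Injective (List.cons x) := by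
  intro a b h
  simpa using h

lemma T_gt (fl : Bool) (h k : ℕ) : ∀ a, h < a → T fl h k a = ∅ := by
  induction k with
  | zero =>
    intro a ha
    simp only [T]
    rw [if_neg (by omega)]
  | succ k ih =>
    intro a ha
    simp only [T]
    rw [if_neg (by omega), ih (a + 1) (by omega), ih a ha]
    simp

lemma T_ht (fl : Bool) (h k : ℕ) : ∀ a, ∀ s ∈ T fl h k a, ht s = a := by
  induction k with
  | zero =>
    intro a s hs
    simp only [T] at hs
    split_ifs at hs with h0
    · rw [Finset.mem_singleton] at hs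
      subst hs; subst h0; rfl
    · simp at hs
  | succ k ih =>
    intro a s hs
    simp only [T, Finset.mem_union] at hs
    rcases hs with (hs | hs) | (hs | hs)
    · split_ifs at hs with h0
      · rw [Finset.mem_image] at hs
        obtain ⟨t, ht', rfl⟩ := hs
        have := ih _ t ht'
        simp only [ht, this]
        omega
      · simp at hs
    · rw [Finset.mem_image] at hs
      obtain ⟨t, ht', rfl⟩ := hs
      have := ih _ t ht'
      simp only [ht, this]
      omega
    · split_ifs at hs with h0
      · rw [Finset.mem_image] at hs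
        obtain ⟨t, ht', rfl⟩ := hs
        exact ih _ t ht'
      · simp at hs
    · split_ifs at hs with h0
      · rw [Finset.mem_image] at hs
        obtain ⟨t, ht', rfl⟩ := hs
        exact ih _ t ht'
      · simp at hs

lemma disj (x y : St) (hxy : x ≠ y) (A B : Finset (List St)) :
    Disjoint (A.image (List.cons x)) (B.image (List.cons y)) := by
  rw [Finset.disjoint_left]
  intro s h1 h2
  rw [Finset.mem_image] at h1 h2
  obtain ⟨a, _, rfl⟩ := h1
  obtain ⟨b, _, hb⟩ := h2
  rw [List.cons.injEq] at hb
  exact hxy hb.1.symm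

lemma card_img (x : St) (A : Finset (List St)) : (A.image (List.cons x)).card = A.card :=
  Finset.card_image_of_injective _ (cons_inj x)

lemma ite_img (P : Prop) [Decidable P] (x : St) (A : Finset (List St)) :
    (if P then A.image (List.cons x) else ∅) = (if P then A else ∅).image (List.cons x) := by
  split_ifs <;> simp

lemma card_union4 (A B C D : Finset (List St)) :
    ((A.image (List.cons St.u)) ∪ (B.image (List.cons St.d)) ∪
      ((C.image (List.cons St.q)) ∪ (D.image (List.cons St.p)))).card =
      A.card + B.card + (C.card + D.card) := by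
  rw [Finset.card_union_of_disjoint, Finset.card_union_of_disjoint,
    Finset.card_union_of_disjoint, card_img, card_img, card_img, card_img]
  · exact disj _ _ (by decide) _ _
  · exact disj _ _ (by decide) _ _
  · rw [Finset.disjoint_union_left, Finset.disjoint_union_right, Finset.disjoint_union_right]
    exact ⟨⟨disj _ _ (by decide) _ _, disj _ _ (by decide) _ _⟩,
      ⟨disj _ _ (by decide) _ _, disj _ _ (by decide) _ _⟩⟩

lemma T_succ (fl : Bool) (h k a : ℕ) : T fl h (k + 1) a =
    (((if 1 ≤ a ∧ a ≤ h then T fl h k (a - 1) else ∅).image (List.cons St.u)) ∪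
      ((T fl h k (a + 1)).image (List.cons St.d)) ∪
      (((if fl = true then T fl h k a else ∅).image (List.cons St.q)) ∪
       ((if fl = true then T fl h k a else ∅).image (List.cons St.p)))) := by
  simp only [T]
  rw [ite_img, ite_img, ite_img]

lemma T_card_succ (fl : Bool) (h k a : ℕ) : (T fl h (k + 1) a).card =
    (if 1 ≤ a ∧ a ≤ h then T fl h k (a - 1) else ∅).card + (T fl h k (a + 1)).card +
      ((if fl = true then T fl h k a else ∅).card + (if fl = true then T fl h k a else ∅).card) := by
  rw [T_succ, card_union4]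

lemma T_false (w k : ℕ) : ∀ y, (T false w k y).card = pth w k y := by
  induction k with
  | zero =>
    intro y
    simp only [T, pth]
    split_ifs <;> simp
  | succ k ih =>
    intro y
    by_cases hy : w < y
    · rw [T_gt _ _ _ _ hy, pth_gt _ _ _ hy]; simp
    · rw [T_card_succ, ih]
      simp only [pth]
      rw [if_neg hy]
      by_cases h1 : 1 ≤ y
      · rw [if_pos ⟨h1, by omega⟩, if_pos h1, ih]
        simp
      · rw [if_neg (by omega), if_neg h1]
        simp

lemma T_true (h k : ℕ) : ∀ a, (T true h k a).card = pth (2 * h + 2) (2 * k + 1) (2 * a + 1) := by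
  induction k with
  | zero =>
    intro a
    by_cases ha : h < a
    · rw [T_gt _ _ _ _ ha, pth_gt _ _ _ (by omega)]; simp
    · simp only [T, pth]
      have hn : ¬ (2 * h + 2 < 2 * a + 1) := by omega
      by_cases h0 : a = 0
      · subst h0; simp
      · simp [h0, hn]
  | succ k ih =>
    intro a
    by_cases ha : h < a
    · rw [T_gt _ _ _ _ ha, pth_gt _ _ _ (by omega)]; simp
    · rw [T_card_succ, ih (a + 1)]
      have e1 : pth (2 * h + 2) (2 * (k + 1) + 1) (2 * a + 1) =
          pth (2 * h + 2) (2 * k + 2) (2 * a) + pth (2 * h + 2) (2 * k + 2) (2 * a + 2) := by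
        rw [show 2 * (k + 1) + 1 = (2 * k + 2) + 1 by ring, pth, if_neg (by omega),
          if_pos (by omega)]
        rfl
      have e2 : pth (2 * h + 2) (2 * k + 2) (2 * a) =
          (if 1 ≤ a then pth (2 * h + 2) (2 * k + 1) (2 * (a - 1) + 1) else 0) +
            pth (2 * h + 2) (2 * k + 1) (2 * a + 1) := by
        rw [show 2 * k + 2 = (2 * k + 1) + 1 by ring, pth, if_neg (by omega)]
        congr 1
        by_cases h1 : 1 ≤ a
        · rw [if_pos (by omega), if_pos h1]
          congr 1; omega
        · rw [if_neg (by omega), if_neg h1]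
      have e3 : pth (2 * h + 2) (2 * k + 2) (2 * a + 2) =
          pth (2 * h + 2) (2 * k + 1) (2 * a + 1) +
            pth (2 * h + 2) (2 * k + 1) (2 * (a + 1) + 1) := by
        rw [show 2 * k + 2 = (2 * k + 1) + 1 by ring, pth, if_neg (by omega), if_pos (by omega)]
        rfl
      rw [e1, e2, e3]
      simp only [if_true, ih a]
      by_cases h1 : 1 ≤ a
      · rw [if_pos ⟨h1, by omega⟩, if_pos h1, ih]
        ring
      · rw [if_neg (by omega), if_neg h1]
        simp only [Finset.card_empty]
        ring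

open Classical in
lemma filt_img_of (x : St) (A : Finset (List St)) (hx : ∀ s ∈ A, (NoP (x :: s) ↔ NoP s)) :
    (A.image (List.cons x)).filter (fun s => NoP s) =
      (A.filter (fun s => NoP s)).image (List.cons x) := by
  ext s
  simp only [Finset.mem_filter, Finset.mem_image]
  constructor
  · rintro ⟨⟨t, ht', rfl⟩, h⟩
    exact ⟨t, ⟨ht', (hx t ht').mp h⟩, rfl⟩
  · rintro ⟨t, ⟨ht', h⟩, rfl⟩
    exact ⟨⟨t, ht', rfl⟩, (hx t ht').mpr h⟩

open Classical in
lemma filt_img_p (A : Finset (List St)) (a : ℕ) (hA : ∀ s ∈ A, ht s = a) :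
    (A.image (List.cons St.p)).filter (fun s => NoP s) =
      (if 1 ≤ a then A.filter (fun s => NoP s) else ∅).image (List.cons St.p) := by
  ext s
  simp only [Finset.mem_filter, Finset.mem_image]
  constructor
  · rintro ⟨⟨t, ht', rfl⟩, h⟩
    simp only [NoP] at h
    rw [hA t ht'] at h
    rw [if_pos h.2]
    exact ⟨t, by rw [Finset.mem_filter]; exact ⟨ht', h.1⟩, rfl⟩
  · rintro ⟨t, h, rfl⟩
    split_ifs at h with h1
    · rw [Finset.mem_filter] at h
      refine ⟨⟨t, h.1, rfl⟩, ?_⟩
      simp only [NoP]
      rw [hA t h.1]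
      exact ⟨h.2, h1⟩
    · simp at h

open Classical in
lemma T_odd (h k : ℕ) : ∀ a, ((T true h k a).filter (fun s => NoP s)).card =
    pth (2 * h + 1) (2 * k) (2 * a) := by
  induction k with
  | zero =>
    intro a
    simp only [T, pth]
    by_cases h0 : a = 0
    · subst h0
      rw [if_pos rfl, Finset.filter_true_of_mem]
      · simp
      · intro s hs
        rw [Finset.mem_singleton] at hs
        subst hs
        simp [NoP]
    · rw [if_neg h0]
      simp [h0]
  | succ k ih =>
    intro a
    by_cases ha : h < a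
    · rw [T_gt _ _ _ _ ha, pth_gt _ _ _ (by omega)]; simp
    · rw [T_succ, Finset.filter_union, Finset.filter_union, Finset.filter_union,
        filt_img_of St.u _ (fun s _ => Iff.rfl), filt_img_of St.d _ (fun s _ => Iff.rfl),
        filt_img_of St.q _ (fun s _ => Iff.rfl),
        filt_img_p _ a (by
          intro s hs
          rw [if_pos rfl] at hs
          exact T_ht _ _ _ _ s hs), card_union4, ih (a + 1)]
      have e1 : pth (2 * h + 1) (2 * (k + 1)) (2 * a) =
          (if 1 ≤ a then pth (2 * h + 1) (2 * k + 1) (2 * a - 1) else 0) +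
            pth (2 * h + 1) (2 * k + 1) (2 * a + 1) := by
        rw [show 2 * (k + 1) = (2 * k + 1) + 1 by ring, pth, if_neg (by omega)]
        congr 1
        by_cases h1 : 1 ≤ a
        · rw [if_pos (by omega), if_pos h1]
        · rw [if_neg (by omega), if_neg h1]
      have e2 : 1 ≤ a → pth (2 * h + 1) (2 * k + 1) (2 * a - 1) =
          pth (2 * h + 1) (2 * k) (2 * (a - 1)) + pth (2 * h + 1) (2 * k) (2 * a) := by
        intro h1
        rw [pth, if_neg (by omega), if_pos (by omega)]
        congr 2 <;> omega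
      have e3 : pth (2 * h + 1) (2 * k + 1) (2 * a + 1) =
          pth (2 * h + 1) (2 * k) (2 * a) + pth (2 * h + 1) (2 * k) (2 * (a + 1)) := by
        rw [pth, if_neg (by omega), if_pos (by omega)]
        rfl
      rw [e1, e3]
      simp only [if_true, ih a]
      by_cases h1 : 1 ≤ a
      · rw [if_pos ⟨h1, by omega⟩, if_pos h1, if_pos h1, e2 h1, ih, ih]
        ring
      · rw [if_neg (by omega), if_neg h1, if_neg h1]
        simp only [Finset.filter_empty, Finset.card_empty]
        ring

end Cnt170

open Cnt170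

theorem count_S (N w : ℕ) : PC N (w : ℤ) = (T false w N w).card := by
  rw [PC_pth, T_false]

theorem count_even (M h : ℕ) : PC (2 * M + 2) (2 * (h : ℤ) + 2) = (T true h M h).card := by
  have : (2 * (h : ℤ) + 2) = ((2 * h + 2 : ℕ) : ℤ) := by push_cast; ring
  rw [this, PC_pth, T_true, show 2 * M + 2 = (2 * M + 1) + 1 by ring, pth, if_neg (by omega),
    if_pos (by omega), pth_gt _ _ (2 * h + 2 + 1) (by omega)]
  rfl

open Classical in
theorem count_odd (M h : ℕ) : PC (2 * M + 1) (2 * (h : ℤ) + 1) =
    ((T true h M h).filter (fun s => NoP s)).card := by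
  have : (2 * (h : ℤ) + 1) = ((2 * h + 1 : ℕ) : ℤ) := by push_cast; ring
  rw [this, PC_pth, T_odd, pth, if_neg (by omega),
    if_pos (by omega), pth_gt _ _ (2 * h + 1 + 1) (by omega)]
  rfl

theorem PC_nonpos (N : ℕ) (hN : 1 ≤ N) (w : ℤ) (hw : w ≤ 0) : PC N w = 0 := by
  rw [PC_eq]
  have : PS N w w = ∅ := by
    rw [Set.eq_empty_iff_forall_notMem]
    rintro c ⟨h1, h2⟩
    have h3 := h1 0
    rw [Fin.val_zero, ps_zero] at h3
    have h4 := h1 ⟨1, by omega⟩
    have hc : ps c 1 = (if c ⟨0, hN⟩ then (1 : ℤ) else -1) := by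
      unfold ps
      have : (Finset.univ.filter (fun i : Fin N => i.val < 1)) = {⟨0, hN⟩} := by
        ext i
        simp only [Finset.mem_filter, Finset.mem_univ, true_and, Finset.mem_singleton, Fin.ext_iff]
        omega
      rw [this, Finset.sum_singleton]
    simp only at h4
    rw [hc] at h4
    split_ifs at h4 <;> omega
  rw [this, Set.ncard_empty]

end Pool.Agent.Helper213.Count
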