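import Mathlib
import Pool.Agent.Helper213.Count

set_option autoImplicit false

namespace Pool.Agent.Helper213.Bad

open Finset Count

def Gd (N : ℕ) (I : Finset ℕ) : Prop :=
  ∀ m ≤ N, 2 * (I.filter (fun x => x < m)).card ≤ m ∧
    2 * (I.filter (fun x => N - m ≤ x)).card ≤ m

section aux

variable (a : ℕ → Prop) [DecidablePred a]

def cc (m : ℕ) : ℕ := ((range m).filter a).card

lemma cc_succ (m : ℕ) : cc a (m + 1) = cc a m + (if a m then 1 else 0) := by
  unfold cc
  rw [range_add_one, filter_insert]
  by_cases h : a m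
  · rw [if_pos h, if_pos h, card_insert_of_notMem (by simp)]
  · rw [if_neg h, if_neg h, add_zero]

lemma cc_zero : cc a 0 = 0 := by simp [cc]

lemma exists_min (N : ℕ) (h : ∃ m ≤ N, m < 2 * cc a m) :
    ∃ m, m + 1 ≤ N ∧ a m ∧ 2 * cc a (m + 1) = m + 2 := by
  classical
  have h' : ∃ m, m < 2 * cc a m := by
    obtain ⟨m, -, hm⟩ := h
    exact ⟨m, hm⟩
  obtain ⟨m0, hm0, hm0'⟩ := h
  set k := Nat.find h' with hk
  have hk1 : k < 2 * cc a k := Nat.find_spec h'
  have hk2 : k ≤ m0 := Nat.find_min' h' hm0'
  rcases Nat.eq_zero_or_pos k with h0 | h0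
  · rw [h0, cc_zero] at hk1
    omega
  · obtain ⟨m, hm⟩ : ∃ m, k = m + 1 := ⟨k - 1, by omega⟩
    have hm2 : ¬ m < 2 * cc a m := Nat.find_min h' (by omega)
    rw [hm, cc_succ] at hk1
    refine ⟨m, by omega, ?_, ?_⟩
    · by_contra hc
      rw [if_neg hc] at hk1
      omega
    · rw [cc_succ]
      split_ifs at hk1 ⊢ <;> omega

lemma card_not (m : ℕ) : ((range m).filter (fun i => ¬ a i)).card + cc a m = m := by
  have h := card_filter_add_card_filter_not (s := range m) a
  rw [card_range] at h
  unfold cc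
  omega

lemma pairs (h0 : ¬ a 0) (p : ℕ) :
    cc a (2 * p + 1) + ((range p).filter (fun i => ¬ a (2 * i + 1) ∧ ¬ a (2 * i + 2))).card =
      ((range p).filter (fun i => a (2 * i + 1) ∧ a (2 * i + 2))).card + p := by
  induction p with
  | zero => simp [cc_succ, cc_zero, h0]
  | succ p ih =>
    have e1 : 2 * (p + 1) + 1 = (2 * p + 1) + 1 + 1 := by ring
    rw [e1, cc_succ, cc_succ, range_add_one, filter_insert, filter_insert]
    have e2 : 2 * p + 1 + 1 = 2 * p + 2 := rfl
    rw [e2]
    by_cases h1 : a (2 * p + 1) <;> by_cases h2 : a (2 * p + 2) <;>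
      simp [h1, h2] <;> omega

end aux

lemma pre_eq (I : Finset ℕ) (m : ℕ) : (I.filter (fun x => x < m)).card =
    cc (fun x => x ∈ I) m := by
  unfold cc
  congr 1
  ext x
  simp [and_comm]

lemma suf_eq (n : ℕ) (I : Finset ℕ) (hI : I ⊆ range (n + 2)) (m : ℕ) (hm : m ≤ n + 2) :
    (I.filter (fun x => n + 2 - m ≤ x)).card = cc (fun x => n + 1 - x ∈ I) m := by
  unfold cc
  apply card_nbij' (fun x => n + 1 - x) (fun x => n + 1 - x)
  · intro x hx
    simp only [coe_filter, Set.mem_ofPred_eq, mem_range] at hx ⊢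
    have h1 := mem_range.1 (hI hx.1)
    refine ⟨by omega, ?_⟩
    have : n + 1 - (n + 1 - x) = x := by omega
    rw [this]
    exact hx.1
  · intro x hx
    simp only [coe_filter, Set.mem_ofPred_eq, mem_range] at hx ⊢
    exact ⟨hx.2, by omega⟩
  · intro x hx
    simp only [coe_filter, Set.mem_ofPred_eq] at hx
    have h1 := mem_range.1 (hI hx.1)
    change n + 1 - (n + 1 - x) = x
    omega
  · intro x hx
    simp only [coe_filter, Set.mem_ofPred_eq, mem_range] at hx
    change n + 1 - (n + 1 - x) = x
    omega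

lemma bad_cases (n : ℕ) (I : Finset ℕ) (hI : I ⊆ range (n + 2)) (hbad : ¬ Gd (n + 2) I) :
    (∃ m ≤ n + 2, m < 2 * cc (fun x => x ∈ I) m) ∨
      (∃ m ≤ n + 2, m < 2 * cc (fun x => n + 1 - x ∈ I) m) := by
  unfold Gd at hbad
  push Not at hbad
  obtain ⟨m, hm, h⟩ := hbad
  by_cases h1 : 2 * (I.filter (fun x => x < m)).card ≤ m
  · right
    refine ⟨m, hm, ?_⟩
    rw [← suf_eq n I hI m hm]
    exact h h1
  · left
    refine ⟨m, hm, ?_⟩
    rw [← pre_eq]
    omega

theorem bad_pairs (n : ℕ) (I : Finset ℕ) (hI : I ⊆ range (n + 2)) (h0 : 0 ∉ I) (h1 : n + 1 ∉ I)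
    (hbad : ¬ Gd (n + 2) I) :
    (∃ p ≤ n / 2, ((range p).filter (fun i => ({2 * i + 1, 2 * i + 2} : Finset ℕ) ⊆ I)).card =
      ((range p).filter (fun i => Disjoint ({2 * i + 1, 2 * i + 2} : Finset ℕ) I)).card + 1) ∨
    (∃ p ≤ n / 2, ((range p).filter (fun i => ({n - (2 * i + 1), n - 2 * i} : Finset ℕ) ⊆ I)).card =
      ((range p).filter (fun i => Disjoint ({n - (2 * i + 1), n - 2 * i} : Finset ℕ) I)).card + 1) := by
  rcases bad_cases n I hI hbad with h | h
  · left
    obtain ⟨m, hm, ha, hc⟩ := exists_min _ _ h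
    obtain ⟨e, he⟩ : ∃ e, m = 2 * e := ⟨m / 2, by omega⟩
    have hmn : m ≠ n + 1 := by
      rintro rfl
      exact h1 ha
    subst he
    have hp := pairs (fun x => x ∈ I) h0 e
    refine ⟨e, by omega, ?_⟩
    have e1 : (range e).filter (fun i => ({2 * i + 1, 2 * i + 2} : Finset ℕ) ⊆ I) =
        (range e).filter (fun i => 2 * i + 1 ∈ I ∧ 2 * i + 2 ∈ I) := by
      apply filter_congr
      intro i _
      simp [insert_subset_iff]
    have e2 : (range e).filter (fun i => Disjoint ({2 * i + 1, 2 * i + 2} : Finset ℕ) I) =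
        (range e).filter (fun i => ¬ 2 * i + 1 ∈ I ∧ ¬ 2 * i + 2 ∈ I) := by
      apply filter_congr
      intro i _
      simp [disjoint_insert_left]
    rw [e1, e2]
    omega
  · right
    obtain ⟨m, hm, ha, hc⟩ := exists_min _ _ h
    obtain ⟨e, he⟩ : ∃ e, m = 2 * e := ⟨m / 2, by omega⟩
    have hmn : m ≠ n + 1 := by
      rintro rfl
      simp only [Nat.sub_self] at ha
      exact h0 ha
    subst he
    have hp := pairs (fun x => n + 1 - x ∈ I) (by simpa using h1) e
    refine ⟨e, by omega, ?_⟩
    have e1 : (range e).filter (fun i => ({n - (2 * i + 1), n - 2 * i} : Finset ℕ) ⊆ I) =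
        (range e).filter (fun i => n + 1 - (2 * i + 1) ∈ I ∧ n + 1 - (2 * i + 2) ∈ I) := by
      apply filter_congr
      intro i _
      have a1 : n + 1 - (2 * i + 1) = n - 2 * i := by omega
      have a2 : n + 1 - (2 * i + 2) = n - (2 * i + 1) := by omega
      rw [a1, a2]
      simp [insert_subset_iff, and_comm]
    have e2 : (range e).filter (fun i => Disjoint ({n - (2 * i + 1), n - 2 * i} : Finset ℕ) I) =
        (range e).filter (fun i => ¬ n + 1 - (2 * i + 1) ∈ I ∧ ¬ n + 1 - (2 * i + 2) ∈ I) := by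
      apply filter_congr
      intro i _
      have a1 : n + 1 - (2 * i + 1) = n - 2 * i := by omega
      have a2 : n + 1 - (2 * i + 2) = n - (2 * i + 1) := by omega
      rw [a1, a2]
      simp [disjoint_insert_left, and_comm]
    rw [e1, e2]
    omega

theorem bad_single (n : ℕ) (I : Finset ℕ) (hI : I ⊆ range (n + 2)) (hbad : ¬ Gd (n + 2) I) :
    (∃ p ≤ n + 1, ((range p).filter (fun i => ({i} : Finset ℕ) ⊆ I)).card =
      ((range p).filter (fun i => Disjoint ({i} : Finset ℕ) I)).card + 1) ∨
    (∃ p ≤ n + 1, ((range p).filter (fun i => ({n + 1 - i} : Finset ℕ) ⊆ I)).card =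
      ((range p).filter (fun i => Disjoint ({n + 1 - i} : Finset ℕ) I)).card + 1) := by
  simp only [singleton_subset_iff, disjoint_singleton_left]
  rcases bad_cases n I hI hbad with h | h
  · obtain ⟨m, hm, ha, hc⟩ := exists_min _ _ h
    by_cases hmn : m = n + 1
    · right
      refine ⟨1, by omega, ?_⟩
      subst hmn
      simp [range_one, filter_singleton, ha]
    · left
      refine ⟨m + 1, by omega, ?_⟩
      have h3 := card_not (fun x => x ∈ I) (m + 1)
      have h4 : ((range (m + 1)).filter (fun i => i ∈ I)).card = cc (fun x => x ∈ I) (m + 1) := rfl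
      rw [h4]
      omega
  · obtain ⟨m, hm, ha, hc⟩ := exists_min _ _ h
    by_cases hmn : m = n + 1
    · left
      refine ⟨1, by omega, ?_⟩
      subst hmn
      simp only [Nat.sub_self] at ha
      simp [range_one, filter_singleton, ha]
    · right
      refine ⟨m + 1, by omega, ?_⟩
      have h3 := card_not (fun x => n + 1 - x ∈ I) (m + 1)
      have h4 : ((range (m + 1)).filter (fun i => n + 1 - i ∈ I)).card =
          cc (fun x => n + 1 - x ∈ I) (m + 1) := rfl
      rw [h4]
      omega



def seqOf (N : ℕ) (I : Finset ℕ) : Fin N → Bool := fun i => decide (i.val ∉ I)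

lemma seq_sum (N : ℕ) (I : Finset ℕ) (k : ℕ) (hk : k ≤ N) :
    (∑ i ∈ Finset.univ.filter (fun i : Fin N => i.val < k),
      (if seqOf N I i then (1 : ℤ) else -1)) = (k : ℤ) - 2 * (I.filter (fun x => x < k)).card := by
  rw [sum_filter]
  have h1 : ∀ i : Fin N, (if i.val < k then (if seqOf N I i then (1 : ℤ) else -1) else 0) =
      (fun x : ℕ => if x < k then (1 - 2 * (if x ∈ I then (1 : ℤ) else 0)) else 0) i.val := by
    intro i
    by_cases h : i.val < k <;> by_cases h2 : i.val ∈ I <;> simp [seqOf, h, h2]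
  rw [sum_congr rfl (fun i _ => h1 i), Fin.sum_univ_eq_sum_range
    (fun x : ℕ => if x < k then (1 - 2 * (if x ∈ I then (1 : ℤ) else 0)) else 0) N,
    ← sum_filter]
  have h2 : (range N).filter (fun x => x < k) = range k := by
    ext x
    simp only [mem_filter, mem_range]
    omega
  rw [h2, sum_sub_distrib, ← mul_sum, sum_const, card_range, pre_eq]
  unfold cc
  rw [card_filter]
  push_cast
  simp

lemma seq_total (N : ℕ) (I : Finset ℕ) (hI : I ⊆ range N) :
    (∑ i : Fin N, (if seqOf N I i then (1 : ℤ) else -1)) = (N : ℤ) - 2 * I.card := by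
  have h := seq_sum N I N le_rfl
  have h1 : Finset.univ.filter (fun i : Fin N => i.val < N) = univ := by
    ext i; simp
  have h2 : I.filter (fun x => x < N) = I := by
    apply filter_true_of_mem
    intro x hx
    exact mem_range.1 (hI hx)
  rw [h1, h2] at h
  exact h

lemma filter_split (N : ℕ) (I : Finset ℕ) (m : ℕ) :
    (I.filter (fun x => x < N - m)).card + (I.filter (fun x => N - m ≤ x)).card = I.card := by
  have h := card_filter_add_card_filter_not (s := I) (fun x => x < N - m)
  simp only [not_lt] at h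
  exact h

open Classical in
theorem good_count (N s : ℕ) :
    (((range N).powersetCard s).filter (fun I => Gd N I)).card = PC N ((N : ℤ) - 2 * (s : ℤ)) := by
  have hset : {c : Fin N → Bool |
    (∀ k : Fin (N + 1),
      0 ≤ (∑ i ∈ Finset.univ.filter (fun i : Fin N => i.val < k.val),
            (if c i then (1 : ℤ) else -1)) ∧
      (∑ i ∈ Finset.univ.filter (fun i : Fin N => i.val < k.val),
            (if c i then (1 : ℤ) else -1)) ≤ (N : ℤ) - 2 * (s : ℤ)) ∧
    (∑ i : Fin N, (if c i then (1 : ℤ) else -1)) = (N : ℤ) - 2 * (s : ℤ)} =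
      seqOf N '' (((range N).powersetCard s).filter (fun I => Gd N I) : Finset (Finset ℕ)) := by
    ext c
    constructor
    · rintro ⟨h1, h2⟩
      let I : Finset ℕ := (range N).filter (fun x => ∀ h : x < N, c ⟨x, h⟩ = false)
      have hI : I ⊆ range N := filter_subset _ _
      have hc : seqOf N I = c := by
        funext i
        unfold seqOf
        by_cases h : c i = false
        · have : i.val ∈ I := mem_filter.2 ⟨mem_range.2 i.2, fun _ => h⟩
          simp [this, h]
        · have : i.val ∉ I := fun hi => h ((mem_filter.1 hi).2 i.2)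
          simp only [Bool.not_eq_false] at h
          simp [this, h]
      rw [← hc] at h1 h2
      have hcard : I.card = s := by
        rw [seq_total N I hI] at h2
        omega
      refine ⟨I, ?_, hc⟩
      rw [mem_coe, mem_filter, mem_powersetCard]
      refine ⟨⟨hI, hcard⟩, ?_⟩
      intro m hm
      constructor
      · have h3 := (h1 ⟨m, by omega⟩).1
        rw [seq_sum N I m hm] at h3
        omega
      · have h3 := (h1 ⟨N - m, by omega⟩).2
        rw [seq_sum N I (N - m) (by omega)] at h3
        have h4 := filter_split N I m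
        omega
    · rintro ⟨I, hI, rfl⟩
      rw [mem_coe, mem_filter, mem_powersetCard] at hI
      obtain ⟨⟨hI, hcard⟩, hG⟩ := hI
      refine ⟨fun k => ?_, ?_⟩
      · have hk : k.val ≤ N := by omega
        rw [seq_sum N I k.val hk]
        have g1 := (hG k.val hk).1
        have g2 := (hG (N - k.val) (by omega)).2
        have h4 := filter_split N I (N - k.val)
        have h5 : N - (N - k.val) = k.val := by omega
        rw [h5] at g2 h4
        constructor
        · omega
        · omega
      · rw [seq_total N I hI, hcard]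
  unfold PC
  rw [hset, Set.InjOn.ncard_image, Set.ncard_coe_finset]
  intro I hI J hJ hIJ
  rw [mem_coe, mem_filter, mem_powersetCard] at hI hJ
  ext x
  constructor
  · intro hx
    have hxN := mem_range.1 (hI.1.1 hx)
    have h := congrFun hIJ ⟨x, hxN⟩
    unfold seqOf at h
    by_contra hxJ
    simp [hx, hxJ] at h
  · intro hx
    have hxN := mem_range.1 (hJ.1.1 hx)
    have h := congrFun hIJ ⟨x, hxN⟩
    unfold seqOf at h
    by_contra hxI
    simp [hx, hxI] at h

end Pool.Agent.Helper213.Bad
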