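import Mathlib

set_option autoImplicit false

namespace Pool.Agent.Helper213.Ub

open Finset

private noncomputable def gco (d i : ℕ) : ℝ := (-1) ^ i / ((d : ℝ) * (Nat.choose (d - 1) i : ℝ))

private lemma gco_abs (d i : ℕ) (hd : 1 ≤ d) (hi : i ≤ d - 1) : |gco d i| ≤ 1 := by
  unfold gco
  have h1 : (1 : ℝ) ≤ d := by exact_mod_cast hd
  have h2 : (1 : ℝ) ≤ (Nat.choose (d - 1) i : ℝ) := by exact_mod_cast Nat.choose_pos hi
  rw [abs_div, abs_pow, abs_neg, abs_one, one_pow]
  rw [abs_of_pos (by positivity)]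
  rw [div_le_one (by positivity)]
  nlinarith

private lemma gco_rel (d x : ℕ) (hd : 1 ≤ d) (hx : x ≤ d - 1) :
    (x : ℝ) * gco d (x - 1) + ((d : ℝ) - x) * gco d x = if x = 0 then 1 else 0 := by
  have h1 : (1 : ℝ) ≤ d := by exact_mod_cast hd
  rcases x with _ | y
  · simp [gco]
    field_simp
  · simp only [Nat.add_sub_cancel, Nat.succ_ne_zero, if_false]
    unfold gco
    have h2 : (1 : ℝ) ≤ (Nat.choose (d - 1) (y + 1) : ℝ) := by exact_mod_cast Nat.choose_pos hx
    have h3 : (1 : ℝ) ≤ (Nat.choose (d - 1) y : ℝ) := by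
      exact_mod_cast Nat.choose_pos (by omega : y ≤ d - 1)
    have h4 := Nat.choose_succ_right_eq (d - 1) y
    have h5 : ((Nat.choose (d - 1) (y + 1) : ℝ)) * ((y : ℝ) + 1)
        = (Nat.choose (d - 1) y : ℝ) * ((d : ℝ) - (y + 1)) := by
      have h6 : ((d - 1 - y : ℕ) : ℝ) = (d : ℝ) - (y + 1) := by
        rw [Nat.cast_sub (by omega), Nat.cast_sub hd]; push_cast; ring
      rw [← h6]
      exact_mod_cast h4
    push_cast
    rw [pow_succ]
    have : ((y : ℝ) + 1) * ((-1) ^ y / ((d : ℝ) * (Nat.choose (d - 1) y : ℝ))) +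
      ((d : ℝ) - (y + 1)) * ((-1) ^ y * -1 / ((d : ℝ) * (Nat.choose (d - 1) (y + 1) : ℝ)))
      = (-1) ^ y / (d : ℝ) * ((((Nat.choose (d - 1) (y + 1) : ℝ)) * ((y : ℝ) + 1)
        - (Nat.choose (d - 1) y : ℝ) * ((d : ℝ) - (y + 1))) /
        ((Nat.choose (d - 1) y : ℝ) * (Nat.choose (d - 1) (y + 1) : ℝ))) := by
      field_simp
      ring
    rw [this, h5]
    simp

theorem ub_key (N s m r : ℕ) (A : ℕ → Finset ℕ)
    (hA : ∀ i < r, A i ⊆ range N ∧ (A i).card = m) (hm : 1 ≤ m)
    (hdisj : ∀ i < r, ∀ j < r, i ≠ j → Disjoint (A i) (A j))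
    (δ : ℝ) (h0 : 0 < δ) (h1 : δ ≤ 1) (c : Finset ℕ → ℂ) (Mx : ℝ)
    (hc : ∀ I ⊆ range N, I.card = s → ‖c I‖ ≤ Mx)
    (hrel : ∀ J ⊆ range N, J.card + m = s →
      ∑ i ∈ (range r).filter (fun i => Disjoint (A i) J), ((δ : ℂ) ^ (2 ^ i)) * c (J ∪ A i) = 0)
    (I : Finset ℕ) (hI : I ⊆ range N) (hIs : I.card = s) (p : ℕ) (hp : p ≤ r)
    (hcount : ((range p).filter (fun i => A i ⊆ I)).card =
      ((range p).filter (fun i => Disjoint (A i) I)).card + 1) :
    ‖c I‖ ≤ ((r * 2 ^ r : ℕ) : ℝ) * δ * Mx := by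
  classical
  set F := (range p).filter (fun i => A i ⊆ I) with hF
  set E := (range p).filter (fun i => Disjoint (A i) I) with hE
  set d := F.card with hd
  have hd1 : 1 ≤ d := by omega
  have hEc : E.card = d - 1 := by omega
  set G := F ∪ E with hG
  have hMx : 0 ≤ Mx := le_trans (norm_nonneg _) (hc I hI hIs)
  have hFp : ∀ i ∈ F, i < p ∧ A i ⊆ I := by
    intro i hi; simpa [hF] using hi
  have hEp : ∀ i ∈ E, i < p ∧ Disjoint (A i) I := by
    intro i hi; simpa [hE] using hi
  have hGp : ∀ i ∈ G, i < p := by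
    intro i hi
    rcases mem_union.1 hi with h | h
    · exact (hFp i h).1
    · exact (hEp i h).1
  have hGr : ∀ i ∈ G, i < r := fun i hi => lt_of_lt_of_le (hGp i hi) hp
  have hne : ∀ i < r, (A i).Nonempty := by
    intro i hi
    rw [← Finset.card_pos, (hA i hi).2]; omega
  have hFE : Disjoint F E := by
    rw [Finset.disjoint_left]
    intro i hiF hiE
    obtain ⟨x, hx⟩ := hne i (lt_of_lt_of_le (hFp i hiF).1 hp)
    exact Finset.disjoint_left.1 (hEp i hiE).2 hx ((hFp i hiF).2 hx)
  set B0 := I \ F.biUnion A with hB0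
  have hbU : ∀ L : Finset ℕ, L ⊆ G → (L.biUnion A).card = L.card * m := by
    intro L hL
    rw [Finset.card_biUnion]
    · rw [Finset.sum_congr rfl (fun i hi => (hA i (hGr i (hL hi))).2)]
      simp
    · intro i hi j hj hij
      exact hdisj i (hGr i (hL hi)) j (hGr j (hL hj)) hij
  have hB0A : ∀ i ∈ G, Disjoint B0 (A i) := by
    intro i hi
    rw [Finset.disjoint_left]
    intro x hx hxi
    rw [hB0, mem_sdiff] at hx
    rcases mem_union.1 hi with h | h
    · exact hx.2 (mem_biUnion.2 ⟨i, h, hxi⟩)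
    · exact Finset.disjoint_left.1 (hEp i h).2 hxi hx.1
  have hB0c : B0.card + d * m = s := by
    have h2 : F.biUnion A ⊆ I := by
      intro x hx
      obtain ⟨i, hi, hxi⟩ := mem_biUnion.1 hx
      exact (hFp i hi).2 hxi
    have h3 := Finset.card_sdiff_add_card_eq_card h2
    rw [hbU F subset_union_left] at h3
    rw [hB0, ← hIs, ← h3]
  set J : Finset ℕ → Finset ℕ := fun L => B0 ∪ L.biUnion A with hJ
  have hJc : ∀ L ⊆ G, (J L).card + d * m = s + L.card * m := by
    intro L hL
    have : (J L).card = B0.card + L.card * m := by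
      simp only [hJ]
      rw [Finset.card_union_of_disjoint, hbU L hL]
      rw [Finset.disjoint_biUnion_right]
      intro i hi
      exact hB0A i (hL hi)
    rw [this, ← hB0c]; ring
  have hJN : ∀ L ⊆ G, J L ⊆ range N := by
    intro L hL x hx
    simp only [hJ, mem_union, mem_biUnion] at hx
    rcases hx with h | ⟨i, hi, hxi⟩
    · exact hI (mem_sdiff.1 h).1
    · exact (hA i (hGr i (hL hi))).1 hxi
  have hJF : J F = I := by
    simp only [hJ, hB0]
    apply Finset.sdiff_union_of_subset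
    intro x hx
    obtain ⟨i, hi, hxi⟩ := mem_biUnion.1 hx
    exact (hFp i hi).2 hxi
  have hJins : ∀ K, ∀ i, J K ∪ A i = J (insert i K) := by
    intro K i
    simp only [hJ, Finset.biUnion_insert]
    rw [Finset.union_assoc, Finset.union_comm (K.biUnion A) (A i)]
  -- weights
  set e : ℕ → ℝ := fun i => δ ^ (2 ^ i) with he
  have he0 : ∀ i, 0 < e i := fun i => pow_pos h0 _
  have he1 : ∀ i, e i ≤ 1 := fun i => pow_le_one₀ h0.le h1
  -- relation
  set R : Finset ℕ → ℂ := fun K =>
    ∑ i ∈ (range r).filter (fun i => p ≤ i ∧ Disjoint (A i) (J K)), ((e i : ℝ) : ℂ) * c (J K ∪ A i)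
    with hR
  have hrelK : ∀ K ∈ powersetCard (d - 1) G,
      ∑ i ∈ G \ K, ((e i : ℝ) : ℂ) * c (J (insert i K)) = - R K := by
    intro K hK
    rw [mem_powersetCard] at hK
    obtain ⟨hKG, hKc⟩ := hK
    have hJs : (J K).card + m = s := by
      have h2 := hJc K hKG
      rw [hKc] at h2
      have h3 : d * m = (d - 1) * m + m := by
        obtain ⟨q, hq⟩ : ∃ q, d = q + 1 := ⟨d - 1, by omega⟩
        rw [hq]; simp; ring
      omega
    have h2 := hrel (J K) (hJN K hKG) hJs
    have h3 : (range r).filter (fun i => Disjoint (A i) (J K)) =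
        (G \ K) ∪ (range r).filter (fun i => p ≤ i ∧ Disjoint (A i) (J K)) := by
      ext i
      simp only [mem_filter, mem_union, mem_sdiff, mem_range]
      constructor
      · rintro ⟨hir, hdi⟩
        by_cases hpi : p ≤ i
        · exact Or.inr ⟨hir, hpi, hdi⟩
        · left
          push Not at hpi
          refine ⟨?_, ?_⟩
          · by_contra hiG
            have hnF : ¬ A i ⊆ I := by
              intro h
              exact hiG (mem_union_left _ (by simp [hF, hpi, h]))
            have hnE : ¬ Disjoint (A i) I := by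
              intro h
              exact hiG (mem_union_right _ (by simp [hE, hpi, h]))
            rw [Finset.not_disjoint_iff] at hnE
            obtain ⟨x, hxi, hxI⟩ := hnE
            have hxB : x ∈ B0 := by
              rw [hB0, mem_sdiff]
              refine ⟨hxI, ?_⟩
              intro hx
              obtain ⟨j, hj, hxj⟩ := mem_biUnion.1 hx
              have hij : i ≠ j := by
                rintro rfl
                exact hnF (hFp i hj).2
              exact Finset.disjoint_left.1 (hdisj i hir j (hGr j (mem_union_left _ hj)) hij) hxi hxj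
            exact Finset.disjoint_left.1 hdi hxi (mem_union_left _ hxB)
          · intro hiK
            obtain ⟨x, hx⟩ := hne i hir
            exact Finset.disjoint_left.1 hdi hx (mem_union_right _ (mem_biUnion.2 ⟨i, hiK, hx⟩))
      · rintro (⟨hiG, hiK⟩ | ⟨hir, hpi, hdi⟩)
        · refine ⟨hGr i hiG, ?_⟩
          rw [Finset.disjoint_left]
          intro x hxi hx
          simp only [hJ, mem_union, mem_biUnion] at hx
          rcases hx with h | ⟨j, hj, hxj⟩
          · exact Finset.disjoint_left.1 (hB0A i hiG) h hxi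
          · have hij : i ≠ j := by
              rintro rfl
              exact hiK hj
            exact Finset.disjoint_left.1 (hdisj i (hGr i hiG) j (hGr j (hKG hj)) hij) hxi hxj
        · exact ⟨hir, hdi⟩
    have h4 : Disjoint (G \ K) ((range r).filter (fun i => p ≤ i ∧ Disjoint (A i) (J K))) := by
      rw [Finset.disjoint_left]
      intro i hi hi2
      have := hGp i (mem_sdiff.1 hi).1
      have := (mem_filter.1 hi2).2.1
      omega
    rw [h3, Finset.sum_union h4] at h2
    rw [eq_neg_iff_add_eq_zero, hR]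
    simp only
    rw [← h2]
    congr 1
    · apply Finset.sum_congr rfl
      intro i _
      rw [← hJins K i]
      simp [he]
    · apply Finset.sum_congr rfl
      intro i _
      simp [he]
  -- inner sums
  have hinner : ∀ L ∈ powersetCard d G,
      ∑ i ∈ L, gco d (((L.erase i) \ F).card) = if L = F then 1 else 0 := by
    intro L hL
    rw [mem_powersetCard] at hL
    obtain ⟨hLG, hLc⟩ := hL
    have hx1 : (L \ F).card ≤ d - 1 := by
      rw [← hEc]
      apply Finset.card_le_card
      intro i hi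
      rw [mem_sdiff] at hi
      rcases mem_union.1 (hLG hi.1) with h | h
      · exact absurd h hi.2
      · exact h
    rw [← Finset.sum_sdiff (Finset.inter_subset_left : L ∩ F ⊆ L)]
    have hs1 : L \ (L ∩ F) = L \ F := by
      ext i; simp only [mem_sdiff, mem_inter]; tauto
    rw [hs1]
    have e1 : ∑ i ∈ L \ F, gco d (((L.erase i) \ F).card)
        = ((L \ F).card : ℝ) * gco d ((L \ F).card - 1) := by
      rw [Finset.sum_congr rfl (g := fun _ => gco d ((L \ F).card - 1))]
      · simp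
      · intro i hi
        congr 1
        have : (L.erase i) \ F = (L \ F).erase i := by
          ext j; simp only [mem_sdiff, mem_erase]; tauto
        rw [this, Finset.card_erase_of_mem hi]
    have e2 : ∑ i ∈ L ∩ F, gco d (((L.erase i) \ F).card)
        = ((L ∩ F).card : ℝ) * gco d ((L \ F).card) := by
      rw [Finset.sum_congr rfl (g := fun _ => gco d ((L \ F).card))]
      · simp
      · intro i hi
        congr 2
        ext j
        simp only [mem_sdiff, mem_erase]
        rw [mem_inter] at hi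
        constructor
        · rintro ⟨⟨_, h⟩, h'⟩; exact ⟨h, h'⟩
        · rintro ⟨h, h'⟩
          refine ⟨⟨?_, h⟩, h'⟩
          rintro rfl
          exact h' hi.2
    have e3 : ((L ∩ F).card : ℝ) = (d : ℝ) - ((L \ F).card : ℝ) := by
      have := Finset.card_inter_add_card_sdiff L F
      rw [hLc] at this
      rw [← this]; push_cast; ring
    rw [e1, e2, e3, gco_rel d _ hd1 hx1]
    by_cases hLF : L = F
    · rw [if_pos hLF, if_pos]
      rw [hLF]; simp
    · rw [if_neg hLF, if_neg]
      intro h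
      apply hLF
      rw [Finset.card_eq_zero, Finset.sdiff_eq_empty_iff_subset] at h
      exact Finset.eq_of_subset_of_card_le h (by rw [hLc])
  -- double sum
  have hds : ∑ K ∈ powersetCard (d - 1) G,
      ((gco d ((K \ F).card) * ∏ k ∈ K, e k : ℝ) : ℂ) *
        ∑ i ∈ G \ K, ((e i : ℝ) : ℂ) * c (J (insert i K))
      = ((∏ k ∈ F, e k : ℝ) : ℂ) * c I := by
    have t1 : ∑ K ∈ powersetCard (d - 1) G,
      ((gco d ((K \ F).card) * ∏ k ∈ K, e k : ℝ) : ℂ) *
        ∑ i ∈ G \ K, ((e i : ℝ) : ℂ) * c (J (insert i K))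
      = ∑ x ∈ (powersetCard (d - 1) G).sigma (fun K => G \ K),
        ((gco d ((x.1 \ F).card) * ∏ k ∈ x.1, e k : ℝ) : ℂ) *
          (((e x.2 : ℝ) : ℂ) * c (J (insert x.2 x.1))) := by
      rw [Finset.sum_sigma]
      apply Finset.sum_congr rfl
      intro K _
      rw [Finset.mul_sum]
    have t2 : ∑ L ∈ powersetCard d G, (((∑ i ∈ L, gco d (((L.erase i) \ F).card)) *
        ∏ k ∈ L, e k : ℝ) : ℂ) * c (J L)
      = ∑ x ∈ (powersetCard d G).sigma (fun L => L),
        ((gco d (((x.1.erase x.2) \ F).card) * ∏ k ∈ x.1, e k : ℝ) : ℂ) * c (J x.1) := by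
      rw [Finset.sum_sigma]
      apply Finset.sum_congr rfl
      intro L _
      rw [Finset.sum_mul]
      push_cast
      rw [Finset.sum_mul]
    have t3 : ∑ L ∈ powersetCard d G, (((∑ i ∈ L, gco d (((L.erase i) \ F).card)) *
        ∏ k ∈ L, e k : ℝ) : ℂ) * c (J L) = ((∏ k ∈ F, e k : ℝ) : ℂ) * c I := by
      rw [Finset.sum_eq_single F]
      · rw [hinner F (by rw [mem_powersetCard]; exact ⟨subset_union_left, rfl⟩), if_pos rfl,
          one_mul, hJF]
      · intro L hL hLF
        rw [hinner L hL, if_neg hLF]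
        simp
      · intro h
        exact absurd (by rw [mem_powersetCard]; exact ⟨subset_union_left, rfl⟩) h
    rw [t1, ← t3, t2]
    refine Finset.sum_bij' (fun x _ => ⟨insert x.2 x.1, x.2⟩) (fun x _ => ⟨x.1.erase x.2, x.2⟩)
      ?_ ?_ ?_ ?_ ?_
    · rintro ⟨K, i⟩ hx
      simp only [mem_sigma, mem_powersetCard, mem_sdiff] at hx ⊢
      obtain ⟨⟨hKG, hKc⟩, hiG, hiK⟩ := hx
      refine ⟨⟨?_, ?_⟩, mem_insert_self _ _⟩
      · intro j hj
        rcases mem_insert.1 hj with h | h
        · rw [h]; exact hiG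
        · exact hKG h
      · rw [Finset.card_insert_of_notMem hiK, hKc]; omega
    · rintro ⟨L, i⟩ hx
      simp only [mem_sigma, mem_powersetCard, mem_sdiff] at hx ⊢
      obtain ⟨⟨hLG, hLc⟩, hiL⟩ := hx
      refine ⟨⟨?_, ?_⟩, hLG hiL, ?_⟩
      · exact (Finset.erase_subset _ _).trans hLG
      · rw [Finset.card_erase_of_mem hiL, hLc]
      · exact Finset.notMem_erase _ _
    · rintro ⟨K, i⟩ hx
      simp only [mem_sigma, mem_powersetCard, mem_sdiff] at hx
      simp only [Finset.erase_insert hx.2.2]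
    · rintro ⟨L, i⟩ hx
      simp only [mem_sigma, mem_powersetCard, mem_sdiff] at hx
      simp only [Finset.insert_erase hx.2]
    · rintro ⟨K, i⟩ hx
      simp only [mem_sigma, mem_powersetCard, mem_sdiff] at hx
      simp only [Finset.erase_insert hx.2.2, Finset.prod_insert hx.2.2]
      push_cast
      ring
  -- now the bound
  have hEF : 0 < ∏ k ∈ F, e k := Finset.prod_pos (fun k _ => he0 k)
  have hkey : ∀ i, p ≤ i → e i ≤ δ * ∏ k ∈ F, e k := by
    intro i hi
    have h2 : ∏ k ∈ F, e k = δ ^ (∑ k ∈ F, 2 ^ k) := by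
      simp only [he]
      rw [Finset.prod_pow_eq_pow_sum]
    rw [h2, ← pow_succ']
    apply pow_le_pow_of_le_one h0.le h1
    have h3 : ∑ k ∈ F, 2 ^ k ≤ ∑ k ∈ range p, 2 ^ k := by
      apply Finset.sum_le_sum_of_subset
      exact Finset.filter_subset _ _
    have h4 : ∑ k ∈ range p, 2 ^ k = 2 ^ p - 1 := by
      have := Nat.geomSum_eq (le_refl 2) p
      simpa using this
    have h5 : 2 ^ p ≤ 2 ^ i := Nat.pow_le_pow_right (by norm_num) hi
    have h6 : 0 < 2 ^ p := by positivity
    omega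
  have hRb : ∀ K ∈ powersetCard (d - 1) G, ‖R K‖ ≤ (r : ℝ) * (δ * (∏ k ∈ F, e k) * Mx) := by
    intro K hK
    have hK' := hK
    rw [mem_powersetCard] at hK
    obtain ⟨hKG, hKc⟩ := hK
    have hJs : (J K).card + m = s := by
      have h2 := hJc K hKG
      rw [hKc] at h2
      have h3 : d * m = (d - 1) * m + m := by
        obtain ⟨q, hq⟩ : ∃ q, d = q + 1 := ⟨d - 1, by omega⟩
        rw [hq]; simp; ring
      omega
    calc ‖R K‖ ≤ ∑ i ∈ (range r).filter (fun i => p ≤ i ∧ Disjoint (A i) (J K)),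
          ‖((e i : ℝ) : ℂ) * c (J K ∪ A i)‖ := norm_sum_le _ _
      _ ≤ ∑ i ∈ (range r).filter (fun i => p ≤ i ∧ Disjoint (A i) (J K)),
          (δ * (∏ k ∈ F, e k) * Mx) := by
        apply Finset.sum_le_sum
        intro i hi
        simp only [mem_filter, mem_range] at hi
        obtain ⟨hir, hpi, hdi⟩ := hi
        rw [norm_mul, Complex.norm_real, Real.norm_of_nonneg (he0 i).le]
        apply mul_le_mul (hkey i hpi) _ (norm_nonneg _) (by positivity)
        apply hc
        · exact Finset.union_subset (hJN K hKG) (hA i hir).1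
        · rw [Finset.card_union_of_disjoint hdi.symm, (hA i hir).2, hJs]
      _ = (((range r).filter (fun i => p ≤ i ∧ Disjoint (A i) (J K))).card : ℝ) *
          (δ * (∏ k ∈ F, e k) * Mx) := by
        rw [Finset.sum_const, nsmul_eq_mul]
      _ ≤ (r : ℝ) * (δ * (∏ k ∈ F, e k) * Mx) := by
        apply mul_le_mul_of_nonneg_right _ (by positivity)
        have : ((range r).filter (fun i => p ≤ i ∧ Disjoint (A i) (J K))).card ≤ r := by
          calc _ ≤ (range r).card := Finset.card_filter_le _ _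
            _ = r := Finset.card_range r
        exact_mod_cast this
  have hfin : (∏ k ∈ F, e k) * ‖c I‖ ≤ (2 ^ r : ℝ) * ((r : ℝ) * (δ * (∏ k ∈ F, e k) * Mx)) := by
    have h2 : (∏ k ∈ F, e k) * ‖c I‖ = ‖((∏ k ∈ F, e k : ℝ) : ℂ) * c I‖ := by
      rw [norm_mul, Complex.norm_real, Real.norm_of_nonneg hEF.le]
    rw [h2, ← hds]
    calc ‖∑ K ∈ powersetCard (d - 1) G,
      ((gco d ((K \ F).card) * ∏ k ∈ K, e k : ℝ) : ℂ) *
        ∑ i ∈ G \ K, ((e i : ℝ) : ℂ) * c (J (insert i K))‖
        ≤ ∑ K ∈ powersetCard (d - 1) G, ‖((gco d ((K \ F).card) * ∏ k ∈ K, e k : ℝ) : ℂ) *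
        ∑ i ∈ G \ K, ((e i : ℝ) : ℂ) * c (J (insert i K))‖ := norm_sum_le _ _
      _ ≤ ∑ K ∈ powersetCard (d - 1) G, (r : ℝ) * (δ * (∏ k ∈ F, e k) * Mx) := by
        apply Finset.sum_le_sum
        intro K hK
        rw [hrelK K hK, norm_mul, norm_neg, Complex.norm_real, Real.norm_eq_abs, abs_mul]
        have hx : (K \ F).card ≤ d - 1 := by
          rw [← (mem_powersetCard.1 hK).2]
          exact Finset.card_le_card Finset.sdiff_subset
        have a1 : |gco d ((K \ F).card)| ≤ 1 := gco_abs d _ hd1 hx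
        have a2 : |∏ k ∈ K, e k| ≤ 1 := by
          rw [abs_of_pos (Finset.prod_pos (fun k _ => he0 k))]
          exact Finset.prod_le_one (fun k _ => (he0 k).le) (fun k _ => he1 k)
        have a3 : |gco d ((K \ F).card)| * |∏ k ∈ K, e k| ≤ 1 :=
          mul_le_one₀ a1 (abs_nonneg _) a2
        calc _ ≤ 1 * ‖R K‖ := mul_le_mul_of_nonneg_right a3 (norm_nonneg _)
          _ ≤ _ := by rw [one_mul]; exact hRb K hK
      _ = ((powersetCard (d - 1) G).card : ℝ) * ((r : ℝ) * (δ * (∏ k ∈ F, e k) * Mx)) := by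
        rw [Finset.sum_const, nsmul_eq_mul]
      _ ≤ (2 ^ r : ℝ) * ((r : ℝ) * (δ * (∏ k ∈ F, e k) * Mx)) := by
        apply mul_le_mul_of_nonneg_right _ (by positivity)
        have b1 : (powersetCard (d - 1) G).card ≤ 2 ^ r := by
          calc (powersetCard (d - 1) G).card ≤ G.powerset.card :=
                Finset.card_le_card (fun K hK => by
                  rw [mem_powerset]; exact (mem_powersetCard.1 hK).1)
            _ = 2 ^ G.card := Finset.card_powerset G
            _ ≤ 2 ^ r := by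
              apply Nat.pow_le_pow_right (by norm_num)
              calc G.card ≤ (range r).card := Finset.card_le_card (fun i hi => by
                    rw [mem_range]; exact hGr i hi)
                _ = r := Finset.card_range r
        exact_mod_cast b1
  have hfin2 : (∏ k ∈ F, e k) * ‖c I‖ ≤ (∏ k ∈ F, e k) * (((r * 2 ^ r : ℕ) : ℝ) * δ * Mx) := by
    refine hfin.trans (le_of_eq ?_)
    push_cast
    ring
  exact le_of_mul_le_mul_left hfin2 hEF

theorem ub_core (N s m r : ℕ) (A B : ℕ → Finset ℕ) (hm : 1 ≤ m)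
    (hA : ∀ i < r, A i ⊆ range N ∧ (A i).card = m)
    (hAd : ∀ i < r, ∀ j < r, i ≠ j → Disjoint (A i) (A j))
    (hB : ∀ i < r, B i ⊆ range N ∧ (B i).card = m)
    (hBd : ∀ i < r, ∀ j < r, i ≠ j → Disjoint (B i) (B j))
    (δ : ℝ) (h0 : 0 < δ) (h1 : δ ≤ 1) (hδ : ((r * 2 ^ r : ℕ) : ℝ) * δ < 1) (c : Finset ℕ → ℂ)
    (hrelA : ∀ J ⊆ range N, J.card + m = s →
      ∑ i ∈ (range r).filter (fun i => Disjoint (A i) J), ((δ : ℂ) ^ (2 ^ i)) * c (J ∪ A i) = 0)
    (hrelB : ∀ J ⊆ range N, J.card + m = s →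
      ∑ i ∈ (range r).filter (fun i => Disjoint (B i) J), ((δ : ℂ) ^ (2 ^ i)) * c (J ∪ B i) = 0)
    (Gd : Finset ℕ → Prop)
    (hgood : ∀ I ⊆ range N, I.card = s → Gd I → c I = 0)
    (hbad : ∀ I ⊆ range N, I.card = s → ¬ Gd I → c I = 0 ∨
      (∃ p ≤ r, ((range p).filter (fun i => A i ⊆ I)).card =
        ((range p).filter (fun i => Disjoint (A i) I)).card + 1) ∨
      (∃ p ≤ r, ((range p).filter (fun i => B i ⊆ I)).card =
        ((range p).filter (fun i => Disjoint (B i) I)).card + 1)) :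
    ∀ I ⊆ range N, I.card = s → c I = 0 := by
  classical
  intro I hI hIs
  set S := powersetCard s (range N) with hS
  have hIS : I ∈ S := by rw [hS, mem_powersetCard]; exact ⟨hI, hIs⟩
  obtain ⟨I0, hI0, hmax⟩ := Finset.exists_max_image S (fun I => ‖c I‖) ⟨I, hIS⟩
  have hc : ∀ I ⊆ range N, I.card = s → ‖c I‖ ≤ ‖c I0‖ := by
    intro I hI hIs
    exact hmax I (by rw [hS, mem_powersetCard]; exact ⟨hI, hIs⟩)
  rw [hS, mem_powersetCard] at hI0
  have hcz : ‖c I0‖ = 0 := by
    by_cases hg : Gd I0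
    · rw [hgood I0 hI0.1 hI0.2 hg, norm_zero]
    · have hcon : ‖c I0‖ ≤ ((r * 2 ^ r : ℕ) : ℝ) * δ * ‖c I0‖ → ‖c I0‖ = 0 := by
        intro h
        have h2 : 0 ≤ ‖c I0‖ := norm_nonneg _
        by_contra h3
        have h4 : 0 < ‖c I0‖ := lt_of_le_of_ne h2 (Ne.symm h3)
        have h5 := mul_lt_mul_of_pos_right hδ h4
        rw [one_mul] at h5
        exact absurd (lt_of_le_of_lt h h5) (lt_irrefl _)
      rcases hbad I0 hI0.1 hI0.2 hg with h | ⟨p, hp, h⟩ | ⟨p, hp, h⟩
      · rw [h, norm_zero]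
      · exact hcon (ub_key N s m r A hA hm hAd δ h0 h1 c _ hc hrelA I0 hI0.1 hI0.2 p hp h)
      · exact hcon (ub_key N s m r B hB hm hBd δ h0 h1 c _ hc hrelB I0 hI0.1 hI0.2 p hp h)
  have h := hc I hI hIs
  rw [hcz] at h
  exact norm_le_zero_iff.1 h

end Pool.Agent.Helper213.Ub
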