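import Mathlib
import Pool.Agent.Helper213.Ub
import Pool.Agent.Helper213.Bad

set_option autoImplicit false

namespace Pool.Agent.Helper213.Core

open Finset Pool.Agent.Helper213.Count Pool.Agent.Helper213.Bad Ub

open Classical in
/-- the good sets -/
noncomputable def GG (n s : ℕ) : Finset (Finset ℕ) :=
  ((range (n + 2)).powersetCard s).filter (fun I => Gd (n + 2) I)

theorem mem_GG {n s : ℕ} {I : Finset ℕ} :
    I ∈ GG n s ↔ (I ⊆ range (n + 2) ∧ I.card = s) ∧ Gd (n + 2) I := by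
  classical
  unfold GG
  rw [mem_filter, mem_powersetCard]

theorem card_GG (n s : ℕ) : (GG n s).card = PC (n + 2) ((n : ℤ) + 2 - 2 * (s : ℤ)) := by
  unfold GG
  rw [good_count]
  push_cast
  rfl

theorem exists_delta (r : ℕ) : ∃ δ : ℝ, 0 < δ ∧ δ ≤ 1 ∧ ((r * 2 ^ r : ℕ) : ℝ) * δ < 1 := by
  have h : (0 : ℝ) < ((r * 2 ^ r : ℕ) : ℝ) + 1 := by positivity
  refine ⟨1 / (((r * 2 ^ r : ℕ) : ℝ) + 1), by positivity, ?_, ?_⟩
  · rw [div_le_one h]
    have : (0 : ℝ) ≤ ((r * 2 ^ r : ℕ) : ℝ) := by positivity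
    linarith
  · rw [mul_one_div, div_lt_one h]
    linarith

theorem core_E (n s : ℕ) : ∃ δ : ℝ, 0 < δ ∧ ∀ c : Finset ℕ → ℂ,
      (∀ J ⊆ range (n + 2), J.card + 2 = s →
        ∑ i ∈ (range (n / 2)).filter (fun i => Disjoint ({2 * i + 1, 2 * i + 2} : Finset ℕ) J),
          ((δ : ℂ) ^ (2 ^ i)) * c (J ∪ {2 * i + 1, 2 * i + 2}) = 0) →
      (∀ J ⊆ range (n + 2), J.card + 2 = s →
        ∑ i ∈ (range (n / 2)).filter (fun i => Disjoint ({n - (2 * i + 1), n - 2 * i} : Finset ℕ) J),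
          ((δ : ℂ) ^ (2 ^ i)) * c (J ∪ {n - (2 * i + 1), n - 2 * i}) = 0) →
      (∀ I ⊆ range (n + 2), (0 ∈ I ∨ n + 1 ∈ I) → c I = 0) →
      (∀ I ∈ GG n s, c I = 0) → ∀ I ⊆ range (n + 2), I.card = s → c I = 0 := by
  obtain ⟨δ, h0, h1, h2⟩ := exists_delta (n / 2)
  refine ⟨δ, h0, ?_⟩
  intro c hA hB hend hgood
  refine ub_core (n + 2) s 2 (n / 2) (fun i => {2 * i + 1, 2 * i + 2})
    (fun i => {n - (2 * i + 1), n - 2 * i}) (by norm_num) ?_ ?_ ?_ ?_ δ h0 h1 h2 c hA hB
    (fun I => Gd (n + 2) I) ?_ ?_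
  · intro i hi
    refine ⟨?_, card_pair (by omega)⟩
    intro x hx
    simp only [mem_insert, mem_singleton] at hx
    rw [mem_range]; omega
  · intro i hi j hj hij
    rw [Finset.disjoint_left]
    intro x hx hx'
    simp only [mem_insert, mem_singleton] at hx hx'
    omega
  · intro i hi
    refine ⟨?_, card_pair (by omega)⟩
    intro x hx
    simp only [mem_insert, mem_singleton] at hx
    rw [mem_range]; omega
  · intro i hi j hj hij
    rw [Finset.disjoint_left]
    intro x hx hx'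
    simp only [mem_insert, mem_singleton] at hx hx'
    omega
  · intro I hI hs hg
    exact hgood I (mem_GG.2 ⟨⟨hI, hs⟩, hg⟩)
  · intro I hI hs hg
    by_cases he : 0 ∈ I ∨ n + 1 ∈ I
    · exact Or.inl (hend I hI he)
    · right
      push Not at he
      exact bad_pairs n I hI he.1 he.2 hg

theorem core_S (n s : ℕ) : ∃ δ : ℝ, 0 < δ ∧ ∀ c : Finset ℕ → ℂ,
      (∀ J ⊆ range (n + 2), J.card + 1 = s →
        ∑ i ∈ (range (n + 1)).filter (fun i => i ∉ J), ((δ : ℂ) ^ (2 ^ i)) * c (insert i J) = 0) →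
      (∀ J ⊆ range (n + 2), J.card + 1 = s →
        ∑ i ∈ (range (n + 1)).filter (fun i => n + 1 - i ∉ J),
          ((δ : ℂ) ^ (2 ^ i)) * c (insert (n + 1 - i) J) = 0) →
      (∀ I ∈ GG n s, c I = 0) → ∀ I ⊆ range (n + 2), I.card = s → c I = 0 := by
  obtain ⟨δ, h0, h1, h2⟩ := exists_delta (n + 1)
  refine ⟨δ, h0, ?_⟩
  intro c hA hB hgood
  refine ub_core (n + 2) s 1 (n + 1) (fun i => {i}) (fun i => {n + 1 - i}) le_rfl
    ?_ ?_ ?_ ?_ δ h0 h1 h2 c ?_ ?_ (fun I => Gd (n + 2) I) ?_ ?_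
  · intro i hi
    refine ⟨?_, card_singleton _⟩
    rw [singleton_subset_iff, mem_range]; omega
  · intro i hi j hj hij
    rw [Finset.disjoint_singleton]; exact hij
  · intro i hi
    refine ⟨?_, card_singleton _⟩
    rw [singleton_subset_iff, mem_range]; omega
  · intro i hi j hj hij
    rw [Finset.disjoint_singleton]; omega
  · intro J hJ hs
    rw [← hA J hJ hs]
    refine Finset.sum_congr ?_ ?_
    · refine Finset.filter_congr (fun i _ => ?_)
      rw [Finset.disjoint_singleton_left]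
    · intro i _
      rw [Finset.union_comm, Finset.singleton_union]
  · intro J hJ hs
    rw [← hB J hJ hs]
    refine Finset.sum_congr ?_ ?_
    · refine Finset.filter_congr (fun i _ => ?_)
      rw [Finset.disjoint_singleton_left]
    · intro i _
      rw [Finset.union_comm, Finset.singleton_union]
  · intro I hI hs hg
    exact hgood I (mem_GG.2 ⟨⟨hI, hs⟩, hg⟩)
  · intro I hI hs hg
    exact Or.inr (bad_single n I hI hg)

end Pool.Agent.Helper213.Core
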