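import Mathlib
import Pool.Agent.Helper213.Walk

set_option autoImplicit false

namespace Pool.Agent.Helper213.Fock

open Finset Walk

/-- An abstract fermionic Fock algebra. -/
structure FD (A : Type) [Ring A] [Algebra ℂ A] where
  X : ℕ → A
  Y : ℕ → A
  dX : ℕ → (A →ₗ[ℂ] A)
  dY : ℕ → (A →ₗ[ℂ] A)
  eps : A →ₗ[ℂ] ℂ
  Xsq : ∀ i, X i * X i = 0
  Ysq : ∀ i, Y i * Y i = 0
  XX : ∀ i j, X i * X j = -(X j * X i)
  XY : ∀ i j, X i * Y j = -(Y j * X i)
  YY : ∀ i j, Y i * Y j = -(Y j * Y i)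
  dXX : ∀ i j a, dX i (X j * a) = (if i = j then a else 0) - X j * dX i a
  dXY : ∀ i j a, dX i (Y j * a) = - (Y j * dX i a)
  dYX : ∀ i j a, dY i (X j * a) = - (X j * dY i a)
  dYY : ∀ i j a, dY i (Y j * a) = (if i = j then a else 0) - Y j * dY i a
  dXdX : ∀ i j a, dX i (dX j a) = - dX j (dX i a)
  dXdY : ∀ i j a, dX i (dY j a) = - dY j (dX i a)
  dYdY : ∀ i j a, dY i (dY j a) = - dY j (dY i a)
  dX_one : ∀ i, dX i 1 = 0
  dY_one : ∀ i, dY i 1 = 0
  eps_one : eps 1 = 1
  eps_X : ∀ i a, eps (X i * a) = 0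

variable {A : Type} [Ring A] [Algebra ℂ A] (F : FD A)

/-- combination of the `X` vectors -/
noncomputable def vX (n : ℕ) (c : ℕ → ℂ) : A := ∑ j ∈ range n, c j • F.X j
/-- combination of the `Y` vectors -/
noncomputable def vY (n : ℕ) (c : ℕ → ℂ) : A := ∑ j ∈ range n, c j • F.Y j

/-- the X part of the element of a walk -/
noncomputable def XP (n : ℕ) (C : ℕ → ℕ → ℕ → ℂ) : List St → A
  | [] => 1
  | St.u :: s => vX F n (C (ht s) (np s (ht s))) * XP n C s
  | St.d :: s => XP n C s
  | St.q :: s => F.X s.length * XP n C s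
  | St.p :: s => XP n C s

/-- the Y part of the element of a walk -/
noncomputable def QP (n : ℕ) (C : ℕ → ℕ → ℕ → ℂ) : List St → A
  | [] => 1
  | St.u :: s => QP n C s
  | St.d :: s => vY F n (C (ht s - 1) (nm s (ht s - 1))) * QP n C s
  | St.q :: s => F.Y s.length * QP n C s
  | St.p :: s => QP n C s

/-- number of x slots -/
def nx : List St → ℕ
  | [] => 0
  | St.u :: s => nx s + 1
  | St.d :: s => nx s
  | St.q :: s => nx s + 1
  | St.p :: s => nx s

/-- the row functionals -/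
noncomputable def Phi : List St → (A →ₗ[ℂ] ℂ)
  | [] => F.eps
  | St.u :: s => (Phi s) ∘ₗ F.dX s.length
  | St.d :: s => (Phi s) ∘ₗ F.dX s.length ∘ₗ LinearMap.mulLeft ℂ (F.X s.length) ∘ₗ F.dY s.length
  | St.q :: s => (Phi s) ∘ₗ F.dX s.length ∘ₗ F.dY s.length
  | St.p :: s => (Phi s) ∘ₗ F.dX s.length ∘ₗ LinearMap.mulLeft ℂ (F.X s.length)

theorem Phi_X : ∀ (s : List St) (k : ℕ), s.length ≤ k → ∀ a, Phi F s (F.X k * a) = 0
  | [], k, _, a => F.eps_X k a
  | St.u :: s, k, hk, a => by
    simp only [List.length_cons] at hk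
    have ih := Phi_X s k (by omega)
    simp only [Phi, LinearMap.comp_apply]
    rw [F.dXX, if_neg (by omega), zero_sub, map_neg, ih, neg_zero]
  | St.d :: s, k, hk, a => by
    simp only [List.length_cons] at hk
    have ih := Phi_X s k (by omega)
    simp only [Phi, LinearMap.comp_apply, LinearMap.mulLeft_apply]
    rw [F.dYX, mul_neg, ← mul_assoc, F.XX, neg_mul, neg_neg, mul_assoc, F.dXX,
      if_neg (by omega), zero_sub, map_neg, ih, neg_zero]
  | St.q :: s, k, hk, a => by
    simp only [List.length_cons] at hk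
    have ih := Phi_X s k (by omega)
    simp only [Phi, LinearMap.comp_apply]
    rw [F.dYX, map_neg, F.dXX, if_neg (by omega), zero_sub, neg_neg, ih]
  | St.p :: s, k, hk, a => by
    simp only [List.length_cons] at hk
    have ih := Phi_X s k (by omega)
    simp only [Phi, LinearMap.comp_apply, LinearMap.mulLeft_apply]
    rw [← mul_assoc, F.XX, neg_mul, mul_assoc, map_neg, F.dXX, if_neg (by omega), zero_sub,
      neg_neg, ih]

/-! ### contraction of vectors -/

theorem dX_vX (n i : ℕ) (c : ℕ → ℂ) (a : A) :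
    F.dX i (vX F n c * a) = (if i < n then c i else 0) • a - vX F n c * F.dX i a := by
  simp only [vX, Finset.sum_mul, map_sum, smul_mul_assoc, map_smul, F.dXX, smul_sub,
    Finset.sum_sub_distrib]
  congr 1
  rw [ite_smul, zero_smul]
  simp only [smul_ite, smul_zero]
  rw [Finset.sum_ite_eq]
  simp only [mem_range]

theorem dY_vX (n i : ℕ) (c : ℕ → ℂ) (a : A) :
    F.dY i (vX F n c * a) = - (vX F n c * F.dY i a) := by
  simp only [vX, Finset.sum_mul, map_sum, smul_mul_assoc, map_smul, F.dYX, smul_neg,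
    Finset.sum_neg_distrib]

theorem dY_vY (n i : ℕ) (c : ℕ → ℂ) (a : A) :
    F.dY i (vY F n c * a) = (if i < n then c i else 0) • a - vY F n c * F.dY i a := by
  simp only [vY, Finset.sum_mul, map_sum, smul_mul_assoc, map_smul, F.dYY, smul_sub,
    Finset.sum_sub_distrib]
  congr 1
  rw [ite_smul, zero_smul]
  simp only [smul_ite, smul_zero]
  rw [Finset.sum_ite_eq]
  simp only [mem_range]

theorem dX_vY (n i : ℕ) (c : ℕ → ℂ) (a : A) :
    F.dX i (vY F n c * a) = - (vY F n c * F.dX i a) := by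
  simp only [vY, Finset.sum_mul, map_sum, smul_mul_assoc, map_smul, F.dXY, smul_neg,
    Finset.sum_neg_distrib]

theorem X_vX (n i : ℕ) (c : ℕ → ℂ) : F.X i * vX F n c = - (vX F n c * F.X i) := by
  simp only [vX, Finset.sum_mul, Finset.mul_sum, smul_mul_assoc, mul_smul_comm, F.XX i, smul_neg,
    Finset.sum_neg_distrib]

theorem X_vY (n i : ℕ) (c : ℕ → ℂ) : F.X i * vY F n c = - (vY F n c * F.X i) := by
  simp only [vY, Finset.sum_mul, Finset.mul_sum, smul_mul_assoc, mul_smul_comm, F.XY i, smul_neg,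
    Finset.sum_neg_distrib]

theorem vX_vX (n : ℕ) (c c' : ℕ → ℂ) : vX F n c * vX F n c' = - (vX F n c' * vX F n c) := by
  conv_lhs => rw [vX, Finset.sum_mul]
  conv_rhs => rw [vX.eq_def F n c, Finset.mul_sum]
  simp only [smul_mul_assoc, mul_smul_comm, X_vX, smul_neg, Finset.sum_neg_distrib]

theorem vX_sq (n : ℕ) (c : ℕ → ℂ) : vX F n c * vX F n c = 0 := by
  have h := vX_vX F n c c
  have h2 : (2 : ℂ) • (vX F n c * vX F n c) = 0 := by
    rw [two_smul]
    nth_rewrite 2 [h]
    rw [add_neg_cancel]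
  exact (smul_eq_zero.1 h2).resolve_left two_ne_zero

theorem vX_Y (n i : ℕ) (c : ℕ → ℂ) : vX F n c * F.Y i = - (F.Y i * vX F n c) := by
  simp only [vX, Finset.sum_mul, Finset.mul_sum, smul_mul_assoc, mul_smul_comm, F.XY, smul_neg,
    Finset.sum_neg_distrib]

theorem vX_vY (n : ℕ) (c c' : ℕ → ℂ) : vX F n c * vY F n c' = - (vY F n c' * vX F n c) := by
  conv_lhs => rw [vX, Finset.sum_mul]
  conv_rhs => rw [vX.eq_def F n c, Finset.mul_sum]
  simp only [smul_mul_assoc, mul_smul_comm, X_vY, smul_neg, Finset.sum_neg_distrib]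

/-! ### dependence on the used slots only -/

theorem vX_congr {n : ℕ} {c c' : ℕ → ℂ} (h : ∀ j < n, c j = c' j) : vX F n c = vX F n c' :=
  Finset.sum_congr rfl (fun j hj => by rw [h j (mem_range.1 hj)])

theorem vY_congr {n : ℕ} {c c' : ℕ → ℂ} (h : ∀ j < n, c j = c' j) : vY F n c = vY F n c' :=
  Finset.sum_congr rfl (fun j hj => by rw [h j (mem_range.1 hj)])

theorem XP_congr (n : ℕ) {C C' : ℕ → ℕ → ℕ → ℂ} : ∀ {s : List St},
    (∀ i l, l < np s i → ∀ j < n, C i l j = C' i l j) → XP F n C s = XP F n C' s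
  | [], _ => rfl
  | St.u :: s, h => by
    simp only [XP]
    rw [XP_congr n (s := s) (C := C) (C' := C')]
    · rw [vX_congr F (fun j hj => h (ht s) (np s (ht s)) (by simp [np]) j hj)]
    · intro i l hl j hj
      refine h i l ?_ j hj
      simp only [np]; split_ifs <;> omega
  | St.d :: s, h => by
    simp only [XP]; exact XP_congr n (s := s) h
  | St.q :: s, h => by
    simp only [XP]; rw [XP_congr n (s := s) h]
  | St.p :: s, h => by
    simp only [XP]; exact XP_congr n (s := s) h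

theorem QP_congr (n : ℕ) {C C' : ℕ → ℕ → ℕ → ℂ} {fl : Bool} {h : ℕ} : ∀ {s : List St},
    Good fl h s →
    (∀ i l, l < nm s i → ∀ j < n, C i l j = C' i l j) → QP F n C s = QP F n C' s
  | [], _, _ => rfl
  | St.d :: s, hs, h => by
    simp only [QP]
    have h1 := hs.2
    rw [QP_congr n (s := s) (C := C) (C' := C') hs.1]
    · rw [vY_congr F (fun j hj => h (ht s - 1) (nm s (ht s - 1)) (by
        simp only [nm]; rw [if_pos (by omega)]; omega) j hj)]
    · intro i l hl j hj
      refine h i l ?_ j hj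
      simp only [nm]; split_ifs <;> omega
  | St.u :: s, hs, h => by
    simp only [QP]; exact QP_congr n (s := s) hs.1 h
  | St.q :: s, hs, h => by
    simp only [QP]; rw [QP_congr n (s := s) hs.1 h]
  | St.p :: s, hs, h => by
    simp only [QP]; exact QP_congr n (s := s) hs.1 h

/-! ### scaling -/

theorem vX_smul (n : ℕ) (r : ℂ) (c : ℕ → ℂ) : vX F n (fun j => r * c j) = r • vX F n c := by
  simp only [vX, Finset.smul_sum, mul_smul]

theorem vY_smul (n : ℕ) (r : ℂ) (c : ℕ → ℂ) : vY F n (fun j => r * c j) = r • vY F n c := by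
  simp only [vY, Finset.smul_sum, mul_smul]

theorem XP_smul (n : ℕ) (C : ℕ → ℕ → ℕ → ℂ) (r : ℕ → ℕ → ℂ) (hr : ∀ i l, r i l ≠ 0) :
    ∀ s : List St, ∃ x : ℂ, x ≠ 0 ∧ XP F n (fun i l j => r i l * C i l j) s = x • XP F n C s
  | [] => ⟨1, one_ne_zero, by simp [XP]⟩
  | St.u :: s => by
    obtain ⟨x, hx, h⟩ := XP_smul n C r hr s
    refine ⟨r (ht s) (np s (ht s)) * x, mul_ne_zero (hr _ _) hx, ?_⟩
    simp only [XP]
    rw [h, vX_smul, smul_mul_assoc, mul_smul_comm, smul_smul]
  | St.d :: s => XP_smul n C r hr s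
  | St.q :: s => by
    obtain ⟨x, hx, h⟩ := XP_smul n C r hr s
    refine ⟨x, hx, ?_⟩
    simp only [XP]
    rw [h, mul_smul_comm]
  | St.p :: s => XP_smul n C r hr s

theorem QP_smul (n : ℕ) (C : ℕ → ℕ → ℕ → ℂ) (r : ℕ → ℕ → ℂ) (hr : ∀ i l, r i l ≠ 0) :
    ∀ s : List St, ∃ x : ℂ, x ≠ 0 ∧ QP F n (fun i l j => r i l * C i l j) s = x • QP F n C s
  | [] => ⟨1, one_ne_zero, by simp [QP]⟩
  | St.d :: s => by
    obtain ⟨x, hx, h⟩ := QP_smul n C r hr s
    refine ⟨r (ht s - 1) (nm s (ht s - 1)) * x, mul_ne_zero (hr _ _) hx, ?_⟩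
    simp only [QP]
    rw [h, vY_smul, smul_mul_assoc, mul_smul_comm, smul_smul]
  | St.u :: s => QP_smul n C r hr s
  | St.q :: s => by
    obtain ⟨x, hx, h⟩ := QP_smul n C r hr s
    refine ⟨x, hx, ?_⟩
    simp only [QP]
    rw [h, mul_smul_comm]
  | St.p :: s => QP_smul n C r hr s

/-! ### contractions of the products -/

theorem dX_XP (n i : ℕ) (C : ℕ → ℕ → ℕ → ℂ) : ∀ (s : List St),
    s.length ≤ i → (∀ a l, l < np s a → C a l i = 0) → ∀ b,
    F.dX i (XP F n C s * b) = (-1 : ℂ) ^ nx s • (XP F n C s * F.dX i b)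
  | [], _, _, b => by simp [XP, nx]
  | St.u :: s, hi, hC, b => by
    simp only [List.length_cons] at hi
    simp only [XP, nx]
    rw [mul_assoc, dX_vX, dX_XP n i C s (by omega) (fun a l hl => hC a l (by
      simp only [np]; split_ifs <;> omega)), hC _ _ (by simp [np])]
    simp only [ite_self, zero_smul, zero_sub, mul_smul_comm, mul_assoc, pow_succ, neg_smul,
      mul_neg, mul_one]
  | St.d :: s, hi, hC, b => by
    simp only [List.length_cons] at hi
    simp only [XP, nx]
    exact dX_XP n i C s (by omega) hC b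
  | St.q :: s, hi, hC, b => by
    simp only [List.length_cons] at hi
    simp only [XP, nx]
    rw [mul_assoc, F.dXX, dX_XP n i C s (by omega) hC, if_neg (by omega)]
    simp only [zero_sub, mul_smul_comm, mul_assoc, pow_succ, neg_smul, mul_neg, mul_one]
  | St.p :: s, hi, hC, b => by
    simp only [List.length_cons] at hi
    simp only [XP, nx]
    exact dX_XP n i C s (by omega) hC b

theorem dY_XP (n i : ℕ) (C : ℕ → ℕ → ℕ → ℂ) : ∀ (s : List St) (b : A),
    F.dY i (XP F n C s * b) = (-1 : ℂ) ^ nx s • (XP F n C s * F.dY i b)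
  | [], b => by simp [XP, nx]
  | St.u :: s, b => by
    simp only [XP, nx]
    rw [mul_assoc, dY_vX, dY_XP n i C s]
    simp only [mul_smul_comm, mul_assoc, pow_succ, neg_smul, mul_neg, mul_one]
  | St.d :: s, b => by
    simp only [XP, nx]
    exact dY_XP n i C s b
  | St.q :: s, b => by
    simp only [XP, nx]
    rw [mul_assoc, F.dYX, dY_XP n i C s]
    simp only [mul_smul_comm, mul_assoc, pow_succ, neg_smul, mul_neg, mul_one]
  | St.p :: s, b => by
    simp only [XP, nx]
    exact dY_XP n i C s b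

theorem dX_QP (n i : ℕ) (C : ℕ → ℕ → ℕ → ℂ) : ∀ (s : List St), F.dX i (QP F n C s) = 0
  | [] => by simp [QP, F.dX_one]
  | St.u :: s => by simp only [QP]; exact dX_QP n i C s
  | St.d :: s => by simp only [QP]; rw [dX_vY, dX_QP n i C s, mul_zero, neg_zero]
  | St.q :: s => by simp only [QP]; rw [F.dXY, dX_QP n i C s, mul_zero, neg_zero]
  | St.p :: s => by simp only [QP]; exact dX_QP n i C s

theorem dY_QP (n i : ℕ) (C : ℕ → ℕ → ℕ → ℂ) {fl : Bool} {h : ℕ} : ∀ (s : List St),
    Good fl h s → s.length ≤ i → (∀ a l, l < nm s a → C a l i = 0) → F.dY i (QP F n C s) = 0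
  | [], _, _, _ => by simp [QP, F.dY_one]
  | St.u :: s, hs, hi, hC => by
    simp only [List.length_cons] at hi
    simp only [QP]; exact dY_QP n i C s hs.1 (by omega) hC
  | St.d :: s, hs, hi, hC => by
    simp only [List.length_cons] at hi
    have h1 := hs.2
    simp only [QP]
    rw [dY_vY, dY_QP n i C s hs.1 (by omega) (fun a l hl => hC a l (by
      simp only [nm]; split_ifs <;> omega)), hC _ _ (by
      simp only [nm]; rw [if_pos (by omega)]; omega)]
    simp
  | St.q :: s, hs, hi, hC => by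
    simp only [List.length_cons] at hi
    simp only [QP]; rw [F.dYY, dY_QP n i C s hs.1 (by omega) hC, if_neg (by omega)]
    simp
  | St.p :: s, hs, hi, hC => by
    simp only [List.length_cons] at hi
    simp only [QP]; exact dY_QP n i C s hs.1 (by omega) hC

end Pool.Agent.Helper213.Fock
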