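import Mathlib
import Pool.Agent.Helper213.Fock

set_option autoImplicit false
set_option linter.unusedSectionVars false

namespace Pool.Agent.Helper213.Elim

open Finset Walk Fock Filter Topology

variable {A : Type} [Ring A] [Algebra ℂ A] (F : FD A)

/-- the element attached to a walk and a coefficient array -/
noncomputable def EE (n : ℕ) (C : ℕ → ℕ → ℕ → ℂ) (s : List St) : A := XP F n C s * QP F n C s

/-- the square system with coefficient matrix `Mt` over the walks has only the trivial solution -/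
def NS (fl : Bool) (h k a : ℕ) (Mt : List St → List St → ℂ) : Prop :=
  ∀ c : List St → ℂ, (∀ t ∈ T fl h k a, ∑ s ∈ T fl h k a, c s * Mt t s = 0) →
    ∀ s ∈ T fl h k a, c s = 0

theorem vX_off {n k : ℕ} {c c' : ℕ → ℂ} (h : ∀ j < n, j ≠ k → c j = c' j) :
    ∃ r : ℂ, vX F n c = vX F n c' + r • F.X k := by
  by_cases hk : k < n
  · refine ⟨c k - c' k, ?_⟩
    unfold vX
    rw [← sub_eq_iff_eq_add', ← Finset.sum_sub_distrib,
      Finset.sum_eq_single_of_mem k (mem_range.2 hk)]
    · rw [sub_smul]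
    · intro j hj hjk
      rw [h j (mem_range.1 hj) hjk, sub_self]
  · refine ⟨0, ?_⟩
    rw [zero_smul, add_zero]
    exact vX_congr F (fun j hj => h j hj (by omega))

theorem XP_off (n k : ℕ) {C C' : ℕ → ℕ → ℕ → ℂ} (b : A) : ∀ {s : List St},
    (∀ i l, l < np s i → ∀ j < n, j ≠ k → C i l j = C' i l j) →
    ∃ a, XP F n C s * b = XP F n C' s * b + F.X k * a
  | [], _ => ⟨0, by simp [XP]⟩
  | St.u :: s, h => by
    obtain ⟨a, ha⟩ := XP_off n k (C := C) (C' := C') b (s := s) (by
      intro i l hl j hj hjk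
      refine h i l ?_ j hj hjk
      simp only [np]; split_ifs <;> omega)
    obtain ⟨r, hr⟩ := vX_off F (n := n) (k := k) (c := C (ht s) (np s (ht s)))
      (c' := C' (ht s) (np s (ht s))) (fun j hj hjk => h _ _ (by simp [np]) j hj hjk)
    refine ⟨-(vX F n (C (ht s) (np s (ht s))) * a) + r • (XP F n C' s * b), ?_⟩
    simp only [XP]
    rw [mul_assoc, ha, mul_add, ← mul_assoc _ (F.X k) a]
    have h1 : vX F n (C (ht s) (np s (ht s))) * F.X k = -(F.X k * vX F n (C (ht s) (np s (ht s)))) := by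
      rw [X_vX, neg_neg]
    rw [h1]
    nth_rewrite 1 [hr]
    rw [add_mul, smul_mul_assoc, mul_add, mul_smul_comm, mul_neg, mul_assoc, neg_mul, mul_assoc]
    abel
  | St.d :: s, h => by
    simp only [XP]; exact XP_off n k b (s := s) h
  | St.q :: s, h => by
    obtain ⟨a, ha⟩ := XP_off n k (C := C) (C' := C') b (s := s) h
    refine ⟨-(F.X s.length * a), ?_⟩
    simp only [XP]
    rw [mul_assoc, ha, mul_add, ← mul_assoc _ (F.X k) a, F.XX s.length k, mul_assoc, neg_mul,
      mul_neg, mul_assoc]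
  | St.p :: s, h => by
    simp only [XP]; exact XP_off n k b (s := s) h

theorem Phi_dXX (t : List St) (k : ℕ) (hk : t.length ≤ k) (b : A) :
    Phi F t (F.dX k (F.X k * b)) = Phi F t b := by
  rw [F.dXX, if_pos rfl, map_sub, Phi_X F t k hk, sub_zero]

variable {F}

/-- hypotheses on the limit arrays -/
structure Lim (fl : Bool) (h n k : ℕ) (C0 C1 : List St → ℕ → ℕ → ℕ → ℂ) : Prop where
  supp : ∀ s, s.length = k → Good fl h s → ∀ i l, C0 s i l k = 0
  u1 : ∀ s, s.length = k → Good fl h s → ∀ j < n,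
    C1 (St.u :: s) (ht s) (np s (ht s)) j = if j = k then 1 else 0
  u2 : ∀ s, s.length = k → Good fl h s → ∀ i l, (l < np s i ∨ l < nm s i) → ∀ j < n,
    C1 (St.u :: s) i l j = C0 s i l j
  q2 : ∀ s, s.length = k → Good fl h s → ∀ i l, ∀ j < n,
    C1 (St.q :: s) i l j = C0 s i l j
  p2 : ∀ s, s.length = k → Good fl h s → ∀ i l, l < np s i → ∀ j < n, j ≠ k →
    C1 (St.p :: s) i l j = C0 s i l j
  p3 : ∀ s, s.length = k → Good fl h s → ∀ i l, l < nm s i → ∀ j < n,
    C1 (St.p :: s) i l j = C0 s i l j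
  d1 : ∀ s, s.length = k → Good fl h s → 1 ≤ ht s →
    C1 (St.d :: s) (ht s - 1) (nm s (ht s - 1)) k = 1
  d2 : ∀ s, s.length = k → Good fl h s → ∀ i l, l < np s i → ∀ j < n, j ≠ k →
    C1 (St.d :: s) i l j = C0 s i l j
  d3 : ∀ s, s.length = k → Good fl h s → ∀ i l, l < nm s i → ∀ j < n,
    C1 (St.d :: s) i l j = C0 s i l j

section
variable {fl : Bool} {h n k : ℕ} {C0 C1 : List St → ℕ → ℕ → ℕ → ℂ} (L : Lim fl h n k C0 C1)
  (hk : k < n)
include L hk

theorem EE_u (s : List St) (hs : s.length = k) (hg : Good fl h s) :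
    EE F n (C1 (St.u :: s)) (St.u :: s) = F.X k * EE F n (C0 s) s := by
  unfold EE
  simp only [XP, QP]
  rw [XP_congr F n (C := C1 (St.u :: s)) (C' := C0 s) (s := s)
      (fun i l hl j hj => L.u2 s hs hg i l (Or.inl hl) j hj),
    QP_congr F n (C := C1 (St.u :: s)) (C' := C0 s) hg
      (fun i l hl j hj => L.u2 s hs hg i l (Or.inr hl) j hj)]
  have : vX F n (C1 (St.u :: s) (ht s) (np s (ht s))) = F.X k := by
    unfold vX
    rw [Finset.sum_congr rfl (g := fun j => if k = j then F.X j else 0)]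
    · rw [Finset.sum_ite_eq, if_pos (mem_range.2 hk)]
    · intro j hj
      rw [L.u1 s hs hg j (mem_range.1 hj)]
      by_cases hjk : j = k
      · rw [if_pos hjk, if_pos hjk.symm, one_smul]
      · rw [if_neg hjk, if_neg (Ne.symm hjk), zero_smul]
  rw [this, mul_assoc]

theorem EE_q (s : List St) (hs : s.length = k) (hg : Good fl h s) :
    EE F n (C1 (St.q :: s)) (St.q :: s) = F.X k * (XP F n (C0 s) s * (F.Y k * QP F n (C0 s) s)) := by
  unfold EE
  simp only [XP, QP]
  rw [XP_congr F n (C := C1 (St.q :: s)) (C' := C0 s) (s := s)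
      (fun i l hl j hj => L.q2 s hs hg i l j hj),
    QP_congr F n (C := C1 (St.q :: s)) (C' := C0 s) hg
      (fun i l hl j hj => L.q2 s hs hg i l j hj), hs, mul_assoc]

theorem dY_QPq (s : List St) (hs : s.length = k) (hg : Good fl h s) :
    F.dY k (QP F n (C0 s) s) = 0 :=
  dY_QP F n k (C0 s) s hg hs.le (fun a l _ => L.supp s hs hg a l)

theorem EE_p (s : List St) (hs : s.length = k) (hg : Good fl h s) :
    ∃ a, EE F n (C1 (St.p :: s)) (St.p :: s) = EE F n (C0 s) s + F.X k * a := by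
  unfold EE
  simp only [XP, QP]
  rw [QP_congr F n (C := C1 (St.p :: s)) (C' := C0 s) hg
      (fun i l hl j hj => L.p3 s hs hg i l hl j hj)]
  exact XP_off F n k _ (fun i l hl j hj hjk => L.p2 s hs hg i l hl j hj hjk)

theorem dY_EE_p (s : List St) (hs : s.length = k) (hg : Good fl h s) :
    F.dY k (EE F n (C1 (St.p :: s)) (St.p :: s)) = 0 := by
  unfold EE
  simp only [XP, QP]
  rw [dY_XP, QP_congr F n (C := C1 (St.p :: s)) (C' := C0 s) hg
      (fun i l hl j hj => L.p3 s hs hg i l hl j hj), dY_QPq L hk s hs hg, mul_zero, smul_zero]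

theorem dY_EE_d (s : List St) (hs : s.length = k) (hg : Good fl h s)
    (h1 : 1 ≤ ht s) :
    ∃ a, F.dY k (EE F n (C1 (St.d :: s)) (St.d :: s)) =
      (-1 : ℂ) ^ nx s • (EE F n (C0 s) s) + F.X k * a := by
  unfold EE
  simp only [XP, QP]
  rw [dY_XP, QP_congr F n (C := C1 (St.d :: s)) (C' := C0 s) hg
      (fun i l hl j hj => L.d3 s hs hg i l hl j hj), dY_vY, dY_QPq L hk s hs hg, mul_zero, sub_zero,
      if_pos hk, L.d1 s hs hg h1, one_smul]
  obtain ⟨a, ha⟩ := XP_off F n k (QP F n (C0 s) s) (C := C1 (St.d :: s)) (C' := C0 s) (s := s)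
    (fun i l hl j hj hjk => L.d2 s hs hg i l hl j hj hjk)
  exact ⟨(-1 : ℂ) ^ nx s • a, by rw [ha, smul_add, mul_smul_comm]⟩

-- matrix entries
theorem ent_dd (t s : List St) (ht' : t.length = k) (hs : s.length = k)
    (hg : Good fl h s) (h1 : 1 ≤ ht s) :
    Phi F (St.d :: t) (EE F n (C1 (St.d :: s)) (St.d :: s)) =
      (-1 : ℂ) ^ nx s * Phi F t (EE F n (C0 s) s) := by
  simp only [Phi, LinearMap.comp_apply, LinearMap.mulLeft_apply, ht']
  rw [Phi_dXX F t k ht'.le]
  obtain ⟨a, ha⟩ := dY_EE_d (F := F) L hk s hs hg h1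
  rw [ha, map_add, Phi_X F t k ht'.le, add_zero, map_smul, smul_eq_mul]

theorem ent_dq (t s : List St) (ht' : t.length = k) (hs : s.length = k)
    (hg : Good fl h s) :
    Phi F (St.d :: t) (EE F n (C1 (St.q :: s)) (St.q :: s)) = 0 := by
  simp only [Phi, LinearMap.comp_apply, LinearMap.mulLeft_apply, ht']
  rw [EE_q L hk s hs hg, F.dYX, mul_neg, ← mul_assoc, F.Xsq]
  simp

theorem ent_dp (t s : List St) (ht' : t.length = k) (hs : s.length = k)
    (hg : Good fl h s) :
    Phi F (St.d :: t) (EE F n (C1 (St.p :: s)) (St.p :: s)) = 0 := by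
  simp only [Phi, LinearMap.comp_apply, LinearMap.mulLeft_apply, ht']
  rw [dY_EE_p L hk s hs hg]
  simp

theorem dY_EE_u (s : List St) (hs : s.length = k) (hg : Good fl h s) :
    F.dY k (EE F n (C1 (St.u :: s)) (St.u :: s)) = 0 := by
  rw [EE_u L hk s hs hg, F.dYX, EE, dY_XP, dY_QPq L hk s hs hg]
  simp

theorem ent_du (t s : List St) (ht' : t.length = k) (hs : s.length = k)
    (hg : Good fl h s) :
    Phi F (St.d :: t) (EE F n (C1 (St.u :: s)) (St.u :: s)) = 0 := by
  simp only [Phi, LinearMap.comp_apply, LinearMap.mulLeft_apply, ht']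
  rw [dY_EE_u L hk s hs hg]
  simp

theorem ent_qq (t s : List St) (ht' : t.length = k) (hs : s.length = k)
    (hg : Good fl h s) :
    Phi F (St.q :: t) (EE F n (C1 (St.q :: s)) (St.q :: s)) =
      (-(-1 : ℂ) ^ nx s) * Phi F t (EE F n (C0 s) s) := by
  simp only [Phi, LinearMap.comp_apply, ht']
  rw [EE_q L hk s hs hg, F.dYX, dY_XP, F.dYY, if_pos rfl, dY_QPq L hk s hs hg, mul_zero, sub_zero,
    mul_smul_comm, map_neg, map_neg, map_smul, map_smul, Phi_dXX F t k ht'.le, EE, smul_eq_mul,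
    neg_mul]

theorem ent_qp (t s : List St) (ht' : t.length = k) (hs : s.length = k)
    (hg : Good fl h s) :
    Phi F (St.q :: t) (EE F n (C1 (St.p :: s)) (St.p :: s)) = 0 := by
  simp only [Phi, LinearMap.comp_apply, ht']
  rw [dY_EE_p L hk s hs hg]
  simp

theorem ent_qu (t s : List St) (ht' : t.length = k) (hs : s.length = k)
    (hg : Good fl h s) :
    Phi F (St.q :: t) (EE F n (C1 (St.u :: s)) (St.u :: s)) = 0 := by
  simp only [Phi, LinearMap.comp_apply, ht']
  rw [dY_EE_u L hk s hs hg]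
  simp

theorem ent_pp (t s : List St) (ht' : t.length = k) (hs : s.length = k)
    (hg : Good fl h s) :
    Phi F (St.p :: t) (EE F n (C1 (St.p :: s)) (St.p :: s)) = Phi F t (EE F n (C0 s) s) := by
  simp only [Phi, LinearMap.comp_apply, LinearMap.mulLeft_apply, ht']
  rw [Phi_dXX F t k ht'.le]
  obtain ⟨a, ha⟩ := EE_p (F := F) L hk s hs hg
  rw [ha, map_add, Phi_X F t k ht'.le, add_zero]

theorem ent_pu (t s : List St) (ht' : t.length = k) (hs : s.length = k)
    (hg : Good fl h s) :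
    Phi F (St.p :: t) (EE F n (C1 (St.u :: s)) (St.u :: s)) = 0 := by
  simp only [Phi, LinearMap.comp_apply, LinearMap.mulLeft_apply, ht']
  rw [Phi_dXX F t k ht'.le, EE_u L hk s hs hg, Phi_X F t k ht'.le]

theorem ent_uu (t s : List St) (ht' : t.length = k) (hs : s.length = k)
    (hg : Good fl h s) :
    Phi F (St.u :: t) (EE F n (C1 (St.u :: s)) (St.u :: s)) = Phi F t (EE F n (C0 s) s) := by
  simp only [Phi, LinearMap.comp_apply, ht']
  rw [EE_u L hk s hs hg, Phi_dXX F t k ht'.le]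

/-- the elimination step -/
theorem NS_step
    (ih : ∀ a, NS fl h k a (fun t s => Phi F t (EE F n (C0 s) s))) (a : ℕ) :
    NS fl h (k + 1) a (fun t s => Phi F t (EE F n (C1 s) s)) := by
  intro c hc
  simp only [sum_T_succ] at hc
  have memT : ∀ {b : ℕ} {s : List St}, s ∈ T fl h k b → s.length = k ∧ Good fl h s ∧ ht s = b :=
    fun hs => mem_T.1 hs
  -- step d
  have hd : ∀ s ∈ T fl h k (a + 1), c (St.d :: s) = 0 := by
    have key := ih (a + 1) (fun s => c (St.d :: s) * (-1 : ℂ) ^ nx s) (by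
      intro t htt
      obtain ⟨t1, t2, t3⟩ := memT htt
      have h1 := hc (St.d :: t) (mem_T.2 ⟨by simp [t1], ⟨t2, by omega⟩, by simp only [ht]; omega⟩)
      rw [← h1]
      have e1 : (if 1 ≤ a ∧ a ≤ h then ∑ s ∈ T fl h k (a - 1), c (St.u :: s) *
          Phi F (St.d :: t) (EE F n (C1 (St.u :: s)) (St.u :: s)) else 0) = 0 := by
        split_ifs
        · refine Finset.sum_eq_zero (fun s hs => ?_)
          obtain ⟨s1, s2, s3⟩ := memT hs
          rw [ent_du L hk t s t1 s1 s2, mul_zero]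
        · rfl
      have e2 : (if fl = true then ∑ s ∈ T fl h k a, c (St.q :: s) *
          Phi F (St.d :: t) (EE F n (C1 (St.q :: s)) (St.q :: s)) else 0) = 0 := by
        split_ifs
        · refine Finset.sum_eq_zero (fun s hs => ?_)
          obtain ⟨s1, s2, s3⟩ := memT hs
          rw [ent_dq L hk t s t1 s1 s2, mul_zero]
        · rfl
      have e3 : (if fl = true then ∑ s ∈ T fl h k a, c (St.p :: s) *
          Phi F (St.d :: t) (EE F n (C1 (St.p :: s)) (St.p :: s)) else 0) = 0 := by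
        split_ifs
        · refine Finset.sum_eq_zero (fun s hs => ?_)
          obtain ⟨s1, s2, s3⟩ := memT hs
          rw [ent_dp L hk t s t1 s1 s2, mul_zero]
        · rfl
      rw [e1, e2, e3, zero_add, add_zero, add_zero]
      refine Finset.sum_congr rfl (fun s hs => ?_)
      obtain ⟨s1, s2, s3⟩ := memT hs
      rw [ent_dd L hk t s t1 s1 s2 (by omega)]
      ring)
    intro s hs
    have := key s hs
    exact (mul_eq_zero.1 this).resolve_right (pow_ne_zero _ (by norm_num))
  have zd : ∀ t, (∑ s ∈ T fl h k (a + 1), c (St.d :: s) *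
      Phi F t (EE F n (C1 (St.d :: s)) (St.d :: s))) = 0 := by
    intro t
    exact Finset.sum_eq_zero (fun s hs => by rw [hd s hs, zero_mul])
  -- step q
  have hq : fl = true → ∀ s ∈ T fl h k a, c (St.q :: s) = 0 := by
    intro hfl
    have key := ih a (fun s => c (St.q :: s) * (-(-1 : ℂ) ^ nx s)) (by
      intro t htt
      obtain ⟨t1, t2, t3⟩ := memT htt
      have h1 := hc (St.q :: t) (mem_T.2 ⟨by simp [t1], ⟨t2, hfl⟩, by simp only [ht]; omega⟩)
      rw [← h1]
      have e1 : (if 1 ≤ a ∧ a ≤ h then ∑ s ∈ T fl h k (a - 1), c (St.u :: s) *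
          Phi F (St.q :: t) (EE F n (C1 (St.u :: s)) (St.u :: s)) else 0) = 0 := by
        split_ifs
        · refine Finset.sum_eq_zero (fun s hs => ?_)
          obtain ⟨s1, s2, s3⟩ := memT hs
          rw [ent_qu L hk t s t1 s1 s2, mul_zero]
        · rfl
      have e3 : (if fl = true then ∑ s ∈ T fl h k a, c (St.p :: s) *
          Phi F (St.q :: t) (EE F n (C1 (St.p :: s)) (St.p :: s)) else 0) = 0 := by
        rw [if_pos hfl]
        refine Finset.sum_eq_zero (fun s hs => ?_)
        obtain ⟨s1, s2, s3⟩ := memT hs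
        rw [ent_qp L hk t s t1 s1 s2, mul_zero]
      rw [e1, e3, zd, zero_add, zero_add, add_zero, if_pos hfl]
      refine Finset.sum_congr rfl (fun s hs => ?_)
      obtain ⟨s1, s2, s3⟩ := memT hs
      rw [ent_qq L hk t s t1 s1 s2]
      ring)
    intro s hs
    have := key s hs
    exact (mul_eq_zero.1 this).resolve_right (neg_ne_zero.2 (pow_ne_zero _ (by norm_num)))
  have zq : ∀ t, (if fl = true then ∑ s ∈ T fl h k a, c (St.q :: s) *
      Phi F t (EE F n (C1 (St.q :: s)) (St.q :: s)) else 0) = 0 := by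
    intro t
    split_ifs with hfl
    · exact Finset.sum_eq_zero (fun s hs => by rw [hq hfl s hs, zero_mul])
    · rfl
  -- step p
  have hp : fl = true → ∀ s ∈ T fl h k a, c (St.p :: s) = 0 := by
    intro hfl
    have key := ih a (fun s => c (St.p :: s)) (by
      intro t htt
      obtain ⟨t1, t2, t3⟩ := memT htt
      have h1 := hc (St.p :: t) (mem_T.2 ⟨by simp [t1], ⟨t2, hfl⟩, by simp only [ht]; omega⟩)
      rw [← h1]
      have e1 : (if 1 ≤ a ∧ a ≤ h then ∑ s ∈ T fl h k (a - 1), c (St.u :: s) *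
          Phi F (St.p :: t) (EE F n (C1 (St.u :: s)) (St.u :: s)) else 0) = 0 := by
        split_ifs
        · refine Finset.sum_eq_zero (fun s hs => ?_)
          obtain ⟨s1, s2, s3⟩ := memT hs
          rw [ent_pu L hk t s t1 s1 s2, mul_zero]
        · rfl
      rw [e1, zd, zq, zero_add, zero_add, zero_add, if_pos hfl]
      refine Finset.sum_congr rfl (fun s hs => ?_)
      obtain ⟨s1, s2, s3⟩ := memT hs
      rw [ent_pp L hk t s t1 s1 s2])
    exact key
  have zp : ∀ t, (if fl = true then ∑ s ∈ T fl h k a, c (St.p :: s) *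
      Phi F t (EE F n (C1 (St.p :: s)) (St.p :: s)) else 0) = 0 := by
    intro t
    split_ifs with hfl
    · exact Finset.sum_eq_zero (fun s hs => by rw [hp hfl s hs, zero_mul])
    · rfl
  -- step u
  have hu : (1 ≤ a ∧ a ≤ h) → ∀ s ∈ T fl h k (a - 1), c (St.u :: s) = 0 := by
    intro ha
    have key := ih (a - 1) (fun s => c (St.u :: s)) (by
      intro t htt
      obtain ⟨t1, t2, t3⟩ := memT htt
      have h1 := hc (St.u :: t) (mem_T.2 ⟨by simp [t1], ⟨t2, by omega⟩, by simp only [ht]; omega⟩)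
      rw [← h1]
      rw [zd, zq, zp, add_zero, add_zero, add_zero, if_pos ha]
      refine Finset.sum_congr rfl (fun s hs => ?_)
      obtain ⟨s1, s2, s3⟩ := memT hs
      rw [ent_uu L hk t s t1 s1 s2])
    exact key
  intro s hs
  obtain ⟨s1, s2, s3⟩ := mem_T.1 hs
  match s, s1, s2, s3 with
  | St.u :: s', s1, s2, s3 =>
    simp only [ht] at s3
    simp only [Good] at s2
    exact hu (by omega) s' (mem_T.2 ⟨by simpa using s1, s2.1, by omega⟩)
  | St.d :: s', s1, s2, s3 =>
    simp only [ht] at s3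
    simp only [Good] at s2
    exact hd s' (mem_T.2 ⟨by simpa using s1, s2.1, by omega⟩)
  | St.q :: s', s1, s2, s3 =>
    simp only [ht] at s3
    simp only [Good] at s2
    exact hq s2.2 s' (mem_T.2 ⟨by simpa using s1, s2.1, by omega⟩)
  | St.p :: s', s1, s2, s3 =>
    simp only [ht] at s3
    simp only [Good] at s2
    exact hp s2.2 s' (mem_T.2 ⟨by simpa using s1, s2.1, by omega⟩)

end

end Pool.Agent.Helper213.Elim
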