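import Mathlib

set_option autoImplicit false
set_option linter.unusedSimpArgs false

namespace Pool.Agent.Helper213.Ift

open Filter Topology

namespace IftPairsAux

abbrev PP (M : ℕ) : Type := (Fin M → (Fin M ⊕ Fin M) → ℂ) × (Fin M → (Fin M ⊕ Fin M) → ℂ) ×
  (Fin M → ℂ) × ((Fin M ⊕ Fin M) → (Fin M ⊕ Fin M) → ℂ) ×
  ((Fin M ⊕ Fin M) → (Fin M ⊕ Fin M) → ℂ)

abbrev QQ (M : ℕ) : Type := ((Fin M ⊕ Fin M) → (Fin M ⊕ Fin M) → ℂ) ×
  ((Fin M ⊕ Fin M) → (Fin M ⊕ Fin M) → ℂ) × ((Fin M ⊕ Fin M) → ℂ)

def Psi (M : ℕ) (p : PP M) : QQ M :=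
  (fun a b => ∑ j, p.1 j a * p.2.1 j b + p.2.2.2.1 a b + p.2.2.2.1 b a,
   fun a b => ∑ j, p.2.2.1 j * (p.1 j a * p.2.1 j b) + p.2.2.2.2 a b + p.2.2.2.2 b a,
   fun a => ∑ j, p.1 j a)

lemma contDiff_Psi (M : ℕ) : ContDiff ℂ 1 (Psi M) := by
  unfold Psi
  fun_prop

def x0 (M : ℕ) (j : Fin M) (a : Fin M ⊕ Fin M) : ℂ := (Pi.single (Sum.inl j) 1 : _ → ℂ) a
def y0 (M : ℕ) (j : Fin M) (a : Fin M ⊕ Fin M) : ℂ := (Pi.single (Sum.inr j) 1 : _ → ℂ) a

def p0 (M : ℕ) (lam0 : Fin M → ℂ) : PP M := (x0 M, y0 M, lam0, 0, 0)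

lemma deriv_line (M : ℕ) (lam0 : Fin M → ℂ) (v : PP M) :
    fderiv ℂ (Psi M) (p0 M lam0) v =
      (fun a b => ∑ j, (v.1 j a * y0 M j b + x0 M j a * v.2.1 j b) +
          v.2.2.2.1 a b + v.2.2.2.1 b a,
       fun a b => ∑ j, (v.2.2.1 j * (x0 M j a * y0 M j b) +
          lam0 j * (v.1 j a * y0 M j b + x0 M j a * v.2.1 j b)) +
          v.2.2.2.2 a b + v.2.2.2.2 b a,
       fun a => ∑ j, v.1 j a) := by
  have h1 : HasFDerivAt (Psi M) (fderiv ℂ (Psi M) (p0 M lam0)) (p0 M lam0) :=
    ((contDiff_Psi M).differentiable (by norm_num)).differentiableAt.hasFDerivAt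
  have h2 : HasDerivAt (fun s : ℂ => p0 M lam0 + s • v) v 0 := by
    have := ((hasDerivAt_id (0 : ℂ)).smul_const v).const_add (p0 M lam0)
    simpa using this
  have h1' : HasFDerivAt (Psi M) (fderiv ℂ (Psi M) (p0 M lam0)) (p0 M lam0 + (0 : ℂ) • v) := by
    simpa using h1
  have h3 := HasFDerivAt.comp_hasDerivAt (0 : ℂ) h1' h2
  refine h3.unique ?_
  have key : ∀ (c d e f : ℂ), HasDerivAt (fun s : ℂ => (c + s * d) * (e + s * f))
      (d * e + c * f) 0 := by
    intro c d e f
    have a1 : HasDerivAt (fun s : ℂ => c + s * d) d 0 := by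
      have := ((hasDerivAt_id (0 : ℂ)).mul_const d).const_add c
      simpa using this
    have a2 : HasDerivAt (fun s : ℂ => e + s * f) f 0 := by
      have := ((hasDerivAt_id (0 : ℂ)).mul_const f).const_add e
      simpa using this
    have := a1.fun_mul a2
    simpa using this
  have key2 : ∀ (l m c d e f : ℂ),
      HasDerivAt (fun s : ℂ => (l + s * m) * ((c + s * d) * (e + s * f)))
      (m * (c * e) + l * (d * e + c * f)) 0 := by
    intro l m c d e f
    have a1 : HasDerivAt (fun s : ℂ => l + s * m) m 0 := by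
      have := ((hasDerivAt_id (0 : ℂ)).mul_const m).const_add l
      simpa using this
    have := a1.fun_mul (key c d e f)
    simpa using this
  have key3 : ∀ c : ℂ, HasDerivAt (fun s : ℂ => s * c) c 0 := by
    intro c
    have := (hasDerivAt_id (0 : ℂ)).mul_const c
    simpa using this
  refine HasDerivAt.prodMk ?_ (HasDerivAt.prodMk ?_ ?_)
  · rw [hasDerivAt_pi]
    intro a
    rw [hasDerivAt_pi]
    intro b
    have := ((HasDerivAt.fun_sum (u := Finset.univ) (fun j _ =>
      key (x0 M j a) (v.1 j a) (y0 M j b) (v.2.1 j b))).add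
      (key3 (v.2.2.2.1 a b))).add (key3 (v.2.2.2.1 b a))
    convert this using 1
    ext s
    simp [p0]
  · rw [hasDerivAt_pi]
    intro a
    rw [hasDerivAt_pi]
    intro b
    have := ((HasDerivAt.fun_sum (u := Finset.univ) (fun j _ =>
      key2 (lam0 j) (v.2.2.1 j) (x0 M j a) (v.1 j a) (y0 M j b) (v.2.1 j b))).add
      (key3 (v.2.2.2.2 a b))).add (key3 (v.2.2.2.2 b a))
    convert this using 1
    ext s
    simp [p0]
  · rw [hasDerivAt_pi]
    intro a
    have := (HasDerivAt.fun_sum (u := Finset.univ) (fun (j : Fin M) _ =>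
      ((key3 (v.1 j a)).const_add (x0 M j a))))
    convert this using 1
    ext s
    simp [p0]

/-- first linearised form -/
lemma K1_eval (M : ℕ) (dx dy : Fin M → (Fin M ⊕ Fin M) → ℂ) (a b : Fin M ⊕ Fin M) :
    ∑ j, (dx j a * y0 M j b + x0 M j a * dy j b) =
      Sum.elim (fun _ => 0) (fun i => dx i a) b + Sum.elim (fun i => dy i b) (fun _ => 0) a := by
  rw [Finset.sum_add_distrib]
  congr 1
  · cases b with
    | inl i => simp [y0, Pi.single_apply]
    | inr i => simp [y0, Pi.single_apply]
  · cases a with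
    | inl i => simp [x0, Pi.single_apply]
    | inr i => simp [x0, Pi.single_apply]

lemma K2_eval (M : ℕ) (lam0 dl : Fin M → ℂ) (dx dy : Fin M → (Fin M ⊕ Fin M) → ℂ)
    (a b : Fin M ⊕ Fin M) :
    ∑ j, (dl j * (x0 M j a * y0 M j b) + lam0 j * (dx j a * y0 M j b + x0 M j a * dy j b)) =
      Sum.elim (fun i => Sum.elim (fun _ => 0) (fun j => if i = j then dl i else 0) b)
        (fun _ => 0) a +
      (Sum.elim (fun _ => 0) (fun i => lam0 i * dx i a) b +
        Sum.elim (fun i => lam0 i * dy i b) (fun _ => 0) a) := by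
  simp only [mul_add, Finset.sum_add_distrib]
  congr 1
  · cases a with
    | inl i =>
      cases b with
      | inl k => simp [x0, y0, Pi.single_apply]
      | inr k =>
        simp only [x0, y0, Pi.single_apply, Sum.inl.injEq, Sum.inr.injEq, Sum.elim_inl,
          Sum.elim_inr]
        by_cases hik : i = k
        · subst hik; simp
        · simp only [hik, if_false]
          apply Finset.sum_eq_zero
          intro j _
          by_cases h1 : i = j
          · subst h1
            simp [Ne.symm hik]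
          · simp [h1]
    | inr i => simp [x0, Pi.single_apply]
  · congr 1
    · cases b with
      | inl i => simp [y0, Pi.single_apply]
      | inr i => simp [y0, Pi.single_apply]
    · cases a with
      | inl i => simp [x0, Pi.single_apply]
      | inr i => simp [x0, Pi.single_apply]

lemma surj (M : ℕ) (lam0 : Fin M → ℂ) (hinj : Function.Injective lam0)
    (F G : (Fin M ⊕ Fin M) → (Fin M ⊕ Fin M) → ℂ) (t : (Fin M ⊕ Fin M) → ℂ) :
    ∃ v : PP M, fderiv ℂ (Psi M) (p0 M lam0) v = (F, G, t) := by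
  classical
  set A : (Fin M ⊕ Fin M) → (Fin M ⊕ Fin M) → ℂ := fun a b => F a b - F b a with hA
  set B : (Fin M ⊕ Fin M) → (Fin M ⊕ Fin M) → ℂ := fun a b => G a b - G b a with hB
  -- off-diagonal entries of dx
  set ox : Fin M → (Fin M ⊕ Fin M) → ℂ := fun j => Sum.elim
    (fun i => (B (Sum.inl i) (Sum.inr j) - lam0 i * A (Sum.inl i) (Sum.inr j)) /
      (lam0 j - lam0 i))
    (fun i => (B (Sum.inr i) (Sum.inr j) - lam0 i * A (Sum.inr i) (Sum.inr j)) /
      (lam0 j - lam0 i)) with hox
  set dx : Fin M → (Fin M ⊕ Fin M) → ℂ := fun j => Sum.elim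
    (fun i => if i = j then t (Sum.inl i) - ∑ k ∈ Finset.univ.erase i, ox k (Sum.inl i)
      else ox j (Sum.inl i))
    (fun i => if i = j then t (Sum.inr i) - ∑ k ∈ Finset.univ.erase i, ox k (Sum.inr i)
      else ox j (Sum.inr i)) with hdx
  set dy : Fin M → (Fin M ⊕ Fin M) → ℂ := fun i => Sum.elim
    (fun j => if i = j then 0 else
      (B (Sum.inl i) (Sum.inl j) - lam0 j * A (Sum.inl i) (Sum.inl j)) / (lam0 i - lam0 j))
    (fun j => A (Sum.inl i) (Sum.inr j) - dx j (Sum.inl i)) with hdy
  set dl : Fin M → ℂ := fun j =>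
    B (Sum.inl j) (Sum.inr j) - lam0 j * A (Sum.inl j) (Sum.inr j) with hdl
  set K1 : (Fin M ⊕ Fin M) → (Fin M ⊕ Fin M) → ℂ := fun a b =>
      Sum.elim (fun _ => 0) (fun i => dx i a) b + Sum.elim (fun i => dy i b) (fun _ => 0) a with hK1
  set K2 : (Fin M ⊕ Fin M) → (Fin M ⊕ Fin M) → ℂ := fun a b =>
      Sum.elim (fun i => Sum.elim (fun _ => 0) (fun j => if i = j then dl i else 0) b)
        (fun _ => 0) a +
      (Sum.elim (fun _ => 0) (fun i => lam0 i * dx i a) b +
        Sum.elim (fun i => lam0 i * dy i b) (fun _ => 0) a) with hK2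
  have hne : ∀ i j, i ≠ j → lam0 i - lam0 j ≠ 0 := by
    intro i j hij h
    exact hij (hinj (sub_eq_zero.mp h))
  have hAs : ∀ a b, A b a = - A a b := by intro a b; simp [hA]
  have hBs : ∀ a b, B b a = - B a b := by intro a b; simp [hB]
  have e1 : ∀ a b, K1 a b - K1 b a = A a b := by
    intro a b
    cases a with
    | inl i =>
      cases b with
      | inl j =>
        simp only [hK1, Sum.elim_inl, hdy]
        by_cases hij : i = j
        · subst hij; simp [hA]
        · have hji : ¬ j = i := fun h => hij h.symm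
          have h1 := hne i j hij
          have h2 := hne j i hji
          simp only [hij, hji, if_false]
          rw [hAs (Sum.inl i) (Sum.inl j), hBs (Sum.inl i) (Sum.inl j)]
          field_simp
          ring
      | inr j =>
        simp only [hK1, Sum.elim_inl, Sum.elim_inr, hdy]
        ring
    | inr i =>
      cases b with
      | inl j =>
        simp only [hK1, Sum.elim_inl, Sum.elim_inr, hdy]
        rw [hAs (Sum.inl j) (Sum.inr i)]
        ring
      | inr j =>
        simp only [hK1, Sum.elim_inr, hdx]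
        by_cases hij : i = j
        · subst hij; simp [hA]
        · have hji : ¬ j = i := fun h => hij h.symm
          have h1 := hne i j hij
          have h2 := hne j i hji
          simp only [hij, hji, if_false, hox, Sum.elim_inr]
          rw [hAs (Sum.inr i) (Sum.inr j), hBs (Sum.inr i) (Sum.inr j)]
          field_simp
          ring
  have e2 : ∀ a b, K2 a b - K2 b a = B a b := by
    intro a b
    cases a with
    | inl i =>
      cases b with
      | inl j =>
        simp only [hK2, Sum.elim_inl, hdy]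
        by_cases hij : i = j
        · subst hij; simp [hB]
        · have hji : ¬ j = i := fun h => hij h.symm
          have h1 := hne i j hij
          have h2 := hne j i hji
          simp only [hij, hji, if_false]
          rw [hAs (Sum.inl i) (Sum.inl j), hBs (Sum.inl i) (Sum.inl j)]
          field_simp
          ring
      | inr j =>
        simp only [hK2, Sum.elim_inl, Sum.elim_inr, hdy, hdl]
        by_cases hij : i = j
        · subst hij; simp only [if_true]; ring
        · have hji : ¬ j = i := fun h => hij h.symm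
          have h2 := hne j i hji
          simp only [hij, if_false, hdx, Sum.elim_inl, hox]
          field_simp
          ring
    | inr i =>
      cases b with
      | inl j =>
        simp only [hK2, Sum.elim_inl, Sum.elim_inr, hdy, hdl]
        rw [hBs (Sum.inl j) (Sum.inr i)]
        by_cases hij : j = i
        · subst hij; simp only [if_true]; ring
        · have hji : ¬ i = j := fun h => hij h.symm
          have h2 := hne i j hji
          simp only [hij, if_false, hdx, Sum.elim_inl, hox]
          field_simp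
          ring
      | inr j =>
        simp only [hK2, Sum.elim_inr, hdx]
        by_cases hij : i = j
        · subst hij; simp [hB]
        · have hji : ¬ j = i := fun h => hij h.symm
          have h1 := hne i j hij
          have h2 := hne j i hji
          simp only [hij, hji, if_false, hox, Sum.elim_inr]
          rw [hAs (Sum.inr i) (Sum.inr j), hBs (Sum.inr i) (Sum.inr j)]
          field_simp
          ring
  refine ⟨(dx, dy, dl, fun a b => (F a b - K1 a b) / 2, fun a b => (G a b - K2 a b) / 2), ?_⟩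
  rw [deriv_line]
  refine Prod.ext ?_ (Prod.ext ?_ ?_)
  · funext a b
    simp only
    rw [K1_eval]
    have := e1 a b
    change K1 a b + (F a b - K1 a b) / 2 + (F b a - K1 b a) / 2 = F a b
    simp only [hA] at this
    linear_combination this / 2
  · funext a b
    simp only
    rw [K2_eval]
    have := e2 a b
    change K2 a b + (G a b - K2 a b) / 2 + (G b a - K2 b a) / 2 = G a b
    simp only [hB] at this
    linear_combination this / 2
  · funext a
    simp only
    cases a with
    | inl i =>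
      rw [← Finset.add_sum_erase _ _ (Finset.mem_univ i)]
      have hsum : ∑ x ∈ Finset.univ.erase i, dx x (Sum.inl i) =
          ∑ k ∈ Finset.univ.erase i, ox k (Sum.inl i) := by
        apply Finset.sum_congr rfl
        intro j hj
        have : ¬ i = j := fun h => (Finset.ne_of_mem_erase hj) h.symm
        simp [hdx, this]
      rw [hsum]
      simp only [hdx, Sum.elim_inl, if_true]
      ring
    | inr i =>
      rw [← Finset.add_sum_erase _ _ (Finset.mem_univ i)]
      have hsum : ∑ x ∈ Finset.univ.erase i, dx x (Sum.inr i) =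
          ∑ k ∈ Finset.univ.erase i, ox k (Sum.inr i) := by
        apply Finset.sum_congr rfl
        intro j hj
        have : ¬ i = j := fun h => (Finset.ne_of_mem_erase hj) h.symm
        simp [hdx, this]
      rw [hsum]
      simp only [hdx, Sum.elim_inr, if_true]
      ring

end IftPairsAux

/-- Local solvability near the base point (inverse function theorem with surjective derivative). -/
theorem ift_pairs (M : ℕ) (lam0 : Fin M → ℂ) (hinj : Function.Injective lam0)
    (F G : (Fin M ⊕ Fin M) → (Fin M ⊕ Fin M) → ℂ) (t : (Fin M ⊕ Fin M) → ℂ)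
    (N : Set ((Fin M → (Fin M ⊕ Fin M) → ℂ) × (Fin M → (Fin M ⊕ Fin M) → ℂ) × (Fin M → ℂ)))
    (hN : N ∈ 𝓝 ((fun j => Pi.single (Sum.inl j) 1, fun j => Pi.single (Sum.inr j) 1, lam0) :
      (Fin M → (Fin M ⊕ Fin M) → ℂ) × (Fin M → (Fin M ⊕ Fin M) → ℂ) × (Fin M → ℂ))) :
    ∀ᶠ e : ℂ in 𝓝 0, ∃ x y : Fin M → (Fin M ⊕ Fin M) → ℂ, ∃ lam : Fin M → ℂ, (x, y, lam) ∈ N ∧
      ∃ S1 S2 : (Fin M ⊕ Fin M) → (Fin M ⊕ Fin M) → ℂ,
      (∀ a b, ∑ j, x j a * y j b + S1 a b + S1 b a =
        ∑ j, (Pi.single (Sum.inl j) 1 : (Fin M ⊕ Fin M) → ℂ) a *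
          (Pi.single (Sum.inr j) 1 : (Fin M ⊕ Fin M) → ℂ) b + e * F a b) ∧
      (∀ a b, ∑ j, lam j * (x j a * y j b) + S2 a b + S2 b a =
        ∑ j, lam0 j * ((Pi.single (Sum.inl j) 1 : (Fin M ⊕ Fin M) → ℂ) a *
          (Pi.single (Sum.inr j) 1 : (Fin M ⊕ Fin M) → ℂ) b) + e * G a b) ∧
      (∀ a, ∑ j, x j a = ∑ j, (Pi.single (Sum.inl j) 1 : (Fin M ⊕ Fin M) → ℂ) a + e * t a) := by
  have hs : HasStrictFDerivAt (IftPairsAux.Psi M)
      (fderiv ℂ (IftPairsAux.Psi M) (IftPairsAux.p0 M lam0)) (IftPairsAux.p0 M lam0) := by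
    have h1 := (IftPairsAux.contDiff_Psi M).contDiffAt (x := IftPairsAux.p0 M lam0)
    exact h1.hasStrictFDerivAt (by norm_num)
  have hr : (fderiv ℂ (IftPairsAux.Psi M) (IftPairsAux.p0 M lam0)).range = ⊤ := by
    rw [LinearMap.range_eq_top]
    rintro ⟨F', G', t'⟩
    exact IftPairsAux.surj M lam0 hinj F' G' t'
  have hm := hs.map_nhds_eq_of_surj hr
  -- the neighbourhood in the big space
  have hN' : {p : IftPairsAux.PP M | (p.1, p.2.1, p.2.2.1) ∈ N} ∈ 𝓝 (IftPairsAux.p0 M lam0) := by
    have hc : Continuous (fun p : IftPairsAux.PP M => (p.1, p.2.1, p.2.2.1)) := by fun_prop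
    exact hc.continuousAt.preimage_mem_nhds hN
  have himg := Filter.image_mem_map (m := IftPairsAux.Psi M) hN'
  rw [hm] at himg
  have hcont : Continuous (fun e : ℂ => IftPairsAux.Psi M (IftPairsAux.p0 M lam0) +
      e • ((F, G, t) : IftPairsAux.QQ M)) := by fun_prop
  have htend : Tendsto (fun e : ℂ => IftPairsAux.Psi M (IftPairsAux.p0 M lam0) +
      e • ((F, G, t) : IftPairsAux.QQ M)) (𝓝 0) (𝓝 (IftPairsAux.Psi M (IftPairsAux.p0 M lam0))) := by
    have := hcont.tendsto 0
    simpa using this
  filter_upwards [htend himg] with e he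
  obtain ⟨⟨x, y, lam, S1, S2⟩, hp, hpe⟩ := he
  refine ⟨x, y, lam, hp, S1, S2, ?_, ?_, ?_⟩
  · intro a b
    have := congrFun (congrFun (congrArg (fun q : IftPairsAux.QQ M => q.1) hpe) a) b
    simpa [IftPairsAux.Psi, IftPairsAux.p0, IftPairsAux.x0, IftPairsAux.y0] using this
  · intro a b
    have := congrFun (congrFun (congrArg (fun q : IftPairsAux.QQ M => q.2.1) hpe) a) b
    simpa [IftPairsAux.Psi, IftPairsAux.p0, IftPairsAux.x0, IftPairsAux.y0] using this
  · intro a
    have := congrFun (congrArg (fun q : IftPairsAux.QQ M => q.2.2) hpe) a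
    simpa [IftPairsAux.Psi, IftPairsAux.p0, IftPairsAux.x0, IftPairsAux.y0] using this

end Pool.Agent.Helper213.Ift
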