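import Mathlib
import Pool.Agent.Helper213.Elim

set_option autoImplicit false
set_option linter.unusedSectionVars false

namespace Pool.Agent.Helper213.Params

open Finset Walk Fock Elim Filter Topology

variable {A : Type} [Ring A] [Algebra ℂ A] (F : FD A)

/-- weak convergence -/
def WT {β : Type} (l : Filter β) (f : β → A) (a : A) : Prop :=
  ∀ ψ : A →ₗ[ℂ] ℂ, Tendsto (fun t => ψ (f t)) l (𝓝 (ψ a))

variable {β : Type} {l : Filter β}

theorem WT_const (a : A) : WT l (fun _ => a) a := fun _ => tendsto_const_nhds

theorem WT_vX {n : ℕ} {c : β → ℕ → ℂ} {c' : ℕ → ℂ} {f : β → A} {a : A}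
    (hc : ∀ j < n, Tendsto (fun t => c t j) l (𝓝 (c' j))) (hf : WT l f a) :
    WT l (fun t => vX F n (c t) * f t) (vX F n c' * a) := by
  intro ψ
  simp only [vX, Finset.sum_mul, smul_mul_assoc, map_sum, map_smul, smul_eq_mul]
  refine tendsto_finsetSum _ (fun j hj => ?_)
  exact (hc j (mem_range.1 hj)).mul (hf (ψ ∘ₗ LinearMap.mulLeft ℂ (F.X j)))

theorem WT_vY {n : ℕ} {c : β → ℕ → ℂ} {c' : ℕ → ℂ} {f : β → A} {a : A}
    (hc : ∀ j < n, Tendsto (fun t => c t j) l (𝓝 (c' j))) (hf : WT l f a) :
    WT l (fun t => vY F n (c t) * f t) (vY F n c' * a) := by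
  intro ψ
  simp only [vY, Finset.sum_mul, smul_mul_assoc, map_sum, map_smul, smul_eq_mul]
  refine tendsto_finsetSum _ (fun j hj => ?_)
  exact (hc j (mem_range.1 hj)).mul (hf (ψ ∘ₗ LinearMap.mulLeft ℂ (F.Y j)))

theorem WT_mul {f : β → A} {a : A} (x : A) (hf : WT l f a) :
    WT l (fun t => x * f t) (x * a) := fun ψ => hf (ψ ∘ₗ LinearMap.mulLeft ℂ x)

theorem WT_XP (n : ℕ) {C : β → ℕ → ℕ → ℕ → ℂ} {C' : ℕ → ℕ → ℕ → ℂ} {f : β → A} {a : A}
    (hf : WT l f a) : ∀ {s : List St},
    (∀ i m, m < np s i → ∀ j < n, Tendsto (fun t => C t i m j) l (𝓝 (C' i m j))) →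
    WT l (fun t => XP F n (C t) s * f t) (XP F n C' s * a)
  | [], _ => by simpa only [XP, one_mul] using hf
  | St.u :: s, h => by
    simp only [XP, mul_assoc]
    refine WT_vX F (fun j hj => h _ _ (by simp [np]) j hj) (WT_XP n hf ?_)
    intro i m hm j hj
    refine h i m ?_ j hj
    simp only [np]; split_ifs <;> omega
  | St.d :: s, h => by
    simp only [XP]; exact WT_XP n hf (s := s) h
  | St.q :: s, h => by
    simp only [XP, mul_assoc]; exact WT_mul _ (WT_XP n hf (s := s) h)
  | St.p :: s, h => by
    simp only [XP]; exact WT_XP n hf (s := s) h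

theorem WT_QP (n : ℕ) {C : β → ℕ → ℕ → ℕ → ℂ} {C' : ℕ → ℕ → ℕ → ℂ} {fl : Bool} {h : ℕ} :
    ∀ {s : List St}, Good fl h s →
    (∀ i m, m < nm s i → ∀ j < n, Tendsto (fun t => C t i m j) l (𝓝 (C' i m j))) →
    WT l (fun t => QP F n (C t) s) (QP F n C' s)
  | [], _, _ => by simp only [QP]; exact WT_const 1
  | St.d :: s, hs, h => by
    simp only [QP]
    have h1 := hs.2
    refine WT_vY F (fun j hj => h _ _ (by simp only [nm]; rw [if_pos (by omega)]; omega) j hj)
      (WT_QP n hs.1 ?_)
    intro i m hm j hj
    refine h i m ?_ j hj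
    simp only [nm]; split_ifs <;> omega
  | St.u :: s, hs, h => by
    simp only [QP]; exact WT_QP n hs.1 (s := s) h
  | St.q :: s, hs, h => by
    simp only [QP]; exact WT_mul _ (WT_QP n hs.1 (s := s) h)
  | St.p :: s, hs, h => by
    simp only [QP]; exact WT_QP n hs.1 (s := s) h

theorem WT_EE (n : ℕ) {C : β → ℕ → ℕ → ℕ → ℂ} {C' : ℕ → ℕ → ℕ → ℂ} {fl : Bool} {h : ℕ}
    {s : List St} (hs : Good fl h s)
    (hC : ∀ i m, (m < np s i ∨ m < nm s i) → ∀ j < n,
      Tendsto (fun t => C t i m j) l (𝓝 (C' i m j))) :
    WT l (fun t => EE F n (C t) s) (EE F n C' s) :=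
  WT_XP F n (WT_QP F n hs (fun i m hm j hj => hC i m (Or.inr hm) j hj))
    (fun i m hm j hj => hC i m (Or.inl hm) j hj)

/-- a nonsingular limit is nonsingular nearby -/
theorem NS_open (fl : Bool) (h k a : ℕ) (Mt : β → List St → List St → ℂ)
    (M0 : List St → List St → ℂ) (r : β → List St → ℂ) (hr : ∀ t s, r t s ≠ 0)
    (hlim : ∀ t ∈ T fl h k a, ∀ s ∈ T fl h k a,
      Tendsto (fun b => r b s * Mt b t s) l (𝓝 (M0 t s)))
    (h0 : NS fl h k a M0) : ∀ᶠ b in l, NS fl h k a (Mt b) := by
  classical
  set D : β → Matrix ↥(T fl h k a) ↥(T fl h k a) ℂ :=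
    fun b => Matrix.of (fun t s => r b s.1 * Mt b t.1 s.1) with hD
  set D0 : Matrix ↥(T fl h k a) ↥(T fl h k a) ℂ := Matrix.of (fun t s => M0 t.1 s.1) with hD0
  have hdet0 : D0.det ≠ 0 := by
    intro hz
    obtain ⟨v, hv, hv2⟩ := Matrix.exists_mulVec_eq_zero_iff.2 hz
    apply hv
    have := h0 (fun s => if hs : s ∈ T fl h k a then v ⟨s, hs⟩ else 0) (by
      intro t ht
      have h1 := congrFun hv2 ⟨t, ht⟩
      simp only [Matrix.mulVec, dotProduct, hD0, Matrix.of_apply, Pi.zero_apply] at h1
      rw [← h1, ← Finset.sum_coe_sort]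
      refine Finset.sum_congr rfl (fun s _ => ?_)
      rw [dif_pos s.2, mul_comm])
    funext s
    have h2 := this s.1 s.2
    rw [dif_pos s.2] at h2
    exact h2
  have hlimD : Tendsto (fun b => (D b).det) l (𝓝 D0.det) := by
    have hc : Continuous (fun M : Matrix ↥(T fl h k a) ↥(T fl h k a) ℂ => M.det) :=
      continuous_id.matrix_det
    refine (hc.tendsto D0).comp ?_
    exact tendsto_pi_nhds.2 (fun t => tendsto_pi_nhds.2 (fun s => hlim t.1 t.2 s.1 s.2))
  filter_upwards [hlimD.eventually_ne hdet0] with b hb
  intro c hc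
  by_contra hne
  push Not at hne
  obtain ⟨s0, hs0, hcs0⟩ := hne
  apply hb
  refine Matrix.exists_mulVec_eq_zero_iff.1 ⟨fun s => c s.1 / r b s.1, ?_, ?_⟩
  · intro hz
    have := congrFun hz ⟨s0, hs0⟩
    simp only [Pi.zero_apply] at this
    exact hcs0 ((div_eq_zero_iff.1 this).resolve_right (hr _ _))
  · funext t
    simp only [Matrix.mulVec, dotProduct, hD, Matrix.of_apply, Pi.zero_apply]
    rw [← hc t.1 t.2, ← Finset.sum_coe_sort (T fl h k a) (fun s => c s * Mt b t.1 s)]
    refine Finset.sum_congr rfl (fun s _ => ?_)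
    have := hr b s.1
    field_simp

/-- the coefficient array of a walk -/
noncomputable def coef (lam mu : ℕ → ℂ) (s : List St) (i l j : ℕ) : ℂ :=
  if j ∈ U s i then lam j ^ l * (∏ m ∈ ms s i, (lam j - mu m))⁻¹ else 0

theorem coef_congr {lam mu lam' mu' : ℕ → ℂ} (s : List St) (h1 : ∀ j < s.length, lam j = lam' j)
    (h2 : ∀ j < s.length, mu j = mu' j) : coef lam mu s = coef lam' mu' s := by
  funext i l j
  unfold coef
  split_ifs with hj
  · rw [h1 j (U_lt s i j hj)]
    congr 2
    exact Finset.prod_congr rfl (fun m hm => by rw [h2 m (ms_lt s i m hm)])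
  · rfl

theorem coef_supp {lam mu : ℕ → ℂ} (s : List St) (i l j : ℕ) (hj : s.length ≤ j) :
    coef lam mu s i l j = 0 := by
  unfold coef
  rw [if_neg]
  intro h
  have := U_lt s i j h
  omega

theorem coef_cons {lam mu : ℕ → ℂ} {s' s : List St} {i l j : ℕ}
    (hU : j ∈ U s' i ↔ j ∈ U s i) (hm : ms s' i = ms s i) :
    coef lam mu s' i l j = coef lam mu s i l j := by
  simp only [coef, hU, hm]

theorem coef_pos {lam mu : ℕ → ℂ} {s : List St} {i l j : ℕ} (hU : j ∈ U s i) :
    coef lam mu s i l j = lam j ^ l * (∏ m ∈ ms s i, (lam j - mu m))⁻¹ := by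
  simp only [coef, hU, if_true]

theorem coef_neg {lam mu : ℕ → ℂ} {s : List St} {i l j : ℕ} (hU : j ∉ U s i) :
    coef lam mu s i l j = 0 := by
  simp only [coef, hU, if_false]

/-- the limit array -/
noncomputable def Cinf (lam mu : ℕ → ℂ) (k : ℕ) : List St → ℕ → ℕ → ℕ → ℂ
  | [] => fun _ _ _ => 0
  | St.u :: s => fun i l j => if i = ht s ∧ l = np s i then (if j = k then 1 else 0)
      else coef lam mu s i l j
  | St.d :: s => fun i l j => if i + 1 = ht s ∧ j = k then (if l = nm s i then 1 else 0)
      else coef lam mu s i l j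
  | St.q :: s => coef lam mu s
  | St.p :: s => fun i l j => if i + 1 = ht s ∧ j = k then (if l = nm s i then 1 else 0)
      else coef lam mu s i l j

theorem Lim_Cinf (fl : Bool) (h n k : ℕ) (lam mu : ℕ → ℂ) :
    Lim fl h n k (coef lam mu) (Cinf lam mu k) where
  supp := fun s hs _ i l => coef_supp s i l k hs.le
  u1 := by
    intro s hs hg j hj
    simp only [Cinf, and_self, if_true]
  u2 := by
    intro s hs hg i l hl j hj
    simp only [Cinf]
    rw [if_neg]
    rintro ⟨rfl, rfl⟩
    have := np_eq hg (ht s)
    omega
  q2 := by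
    intro s hs hg i l j hj
    simp only [Cinf]
  p2 := by
    intro s hs hg i l hl j hj hjk
    simp only [Cinf]
    rw [if_neg (fun h => hjk h.2)]
  p3 := by
    intro s hs hg i l hl j hj
    simp only [Cinf]
    by_cases hc : i + 1 = ht s ∧ j = k
    · rw [if_pos hc, if_neg (by omega), hc.2, coef_supp s i l k hs.le]
    · rw [if_neg hc]
  d1 := by
    intro s hs hg h1
    simp only [Cinf]
    rw [if_pos ⟨by omega, trivial⟩, if_pos trivial]
  d2 := by
    intro s hs hg i l hl j hj hjk
    simp only [Cinf]
    rw [if_neg (fun h => hjk h.2)]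
  d3 := by
    intro s hs hg i l hl j hj
    simp only [Cinf]
    by_cases hc : i + 1 = ht s ∧ j = k
    · rw [if_pos hc, if_neg (by omega), hc.2, coef_supp s i l k hs.le]
    · rw [if_neg hc]

/-! ### limits of rational expressions -/

section limits
variable {x : β → ℂ} (hx : ∀ t, x t ≠ 0) (hy : Tendsto (fun t => (x t)⁻¹) l (𝓝 0))
include hx hy

theorem lim_a (c : ℂ) : Tendsto (fun t => x t ^ 2 * (x t ^ 2 - c)⁻¹) l (𝓝 1) := by
  have h1 : ∀ t, x t ^ 2 * (x t ^ 2 - c)⁻¹ = (1 - c * ((x t)⁻¹) ^ 2)⁻¹ := by
    intro t
    have h := hx t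
    rw [← inv_inv (x t ^ 2), ← mul_inv, inv_inv (x t ^ 2)]
    congr 1
    field_simp
  simp_rw [h1]
  have h2 : Tendsto (fun t => (1 - c * ((x t)⁻¹) ^ 2)) l (𝓝 (1 - c * 0 ^ 2)) :=
    tendsto_const_nhds.sub ((hy.pow 2).const_mul c)
  have h3 := h2.inv₀ (by norm_num)
  simpa using h3

theorem lim_b (S : Finset ℕ) (mu : ℕ → ℂ) :
    Tendsto (fun t => (x t ^ 2) ^ S.card * (∏ m ∈ S, (x t ^ 2 - mu m))⁻¹) l (𝓝 1) := by
  have h1 : ∀ t, (x t ^ 2) ^ S.card * (∏ m ∈ S, (x t ^ 2 - mu m))⁻¹ =
      ∏ m ∈ S, (x t ^ 2 * (x t ^ 2 - mu m)⁻¹) := by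
    intro t
    rw [Finset.prod_mul_distrib, Finset.prod_const, Finset.prod_inv_distrib]
  simp_rw [h1]
  have h2 := tendsto_finsetProd (x := l) (a := fun _ => (1 : ℂ)) S
    (f := fun m t => x t ^ 2 * (x t ^ 2 - mu m)⁻¹) (fun m _ => lim_a hx hy (mu m))
  simpa using h2

theorem lim_c (S : Finset ℕ) (mu : ℕ → ℂ) (e : ℕ) (he : e ≤ S.card) :
    Tendsto (fun t => (x t ^ 2) ^ e * (∏ m ∈ S, (x t ^ 2 - mu m))⁻¹) l
      (𝓝 (if e = S.card then 1 else 0)) := by
  split_ifs with h0
  · rw [h0]; exact lim_b hx hy S mu
  · obtain ⟨r, hr⟩ : ∃ r, S.card = e + (r + 1) := ⟨S.card - e - 1, by omega⟩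
    have h1 : ∀ t, (x t ^ 2) ^ e * (∏ m ∈ S, (x t ^ 2 - mu m))⁻¹ =
        (((x t)⁻¹) ^ 2) ^ (r + 1) * ((x t ^ 2) ^ S.card * (∏ m ∈ S, (x t ^ 2 - mu m))⁻¹) := by
      intro t
      rw [← mul_assoc, hr]
      congr 1
      have h := hx t
      rw [pow_add (x t ^ 2) e (r + 1), mul_comm ((x t ^ 2) ^ e), ← mul_assoc, ← mul_pow, inv_pow,
        inv_mul_cancel₀ (pow_ne_zero 2 h), one_pow, one_mul]
    simp_rw [h1]
    have h2 := (((hy.pow 2).pow (r + 1))).mul (lim_b hx hy S mu)
    simpa using h2

theorem lim_d : Tendsto (fun t => x t ^ 2 * (x t ^ 2 - x t)⁻¹) l (𝓝 1) := by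
  have h1 : ∀ t, x t ^ 2 * (x t ^ 2 - x t)⁻¹ = (1 - (x t)⁻¹)⁻¹ := by
    intro t
    have h := hx t
    rw [← inv_inv (x t ^ 2), ← mul_inv, inv_inv (x t ^ 2)]
    congr 1
    field_simp
  simp_rw [h1]
  have h2 : Tendsto (fun t => (1 - (x t)⁻¹)) l (𝓝 (1 - 0)) := tendsto_const_nhds.sub hy
  have h3 := h2.inv₀ (by norm_num)
  simpa using h3

theorem lim_e : Tendsto (fun t => (- x t) * (x t ^ 2 - x t)⁻¹) l (𝓝 0) := by
  have h1 : ∀ t, (- x t) * (x t ^ 2 - x t)⁻¹ = -(x t)⁻¹ * (x t ^ 2 * (x t ^ 2 - x t)⁻¹) := by
    intro t
    have h := hx t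
    rw [← mul_assoc]
    congr 1
    field_simp
  simp_rw [h1]
  have h2 := hy.neg.mul (lim_d hx hy)
  simpa using h2

theorem lim_f (c : ℂ) : Tendsto (fun t => (- x t) * (c - x t)⁻¹) l (𝓝 1) := by
  have h1 : ∀ t, (- x t) * (c - x t)⁻¹ = (1 - c * (x t)⁻¹)⁻¹ := by
    intro t
    have h := hx t
    rw [← inv_inv (- x t), ← mul_inv]
    congr 1
    field_simp
    ring
  simp_rw [h1]
  have h2 : Tendsto (fun t => (1 - c * (x t)⁻¹)) l (𝓝 (1 - c * 0)) :=
    tendsto_const_nhds.sub (hy.const_mul c)
  have h3 := h2.inv₀ (by norm_num)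
  simpa using h3

theorem lim_g (c : ℂ) : Tendsto (fun t => (c - x t)⁻¹) l (𝓝 0) := by
  have h1 : ∀ t, (c - x t)⁻¹ = -(x t)⁻¹ * ((- x t) * (c - x t)⁻¹) := by
    intro t
    have h := hx t
    rw [← mul_assoc, neg_mul_neg, inv_mul_cancel₀ h, one_mul]
  rw [show (fun t => (c - x t)⁻¹) = (fun t => -(x t)⁻¹ * ((- x t) * (c - x t)⁻¹)) from funext h1]
  have h2 := hy.neg.mul (lim_f hx hy c)
  simpa using h2

end limits

/-- the scaling factors -/
noncomputable def rsc (x : ℂ) : List St → ℕ → ℕ → ℂ
  | St.u :: s => fun i l => if i = ht s ∧ l < np s i then -x else 1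
  | _ => fun _ _ => 1

theorem rsc_ne {x : ℂ} (hx : x ≠ 0) (s : List St) (i l : ℕ) : rsc x s i l ≠ 0 := by
  match s with
  | [] => exact one_ne_zero
  | St.u :: s =>
    simp only [rsc]
    split_ifs
    · exact neg_ne_zero.2 hx
    · exact one_ne_zero
  | St.d :: s => exact one_ne_zero
  | St.q :: s => exact one_ne_zero
  | St.p :: s => exact one_ne_zero

theorem prod_up {mu : ℕ → ℂ} {k : ℕ} {z : ℂ} {S : Finset ℕ} (hS : ∀ m ∈ S, m < k) (w : ℂ) :
    ∏ m ∈ S, (w - Function.update mu k z m) = ∏ m ∈ S, (w - mu m) := by
  refine Finset.prod_congr rfl (fun m hm => ?_)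
  rw [Function.update_of_ne (by have := hS m hm; omega)]

theorem coef_up (lam mu : ℕ → ℂ) (y z : ℂ) (s : List St) :
    coef (Function.update lam s.length y) (Function.update mu s.length z) s = coef lam mu s := by
  apply coef_congr
  · intro j hj; rw [Function.update_of_ne (by omega)]
  · intro j hj; rw [Function.update_of_ne (by omega)]

theorem coef_limit {fl : Bool} {h : ℕ} (lam mu : ℕ → ℂ) {x : β → ℂ} (hx : ∀ t, x t ≠ 0)
    (hy : Tendsto (fun t => (x t)⁻¹) l (𝓝 0)) (k : ℕ) (s : List St) (hs : s.length = k + 1)
    (hg : Good fl h s) (i m : ℕ) (hm : m < np s i ∨ m < nm s i) (j : ℕ) :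
    Tendsto (fun t => rsc (x t) s i m *
      coef (Function.update lam k (x t ^ 2)) (Function.update mu k (x t)) s i m j) l
      (𝓝 (Cinf lam mu k s i m j)) := by
  match s, hs, hg, hm with
  | St.q :: s, hs, hg, hm =>
    have hk : s.length = k := by simpa using hs
    subst hk
    simp only [rsc, one_mul, Cinf]
    have : ∀ t, coef (Function.update lam s.length (x t ^ 2)) (Function.update mu s.length (x t))
        (St.q :: s) i m j = coef lam mu s i m j := by
      intro t
      rw [← coef_up lam mu (x t ^ 2) (x t) s]
      rfl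
    simp_rw [this]
    exact tendsto_const_nhds
  | St.d :: s, hs, hg, hm =>
    have hk : s.length = k := by simpa using hs
    subst hk
    simp only [rsc, one_mul, Cinf]
    have h1 := hg.2
    have hnp := np_eq hg.1 i
    have hcard := card_ms s i
    by_cases hi : i + 1 = ht s
    · by_cases hj : j = s.length
      · subst hj
        rw [if_pos ⟨hi, rfl⟩]
        have e1 : ∀ t, coef (Function.update lam s.length (x t ^ 2))
            (Function.update mu s.length (x t)) (St.d :: s) i m s.length =
            (x t ^ 2) ^ m * (∏ r ∈ ms s i, (x t ^ 2 - mu r))⁻¹ := by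
          intro t
          unfold coef
          rw [if_pos (by simp only [U]; rw [if_pos hi]; exact mem_insert_self _ _),
            Function.update_self]
          simp only [ms]
          rw [prod_up (fun m hm => ms_lt s i m hm)]
        simp_rw [e1]
        have hm2 : m ≤ (ms s i).card := by
          simp only [np, nm] at hm
          rw [if_pos hi] at hm
          omega
        have h3 := lim_c hx hy (ms s i) mu m hm2
        have h4 : (m = (ms s i).card) ↔ (m = nm s i) := by omega
        simp only [h4] at h3
        exact h3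
      · rw [if_neg (fun h => hj h.2)]
        have e1 : ∀ t, coef (Function.update lam s.length (x t ^ 2))
            (Function.update mu s.length (x t)) (St.d :: s) i m j = coef lam mu s i m j := by
          intro t
          rw [← coef_up lam mu (x t ^ 2) (x t) s]
          exact coef_cons (by simp only [U]; rw [if_pos hi]; simp [hj]) rfl
        simp_rw [e1]
        exact tendsto_const_nhds
    · rw [if_neg (fun h => hi h.1)]
      have e1 : ∀ t, coef (Function.update lam s.length (x t ^ 2))
          (Function.update mu s.length (x t)) (St.d :: s) i m j = coef lam mu s i m j := by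
        intro t
        rw [← coef_up lam mu (x t ^ 2) (x t) s]
        exact coef_cons (by simp only [U]; rw [if_neg hi]) rfl
      simp_rw [e1]
      exact tendsto_const_nhds
  | St.p :: s, hs, hg, hm =>
    have hk : s.length = k := by simpa using hs
    subst hk
    simp only [rsc, one_mul, Cinf]
    have hnp := np_eq hg.1 i
    have hcard := card_ms s i
    by_cases hi : i + 1 = ht s
    · by_cases hj : j = s.length
      · subst hj
        rw [if_pos ⟨hi, rfl⟩]
        have e1 : ∀ t, coef (Function.update lam s.length (x t ^ 2))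
            (Function.update mu s.length (x t)) (St.p :: s) i m s.length =
            (x t ^ 2) ^ m * (∏ r ∈ ms s i, (x t ^ 2 - mu r))⁻¹ := by
          intro t
          unfold coef
          rw [if_pos (by simp only [U]; rw [if_pos hi]; exact mem_insert_self _ _),
            Function.update_self]
          simp only [ms]
          rw [prod_up (fun m hm => ms_lt s i m hm)]
        simp_rw [e1]
        have hm2 : m ≤ (ms s i).card := by
          simp only [np, nm] at hm
          omega
        have h3 := lim_c hx hy (ms s i) mu m hm2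
        have h4 : (m = (ms s i).card) ↔ (m = nm s i) := by omega
        simp only [h4] at h3
        exact h3
      · rw [if_neg (fun h => hj h.2)]
        have e1 : ∀ t, coef (Function.update lam s.length (x t ^ 2))
            (Function.update mu s.length (x t)) (St.p :: s) i m j = coef lam mu s i m j := by
          intro t
          rw [← coef_up lam mu (x t ^ 2) (x t) s]
          exact coef_cons (by simp only [U]; rw [if_pos hi]; simp [hj]) rfl
        simp_rw [e1]
        exact tendsto_const_nhds
    · rw [if_neg (fun h => hi h.1)]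
      have e1 : ∀ t, coef (Function.update lam s.length (x t ^ 2))
          (Function.update mu s.length (x t)) (St.p :: s) i m j = coef lam mu s i m j := by
        intro t
        rw [← coef_up lam mu (x t ^ 2) (x t) s]
        exact coef_cons (by simp only [U]; rw [if_neg hi]) rfl
      simp_rw [e1]
      exact tendsto_const_nhds
  | St.u :: s, hs, hg, hm =>
    have hk : s.length = k := by simpa using hs
    subst hk
    have hnp := np_eq hg.1 i
    have hcard := card_ms s i
    simp only [np, nm] at hm
    by_cases hi : i = ht s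
    · rw [if_pos hi] at hm
      by_cases hnp0 : 1 ≤ np s i
      · -- reopening
        have hlt : s.length ∉ ms s i := fun h => lt_irrefl _ (ms_lt s i _ h)
        by_cases hj : j = s.length
        · subst hj
          have e1 : ∀ t, coef (Function.update lam s.length (x t ^ 2))
              (Function.update mu s.length (x t)) (St.u :: s) i m s.length =
              (x t ^ 2) ^ m * ((x t ^ 2 - x t)⁻¹ * (∏ r ∈ ms s i, (x t ^ 2 - mu r))⁻¹) := by
            intro t
            unfold coef
            rw [if_pos (by simp only [U]; rw [if_pos hi]; exact mem_insert_self _ _),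
              Function.update_self]
            simp only [ms]
            rw [if_pos ⟨hi, hnp0⟩, prod_insert hlt, Function.update_self,
              prod_up (fun m hm => ms_lt s i m hm), mul_inv]
          simp_rw [e1]
          by_cases hm1 : m = np s i
          · -- the new slot
            simp only [rsc, Cinf]
            rw [if_pos ⟨hi, hm1⟩, if_pos trivial]
            have e2 : ∀ t, (if i = ht s ∧ m < np s i then -x t else 1) *
                ((x t ^ 2) ^ m * ((x t ^ 2 - x t)⁻¹ * (∏ r ∈ ms s i, (x t ^ 2 - mu r))⁻¹)) =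
                (x t ^ 2 * (x t ^ 2 - x t)⁻¹) *
                ((x t ^ 2) ^ (ms s i).card * (∏ r ∈ ms s i, (x t ^ 2 - mu r))⁻¹) := by
              intro t
              rw [if_neg (by omega), one_mul]
              have : m = (ms s i).card + 1 := by omega
              rw [this, pow_succ]
              ring
            simp_rw [e2]
            have := (lim_d hx hy).mul (lim_b hx hy (ms s i) mu)
            simpa using this
          · have hm2 : m < np s i := by omega
            simp only [rsc, Cinf]
            rw [if_neg (fun h => hm1 h.2), coef_supp s i m _ le_rfl]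
            have e2 : ∀ t, (if i = ht s ∧ m < np s i then -x t else 1) *
                ((x t ^ 2) ^ m * ((x t ^ 2 - x t)⁻¹ * (∏ r ∈ ms s i, (x t ^ 2 - mu r))⁻¹)) =
                ((-x t) * (x t ^ 2 - x t)⁻¹) *
                ((x t ^ 2) ^ m * (∏ r ∈ ms s i, (x t ^ 2 - mu r))⁻¹) := by
              intro t
              rw [if_pos ⟨hi, hm2⟩]
              ring
            simp_rw [e2]
            have := (lim_e hx hy).mul (lim_c hx hy (ms s i) mu m (by omega))
            simpa using this
        · by_cases hjU : j ∈ U s i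
          · have hjlt := U_lt s i j hjU
            have e1 : ∀ t, coef (Function.update lam s.length (x t ^ 2))
                (Function.update mu s.length (x t)) (St.u :: s) i m j =
                (lam j - x t)⁻¹ * coef lam mu s i m j := by
              intro t
              unfold coef
              rw [if_pos (by simp only [U]; rw [if_pos hi]; exact mem_insert_of_mem hjU),
                if_pos hjU, Function.update_of_ne (by omega)]
              simp only [ms]
              rw [if_pos ⟨hi, hnp0⟩, prod_insert hlt, Function.update_self,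
                prod_up (fun m hm => ms_lt s i m hm), mul_inv]
              ring
            simp_rw [e1]
            by_cases hm1 : m = np s i
            · simp only [rsc, Cinf]
              rw [if_pos ⟨hi, hm1⟩, if_neg hj]
              have e2 : ∀ t, (if i = ht s ∧ m < np s i then -x t else 1) *
                  ((lam j - x t)⁻¹ * coef lam mu s i m j) =
                  (lam j - x t)⁻¹ * coef lam mu s i m j := by
                intro t
                rw [if_neg (by omega), one_mul]
              simp_rw [e2]
              have := (lim_g hx hy (lam j)).mul_const (coef lam mu s i m j)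
              simpa using this
            · have hm2 : m < np s i := by omega
              simp only [rsc, Cinf]
              rw [if_neg (fun h => hm1 h.2)]
              have e2 : ∀ t, (if i = ht s ∧ m < np s i then -x t else 1) *
                  ((lam j - x t)⁻¹ * coef lam mu s i m j) =
                  ((-x t) * (lam j - x t)⁻¹) * coef lam mu s i m j := by
                intro t
                rw [if_pos ⟨hi, hm2⟩]
                ring
              simp_rw [e2]
              have := (lim_f hx hy (lam j)).mul_const (coef lam mu s i m j)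
              simpa using this
          · have e1 : ∀ t, coef (Function.update lam s.length (x t ^ 2))
                (Function.update mu s.length (x t)) (St.u :: s) i m j = 0 := by
              intro t
              unfold coef
              rw [if_neg]
              simp only [U]
              rw [if_pos hi]
              simp only [mem_insert, hj, hjU, or_self, not_false_eq_true]
            have e3 : Cinf lam mu s.length (St.u :: s) i m j = 0 := by
              simp only [Cinf]
              split_ifs
              · rfl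
              · unfold coef; rw [if_neg hjU]
            simp_rw [e1, mul_zero]
            rw [e3]
            exact tendsto_const_nhds
      · -- new block
        have hn0 : np s i = 0 := by omega
        have hU0 : U s i = ∅ := U_empty hg.1 i hn0
        have hm0 : m = 0 := by omega
        have hms : ms s i = ∅ := by
          rw [← Finset.card_eq_zero]; omega
        have e3 : Cinf lam mu s.length (St.u :: s) i m j = if j = s.length then 1 else 0 := by
          simp only [Cinf]
          rw [if_pos ⟨hi, by omega⟩]
        have e1 : ∀ t, rsc (x t) (St.u :: s) i m * coef (Function.update lam s.length (x t ^ 2))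
            (Function.update mu s.length (x t)) (St.u :: s) i m j =
            if j = s.length then 1 else 0 := by
          intro t
          simp only [rsc]
          rw [if_neg (by omega), one_mul]
          have hUU : U (St.u :: s) i = {s.length} := by
            simp only [U]; rw [if_pos hi, hU0]; rfl
          have hmm : ms (St.u :: s) i = ∅ := by
            simp only [ms]; rw [if_neg (fun h => hnp0 h.2), hms]
          by_cases hj : j = s.length
          · rw [if_pos hj, coef_pos (by rw [hUU, hj]; exact mem_singleton_self _), hmm, hm0]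
            simp
          · rw [if_neg hj, coef_neg (by rw [hUU, mem_singleton]; exact hj)]
        simp_rw [e1]
        rw [e3]
        exact tendsto_const_nhds
    · rw [if_neg hi] at hm
      have e3 : Cinf lam mu s.length (St.u :: s) i m j = coef lam mu s i m j := by
        simp only [Cinf]
        rw [if_neg (fun h => hi h.1)]
      have e1 : ∀ t, rsc (x t) (St.u :: s) i m * coef (Function.update lam s.length (x t ^ 2))
          (Function.update mu s.length (x t)) (St.u :: s) i m j = coef lam mu s i m j := by
        intro t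
        simp only [rsc]
        rw [if_neg (fun h => hi h.1), one_mul]
        rw [← coef_up lam mu (x t ^ 2) (x t) s]
        exact coef_cons (by simp only [U]; rw [if_neg hi])
          (by simp only [ms]; rw [if_neg (fun h => hi h.1)])
      simp_rw [e1]
      rw [e3]
      exact tendsto_const_nhds

/-- distinctness of the parameters -/
def Dist (k : ℕ) (lam mu : ℕ → ℂ) : Prop :=
  (∀ i < k, ∀ j < k, i ≠ j → lam i ≠ lam j) ∧ (∀ i < k, ∀ j < k, lam i ≠ mu j)

/-- the system of a set of parameters -/
noncomputable def Sys (n : ℕ) (lam mu : ℕ → ℂ) : List St → List St → ℂ :=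
  fun t s => Phi F t (EE F n (coef lam mu s) s)

theorem exists_params (fl : Bool) (h n : ℕ) : ∀ k ≤ n, ∃ lam mu : ℕ → ℂ, Dist k lam mu ∧
    ∀ a, NS fl h k a (Sys F n lam mu) := by
  intro k
  induction k with
  | zero =>
    intro _
    refine ⟨fun _ => 0, fun _ => 0, ⟨fun i hi => absurd hi (by omega), fun i hi => absurd hi (by omega)⟩, ?_⟩
    intro a c hc s hs
    simp only [T] at hc hs
    split_ifs at hc hs with h0
    · simp only [mem_singleton] at hs
      subst hs
      have := hc [] (mem_singleton_self _)
      simpa [Sys, Phi, EE, XP, QP, F.eps_one] using this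
    · simp at hs
  | succ k ih =>
    intro hk
    obtain ⟨lam, mu, hD, hN⟩ := ih (by omega)
    set x : ℕ → ℂ := fun t => (t : ℂ) + 1 with hxdef
    have hx : ∀ t, x t ≠ 0 := fun t => Nat.cast_add_one_ne_zero t
    have hnorm : Tendsto (fun t => ‖x t‖) atTop atTop := by
      have e : ∀ t : ℕ, ‖x t‖ = (t : ℝ) + 1 := by
        intro t
        have : x t = ((t + 1 : ℕ) : ℂ) := by simp [hxdef]
        rw [this, Complex.norm_natCast]
        push_cast
        ring
      simp_rw [e]
      exact tendsto_atTop_add_const_right _ _ tendsto_natCast_atTop_atTop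
    have hy : Tendsto (fun t => (x t)⁻¹) atTop (𝓝 0) := by
      rw [tendsto_zero_iff_norm_tendsto_zero]
      simp_rw [norm_inv]
      exact hnorm.inv_tendsto_atTop
    have hne : ∀ c : ℂ, ∀ᶠ t in atTop, x t ≠ c := by
      intro c
      filter_upwards [hnorm.eventually_gt_atTop ‖c‖] with t ht heq
      rw [heq] at ht
      exact lt_irrefl _ ht
    have hne2 : ∀ c : ℂ, ∀ᶠ t in atTop, x t ^ 2 ≠ c := by
      intro c
      have : Tendsto (fun t => ‖x t ^ 2‖) atTop atTop := by
        simp_rw [norm_pow]
        exact (tendsto_pow_atTop two_ne_zero).comp hnorm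
      filter_upwards [this.eventually_gt_atTop ‖c‖] with t ht heq
      rw [heq] at ht
      exact lt_irrefl _ ht
    set L : ℕ → ℕ → ℂ := fun t => Function.update lam k (x t ^ 2)
    set Mm : ℕ → ℕ → ℂ := fun t => Function.update mu k (x t)
    -- distinctness
    have hdist : ∀ᶠ t in atTop, Dist (k + 1) (L t) (Mm t) := by
      have h1 : ∀ᶠ t in atTop, ∀ j ∈ Finset.range k, x t ^ 2 ≠ lam j := by
        rw [Filter.eventually_all_finset]
        exact fun j _ => hne2 _
      have h2 : ∀ᶠ t in atTop, ∀ j ∈ Finset.range k, x t ^ 2 ≠ mu j := by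
        rw [Filter.eventually_all_finset]
        exact fun j _ => hne2 _
      have h3 : ∀ᶠ t in atTop, ∀ j ∈ Finset.range k, x t ≠ lam j := by
        rw [Filter.eventually_all_finset]
        exact fun j _ => hne _
      filter_upwards [h1, h2, h3, hne 1] with t h1 h2 h3 h4
      have h5 : x t ^ 2 ≠ x t := by
        intro h
        have : x t * (x t - 1) = 0 := by linear_combination h
        rcases mul_eq_zero.1 this with h6 | h6
        · exact hx t h6
        · exact h4 (sub_eq_zero.1 h6)
      constructor
      · intro i hi j hj hij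
        by_cases hik : i = k
        · subst hik
          simp only [L]
          rw [Function.update_self, Function.update_of_ne (Ne.symm hij)]
          exact h1 j (mem_range.2 (by omega))
        · by_cases hjk : j = k
          · subst hjk
            simp only [L]
            rw [Function.update_self, Function.update_of_ne hij]
            exact (h1 i (mem_range.2 (by omega))).symm
          · simp only [L]
            rw [Function.update_of_ne hik, Function.update_of_ne hjk]
            exact hD.1 i (by omega) j (by omega) hij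
      · intro i hi j hj
        by_cases hik : i = k
        · by_cases hjk : j = k
          · simp only [L, Mm]
            rw [hik, hjk, Function.update_self, Function.update_self]
            exact h5
          · simp only [L, Mm]
            rw [hik, Function.update_self, Function.update_of_ne hjk]
            exact h2 j (mem_range.2 (by omega))
        · by_cases hjk : j = k
          · simp only [L, Mm]
            rw [hjk, Function.update_self, Function.update_of_ne hik]
            exact (h3 i (mem_range.2 (by omega))).symm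
          · simp only [L, Mm]
            rw [Function.update_of_ne hik, Function.update_of_ne hjk]
            exact hD.2 i (by omega) j (by omega)
    -- nonsingularity for each height
    have hstep := NS_step (F := F) (Lim_Cinf fl h n k lam mu) (by omega) hN
    have hNS : ∀ a, ∀ᶠ t in atTop, NS fl h (k + 1) a (Sys F n (L t) (Mm t)) := by
      intro a
      have hsc : ∀ t s, ∃ r : ℂ, r ≠ 0 ∧
          EE F n (fun i l j => rsc (x t) s i l * coef (L t) (Mm t) s i l j) s =
            r • EE F n (coef (L t) (Mm t) s) s := by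
        intro t s
        obtain ⟨r1, h1, h2⟩ := XP_smul F n (coef (L t) (Mm t) s) (rsc (x t) s)
          (rsc_ne (hx t) s) s
        obtain ⟨r2, h3, h4⟩ := QP_smul F n (coef (L t) (Mm t) s) (rsc (x t) s)
          (rsc_ne (hx t) s) s
        refine ⟨r1 * r2, mul_ne_zero h1 h3, ?_⟩
        unfold EE
        rw [h2, h4, smul_mul_assoc, mul_smul_comm, smul_smul]
      choose r hr1 hr2 using hsc
      refine NS_open fl h (k + 1) a _ _ r hr1 ?_ (hstep a)
      intro t ht s hs
      obtain ⟨s1, s2, s3⟩ := mem_T.1 hs
      have hW := WT_EE F n (l := atTop) s2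
        (C := fun t i l j => rsc (x t) s i l * coef (L t) (Mm t) s i l j)
        (C' := Cinf lam mu k s)
        (fun i m hm j _ => coef_limit lam mu hx hy k s s1 s2 i m hm j) (Phi F t)
      refine hW.congr (fun b => ?_)
      have h5 := congrArg (Phi F t) (hr2 b s)
      rw [map_smul, smul_eq_mul] at h5
      exact h5
    have hNS2 : ∀ᶠ t in atTop, ∀ a ∈ Finset.range (k + 2), NS fl h (k + 1) a (Sys F n (L t) (Mm t)) := by
      rw [Filter.eventually_all_finset]
      exact fun a _ => hNS a
    obtain ⟨t, h1, h2⟩ := (hdist.and hNS2).exists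
    refine ⟨L t, Mm t, h1, ?_⟩
    intro a
    by_cases ha : a < k + 2
    · exact h2 a (mem_range.2 ha)
    · intro c hc s hs
      obtain ⟨s1, s2, s3⟩ := mem_T.1 hs
      have := ht_le_length s
      omega

/-- stability of nonsingularity under small changes of the points -/
theorem NS_nhds (fl : Bool) (h n a : ℕ) (lam mu : ℕ → ℂ) (hD : Dist n lam mu)
    (hN : NS fl h n a (Sys F n lam mu)) {lamt : β → ℕ → ℂ}
    (hl : ∀ j < n, Tendsto (fun t => lamt t j) l (𝓝 (lam j))) :
    ∀ᶠ t in l, NS fl h n a (Sys F n (lamt t) mu) := by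
  refine NS_open fl h n a _ _ (fun _ _ => 1) (fun _ _ => one_ne_zero) ?_ hN
  intro t ht s hs
  obtain ⟨s1, s2, s3⟩ := mem_T.1 hs
  simp only [one_mul]
  refine WT_EE F n s2 (C := fun b => coef (lamt b) mu s) (C' := coef lam mu s) ?_ (Phi F t)
  intro i m _ j hj
  unfold coef
  split_ifs with hjU
  · refine ((hl j hj).pow m).mul (Tendsto.inv₀ ?_ ?_)
    · exact tendsto_finsetProd _ (fun r hr => (hl j hj).sub tendsto_const_nhds)
    · rw [Finset.prod_ne_zero_iff]
      intro r hr
      have := ms_lt s i r hr
      exact sub_ne_zero.2 (hD.2 j (by omega) r (by omega))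
  · exact tendsto_const_nhds

end Pool.Agent.Helper213.Params
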