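import Mathlib
import Pool.Agent.Helper213.Params

set_option autoImplicit false
set_option linter.unusedSectionVars false

namespace Pool.Agent.Helper213.Kill

open Finset Walk Fock Elim Params

variable {A : Type} [Ring A] [Algebra ℂ A] (F : FD A)

/-- positions of the q loops -/
def QL : List St → Finset ℕ
  | [] => ∅
  | St.u :: s => QL s
  | St.d :: s => QL s
  | St.q :: s => insert s.length (QL s)
  | St.p :: s => QL s

theorem QL_lt : ∀ (s : List St) (j : ℕ), j ∈ QL s → j < s.length
  | [], j, hj => by simp [QL] at hj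
  | St.u :: s, j, hj => by have := QL_lt s j hj; simp only [List.length_cons]; omega
  | St.d :: s, j, hj => by have := QL_lt s j hj; simp only [List.length_cons]; omega
  | St.p :: s, j, hj => by have := QL_lt s j hj; simp only [List.length_cons]; omega
  | St.q :: s, j, hj => by
    simp only [QL, mem_insert] at hj
    simp only [List.length_cons]
    rcases hj with h | h
    · omega
    · have := QL_lt s j h; omega

/-- the derivation sending `Y j` to `c j • X j` -/
noncomputable def DD (n : ℕ) (c : ℕ → ℂ) : A →ₗ[ℂ] A :=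
  ∑ j ∈ range n, c j • (LinearMap.mulLeft ℂ (F.X j) ∘ₗ F.dY j)

theorem DD_apply (n : ℕ) (c : ℕ → ℂ) (a : A) :
    DD F n c a = ∑ j ∈ range n, c j • (F.X j * F.dY j a) := by
  simp [DD, LinearMap.sum_apply]

theorem DD_vX (n : ℕ) (c w : ℕ → ℂ) (b : A) : DD F n c (vX F n w * b) = vX F n w * DD F n c b := by
  rw [DD_apply, DD_apply, Finset.mul_sum]
  refine Finset.sum_congr rfl (fun j _ => ?_)
  rw [dY_vX, mul_neg, ← mul_assoc, X_vX, mul_smul_comm, neg_mul, neg_neg, mul_assoc]

theorem DD_X (n k : ℕ) (c : ℕ → ℂ) (b : A) : DD F n c (F.X k * b) = F.X k * DD F n c b := by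
  rw [DD_apply, DD_apply, Finset.mul_sum]
  refine Finset.sum_congr rfl (fun j _ => ?_)
  rw [F.dYX, mul_neg, ← mul_assoc, F.XX, mul_smul_comm, neg_mul, neg_neg, mul_assoc]

theorem DD_vY (n : ℕ) (c w : ℕ → ℂ) (b : A) :
    DD F n c (vY F n w * b) = vX F n (fun j => c j * w j) * b + vY F n w * DD F n c b := by
  rw [DD_apply, DD_apply, Finset.mul_sum, vX, Finset.sum_mul, ← Finset.sum_add_distrib]
  refine Finset.sum_congr rfl (fun j hj => ?_)
  rw [dY_vY, if_pos (mem_range.1 hj), mul_sub, ← mul_assoc (F.X j) (vY F n w), X_vY, neg_mul,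
    sub_neg_eq_add, smul_add, mul_smul_comm, smul_smul, smul_mul_assoc, mul_smul_comm, mul_assoc]

theorem DD_Y (n k : ℕ) (hk : k < n) (c : ℕ → ℂ) (b : A) :
    DD F n c (F.Y k * b) = c k • (F.X k * b) + F.Y k * DD F n c b := by
  rw [DD_apply, DD_apply, Finset.mul_sum]
  have h1 : ∀ j ∈ range n, c j • (F.X j * F.dY j (F.Y k * b)) =
      (if j = k then c j • (F.X j * b) else 0) + F.Y k * c j • (F.X j * F.dY j b) := by
    intro j _
    rw [F.dYY, mul_sub, ← mul_assoc (F.X j) (F.Y k), F.XY, neg_mul, sub_neg_eq_add, smul_add,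
      mul_smul_comm, mul_assoc]
    congr 1
    split_ifs <;> simp
  rw [Finset.sum_congr rfl h1, Finset.sum_add_distrib, Finset.sum_ite_eq', if_pos (mem_range.2 hk)]

theorem DD_one (n : ℕ) (c : ℕ → ℂ) : DD F n c 1 = 0 := by
  rw [DD_apply]
  exact Finset.sum_eq_zero (fun j _ => by rw [F.dY_one, mul_zero, smul_zero])

theorem DD_XP (n : ℕ) (c : ℕ → ℂ) (C : ℕ → ℕ → ℕ → ℂ) (b : A) : ∀ s : List St,
    DD F n c (XP F n C s * b) = XP F n C s * DD F n c b
  | [] => by simp only [XP, one_mul]
  | St.u :: s => by simp only [XP]; rw [mul_assoc, DD_vX, DD_XP n c C b s, mul_assoc]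
  | St.d :: s => by simp only [XP]; exact DD_XP n c C b s
  | St.q :: s => by simp only [XP]; rw [mul_assoc, DD_X, DD_XP n c C b s, mul_assoc]
  | St.p :: s => by simp only [XP]; exact DD_XP n c C b s

/-! ### commuting vectors through `XP` -/

theorem XP_vX (n : ℕ) (w : ℕ → ℂ) (C : ℕ → ℕ → ℕ → ℂ) : ∀ s : List St,
    XP F n C s * vX F n w = (-1 : ℂ) ^ nx s • (vX F n w * XP F n C s)
  | [] => by simp [XP, nx]
  | St.u :: s => by
    simp only [XP, nx]
    rw [mul_assoc, XP_vX n w C s, mul_smul_comm, ← mul_assoc, vX_vX, neg_mul, pow_succ]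
    simp [mul_assoc]
  | St.d :: s => XP_vX n w C s
  | St.q :: s => by
    simp only [XP, nx]
    rw [mul_assoc, XP_vX n w C s, mul_smul_comm, ← mul_assoc, X_vX, neg_mul, pow_succ]
    simp [mul_assoc]
  | St.p :: s => XP_vX n w C s

theorem XP_vY (n : ℕ) (w : ℕ → ℂ) (C : ℕ → ℕ → ℕ → ℂ) : ∀ s : List St,
    XP F n C s * vY F n w = (-1 : ℂ) ^ nx s • (vY F n w * XP F n C s)
  | [] => by simp [XP, nx]
  | St.u :: s => by
    simp only [XP, nx]
    rw [mul_assoc, XP_vY n w C s, mul_smul_comm, ← mul_assoc, vX_vY, neg_mul, pow_succ]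
    simp [mul_assoc]
  | St.d :: s => XP_vY n w C s
  | St.q :: s => by
    simp only [XP, nx]
    rw [mul_assoc, XP_vY n w C s, mul_smul_comm, ← mul_assoc, X_vY, neg_mul, pow_succ]
    simp [mul_assoc]
  | St.p :: s => XP_vY n w C s

theorem vX_X (n i : ℕ) (c : ℕ → ℂ) : vX F n c * F.X i = - (F.X i * vX F n c) := by
  rw [X_vX, neg_neg]

theorem XP_X (n k : ℕ) (C : ℕ → ℕ → ℕ → ℂ) : ∀ s : List St,
    XP F n C s * F.X k = (-1 : ℂ) ^ nx s • (F.X k * XP F n C s)
  | [] => by simp [XP, nx]
  | St.u :: s => by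
    simp only [XP, nx]
    rw [mul_assoc, XP_X n k C s, mul_smul_comm, ← mul_assoc, vX_X, neg_mul, pow_succ]
    simp [mul_assoc]
  | St.d :: s => XP_X n k C s
  | St.q :: s => by
    simp only [XP, nx]
    rw [mul_assoc, XP_X n k C s, mul_smul_comm, ← mul_assoc, F.XX, neg_mul, pow_succ]
    simp [mul_assoc]
  | St.p :: s => XP_X n k C s

theorem XP_Y (n k : ℕ) (C : ℕ → ℕ → ℕ → ℂ) : ∀ s : List St,
    XP F n C s * F.Y k = (-1 : ℂ) ^ nx s • (F.Y k * XP F n C s)
  | [] => by simp [XP, nx]
  | St.u :: s => by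
    simp only [XP, nx]
    rw [mul_assoc, XP_Y n k C s, mul_smul_comm, ← mul_assoc, vX_Y, neg_mul, pow_succ]
    simp [mul_assoc]
  | St.d :: s => XP_Y n k C s
  | St.q :: s => by
    simp only [XP, nx]
    rw [mul_assoc, XP_Y n k C s, mul_smul_comm, ← mul_assoc, F.XY, neg_mul, pow_succ]
    simp [mul_assoc]
  | St.p :: s => XP_Y n k C s

/-! ### annihilation by the slots -/

theorem slot_kill (n : ℕ) (C : ℕ → ℕ → ℕ → ℂ) : ∀ (s : List St) (i l : ℕ), l < np s i →
    vX F n (C i l) * XP F n C s = 0
  | [], i, l, h => by simp [np] at h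
  | St.u :: s, i, l, h => by
    simp only [np] at h
    simp only [XP]
    by_cases hi : i = ht s ∧ l = np s (ht s)
    · rw [hi.1, hi.2, ← mul_assoc, vX_sq, zero_mul]
    · have h2 : l < np s i := by
        by_cases h3 : i = ht s
        · rw [if_pos h3] at h
          have : l ≠ np s (ht s) := fun h4 => hi ⟨h3, h4⟩
          rw [← h3] at this
          omega
        · rw [if_neg h3] at h; exact h
      rw [← mul_assoc, vX_vX, neg_mul, mul_assoc, slot_kill n C s i l h2, mul_zero, neg_zero]
  | St.d :: s, i, l, h => slot_kill n C s i l h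
  | St.q :: s, i, l, h => by
    simp only [XP]
    rw [← mul_assoc, vX_X, neg_mul, mul_assoc, slot_kill n C s i l h, mul_zero, neg_zero]
  | St.p :: s, i, l, h => slot_kill n C s i l h

theorem loop_kill (n : ℕ) (C : ℕ → ℕ → ℕ → ℂ) : ∀ (s : List St) (k : ℕ), k ∈ QL s →
    F.X k * XP F n C s = 0
  | [], k, h => by simp [QL] at h
  | St.u :: s, k, h => by
    simp only [XP]
    rw [← mul_assoc, X_vX, neg_mul, mul_assoc, loop_kill n C s k h, mul_zero, neg_zero]
  | St.d :: s, k, h => loop_kill n C s k h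
  | St.q :: s, k, h => by
    simp only [QL, mem_insert] at h
    simp only [XP]
    rcases h with h | h
    · rw [h, ← mul_assoc, F.Xsq, zero_mul]
    · rw [← mul_assoc, F.XX, neg_mul, mul_assoc, loop_kill n C s k h, mul_zero, neg_zero]
  | St.p :: s, k, h => loop_kill n C s k h

/-- the derivation kills the Y part up to the X part -/
theorem DD_QP (n : ℕ) (c : ℕ → ℂ) (C : ℕ → ℕ → ℕ → ℂ) (s0 : List St) {fl : Bool} {h : ℕ} :
    ∀ s : List St, Good fl h s → s.length ≤ n →
    (∀ i l, l < nm s i → ∀ b, XP F n C s0 * (vX F n (fun j => c j * C i l j) * b) = 0) →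
    (∀ k ∈ QL s, ∀ b, XP F n C s0 * (F.X k * b) = 0) →
    XP F n C s0 * DD F n c (QP F n C s) = 0
  | [], _, _, _, _ => by simp only [QP]; rw [DD_one, mul_zero]
  | St.u :: s, hg, hn, h1, h2 => by
    simp only [List.length_cons] at hn
    simp only [QP]; exact DD_QP n c C s0 s hg.1 (by omega) h1 h2
  | St.d :: s, hg, hn, h1, h2 => by
    simp only [List.length_cons] at hn
    have hh := hg.2
    simp only [QP]
    rw [DD_vY, mul_add, h1 (ht s - 1) (nm s (ht s - 1)) (by
      simp only [nm]; rw [if_pos (by omega)]; omega), zero_add, ← mul_assoc, XP_vY,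
      smul_mul_assoc, mul_assoc, DD_QP n c C s0 s hg.1 (by omega) (fun i l hl => h1 i l (by
        simp only [nm]; split_ifs <;> omega)) h2, mul_zero, smul_zero]
  | St.q :: s, hg, hn, h1, h2 => by
    simp only [List.length_cons] at hn
    simp only [QP]
    rw [DD_Y F n s.length (by omega), mul_add, mul_smul_comm, h2 s.length (by simp [QL]),
      smul_zero, zero_add, ← mul_assoc, XP_Y, smul_mul_assoc, mul_assoc,
      DD_QP n c C s0 s hg.1 (by omega) h1 (fun k hk => h2 k (by simp [QL, hk])), mul_zero,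
      smul_zero]
  | St.p :: s, hg, hn, h1, h2 => by
    simp only [List.length_cons] at hn
    simp only [QP]; exact DD_QP n c C s0 s hg.1 (by omega) h1 h2

theorem XP_vX_kill (n : ℕ) (C : ℕ → ℕ → ℕ → ℂ) (s : List St) (i l : ℕ) (hl : l < np s i) (b : A) :
    XP F n C s * (vX F n (C i l) * b) = 0 := by
  rw [← mul_assoc, XP_vX, smul_mul_assoc, slot_kill F n C s i l hl, zero_mul, smul_zero]

theorem XP_X_kill (n : ℕ) (C : ℕ → ℕ → ℕ → ℂ) (s : List St) (k : ℕ) (hk : k ∈ QL s) (b : A) :
    XP F n C s * (F.X k * b) = 0 := by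
  rw [← mul_assoc, XP_X, smul_mul_assoc, loop_kill F n C s k hk, zero_mul, smul_zero]

/-- the complete walk elements are killed by the first derivation -/
theorem kill_f (n : ℕ) (lam mu : ℕ → ℂ) {fl : Bool} {h : ℕ} {s : List St} (hg : Good fl h s)
    (hn : s.length ≤ n) :
    DD F n (fun _ => 1) (EE F n (coef lam mu s) s) = 0 := by
  unfold EE
  rw [DD_XP]
  refine DD_QP F n _ _ s s hg hn ?_ (fun k hk b => XP_X_kill F n _ s k hk b)
  intro i l hl b
  simp only [one_mul]
  refine XP_vX_kill F n (coef lam mu s) s i l ?_ b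
  have := np_eq hg i
  omega

/-- the complete walk elements are killed by the second derivation -/
theorem kill_g (n : ℕ) (lam mu : ℕ → ℂ) {fl : Bool} {h : ℕ} {s : List St} (hg : Good fl h s)
    (hn : s.length ≤ n) (hh : ht s = h) :
    DD F n lam (EE F n (coef lam mu s) s) = 0 := by
  unfold EE
  rw [DD_XP]
  refine DD_QP F n _ _ s s hg hn ?_ (fun k hk b => XP_X_kill F n _ s k hk b)
  intro i l hl b
  have e : (fun j => lam j * coef lam mu s i l j) = coef lam mu s i (l + 1) := by
    funext j
    unfold coef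
    split_ifs
    · rw [pow_succ]; ring
    · rw [mul_zero]
  rw [e]
  refine XP_vX_kill F n (coef lam mu s) s i (l + 1) ?_ b
  have h1 := np_eq hg i
  by_cases h2 : i < h
  · omega
  · have := np_zero hg i (by omega)
    omega

/-! ### the linear relation -/

theorem sum_split (f : ℕ → A) {fl : Bool} {h : ℕ} : ∀ s : List St, Good fl h s → NoP s →
    ∑ j ∈ range s.length, f j = (∑ i ∈ range h, ∑ j ∈ U s i, f j) + ∑ j ∈ QL s, f j
  | [], _, _ => by simp [U, QL]
  | St.u :: s, hg, hp => by
    have ih := sum_split f s hg.1 hp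
    have hh := hg.2
    have hnot : ∀ i, s.length ∉ U s i := fun i hi => lt_irrefl _ (U_lt s i _ hi)
    have e : ∀ i ∈ range h, ∑ j ∈ U (St.u :: s) i, f j =
        (∑ j ∈ U s i, f j) + (if i = ht s then f s.length else 0) := by
      intro i _
      simp only [U]
      split_ifs
      · rw [sum_insert (hnot i), add_comm]
      · rw [add_zero]
    rw [List.length_cons, sum_range_succ, ih, Finset.sum_congr rfl e, Finset.sum_add_distrib,
      Finset.sum_ite_eq', if_pos (mem_range.2 (by omega))]
    simp only [QL]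
    abel
  | St.d :: s, hg, hp => by
    have ih := sum_split f s hg.1 hp
    have hh := hg.2
    have hh2 := ht_le hg.1
    have hnot : ∀ i, s.length ∉ U s i := fun i hi => lt_irrefl _ (U_lt s i _ hi)
    have e : ∀ i ∈ range h, ∑ j ∈ U (St.d :: s) i, f j =
        (∑ j ∈ U s i, f j) + (if i = ht s - 1 then f s.length else 0) := by
      intro i _
      simp only [U]
      by_cases hi : i + 1 = ht s
      · rw [if_pos hi, if_pos (by omega), sum_insert (hnot i), add_comm]
      · rw [if_neg hi, if_neg (by omega), add_zero]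
    rw [List.length_cons, sum_range_succ, ih, Finset.sum_congr rfl e, Finset.sum_add_distrib,
      Finset.sum_ite_eq', if_pos (mem_range.2 (by omega))]
    simp only [QL]
    abel
  | St.q :: s, hg, hp => by
    have ih := sum_split f s hg.1 hp
    have hnot : s.length ∉ QL s := fun hi => lt_irrefl _ (QL_lt s _ hi)
    rw [List.length_cons, sum_range_succ, ih]
    simp only [U, QL]
    rw [sum_insert hnot]
    abel
  | St.p :: s, hg, hp => by
    have ih := sum_split f s hg.1 hp.1
    have hh := hp.2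
    have hh2 := ht_le hg.1
    have hnot : ∀ i, s.length ∉ U s i := fun i hi => lt_irrefl _ (U_lt s i _ hi)
    have e : ∀ i ∈ range h, ∑ j ∈ U (St.p :: s) i, f j =
        (∑ j ∈ U s i, f j) + (if i = ht s - 1 then f s.length else 0) := by
      intro i _
      simp only [U]
      by_cases hi : i + 1 = ht s
      · rw [if_pos hi, if_pos (by omega), sum_insert (hnot i), add_comm]
      · rw [if_neg hi, if_neg (by omega), add_zero]
    rw [List.length_cons, sum_range_succ, ih, Finset.sum_congr rfl e, Finset.sum_add_distrib,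
      Finset.sum_ite_eq', if_pos (mem_range.2 (by omega))]
    simp only [QL]
    abel

theorem block_sum (n : ℕ) (lam mu : ℕ → ℂ) (s : List St) (hn : s.length ≤ n) (hD : Dist n lam mu)
    {fl : Bool} {h : ℕ} (hg : Good fl h s) (i : ℕ) :
    ∃ g : ℕ → ℂ, ∑ j ∈ U s i, F.X j = ∑ l ∈ range (np s i), g l • vX F n (coef lam mu s i l) := by
  by_cases hnp : np s i = 0
  · refine ⟨fun _ => 0, ?_⟩
    rw [U_empty hg i hnp, hnp]
    simp
  · set P : Polynomial ℂ := ∏ m ∈ ms s i, (Polynomial.X - Polynomial.C (mu m)) with hP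
    have hdeg : P.natDegree < np s i := by
      rw [hP, Polynomial.natDegree_prod_of_monic _ _ (fun m _ => Polynomial.monic_X_sub_C _)]
      simp only [Polynomial.natDegree_X_sub_C, sum_const, smul_eq_mul, mul_one]
      rw [card_ms]
      omega
    refine ⟨fun l => P.coeff l, ?_⟩
    have hev : ∀ z : ℂ, ∑ l ∈ range (np s i), P.coeff l * z ^ l = ∏ m ∈ ms s i, (z - mu m) := by
      intro z
      rw [← Polynomial.eval_eq_sum_range' hdeg, hP, Polynomial.eval_prod]
      simp
    unfold vX
    simp only [Finset.smul_sum, smul_smul]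
    rw [Finset.sum_comm]
    have h1 : ∀ j ∈ range n, ∑ l ∈ range (np s i), (P.coeff l * coef lam mu s i l j) • F.X j =
        if j ∈ U s i then F.X j else 0 := by
      intro j hj
      rw [← Finset.sum_smul]
      split_ifs with hjU
      · have h2 : ∑ l ∈ range (np s i), P.coeff l * coef lam mu s i l j = 1 := by
          have h3 : ∀ l ∈ range (np s i), P.coeff l * coef lam mu s i l j =
              (P.coeff l * lam j ^ l) * (∏ m ∈ ms s i, (lam j - mu m))⁻¹ := by
            intro l _
            rw [coef_pos hjU]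
            ring
          rw [Finset.sum_congr rfl h3, ← Finset.sum_mul, hev]
          refine mul_inv_cancel₀ ?_
          rw [Finset.prod_ne_zero_iff]
          intro r hr
          have h4 := ms_lt s i r hr
          exact sub_ne_zero.2 (hD.2 j (mem_range.1 hj) r (by omega))
        rw [h2, one_smul]
      · have h2 : ∑ l ∈ range (np s i), P.coeff l * coef lam mu s i l j = 0 :=
          Finset.sum_eq_zero (fun l _ => by rw [coef_neg hjU, mul_zero])
        rw [h2, zero_smul]
    rw [Finset.sum_congr rfl h1, ← Finset.sum_filter]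
    refine Finset.sum_congr ?_ (fun _ _ => rfl)
    ext j
    simp only [mem_filter, mem_range]
    constructor
    · intro hj
      exact ⟨by have := U_lt s i j hj; omega, hj⟩
    · exact fun h => h.2

/-- the complete walk elements without `p` loops at height zero are killed by the linear form -/
theorem kill_th (n : ℕ) (lam mu : ℕ → ℂ) (hD : Dist n lam mu) {fl : Bool} {h : ℕ} {s : List St}
    (hg : Good fl h s) (hn : s.length = n) (hp : NoP s) :
    (∑ j ∈ range n, F.X j) * EE F n (coef lam mu s) s = 0 := by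
  have h1 := sum_split (A := A) F.X s hg hp
  rw [hn] at h1
  rw [h1]
  unfold EE
  rw [← mul_assoc, add_mul, Finset.sum_mul, Finset.sum_mul]
  have h2 : ∑ i ∈ range h, (∑ j ∈ U s i, F.X j) * XP F n (coef lam mu s) s = 0 := by
    refine Finset.sum_eq_zero (fun i _ => ?_)
    obtain ⟨g, hgg⟩ := block_sum F n lam mu s hn.le hD hg i
    rw [hgg, Finset.sum_mul]
    refine Finset.sum_eq_zero (fun l hl => ?_)
    rw [smul_mul_assoc, slot_kill F n _ s i l (mem_range.1 hl), smul_zero]
  have h3 : ∑ j ∈ QL s, F.X j * XP F n (coef lam mu s) s = 0 :=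
    Finset.sum_eq_zero (fun j hj => loop_kill F n _ s j hj)
  rw [h2, h3, add_zero, zero_mul]

end Pool.Agent.Helper213.Kill
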