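import Mathlib
import Pool.Agent.Helper213.Kill

set_option autoImplicit false
set_option linter.unusedSectionVars false

namespace Pool.Agent.Helper213.Rep

open Finset Walk Fock Elim Params Kill

/-- the space of generators -/
abbrev Wn : Type := (ℕ ⊕ ℕ) →₀ ℂ

/-- the Fock algebra -/
abbrev AA : Type := ExteriorAlgebra ℂ Wn

/-- contraction -/
noncomputable def ctr (d : Module.Dual ℂ Wn) : AA →ₗ[ℂ] AA :=
  CliffordAlgebra.contractLeft (Q := (0 : QuadraticForm ℂ Wn)) d

theorem ctr_mul (d : Module.Dual ℂ Wn) (v : Wn) (a : AA) :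
    ctr d (ExteriorAlgebra.ι ℂ v * a) = d v • a - ExteriorAlgebra.ι ℂ v * ctr d a :=
  CliffordAlgebra.contractLeft_ι_mul (Q := (0 : QuadraticForm ℂ Wn)) (d := d) v a

theorem ctr_ctr (d : Module.Dual ℂ Wn) (a : AA) : ctr d (ctr d a) = 0 :=
  CliffordAlgebra.contractLeft_contractLeft (Q := (0 : QuadraticForm ℂ Wn)) (d := d) a

theorem ctr_comm (d d' : Module.Dual ℂ Wn) (a : AA) : ctr d (ctr d' a) = - ctr d' (ctr d a) :=
  CliffordAlgebra.contractLeft_comm (Q := (0 : QuadraticForm ℂ Wn)) (d := d) (d' := d') a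

theorem ctr_one (d : Module.Dual ℂ Wn) : ctr d 1 = 0 :=
  CliffordAlgebra.contractLeft_one (Q := (0 : QuadraticForm ℂ Wn)) d

theorem ctr_add (d d' : Module.Dual ℂ Wn) : ctr (d + d') = ctr d + ctr d' :=
  map_add (CliffordAlgebra.contractLeft (Q := (0 : QuadraticForm ℂ Wn))) d d'

theorem ctr_smul (r : ℂ) (d : Module.Dual ℂ Wn) : ctr (r • d) = r • ctr d :=
  map_smul (CliffordAlgebra.contractLeft (Q := (0 : QuadraticForm ℂ Wn))) r d

theorem ii (v w : Wn) : ExteriorAlgebra.ι ℂ v * ExteriorAlgebra.ι ℂ w =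
    -(ExteriorAlgebra.ι ℂ w * ExteriorAlgebra.ι ℂ v) := by
  rw [eq_neg_iff_add_eq_zero]
  exact ExteriorAlgebra.ι_add_mul_swap v w

/-- the concrete Fock data -/
noncomputable def fd : FD AA where
  X := fun j => ExteriorAlgebra.ι ℂ (Finsupp.single (Sum.inl j) 1)
  Y := fun j => ExteriorAlgebra.ι ℂ (Finsupp.single (Sum.inr j) 1)
  dX := fun j => ctr (Finsupp.lapply (Sum.inl j))
  dY := fun j => ctr (Finsupp.lapply (Sum.inr j))
  eps := (ExteriorAlgebra.algebraMapInv (R := ℂ) (M := Wn)).toLinearMap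
  Xsq := fun i => ExteriorAlgebra.ι_sq_zero _
  Ysq := fun i => ExteriorAlgebra.ι_sq_zero _
  XX := fun i j => ii _ _
  XY := fun i j => ii _ _
  YY := fun i j => ii _ _
  dXX := by
    intro i j a
    rw [ctr_mul]
    congr 1
    rw [Finsupp.lapply_apply, Finsupp.single_apply]
    by_cases h : i = j
    · rw [if_pos h, if_pos (by rw [h]), one_smul]
    · rw [if_neg h, if_neg (by intro h2; exact h (Sum.inl.inj h2).symm), zero_smul]
  dXY := by
    intro i j a
    rw [ctr_mul, Finsupp.lapply_apply, Finsupp.single_apply, if_neg (by simp), zero_smul, zero_sub]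
  dYX := by
    intro i j a
    rw [ctr_mul, Finsupp.lapply_apply, Finsupp.single_apply, if_neg (by simp), zero_smul, zero_sub]
  dYY := by
    intro i j a
    rw [ctr_mul]
    congr 1
    rw [Finsupp.lapply_apply, Finsupp.single_apply]
    by_cases h : i = j
    · rw [if_pos h, if_pos (by rw [h]), one_smul]
    · rw [if_neg h, if_neg (by intro h2; exact h (Sum.inr.inj h2).symm), zero_smul]
  dXdX := fun i j a => ctr_comm _ _ a
  dXdY := fun i j a => ctr_comm _ _ a
  dYdY := fun i j a => ctr_comm _ _ a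
  dX_one := fun i => ctr_one _
  dY_one := fun i => ctr_one _
  eps_one := by simp
  eps_X := by
    intro i a
    simp only [AlgHom.toLinearMap_apply, map_mul, ExteriorAlgebra.algebraMapInv,
      ExteriorAlgebra.lift_ι_apply, LinearMap.zero_apply, zero_mul]

/-- evaluation of the top coefficient -/
noncomputable def EP : ℕ → (AA →ₗ[ℂ] ℂ)
  | 0 => fd.eps
  | k + 1 => EP k ∘ₗ fd.dX k

section rep
variable {V : Type} [AddCommGroup V] [Module ℂ V] {M : ℕ} (B : Module.Basis (Fin M ⊕ Fin M) ℂ V)

/-- the creation part -/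
noncomputable def lA : V →ₗ[ℂ] Wn :=
  ∑ j : Fin M, (B.coord (Sum.inl j)).smulRight (Finsupp.single (Sum.inl (j : ℕ)) (1 : ℂ))

/-- the annihilation part -/
noncomputable def lD : V →ₗ[ℂ] Module.Dual ℂ Wn :=
  ∑ j : Fin M, (B.coord (Sum.inr j)).smulRight (Finsupp.lapply (Sum.inr (j : ℕ)) : Module.Dual ℂ Wn)

theorem lD_lA (v : V) : lD B v (lA B v) = 0 := by
  simp only [lD, lA, LinearMap.sum_apply, LinearMap.smulRight_apply, map_sum, map_smul,
    LinearMap.smul_apply, Finsupp.lapply_apply, Finsupp.single_apply]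
  simp

/-- the linear part of the representation -/
noncomputable def rl : V →ₗ[ℂ] Module.End ℂ AA where
  toFun v := LinearMap.mulLeft ℂ (ExteriorAlgebra.ι ℂ (lA B v)) + ctr (lD B v)
  map_add' v w := by
    refine LinearMap.ext fun a => ?_
    simp only [map_add, ctr_add, LinearMap.add_apply, LinearMap.mulLeft_apply, add_mul]
    abel
  map_smul' r v := by
    refine LinearMap.ext fun a => ?_
    simp only [map_smul, ctr_smul, LinearMap.add_apply, LinearMap.mulLeft_apply, smul_mul_assoc,
      LinearMap.smul_apply, RingHom.id_apply, smul_add]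

theorem rl_apply (v : V) (a : AA) :
    rl B v a = ExteriorAlgebra.ι ℂ (lA B v) * a + ctr (lD B v) a := rfl

theorem rl_sq (v : V) : rl B v * rl B v = 0 := by
  refine LinearMap.ext fun a => ?_
  rw [Module.End.mul_apply, rl_apply, rl_apply, map_add, ctr_mul, ctr_ctr, lD_lA, zero_smul,
    mul_add, ← mul_assoc, ExteriorAlgebra.ι_sq_zero]
  simp

/-- the representation -/
noncomputable def rho : ExteriorAlgebra ℂ V →ₐ[ℂ] Module.End ℂ AA :=
  ExteriorAlgebra.lift ℂ ⟨rl B, rl_sq B⟩

theorem rho_ι (v : V) : rho B (ExteriorAlgebra.ι ℂ v) = rl B v :=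
  ExteriorAlgebra.lift_ι_apply ℂ _ _ v

theorem rho_mul (u v : ExteriorAlgebra ℂ V) (a : AA) :
    rho B (u * v) a = rho B u (rho B v a) := by
  rw [map_mul]; rfl

theorem rho_x (j : Fin M) (a : AA) :
    rho B (ExteriorAlgebra.ι ℂ (B (Sum.inl j))) a = fd.X j * a := by
  rw [rho_ι, rl_apply]
  have h1 : lA B (B (Sum.inl j)) = Finsupp.single (Sum.inl (j : ℕ)) (1 : ℂ) := by
    simp only [lA, LinearMap.sum_apply, LinearMap.smulRight_apply, Module.Basis.coord_apply,
      Module.Basis.repr_self, Finsupp.single_apply, Sum.inl.injEq, ite_smul, one_smul, zero_smul]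
    rw [Finset.sum_ite_eq, if_pos (Finset.mem_univ _)]
  have h2 : lD B (B (Sum.inl j)) = 0 := by
    simp [lD, LinearMap.sum_apply]
  rw [h1, h2]
  have h3 : ctr (0 : Module.Dual ℂ Wn) = 0 := by
    have := ctr_smul 0 (0 : Module.Dual ℂ Wn)
    rwa [zero_smul, zero_smul] at this
  rw [h3, LinearMap.zero_apply, add_zero]
  rfl

theorem rho_y (j : Fin M) (a : AA) :
    rho B (ExteriorAlgebra.ι ℂ (B (Sum.inr j))) a = fd.dY j a := by
  rw [rho_ι, rl_apply]
  have h1 : lA B (B (Sum.inr j)) = 0 := by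
    simp [lA, LinearMap.sum_apply]
  have h2 : lD B (B (Sum.inr j)) = (Finsupp.lapply (Sum.inr (j : ℕ)) : Module.Dual ℂ Wn) := by
    simp only [lD, LinearMap.sum_apply, LinearMap.smulRight_apply, Module.Basis.coord_apply,
      Module.Basis.repr_self, Finsupp.single_apply, Sum.inr.injEq, ite_smul, one_smul, zero_smul]
    rw [Finset.sum_ite_eq, if_pos (Finset.mem_univ _)]
  rw [h1, h2, map_zero, zero_mul, zero_add]
  rfl

/-- degree of the dual monomial of a walk -/
def dg : List St → ℕ
  | [] => 0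
  | St.u :: s => dg s
  | St.d :: s => dg s + 2
  | St.q :: s => dg s + 1
  | St.p :: s => dg s + 1

theorem dg_ht {fl : Bool} {h : ℕ} : ∀ {s : List St}, Good fl h s → dg s + ht s = s.length
  | [], _ => rfl
  | St.u :: s, hg => by
    have := dg_ht hg.1
    simp only [dg, ht, List.length_cons]; omega
  | St.d :: s, hg => by
    have := dg_ht hg.1
    have := hg.2
    simp only [dg, ht, List.length_cons]; omega
  | St.q :: s, hg => by
    have := dg_ht hg.1
    simp only [dg, ht, List.length_cons]; omega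
  | St.p :: s, hg => by
    have := dg_ht hg.1
    simp only [dg, ht, List.length_cons]; omega

/-- degree part of the exterior algebra -/
noncomputable abbrev Lm (V : Type) [AddCommGroup V] [Module ℂ V] (s : ℕ) :
    Submodule ℂ (ExteriorAlgebra ℂ V) :=
  LinearMap.range (ExteriorAlgebra.ι ℂ : V →ₗ[ℂ] ExteriorAlgebra ℂ V) ^ s

theorem mem_one (v : V) : ExteriorAlgebra.ι ℂ v ∈ Lm V 1 := by
  rw [Lm, pow_one]; exact LinearMap.mem_range_self _ v

theorem mem_mul {a b : ℕ} {x y : ExteriorAlgebra ℂ V} (hx : x ∈ Lm V a) (hy : y ∈ Lm V b) :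
    x * y ∈ Lm V (a + b) := by
  rw [Lm, pow_add]; exact Submodule.mul_mem_mul hx hy

/-- rows are given by dual monomials -/
theorem Phi_rep : ∀ (s : List St), s.length ≤ M → ∃ u ∈ Lm V (dg s),
    (∀ w, Phi fd s w = EP s.length (rho B u w)) ∧
    (∀ j, s.length ≤ j → ∀ w, rho B u (fd.dX j w) = (-1 : ℂ) ^ dg s • fd.dX j (rho B u w))
  | [], _ => by
    refine ⟨1, ?_, ?_, ?_⟩
    · simp only [dg, Lm, pow_zero]
      exact Submodule.one_le.mp le_rfl
    · intro w
      simp [Phi, EP]
    · intro j _ w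
      simp [dg]
  | St.u :: s, hs => by
    simp only [List.length_cons] at hs
    obtain ⟨u, hu, h1, h2⟩ := Phi_rep s (by omega)
    refine ⟨(-1 : ℂ) ^ dg s • u, Submodule.smul_mem _ _ hu, ?_, ?_⟩
    · intro w
      simp only [Phi, LinearMap.comp_apply, List.length_cons, EP, map_smul]
      rw [h1, h2 s.length le_rfl, LinearMap.smul_apply]
      simp only [map_smul]
    · intro j hj w
      simp only [List.length_cons] at hj
      simp only [map_smul, LinearMap.smul_apply, dg]
      rw [h2 j (by omega)]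
  | St.d :: s, hs => by
    simp only [List.length_cons] at hs
    obtain ⟨u, hu, h1, h2⟩ := Phi_rep s (by omega)
    set x := ExteriorAlgebra.ι ℂ (B (Sum.inl ⟨s.length, hs⟩)) with hx
    set y := ExteriorAlgebra.ι ℂ (B (Sum.inr ⟨s.length, hs⟩)) with hy
    have hxa : ∀ a, rho B x a = fd.X s.length * a := fun a => rho_x B ⟨s.length, hs⟩ a
    have hya : ∀ a, rho B y a = fd.dY s.length a := fun a => rho_y B ⟨s.length, hs⟩ a
    refine ⟨(-1 : ℂ) ^ dg s • (u * (x * y)), Submodule.smul_mem _ _ ?_, ?_, ?_⟩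
    · exact mem_mul hu (mem_mul (a := 1) (b := 1) (mem_one _) (mem_one _))
    · intro w
      simp only [Phi, LinearMap.comp_apply, List.length_cons, EP, map_smul, LinearMap.mulLeft_apply]
      rw [h1, h2 s.length le_rfl, LinearMap.smul_apply, rho_mul, rho_mul, hxa, hya]
      simp only [map_smul]
    · intro j hj w
      simp only [List.length_cons] at hj
      simp only [map_smul, LinearMap.smul_apply, dg]
      rw [rho_mul, rho_mul, hxa, hya, rho_mul, rho_mul, hxa, hya]
      have e1 : fd.X s.length * fd.dY s.length (fd.dX j w) =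
          fd.dX j (fd.X s.length * fd.dY s.length w) := by
        rw [fd.dXX, if_neg (by omega), zero_sub, fd.dXdY, mul_neg, neg_neg]
      rw [e1, h2 j (by omega), pow_add]
      simp
  | St.q :: s, hs => by
    simp only [List.length_cons] at hs
    obtain ⟨u, hu, h1, h2⟩ := Phi_rep s (by omega)
    set y := ExteriorAlgebra.ι ℂ (B (Sum.inr ⟨s.length, hs⟩)) with hy
    have hya : ∀ a, rho B y a = fd.dY s.length a := fun a => rho_y B ⟨s.length, hs⟩ a
    refine ⟨(-1 : ℂ) ^ dg s • (u * y), Submodule.smul_mem _ _ (mem_mul hu (mem_one _)), ?_, ?_⟩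
    · intro w
      simp only [Phi, LinearMap.comp_apply, List.length_cons, EP, map_smul]
      rw [h1, h2 s.length le_rfl, LinearMap.smul_apply, rho_mul, hya]
      simp only [map_smul]
    · intro j hj w
      simp only [List.length_cons] at hj
      simp only [map_smul, LinearMap.smul_apply, dg]
      rw [rho_mul, hya, rho_mul, hya]
      have e1 : fd.dY s.length (fd.dX j w) = - fd.dX j (fd.dY s.length w) := by
        rw [fd.dXdY, neg_neg]
      rw [e1, map_neg, h2 j (by omega), pow_succ]
      simp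
  | St.p :: s, hs => by
    simp only [List.length_cons] at hs
    obtain ⟨u, hu, h1, h2⟩ := Phi_rep s (by omega)
    set x := ExteriorAlgebra.ι ℂ (B (Sum.inl ⟨s.length, hs⟩)) with hx
    have hxa : ∀ a, rho B x a = fd.X s.length * a := fun a => rho_x B ⟨s.length, hs⟩ a
    refine ⟨(-1 : ℂ) ^ dg s • (u * x), Submodule.smul_mem _ _ (mem_mul hu (mem_one _)), ?_, ?_⟩
    · intro w
      simp only [Phi, LinearMap.comp_apply, List.length_cons, EP, map_smul, LinearMap.mulLeft_apply]
      rw [h1, h2 s.length le_rfl, LinearMap.smul_apply, rho_mul, hxa]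
      simp only [map_smul]
    · intro j hj w
      simp only [List.length_cons] at hj
      simp only [map_smul, LinearMap.smul_apply, dg]
      rw [rho_mul, hxa, rho_mul, hxa]
      have e1 : fd.X s.length * fd.dX j w = - fd.dX j (fd.X s.length * w) := by
        rw [fd.dXX, if_neg (by omega), zero_sub, neg_neg]
      rw [e1, map_neg, h2 j (by omega), pow_succ]
      simp

end rep

end Pool.Agent.Helper213.Rep
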