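import Mathlib

set_option autoImplicit false

namespace Pool.Agent.Helper213.Sc

open Filter Topology

/-- lower semicontinuity of the rank along a line -/
theorem sc {A B : Type*} [AddCommGroup A] [Module ℂ A] [AddCommGroup B] [Module ℂ B]
    [FiniteDimensional ℂ B] (T0 T1 : A →ₗ[ℂ] B) (R : ℕ)
    (h : ∃ᶠ e in 𝓝[≠] (0 : ℂ), Module.finrank ℂ (LinearMap.range (T0 + e • T1)) ≤ R) :
    Module.finrank ℂ (LinearMap.range T1) ≤ R := by
  classical
  by_contra hR
  push Not at hR
  set r := Module.finrank ℂ (LinearMap.range T1) with hr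
  let b := Module.finBasis ℂ (LinearMap.range T1)
  have hv : ∀ i, ∃ v : A, T1 v = (b i : B) := fun i => (b i).2
  choose v hv using hv
  have hli : LinearIndependent ℂ (fun i => T1 (v i)) := by
    have h1 := b.linearIndependent.map' (LinearMap.range T1).subtype (Submodule.ker_subtype _)
    have h2 : (fun i => T1 (v i)) = (LinearMap.range T1).subtype ∘ b := funext hv
    rw [h2]
    exact h1
  obtain ⟨phi, hphi⟩ := LinearMap.exists_leftInverse_of_injective
    (Fintype.linearCombination ℂ (fun i => T1 (v i)))
    (LinearMap.ker_eq_bot.2 ((linearIndependent_iff_injective_fintypeLinearCombination).1 hli))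
  have hphi2 : ∀ i, phi (T1 (v i)) = Pi.single i 1 := by
    intro i
    have := LinearMap.congr_fun hphi (Pi.single i 1)
    simpa [Fintype.linearCombination_apply_single] using this
  set N0 : Matrix (Fin r) (Fin r) ℂ := Matrix.of (fun i j => phi (T0 (v i)) j) with hN0
  have hdet : ∀ e : ℂ, (Matrix.of (fun i j => phi ((T0 + e • T1) (v i)) j)).det =
      (-N0).charpoly.eval e := by
    intro e
    rw [Matrix.eval_charpoly]
    congr 1
    ext i j
    simp only [Matrix.of_apply, LinearMap.add_apply, LinearMap.smul_apply, map_add, map_smul,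
      hphi2, Pi.add_apply, Pi.smul_apply, smul_eq_mul, Matrix.sub_apply, Matrix.neg_apply, hN0,
      Matrix.scalar_apply, Matrix.diagonal_apply, Pi.single_apply]
    by_cases hij : i = j
    · rw [if_pos hij.symm, if_pos hij]; ring
    · rw [if_neg (Ne.symm hij), if_neg hij]; ring
  have hfin : ∀ᶠ e in 𝓝[≠] (0 : ℂ), (-N0).charpoly.eval e ≠ 0 := by
    have h2 : ((((-N0).charpoly.roots.toFinset.erase 0 : Finset ℂ) : Set ℂ))ᶜ ∈ 𝓝 (0 : ℂ) := by
      apply ((-N0).charpoly.roots.toFinset.erase 0 : Finset ℂ).finite_toSet.isClosed.isOpen_compl.mem_nhds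
      simp
    filter_upwards [mem_nhdsWithin_of_mem_nhds h2, self_mem_nhdsWithin] with e he1 he2
    intro h3
    apply he1
    have hmon := (-N0).charpoly_monic
    simp only [Finset.coe_erase, Set.mem_sdiff, Finset.mem_coe, Multiset.mem_toFinset,
      Polynomial.mem_roots', Set.mem_singleton_iff]
    exact ⟨⟨hmon.ne_zero, h3⟩, he2⟩
  obtain ⟨e, he1, he2⟩ := (h.and_eventually hfin).exists
  rw [← hdet e] at he2
  have hli2 : LinearIndependent ℂ (fun i => (T0 + e • T1) (v i)) := by
    apply LinearIndependent.of_comp phi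
    have := Matrix.linearIndependent_rows_of_det_ne_zero he2
    exact this
  have hli3 : LinearIndependent ℂ (fun i => (⟨(T0 + e • T1) (v i), LinearMap.mem_range_self _ _⟩ :
      LinearMap.range (T0 + e • T1))) := by
    apply LinearIndependent.of_comp (LinearMap.range (T0 + e • T1)).subtype
    exact hli2
  have := hli3.fintype_card_le_finrank
  simp only [Fintype.card_fin] at this
  omega

end Pool.Agent.Helper213.Sc
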