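import Mathlib
import Pool.Agent.Helper213.Rep
import Pool.Agent.Helper213.Sc

set_option autoImplicit false
set_option linter.unusedSectionVars false

namespace Pool.Agent.Helper213.Lbc

open Finset Walk Fock Elim Params Kill Pool.Agent.Helper213.Rep

section
variable {V : Type} [AddCommGroup V] [Module ℂ V] {M : ℕ} (B : Module.Basis (Fin M ⊕ Fin M) ℂ V)

/-- first quadric -/
noncomputable def fB : ExteriorAlgebra ℂ V :=
  ∑ j : Fin M, ExteriorAlgebra.ι ℂ (B (Sum.inl j)) * ExteriorAlgebra.ι ℂ (B (Sum.inr j))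

/-- second quadric -/
noncomputable def gB (lam : ℕ → ℂ) : ExteriorAlgebra ℂ V :=
  ∑ j : Fin M, lam j • (ExteriorAlgebra.ι ℂ (B (Sum.inl j)) * ExteriorAlgebra.ι ℂ (B (Sum.inr j)))

/-- linear form -/
noncomputable def tB : ExteriorAlgebra ℂ V :=
  ∑ j : Fin M, ExteriorAlgebra.ι ℂ (B (Sum.inl j))

theorem rho_fB (a : AA) : rho B (fB B) a = DD fd M (fun _ => 1) a := by
  rw [fB, map_sum, LinearMap.sum_apply, DD_apply, Finset.sum_range]
  refine Finset.sum_congr rfl (fun j _ => ?_)
  rw [rho_mul, rho_x, rho_y, one_smul]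

theorem rho_gB (lam : ℕ → ℂ) (a : AA) : rho B (gB B lam) a = DD fd M lam a := by
  rw [gB, map_sum, LinearMap.sum_apply, DD_apply, Finset.sum_range]
  refine Finset.sum_congr rfl (fun j _ => ?_)
  rw [map_smul, LinearMap.smul_apply, rho_mul, rho_x, rho_y]

theorem rho_tB (a : AA) : rho B (tB B) a = (∑ j ∈ range M, fd.X j) * a := by
  rw [tB, map_sum, LinearMap.sum_apply, Finset.sum_mul, Finset.sum_range]
  refine Finset.sum_congr rfl (fun j _ => ?_)
  rw [rho_x]

open Classical in
/-- the walks used for the lower bound -/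
noncomputable def Tc (c : Bool) (M h : ℕ) : Finset (List St) :=
  (T true h M h).filter (fun s => c = true → NoP s)

/-- the functional of a walk -/
noncomputable def fn (lam mu : ℕ → ℂ) (s : List St) : ExteriorAlgebra ℂ V →ₗ[ℂ] ℂ :=
  EP M ∘ₗ (LinearMap.applyₗ (EE fd M (coef lam mu s) s)) ∘ₗ (rho B).toLinearMap

theorem fn_apply (lam mu : ℕ → ℂ) (s : List St) (u : ExteriorAlgebra ℂ V) :
    fn B lam mu s u = EP M (rho B u (EE fd M (coef lam mu s) s)) := rfl

theorem lb_config (h : ℕ) (lam mu : ℕ → ℂ) (hD : Dist M lam mu)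
    (hN : NS true h M h (Sys fd M lam mu)) (c : Bool)
    (I : Submodule ℂ (ExteriorAlgebra ℂ V))
    (hI : ∀ z ∈ I, ∃ u v w, z = u * fB B + v * gB B lam + (if c = true then w * tB B else 0))
    (s : ℕ) (hs : s + h = M) :
    (Tc c M h).card ≤ Module.finrank ℂ (↥(Lm V s) ⧸ I.comap (Lm V s).subtype) := by
  classical
  have : Module.Finite ℂ V := Module.Finite.of_basis B
  set J := I.comap (Lm V s).subtype with hJ
  -- the functionals vanish on the ideal
  have hvan : ∀ t ∈ Tc c M h, ∀ z ∈ I, fn B lam mu t z = 0 := by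
    intro t ht z hz
    rw [Tc, mem_filter] at ht
    obtain ⟨t1, t2, t3⟩ := mem_T.1 ht.1
    obtain ⟨u, v, w, rfl⟩ := hI z hz
    rw [map_add, map_add, fn_apply, fn_apply, fn_apply, rho_mul, rho_mul, rho_fB, rho_gB,
      kill_f fd M lam mu t2 t1.le, kill_g fd M lam mu t2 t1.le t3, map_zero, map_zero, map_zero,
      map_zero, zero_add, zero_add]
    split_ifs with hc
    · rw [rho_mul, rho_tB, kill_th fd M lam mu hD t2 t1 (ht.2 hc), map_zero, map_zero]
    · rw [map_zero, LinearMap.zero_apply, map_zero]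
  -- functionals on the quotient
  let ph : ↥(Tc c M h) → Module.Dual ℂ (↥(Lm V s) ⧸ J) := fun t =>
    J.liftQ ((fn B lam mu t.1) ∘ₗ (Lm V s).subtype) (by
      intro z hz
      rw [LinearMap.mem_ker]
      exact hvan t.1 t.2 _ hz)
  have hli : LinearIndependent ℂ ph := by
    rw [Fintype.linearIndependent_iff]
    intro g hg
    have key := hN (fun t => if ht : t ∈ Tc c M h then g ⟨t, ht⟩ else 0) (by
      intro t ht
      obtain ⟨t1, t2, t3⟩ := mem_T.1 ht
      obtain ⟨u, hu, h1, -⟩ := Phi_rep (V := V) B t t1.le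
      have hdeg : dg t = s := by
        have := dg_ht t2
        omega
      rw [hdeg] at hu
      have h2 := LinearMap.congr_fun hg (Submodule.Quotient.mk ⟨u, hu⟩)
      rw [LinearMap.sum_apply] at h2
      simp only [LinearMap.smul_apply, LinearMap.zero_apply, smul_eq_mul] at h2
      have h3 : ∀ x : ↥(Tc c M h), (ph x) (Submodule.Quotient.mk ⟨u, hu⟩) =
          Sys fd M lam mu t x.1 := by
        intro x
        change fn B lam mu x.1 u = _
        rw [fn_apply, Sys, h1, t1]
      simp only [h3] at h2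
      have hsub : Tc c M h ⊆ T true h M h := Finset.filter_subset _ _
      rw [← Finset.sum_subset hsub]
      · rw [← Finset.sum_coe_sort, ← h2]
        refine Finset.sum_congr rfl (fun x _ => ?_)
        rw [dif_pos x.2]
      · intro x _ hx
        rw [dif_neg hx, zero_mul])
    intro i
    have hi := i.2
    have h4 := key i.1 (Finset.filter_subset _ _ hi)
    rw [dif_pos hi] at h4
    exact h4
  have h5 := hli.fintype_card_le_finrank
  rw [Subspace.dual_finrank_eq, Fintype.card_coe] at h5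
  exact h5

noncomputable instance instGA (V : Type) [AddCommGroup V] [Module ℂ V] :
    GradedAlgebra (fun i : ℕ => Lm V i) :=
  ExteriorAlgebra.gradedAlgebra (R := ℂ) (M := V)

/-- projection to a degree -/
noncomputable def prj (V : Type) [AddCommGroup V] [Module ℂ V] (s : ℕ) :
    ExteriorAlgebra ℂ V →ₗ[ℂ] ↥(Lm V s) :=
  (DirectSum.component ℂ ℕ (fun i => ↥(Lm V i)) s) ∘ₗ
    (DirectSum.decomposeLinearEquiv (fun i => Lm V i)).toLinearMap

theorem prj_coe (s : ℕ) (x : ExteriorAlgebra ℂ V) :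
    (prj V s x : ExteriorAlgebra ℂ V) = (DirectSum.decompose (fun i => Lm V i) x s :
      ExteriorAlgebra ℂ V) := rfl

theorem prj_mem {s : ℕ} {x : ExteriorAlgebra ℂ V} (hx : x ∈ Lm V s) :
    (prj V s x : ExteriorAlgebra ℂ V) = x := by
  rw [prj_coe]
  exact DirectSum.decompose_of_mem_same (fun i => Lm V i) hx

theorem prj_mul {s i : ℕ} (x y : ExteriorAlgebra ℂ V) (hy : y ∈ Lm V i) :
    ∃ z, (prj V s (x * y) : ExteriorAlgebra ℂ V) = z * y := by
  rw [prj_coe]
  by_cases h : i ≤ s
  · exact ⟨_, DirectSum.coe_decompose_mul_of_right_mem_of_le (fun i => Lm V i) hy h⟩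
  · exact ⟨0, by rw [DirectSum.coe_decompose_mul_of_right_mem_of_not_le (fun i => Lm V i) hy h,
      zero_mul]⟩

/-- the map whose range is the degree part of the ideal -/
noncomputable def RR (c : Bool) (s : ℕ) (f g t : ExteriorAlgebra ℂ V) :
    (ExteriorAlgebra ℂ V × ExteriorAlgebra ℂ V × ExteriorAlgebra ℂ V) →ₗ[ℂ] ↥(Lm V s) :=
  prj V s ∘ₗ ((LinearMap.mulRight ℂ f ∘ₗ LinearMap.fst ℂ _ _) +
    (LinearMap.mulRight ℂ g ∘ₗ LinearMap.fst ℂ _ _ ∘ₗ LinearMap.snd ℂ _ _) +
    (if c = true then (1 : ℂ) else 0) •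
      (LinearMap.mulRight ℂ t ∘ₗ LinearMap.snd ℂ _ _ ∘ₗ LinearMap.snd ℂ _ _))

theorem RR_apply (c : Bool) (s : ℕ) (f g t u v w : ExteriorAlgebra ℂ V) :
    RR c s f g t (u, v, w) =
      prj V s (u * f + v * g + (if c = true then w * t else 0)) := by
  simp only [RR, LinearMap.comp_apply, LinearMap.add_apply, LinearMap.smul_apply,
    LinearMap.mulRight_apply, LinearMap.fst_apply, LinearMap.snd_apply]
  congr 2
  split_ifs <;> simp

theorem RR_add (c : Bool) (s : ℕ) (f g t f' g' t' : ExteriorAlgebra ℂ V) (e : ℂ) :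
    RR c s (f + e • f') (g + e • g') (t + e • t') = RR c s f g t + e • RR c s f' g' t' := by
  refine LinearMap.ext fun x => ?_
  obtain ⟨u, v, w⟩ := x
  rw [LinearMap.add_apply, LinearMap.smul_apply, RR_apply, RR_apply, RR_apply, ← map_smul,
    ← map_add]
  congr 1
  simp only [mul_add, mul_smul_comm]
  split_ifs
  · simp only [smul_add]; abel
  · simp only [smul_add, add_zero]; abel

theorem rank_config (h : ℕ) (lam mu : ℕ → ℂ) (hD : Dist M lam mu)
    (hN : NS true h M h (Sys fd M lam mu)) (c : Bool) (s : ℕ) (hs : s + h = M) :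
    Module.finrank ℂ (LinearMap.range (RR c s (fB B) (gB B lam) (tB B))) + (Tc c M h).card ≤
      Module.finrank ℂ ↥(Lm V s) := by
  have : Module.Finite ℂ V := Module.Finite.of_basis B
  have hf : fB B ∈ Lm V 2 :=
    Submodule.sum_mem _ (fun j _ => mem_mul (a := 1) (b := 1) (mem_one _) (mem_one _))
  have hg : gB B lam ∈ Lm V 2 :=
    Submodule.sum_mem _ (fun j _ => Submodule.smul_mem _ _
      (mem_mul (a := 1) (b := 1) (mem_one _) (mem_one _)))
  have ht : tB B ∈ Lm V 1 := Submodule.sum_mem _ (fun j _ => mem_one _)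
  set I : Submodule ℂ (ExteriorAlgebra ℂ V) :=
    (LinearMap.range (RR c s (fB B) (gB B lam) (tB B))).map (Lm V s).subtype with hI
  have h1 := lb_config B h lam mu hD hN c I (by
    intro z hz
    rw [hI, Submodule.mem_map] at hz
    obtain ⟨y, hy, rfl⟩ := hz
    obtain ⟨⟨u, v, w⟩, rfl⟩ := hy
    rw [RR_apply, Submodule.subtype_apply, map_add, map_add, Submodule.coe_add, Submodule.coe_add]
    obtain ⟨u', hu'⟩ := prj_mul (s := s) u _ hf
    obtain ⟨v', hv'⟩ := prj_mul (s := s) v _ hg
    obtain ⟨w', hw'⟩ := prj_mul (s := s) w _ ht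
    refine ⟨u', v', w', ?_⟩
    rw [hu', hv']
    congr 1
    split_ifs
    · exact hw'
    · rw [map_zero]; rfl) s hs
  have h2 : I.comap (Lm V s).subtype = LinearMap.range (RR c s (fB B) (gB B lam) (tB B)) := by
    rw [hI]
    exact Submodule.comap_map_eq_of_injective (Submodule.subtype_injective _) _
  rw [h2] at h1
  have h3 := Submodule.finrank_quotient_add_finrank
    (LinearMap.range (RR c s (fB B) (gB B lam) (tB B)))
  omega

end

end Pool.Agent.Helper213.Lbc
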