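import Mathlib
import Pool.Agent.Helper213.Lbc
import Pool.Agent.Helper213.Ift

set_option autoImplicit false
set_option linter.unusedSectionVars false

namespace Pool.Agent.Helper213.LbAll

open Finset Filter Topology Walk Fock Elim Params Kill Pool.Agent.Helper213.Rep Lbc

/-- the even dimensional model space -/
abbrev VV (M : ℕ) : Type := (Fin M ⊕ Fin M) → ℂ

/-- quadric of a matrix -/
noncomputable def mt (M : ℕ) : ((Fin M ⊕ Fin M) → (Fin M ⊕ Fin M) → ℂ) →ₗ[ℂ]
    ExteriorAlgebra ℂ (VV M) where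
  toFun F := ∑ a, ∑ b, F a b • (ExteriorAlgebra.ι ℂ (Pi.single a 1 : VV M) *
    ExteriorAlgebra.ι ℂ (Pi.single b 1 : VV M))
  map_add' F G := by
    simp only [Pi.add_apply, add_smul, Finset.sum_add_distrib]
  map_smul' r F := by
    simp only [Pi.smul_apply, smul_eq_mul, mul_smul, Finset.smul_sum, RingHom.id_apply]

theorem mt_apply (M : ℕ) (F : (Fin M ⊕ Fin M) → (Fin M ⊕ Fin M) → ℂ) :
    mt M F = ∑ a, ∑ b, F a b • (ExteriorAlgebra.ι ℂ (Pi.single a 1 : VV M) *
    ExteriorAlgebra.ι ℂ (Pi.single b 1 : VV M)) := rfl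

theorem ι_eq (M : ℕ) (x : VV M) :
    ExteriorAlgebra.ι ℂ x = ∑ a, x a • ExteriorAlgebra.ι ℂ (Pi.single a 1 : VV M) := by
  have h : x = ∑ a, x a • (Pi.single a 1 : VV M) := by
    funext b
    simp [Finset.sum_apply, Pi.single_apply]
  conv_lhs => rw [h]
  rw [map_sum]
  exact Finset.sum_congr rfl (fun a _ => map_smul _ _ _)

theorem mt_prod (M : ℕ) (x y : VV M) :
    mt M (fun a b => x a * y b) = ExteriorAlgebra.ι ℂ x * ExteriorAlgebra.ι ℂ y := by
  rw [mt_apply, ι_eq M x, ι_eq M y, Finset.sum_mul]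
  refine Finset.sum_congr rfl (fun a _ => ?_)
  rw [Finset.mul_sum]
  refine Finset.sum_congr rfl (fun b _ => ?_)
  rw [smul_mul_assoc, mul_smul_comm, smul_smul]

theorem mt_symm (M : ℕ) (S : (Fin M ⊕ Fin M) → (Fin M ⊕ Fin M) → ℂ) :
    mt M (fun a b => S a b + S b a) = 0 := by
  have h1 : mt M (fun a b => S b a) = - mt M S := by
    rw [mt_apply, mt_apply, Finset.sum_comm, ← Finset.sum_neg_distrib]
    refine Finset.sum_congr rfl (fun a _ => ?_)
    rw [← Finset.sum_neg_distrib]
    refine Finset.sum_congr rfl (fun b _ => ?_)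
    rw [← smul_neg]
    congr 1
    rw [eq_neg_iff_add_eq_zero]
    exact ExteriorAlgebra.ι_add_mul_swap _ _
  have h2 : (fun a b => S a b + S b a) = S + (fun a b => S b a) := rfl
  rw [h2, map_add, h1, add_neg_cancel]

theorem mt_surj (M : ℕ) (f : ExteriorAlgebra ℂ (VV M)) (hf : f ∈ Lm (VV M) 2) :
    ∃ F, mt M F = f := by
  have h : Lm (VV M) 2 ≤ LinearMap.range (mt M) := by
    rw [Lm, pow_two, Submodule.mul_le]
    rintro _ ⟨x, rfl⟩ _ ⟨y, rfl⟩
    exact ⟨_, mt_prod M x y⟩
  exact h hf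

/-- extension of a finite sequence -/
noncomputable def lx {M : ℕ} (l : Fin M → ℂ) (j : ℕ) : ℂ := if h : j < M then l ⟨j, h⟩ else 0

theorem lx_tendsto {M : ℕ} {β : Type} {l : Filter β} {f : β → Fin M → ℂ} {lam : ℕ → ℂ}
    (hf : Tendsto f l (𝓝 (fun j => lam j))) (j : ℕ) (hj : j < M) :
    Tendsto (fun t => lx (f t) j) l (𝓝 (lam j)) := by
  have : (fun t => lx (f t) j) = fun t => f t ⟨j, hj⟩ := by
    funext t
    rw [lx, dif_pos hj]
  rw [this]
  exact (tendsto_pi_nhds.1 hf) ⟨j, hj⟩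

theorem li_nhds (M : ℕ) (l0 : Fin M → ℂ) :
    ∀ᶠ p in 𝓝 ((fun j => Pi.single (Sum.inl j) 1, fun j => Pi.single (Sum.inr j) 1, l0) :
      (Fin M → VV M) × (Fin M → VV M) × (Fin M → ℂ)),
      LinearIndependent ℂ (Sum.elim p.1 p.2.1 : Fin M ⊕ Fin M → VV M) := by
  have hc : Continuous (fun p : (Fin M → VV M) × (Fin M → VV M) × (Fin M → ℂ) =>
      (Sum.elim p.1 p.2.1 : Fin M ⊕ Fin M → VV M)) := by
    refine continuous_pi (fun a => ?_)
    rcases a with a | a
    · exact (continuous_apply a).comp continuous_fst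
    · exact (continuous_apply a).comp (continuous_fst.comp continuous_snd)
  have hbase : LinearIndependent ℂ (Sum.elim (fun j => Pi.single (Sum.inl j) 1)
      (fun j => Pi.single (Sum.inr j) 1) : Fin M ⊕ Fin M → VV M) := by
    have : (Sum.elim (fun j => Pi.single (Sum.inl j) 1)
      (fun j => Pi.single (Sum.inr j) 1) : Fin M ⊕ Fin M → VV M) =
        Pi.basisFun ℂ (Fin M ⊕ Fin M) := by
      funext a
      rcases a with a | a <;> simp
    rw [this]
    exact (Pi.basisFun ℂ (Fin M ⊕ Fin M)).linearIndependent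
  have h1 : ∀ᶠ q in 𝓝 (Sum.elim (fun j => Pi.single (Sum.inl j) 1)
      (fun j => Pi.single (Sum.inr j) 1) : Fin M ⊕ Fin M → VV M), LinearIndependent ℂ q :=
    LinearIndependent.eventually hbase
  exact (hc.tendsto (_, _, l0)).eventually h1

theorem rank_all (M h s : ℕ) (hs : s + h = M) (c : Bool) (f g t : ExteriorAlgebra ℂ (VV M))
    (hf : f ∈ Lm (VV M) 2) (hg : g ∈ Lm (VV M) 2) (ht : t ∈ Lm (VV M) 1) :
    Module.finrank ℂ (LinearMap.range (RR c s f g t)) + (Tc c M h).card ≤
      Module.finrank ℂ ↥(Lm (VV M) s) := by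
  obtain ⟨lam, mu, hD, hN⟩ := exists_params fd true h M M le_rfl
  obtain ⟨F, rfl⟩ := mt_surj M f hf
  obtain ⟨G, rfl⟩ := mt_surj M g hg
  rw [Lm, pow_one] at ht
  obtain ⟨tv, rfl⟩ := ht
  set x0 : Fin M → VV M := fun j => Pi.single (Sum.inl j) 1 with hx0
  set y0 : Fin M → VV M := fun j => Pi.single (Sum.inr j) 1 with hy0
  set l0 : Fin M → ℂ := fun j => lam j with hl0
  have hinj : Function.Injective l0 := by
    intro i j hij
    by_contra hne
    exact hD.1 i i.2 j j.2 (fun h => hne (Fin.ext h)) hij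
  set FF : Filter ((Fin M → VV M) × (Fin M → VV M) × (Fin M → ℂ)) := 𝓝 (x0, y0, l0) with hFF
  have hlamt : ∀ j < M, Tendsto (fun p : (Fin M → VV M) × (Fin M → VV M) × (Fin M → ℂ) =>
      lx p.2.2 j) FF (𝓝 (lam j)) := by
    intro j hj
    refine lx_tendsto ?_ j hj
    exact (continuous_snd.comp continuous_snd).tendsto (x0, y0, l0)
  have e1 : ∀ᶠ p in FF, NS true h M h (Sys fd M (lx p.2.2) mu) :=
    NS_nhds fd true h M h lam mu hD (hN h) hlamt
  have e2 : ∀ᶠ p in FF, ∀ i ∈ range M, ∀ j ∈ range M, i ≠ j → lx p.2.2 i ≠ lx p.2.2 j := by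
    rw [Filter.eventually_all_finset]
    intro i hi
    rw [Filter.eventually_all_finset]
    intro j hj
    by_cases hij : i = j
    · exact Filter.Eventually.of_forall (fun p h => absurd hij h)
    · have h1 := (hlamt i (mem_range.1 hi)).sub (hlamt j (mem_range.1 hj))
      filter_upwards [h1.eventually_ne (sub_ne_zero.2
        (hD.1 i (mem_range.1 hi) j (mem_range.1 hj) hij))] with p hp _
      exact sub_ne_zero.1 hp
  have e3 : ∀ᶠ p in FF, ∀ i ∈ range M, ∀ j ∈ range M, lx p.2.2 i ≠ mu j := by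
    rw [Filter.eventually_all_finset]
    intro i hi
    rw [Filter.eventually_all_finset]
    intro j hj
    filter_upwards [(hlamt i (mem_range.1 hi)).eventually_ne
      (hD.2 i (mem_range.1 hi) j (mem_range.1 hj))] with p hp
    exact hp
  have e4 : ∀ᶠ p in FF, LinearIndependent ℂ (Sum.elim p.1 p.2.1 : Fin M ⊕ Fin M → VV M) :=
    li_nhds M l0
  have hNn := (e1.and (e2.and (e3.and e4)))
  have key := Ift.ift_pairs M l0 hinj F G tv _ hNn
  have hrank : ∀ᶠ e : ℂ in 𝓝 0, Module.finrank ℂ (LinearMap.range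
      (RR c s (mt M (fun a b => ∑ j, x0 j a * y0 j b)) (mt M (fun a b => ∑ j, l0 j * (x0 j a * y0 j b)))
        (ExteriorAlgebra.ι ℂ (∑ j, x0 j)) +
       e • RR c s (mt M F) (mt M G) (ExteriorAlgebra.ι ℂ tv))) ≤
      Module.finrank ℂ ↥(Lm (VV M) s) - (Tc c M h).card := by
    filter_upwards [key] with e he
    obtain ⟨x, y, l, ⟨hN1, hN2, hN3, hN4⟩, S1, S2, hF, hG, hT⟩ := he
    rw [← RR_add]
    have hcard : Fintype.card (Fin M ⊕ Fin M) = Module.finrank ℂ (VV M) := by
      rw [Module.finrank_fintype_fun_eq_card]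
    set B : Module.Basis (Fin M ⊕ Fin M) ℂ (VV M) :=
      Module.Basis.mk hN4 (hN4.span_eq_top_of_card_eq_finrank' hcard).ge with hB
    have hBl : ∀ j, B (Sum.inl j) = x j := by
      intro j
      rw [hB, Module.Basis.mk_apply]
      rfl
    have hBr : ∀ j, B (Sum.inr j) = y j := by
      intro j
      rw [hB, Module.Basis.mk_apply]
      rfl
    have hlx : ∀ j : Fin M, lx l j = l j := by
      intro j
      rw [lx, dif_pos j.2]
    have q1 : mt M (fun a b => ∑ j, x0 j a * y0 j b) + e • mt M F = fB B := by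
      have h1 : (fun a b => ∑ j, x0 j a * y0 j b) + e • F =
          (∑ j, fun a b => x j a * y j b) + (fun a b => S1 a b + S1 b a) := by
        funext a b
        simp only [Pi.add_apply, Pi.smul_apply, smul_eq_mul, Finset.sum_apply]
        rw [← hF a b]
        ring
      rw [← map_smul, ← map_add, h1, map_add, mt_symm, add_zero, map_sum, fB]
      refine Finset.sum_congr rfl (fun j _ => ?_)
      rw [mt_prod, hBl, hBr]
    have q2 : mt M (fun a b => ∑ j, l0 j * (x0 j a * y0 j b)) + e • mt M G = gB B (lx l) := by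
      have h1 : (fun a b => ∑ j, l0 j * (x0 j a * y0 j b)) + e • G =
          (∑ j, l j • fun a b => x j a * y j b) + (fun a b => S2 a b + S2 b a) := by
        funext a b
        simp only [Pi.add_apply, Pi.smul_apply, smul_eq_mul, Finset.sum_apply]
        rw [← hG a b]
        ring
      rw [← map_smul, ← map_add, h1, map_add, mt_symm, add_zero, map_sum, gB]
      refine Finset.sum_congr rfl (fun j _ => ?_)
      rw [map_smul, mt_prod, hBl, hBr, hlx]
    have q3 : ExteriorAlgebra.ι ℂ (∑ j, x0 j) + e • ExteriorAlgebra.ι ℂ tv = tB B := by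
      rw [← map_smul, ← map_add, tB]
      have h1 : ∑ j, x0 j + e • tv = ∑ j, x j := by
        funext a
        simp only [Pi.add_apply, Pi.smul_apply, smul_eq_mul, Finset.sum_apply]
        exact (hT a).symm
      rw [h1, map_sum]
      exact Finset.sum_congr rfl (fun j _ => by rw [hBl])
    rw [q1, q2, q3]
    have h5 := rank_config B h (lx l) mu
      ⟨fun i hi j hj => hN2 i (mem_range.2 hi) j (mem_range.2 hj),
       fun i hi j hj => hN3 i (mem_range.2 hi) j (mem_range.2 hj)⟩ hN1 c s hs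
    omega
  have hfreq := (hrank.filter_mono (nhdsWithin_le_nhds (s := {(0 : ℂ)}ᶜ))).frequently
  have h6 := Sc.sc _ _ _ hfreq
  -- the base configuration gives the inequality for natural subtraction
  have h7 : (Tc c M h).card ≤ Module.finrank ℂ ↥(Lm (VV M) s) := by
    have := rank_config (V := VV M) (Pi.basisFun ℂ (Fin M ⊕ Fin M)) h lam mu hD (hN h) c s hs
    omega
  omega

/-- the lower bound for all quadrics -/
theorem lb_all (M h s : ℕ) (hs : s + h = M) (c : Bool) (f g t : ExteriorAlgebra ℂ (VV M))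
    (hf : f ∈ Lm (VV M) 2) (hg : g ∈ Lm (VV M) 2) (ht : t ∈ Lm (VV M) 1)
    (I : Submodule ℂ (ExteriorAlgebra ℂ (VV M)))
    (hI : ∀ z ∈ I, ∃ u v w, z = u * f + v * g + (if c = true then w * t else 0)) :
    (Tc c M h).card ≤ Module.finrank ℂ (↥(Lm (VV M) s) ⧸ I.comap (Lm (VV M) s).subtype) := by
  have h1 := rank_all M h s hs c f g t hf hg ht
  have h2 : I.comap (Lm (VV M) s).subtype ≤ LinearMap.range (RR c s f g t) := by
    intro z hz
    obtain ⟨u, v, w, h3⟩ := hI _ hz
    refine ⟨(u, v, w), ?_⟩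
    rw [RR_apply, ← h3]
    exact Subtype.ext (prj_mem z.2)
  have h3 := Submodule.finrank_mono h2
  have h4 := Submodule.finrank_quotient_add_finrank (I.comap (Lm (VV M) s).subtype)
  omega

end Pool.Agent.Helper213.LbAll
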