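import Mathlib
import Pool.Agent.Helper213.LbAll
import Pool.Agent.Helper213.Count

set_option autoImplicit false
set_option linter.unusedSectionVars false

namespace Pool.Agent.Helper213.LbE

open Finset Walk Pool.Agent.Helper213.Rep Lbc LbAll Pool.Agent.Helper213.Count

section comm
variable {V : Type} [AddCommGroup V] [Module ℂ V]

theorem comm_vec (v : V) (s : ℕ) {z : ExteriorAlgebra ℂ V} (hz : z ∈ Lm V s) :
    ExteriorAlgebra.ι ℂ v * z = (-1 : ℂ) ^ s • (z * ExteriorAlgebra.ι ℂ v) := by
  induction s generalizing z with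
  | zero =>
    rw [Lm, pow_zero] at hz
    obtain ⟨r, rfl⟩ := Submodule.mem_one.1 hz
    rw [pow_zero, one_smul, Algebra.commutes]
  | succ s ih =>
    rw [Lm, pow_succ'] at hz
    induction hz using Submodule.mul_induction_on' with
    | mem_mul_mem m hm n hn =>
      obtain ⟨w, rfl⟩ := hm
      have h1 : ExteriorAlgebra.ι ℂ v * ExteriorAlgebra.ι ℂ w =
          -(ExteriorAlgebra.ι ℂ w * ExteriorAlgebra.ι ℂ v) := by
        rw [eq_neg_iff_add_eq_zero]
        exact ExteriorAlgebra.ι_add_mul_swap v w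
      rw [← mul_assoc, h1, neg_mul, mul_assoc, ih hn, mul_smul_comm, pow_succ, mul_assoc]
      simp
    | add x hx y hy h1 h2 => rw [mul_add, h1, h2, add_mul, smul_add]

theorem comm_two {f : ExteriorAlgebra ℂ V} (hf : f ∈ Lm V 2) (z : ExteriorAlgebra ℂ V) :
    f * z = z * f := by
  induction z using ExteriorAlgebra.induction with
  | algebraMap r => rw [Algebra.commutes]
  | ι x => rw [comm_vec x 2 hf]; simp
  | mul a b ha hb => rw [← mul_assoc, ha, mul_assoc, hb, mul_assoc]
  | add a b ha hb => rw [mul_add, ha, hb, add_mul]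

end comm

section transfer
variable {V : Type} [AddCommGroup V] [Module ℂ V] [Module.Finite ℂ V]

theorem map_Lm {W : Type} [AddCommGroup W] [Module ℂ W] (j : V →ₗ[ℂ] W) (s : ℕ)
    {z : ExteriorAlgebra ℂ V} (hz : z ∈ Lm V s) : ExteriorAlgebra.map j z ∈ Lm W s := by
  induction s generalizing z with
  | zero =>
    rw [Lm, pow_zero] at hz ⊢
    obtain ⟨r, rfl⟩ := Submodule.mem_one.1 hz
    rw [AlgHom.commutes]
    exact Submodule.mem_one.2 ⟨r, rfl⟩
  | succ s ih =>
    rw [Lm, pow_succ'] at hz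
    induction hz using Submodule.mul_induction_on' with
    | mem_mul_mem m hm n hn =>
      obtain ⟨w, rfl⟩ := hm
      rw [map_mul, ExteriorAlgebra.map_apply_ι]
      rw [add_comm s 1]
      exact mem_mul (mem_one _) (ih hn)
    | add x hx y hy h1 h2 => rw [map_add]; exact Submodule.add_mem _ h1 h2

theorem lb_transfer (M h s : ℕ) (hs : s + h = M) (c : Bool) (j : V →ₗ[ℂ] VV M) (t0 : VV M)
    (hj : ∀ v : VV M, ∃ v' : V, ∃ r : ℂ, v = j v' + r • t0 ∧ (c = false → r = 0))
    (f g : ExteriorAlgebra ℂ V) (hf : f ∈ Lm V 2) (hg : g ∈ Lm V 2) :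
    (Tc c M h).card ≤ Module.finrank ℂ (↥(Lm V s) ⧸ (Submodule.span ℂ
      {x : ExteriorAlgebra ℂ V | ∃ u v : ExteriorAlgebra ℂ V, x = u * f * v ∨ x = u * g * v}).comap
        (Lm V s).subtype) := by
  set J := ExteriorAlgebra.map j with hJ
  set f' := J f with hf'
  set g' := J g with hg'
  set t' := ExteriorAlgebra.ι ℂ t0 with ht'
  have hf2 : f' ∈ Lm (VV M) 2 := map_Lm j 2 hf
  have hg2 : g' ∈ Lm (VV M) 2 := map_Lm j 2 hg
  have ht2 : t' ∈ Lm (VV M) 1 := mem_one _
  -- the ideal upstairs
  let R' : (ExteriorAlgebra ℂ (VV M) × ExteriorAlgebra ℂ (VV M) × ExteriorAlgebra ℂ (VV M)) →ₗ[ℂ]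
      ExteriorAlgebra ℂ (VV M) :=
    (LinearMap.mulRight ℂ f' ∘ₗ LinearMap.fst ℂ _ _) +
    (LinearMap.mulRight ℂ g' ∘ₗ LinearMap.fst ℂ _ _ ∘ₗ LinearMap.snd ℂ _ _) +
    (if c = true then (1 : ℂ) else 0) •
      (LinearMap.mulRight ℂ t' ∘ₗ LinearMap.snd ℂ _ _ ∘ₗ LinearMap.snd ℂ _ _)
  have hR : ∀ u v w, R' (u, v, w) = u * f' + v * g' + (if c = true then w * t' else 0) := by
    intro u v w
    simp only [R', LinearMap.add_apply, LinearMap.smul_apply, LinearMap.comp_apply,
      LinearMap.mulRight_apply, LinearMap.fst_apply, LinearMap.snd_apply]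
    congr 1
    split_ifs <;> simp
  set I' := LinearMap.range R' with hI'
  have hmem : ∀ z, z ∈ I' ↔ ∃ u v w, z = u * f' + v * g' + (if c = true then w * t' else 0) := by
    intro z
    rw [hI', LinearMap.mem_range]
    constructor
    · rintro ⟨⟨u, v, w⟩, rfl⟩
      exact ⟨u, v, w, hR u v w⟩
    · rintro ⟨u, v, w, rfl⟩
      exact ⟨(u, v, w), hR u v w⟩
  have hleft : ∀ a z, z ∈ I' → a * z ∈ I' := by
    intro a z hz
    rw [hmem] at hz ⊢
    obtain ⟨u, v, w, rfl⟩ := hz
    refine ⟨a * u, a * v, a * w, ?_⟩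
    rw [mul_add, mul_add, mul_assoc, mul_assoc]
    congr 1
    split_ifs
    · rw [mul_assoc]
    · rw [mul_zero]
  have h1 := lb_all M h s hs c f' g' t' hf2 hg2 ht2 I' (fun z hz => (hmem z).1 hz)
  refine h1.trans ?_
  -- surjection
  set P := (Submodule.span ℂ
      {x : ExteriorAlgebra ℂ V | ∃ u v : ExteriorAlgebra ℂ V, x = u * f * v ∨ x = u * g * v}) with hP
  have hPI : ∀ x ∈ P, J x ∈ I' := by
    intro x hx
    induction hx using Submodule.span_induction with
    | mem x hx =>
      obtain ⟨u, v, h | h⟩ := hx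
      · rw [h, map_mul, map_mul, mul_assoc, comm_two hf2, ← mul_assoc, hmem]
        exact ⟨J u * J v, 0, 0, by split_ifs <;> simp [hf']⟩
      · rw [h, map_mul, map_mul, mul_assoc, comm_two hg2, ← mul_assoc, hmem]
        exact ⟨0, J u * J v, 0, by split_ifs <;> simp [hg']⟩
    | zero => rw [map_zero]; exact I'.zero_mem
    | add x y _ _ h1 h2 => rw [map_add]; exact I'.add_mem h1 h2
    | smul r x _ h1 => rw [map_smul]; exact I'.smul_mem r h1
  let Js : ↥(Lm V s) →ₗ[ℂ] ↥(Lm (VV M) s) :=
    (J.toLinearMap.restrict (p := Lm V s) (q := Lm (VV M) s) (fun z hz => map_Lm j s hz))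
  let q : (↥(Lm V s) ⧸ P.comap (Lm V s).subtype) →ₗ[ℂ]
      (↥(Lm (VV M) s) ⧸ I'.comap (Lm (VV M) s).subtype) :=
    Submodule.mapQ _ _ Js (by
      intro z hz
      exact hPI _ hz)
  have hsurj : ∀ s, ∀ z ∈ Lm (VV M) s, ∃ y ∈ Lm V s, z - J y ∈ I' := by
    intro s
    induction s with
    | zero =>
      intro z hz
      rw [Lm, pow_zero] at hz
      obtain ⟨r, rfl⟩ := Submodule.mem_one.1 hz
      refine ⟨algebraMap ℂ _ r, ?_, ?_⟩
      · rw [Lm, pow_zero]; exact Submodule.mem_one.2 ⟨r, rfl⟩
      · rw [AlgHom.commutes, sub_self]; exact I'.zero_mem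
    | succ s ih =>
      intro z hz
      rw [Lm, pow_succ'] at hz
      induction hz using Submodule.mul_induction_on' with
      | mem_mul_mem m hm n hn =>
        obtain ⟨v, rfl⟩ := hm
        obtain ⟨y, hy, hy2⟩ := ih n hn
        obtain ⟨v', r, hv, hr⟩ := hj v
        refine ⟨ExteriorAlgebra.ι ℂ v' * y, ?_, ?_⟩
        · rw [add_comm s 1]; exact mem_mul (mem_one _) hy
        · rw [map_mul, hJ, ExteriorAlgebra.map_apply_ι, ← hJ]
          have e1 : ExteriorAlgebra.ι ℂ v * n - ExteriorAlgebra.ι ℂ (j v') * J y =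
              ExteriorAlgebra.ι ℂ (j v') * (n - J y) + r • (t' * n) := by
            rw [hv, map_add, map_smul, add_mul, mul_sub, smul_mul_assoc]
            abel
          rw [e1]
          refine I'.add_mem (hleft _ _ hy2) ?_
          by_cases hc : c = true
          · rw [ht', comm_vec t0 s hn, hmem]
            refine ⟨0, 0, (r * (-1 : ℂ) ^ s) • n, ?_⟩
            rw [if_pos hc, zero_mul, zero_mul, zero_add, zero_add, smul_smul, smul_mul_assoc]
          · have hc' : c = false := by simpa using hc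
            rw [hr hc', zero_smul]
            exact I'.zero_mem
      | add x hx y hy h1 h2 =>
        obtain ⟨a, ha, ha2⟩ := h1
        obtain ⟨b, hb, hb2⟩ := h2
        refine ⟨a + b, Submodule.add_mem _ ha hb, ?_⟩
        rw [map_add]
        have : x + y - (J a + J b) = (x - J a) + (y - J b) := by abel
        rw [this]
        exact I'.add_mem ha2 hb2
  have hqs : Function.Surjective q := by
    intro z
    obtain ⟨z, rfl⟩ := Submodule.Quotient.mk_surjective _ z
    obtain ⟨y, hy, hy2⟩ := hsurj s z.1 z.2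
    refine ⟨Submodule.Quotient.mk ⟨y, hy⟩, ?_⟩
    change Submodule.Quotient.mk (Js ⟨y, hy⟩) = _
    rw [eq_comm, Submodule.Quotient.eq]
    exact hy2
  exact LinearMap.finrank_le_finrank_of_surjective hqs

end transfer

theorem Tc_false (M h : ℕ) : (Tc false M h).card = (T true h M h).card := by
  classical
  unfold Tc
  rw [Finset.filter_true_of_mem]
  intro s _ hs
  exact absurd hs (by simp)

open Classical in
theorem Tc_true (M h : ℕ) :
    (Tc true M h).card = ((T true h M h).filter (fun s => NoP s)).card := by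
  unfold Tc
  congr 1
  refine Finset.filter_congr (fun s _ => ?_)
  simp

/-- the lower bound for exterior algebras -/
theorem lbE (n s : ℕ) (hs : 1 ≤ s) (f g : ExteriorAlgebra ℂ (Fin n → ℂ))
    (hf : f ∈ Lm (Fin n → ℂ) 2) (hg : g ∈ Lm (Fin n → ℂ) 2) :
    PC (n + 2) ((n : ℤ) + 2 - 2 * (s : ℤ)) ≤
      Module.finrank ℂ (↥(Lm (Fin n → ℂ) s) ⧸ (Submodule.span ℂ
      {x : ExteriorAlgebra ℂ (Fin n → ℂ) | ∃ u v : ExteriorAlgebra ℂ (Fin n → ℂ),
        x = u * f * v ∨ x = u * g * v}).comap (Lm (Fin n → ℂ) s).subtype) := by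
  obtain ⟨M, hM | hM⟩ := Nat.even_or_odd' n
  · -- even
    by_cases hsM : s ≤ M
    · obtain ⟨h, hh⟩ : ∃ h, s + h = M := ⟨M - s, by omega⟩
      have e : Fin n ≃ Fin M ⊕ Fin M := Fintype.equivOfCardEq (by simp; omega)
      have key := lb_transfer (V := Fin n → ℂ) M h s hh false
        (LinearMap.funLeft ℂ ℂ e.symm) 0 (by
          intro v
          refine ⟨fun i => v (e i), 0, ?_, fun _ => rfl⟩
          funext a
          simp [LinearMap.funLeft_apply]) f g hf hg
      rw [Tc_false, ← count_even] at key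
      have e1 : (n : ℤ) + 2 - 2 * (s : ℤ) = 2 * (h : ℤ) + 2 := by
        rw [hM]; push_cast; rw [← hh]; push_cast; ring
      rw [e1]
      subst hM
      exact key
    · rw [PC_nonpos (n + 2) (by omega) _ (by omega)]
      exact Nat.zero_le _
  · -- odd, n = 2 M + 1
    by_cases hsM : s ≤ M + 1
    · obtain ⟨h, hh⟩ : ∃ h, s + h = M + 1 := ⟨M + 1 - s, by omega⟩
      have e : Option (Fin n) ≃ Fin (M + 1) ⊕ Fin (M + 1) := Fintype.equivOfCardEq (by
        simp; omega)
      let j : (Fin n → ℂ) →ₗ[ℂ] VV (M + 1) :=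
        { toFun := fun v a => (e.symm a).elim 0 v
          map_add' := by
            intro v w
            funext a
            simp only [Pi.add_apply]
            cases e.symm a <;> simp
          map_smul' := by
            intro r v
            funext a
            simp only [Pi.smul_apply, smul_eq_mul, RingHom.id_apply]
            cases e.symm a <;> simp }
      let t0 : VV (M + 1) := fun a => (e.symm a).elim 1 (fun _ => 0)
      have key := lb_transfer (V := Fin n → ℂ) (M + 1) h s hh true j t0 (by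
          intro v
          refine ⟨fun i => v (e (some i)), v (e none), ?_, fun h => absurd h (by simp)⟩
          funext a
          obtain ⟨b, rfl⟩ := e.surjective a
          simp only [j, t0, LinearMap.coe_mk, AddHom.coe_mk, Pi.add_apply, Pi.smul_apply,
            smul_eq_mul, Equiv.symm_apply_apply]
          cases b <;> simp) f g hf hg
      rw [Tc_true, ← count_odd] at key
      have e1 : (n : ℤ) + 2 - 2 * (s : ℤ) = 2 * (h : ℤ) + 1 := by
        have : (s : ℤ) + h = M + 1 := by exact_mod_cast hh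
        rw [hM]; push_cast; linarith
      rw [e1]
      subst hM
      exact key
    · rw [PC_nonpos (n + 2) (by omega) _ (by omega)]
      exact Nat.zero_le _

end Pool.Agent.Helper213.LbE
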