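import Mathlib
import Pool.Agent.Helper213.Rep
import Pool.Agent.Helper213.Sc
import Pool.Agent.Helper213.Count

set_option autoImplicit false
set_option linter.unusedSectionVars false

namespace Pool.Agent.Helper213.LbS

open Finset Filter Topology Walk Fock Elim Params Kill Pool.Agent.Helper213.Rep
  Pool.Agent.Helper213.Count

/-- the commuting square zero operators -/
noncomputable def Z (j : ℕ) : AA →ₗ[ℂ] AA := LinearMap.mulLeft ℂ (fd.X j) ∘ₗ fd.dY j

theorem Z_apply (j : ℕ) (a : AA) : Z j a = fd.X j * fd.dY j a := rfl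

theorem Z_Z (i j : ℕ) (a : AA) : Z i (Z j a) = -(fd.X i * (fd.X j * fd.dY i (fd.dY j a))) := by
  rw [Z_apply, Z_apply, fd.dYX, mul_neg]

theorem Z_sq (i : ℕ) (a : AA) : Z i (Z i a) = 0 := by
  rw [Z_Z, ← mul_assoc, fd.Xsq, zero_mul, neg_zero]

theorem Z_comm (i j : ℕ) (a : AA) : Z i (Z j a) = Z j (Z i a) := by
  rw [Z_Z, Z_Z, fd.dYdY i j, ← mul_assoc, fd.XX i j]
  simp only [neg_mul, mul_neg, neg_neg, mul_assoc]

theorem Z_dX (j k : ℕ) (hjk : k ≠ j) (a : AA) : Z j (fd.dX k a) = fd.dX k (Z j a) := by
  rw [Z_apply, Z_apply, fd.dXX, if_neg hjk, zero_sub, fd.dXdY, mul_neg, neg_neg]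

/-- product of the operators of a set -/
noncomputable def Zp : ℕ → Finset ℕ → (AA →ₗ[ℂ] AA)
  | 0, _ => LinearMap.id
  | N + 1, I => Zp N I ∘ₗ (if N ∈ I then Z N else LinearMap.id)

theorem Zp_congr (N : ℕ) {I J : Finset ℕ} (h : ∀ i < N, i ∈ I ↔ i ∈ J) : Zp N I = Zp N J := by
  induction N with
  | zero => rfl
  | succ N ih =>
    simp only [Zp]
    rw [ih (fun i hi => h i (by omega))]
    by_cases hN : N ∈ I
    · rw [if_pos hN, if_pos ((h N (by omega)).1 hN)]
    · rw [if_neg hN, if_neg (fun h2 => hN ((h N (by omega)).2 h2))]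

theorem Zp_Z (N : ℕ) (I : Finset ℕ) (j : ℕ) (hj : j < N) (a : AA) :
    Zp N I (Z j a) = if j ∈ I then 0 else Zp N (insert j I) a := by
  induction N generalizing a with
  | zero => omega
  | succ N ih =>
    simp only [Zp, LinearMap.comp_apply]
    by_cases hjN : j = N
    · subst hjN
      by_cases hI : j ∈ I
      · rw [if_pos hI, if_pos hI, Z_sq, map_zero]
      · rw [if_neg hI, if_neg hI, if_pos (mem_insert_self _ _), LinearMap.id_apply]
        congr 1
        apply Zp_congr
        intro i hi
        rw [mem_insert]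
        constructor
        · exact fun h => Or.inr h
        · rintro (h | h)
          · omega
          · exact h
    · have hN : (N ∈ insert j I) ↔ N ∈ I := by
        rw [mem_insert]
        constructor
        · rintro (h | h)
          · exact absurd h.symm hjN
          · exact h
        · exact fun h => Or.inr h
      by_cases hNI : N ∈ I
      · rw [if_pos hNI, if_pos (hN.2 hNI), Z_comm, ih (by omega)]
      · rw [if_neg hNI, if_neg (fun h => hNI (hN.1 h)), LinearMap.id_apply, LinearMap.id_apply,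
          ih (by omega)]

theorem Zp_dX (N : ℕ) (I : Finset ℕ) (k : ℕ) (hk : N ≤ k) (a : AA) :
    Zp N I (fd.dX k a) = fd.dX k (Zp N I a) := by
  induction N generalizing a with
  | zero => rfl
  | succ N ih =>
    simp only [Zp, LinearMap.comp_apply]
    by_cases hNI : N ∈ I
    · rw [if_pos hNI, Z_dX N k (by omega), ih (by omega)]
    · rw [if_neg hNI, LinearMap.id_apply, LinearMap.id_apply, ih (by omega)]

/-- positions of the down steps -/
def Ds : List St → Finset ℕ
  | [] => ∅
  | St.u :: s => Ds s
  | St.d :: s => insert s.length (Ds s)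
  | St.q :: s => Ds s
  | St.p :: s => Ds s

theorem Ds_lt : ∀ (s : List St) (j : ℕ), j ∈ Ds s → j < s.length
  | [], j, hj => by simp [Ds] at hj
  | St.u :: s, j, hj => by have := Ds_lt s j hj; simp only [List.length_cons]; omega
  | St.q :: s, j, hj => by have := Ds_lt s j hj; simp only [List.length_cons]; omega
  | St.p :: s, j, hj => by have := Ds_lt s j hj; simp only [List.length_cons]; omega
  | St.d :: s, j, hj => by
    simp only [Ds, mem_insert] at hj
    simp only [List.length_cons]
    rcases hj with h | h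
    · omega
    · have := Ds_lt s j h; omega

theorem Ds_card {h : ℕ} : ∀ (s : List St), Good false h s →
    2 * (Ds s).card + ht s = s.length
  | [], _ => by simp [Ds, ht]
  | St.u :: s, hg => by
    have := Ds_card s hg.1
    simp only [Ds, ht, List.length_cons]; omega
  | St.d :: s, hg => by
    have h1 := Ds_card s hg.1
    have h2 := hg.2
    have h3 : s.length ∉ Ds s := fun h => lt_irrefl _ (Ds_lt s _ h)
    simp only [Ds, ht, List.length_cons]
    rw [card_insert_of_notMem h3]; omega
  | St.q :: s, hg => by have := hg.2; simp at this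
  | St.p :: s, hg => by have := hg.2; simp at this

theorem Phi_Z {h : ℕ} : ∀ (s : List St), Good false h s → ∀ a,
    Phi fd s a = EP s.length (Zp s.length (Ds s) a)
  | [], _, a => rfl
  | St.u :: s, hg, a => by
    have ih := Phi_Z s hg.1
    have h3 : s.length ∉ Ds s := fun h => lt_irrefl _ (Ds_lt s _ h)
    simp only [Phi, LinearMap.comp_apply, List.length_cons, EP, Zp, Ds]
    rw [if_neg h3, LinearMap.id_apply, ih, Zp_dX _ _ _ le_rfl]
  | St.d :: s, hg, a => by
    have ih := Phi_Z s hg.1
    simp only [Phi, LinearMap.comp_apply, List.length_cons, EP, Zp, Ds]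
    rw [if_pos (mem_insert_self _ _), ih, Zp_dX _ _ _ le_rfl]
    have : Zp s.length (insert s.length (Ds s)) = Zp s.length (Ds s) := by
      apply Zp_congr
      intro i hi
      rw [mem_insert]
      constructor
      · rintro (h | h)
        · omega
        · exact h
      · exact fun h => Or.inr h
    rw [this]
    rfl
  | St.q :: s, hg, a => by have := hg.2; simp at this
  | St.p :: s, hg, a => by have := hg.2; simp at this

/-- the function of a walk -/
noncomputable def cf (N : ℕ) (lam mu : ℕ → ℂ) (s : List St) (I : Finset ℕ) : ℂ :=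
  EP N (Zp N I (EE fd N (coef lam mu s) s))

theorem cf_one (N : ℕ) (lam mu : ℕ → ℂ) {fl : Bool} {h : ℕ} {s : List St} (hg : Good fl h s)
    (hn : s.length ≤ N) (J : Finset ℕ) :
    ∑ i ∈ (range N).filter (fun i => i ∉ J), cf N lam mu s (insert i J) = 0 := by
  have h1 : ∑ i ∈ range N, EP N (Zp N J (Z i (EE fd N (coef lam mu s) s))) = 0 := by
    have h2 := kill_f fd N lam mu hg hn
    rw [DD_apply] at h2
    have h3 := congrArg (fun x => EP N (Zp N J x)) h2
    simp only [one_smul, map_sum, map_zero] at h3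
    exact h3
  rw [← h1, Finset.sum_filter]
  refine Finset.sum_congr rfl (fun i hi => ?_)
  rw [Zp_Z N J i (mem_range.1 hi)]
  by_cases hJ : i ∈ J
  · rw [if_pos hJ, if_neg (by simp [hJ]), map_zero]
  · rw [if_neg hJ, if_pos hJ]
    rfl

theorem cf_two (N : ℕ) (lam mu : ℕ → ℂ) {fl : Bool} {h : ℕ} {s : List St} (hg : Good fl h s)
    (hn : s.length ≤ N) (hh : ht s = h) (J : Finset ℕ) :
    ∑ i ∈ (range N).filter (fun i => i ∉ J), lam i * cf N lam mu s (insert i J) = 0 := by
  have h1 : ∑ i ∈ range N, lam i * EP N (Zp N J (Z i (EE fd N (coef lam mu s) s))) = 0 := by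
    have h2 := kill_g fd N lam mu hg hn hh
    rw [DD_apply] at h2
    have h3 := congrArg (fun x => EP N (Zp N J x)) h2
    simp only [map_sum, map_zero, map_smul, smul_eq_mul] at h3
    exact h3
  rw [← h1, Finset.sum_filter]
  refine Finset.sum_congr rfl (fun i hi => ?_)
  rw [Zp_Z N J i (mem_range.1 hi)]
  by_cases hJ : i ∈ J
  · rw [if_pos hJ, if_neg (by simp [hJ]), map_zero, mul_zero]
  · rw [if_neg hJ, if_pos hJ]
    rfl

section lin
variable (N s : ℕ)

/-- functions on sets of size s -/
abbrev XX : Type := ↥(powersetCard s (range N)) → ℂ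
/-- functions on sets of size s-1 -/
abbrev YY : Type := ↥(powersetCard (s - 1) (range N)) → ℂ

/-- extension by zero -/
noncomputable def ext (c : XX N s) (I : Finset ℕ) : ℂ :=
  if h : I ∈ powersetCard s (range N) then c ⟨I, h⟩ else 0

theorem ext_add (c c' : XX N s) (I : Finset ℕ) : ext N s (c + c') I = ext N s c I + ext N s c' I := by
  unfold ext; split_ifs <;> simp

theorem ext_smul (r : ℂ) (c : XX N s) (I : Finset ℕ) : ext N s (r • c) I = r * ext N s c I := by
  unfold ext; split_ifs <;> simp

/-- one linear system -/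
noncomputable def Ta (a : ℕ → ℂ) : XX N s →ₗ[ℂ] YY N s where
  toFun c J := ∑ i ∈ (range N).filter (fun i => i ∉ J.1), a i * ext N s c (insert i J.1)
  map_add' c c' := by
    funext J
    simp only [ext_add, mul_add, Finset.sum_add_distrib, Pi.add_apply]
  map_smul' r c := by
    funext J
    simp only [ext_smul, Pi.smul_apply, smul_eq_mul, RingHom.id_apply, Finset.mul_sum]
    exact Finset.sum_congr rfl (fun i _ => by ring)

theorem Ta_apply (a : ℕ → ℂ) (c : XX N s) (J : ↥(powersetCard (s - 1) (range N))) :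
    Ta N s a c J = ∑ i ∈ (range N).filter (fun i => i ∉ J.1), a i * ext N s c (insert i J.1) := rfl

theorem Ta_add (a a' : ℕ → ℂ) (e : ℂ) :
    Ta N s (fun i => a i + e * a' i) = Ta N s a + e • Ta N s a' := by
  refine LinearMap.ext fun c => ?_
  funext J
  simp only [LinearMap.add_apply, LinearMap.smul_apply, Pi.add_apply, Pi.smul_apply, Ta_apply,
    smul_eq_mul, Finset.mul_sum, ← Finset.sum_add_distrib]
  exact Finset.sum_congr rfl (fun i _ => by ring)

/-- both linear systems -/
noncomputable def Tab (a b : ℕ → ℂ) : XX N s →ₗ[ℂ] (YY N s × YY N s) := (Ta N s a).prod (Ta N s b)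

theorem Tab_add (a b a' b' : ℕ → ℂ) (e : ℂ) :
    Tab N s (fun i => a i + e * a' i) (fun i => b i + e * b' i) = Tab N s a b + e • Tab N s a' b' := by
  refine LinearMap.ext fun c => ?_
  refine Prod.ext ?_ ?_
  · change Ta N s (fun i => a i + e * a' i) c = Ta N s a c + e • Ta N s a' c
    rw [Ta_add, LinearMap.add_apply, LinearMap.smul_apply]
  · change Ta N s (fun i => b i + e * b' i) c = Ta N s b c + e • Ta N s b' c
    rw [Ta_add, LinearMap.add_apply, LinearMap.smul_apply]

end lin

/-- generic lower bound for the kernel -/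
theorem ker_generic (N s w : ℕ) (hs : 1 ≤ s) (hw : 2 * s + w = N) (lam mu : ℕ → ℂ)
    (hN : NS false w N w (Sys fd N lam mu)) (A B : ℕ → ℂ) (hA : ∀ i < N, A i ≠ 0)
    (hB : ∀ i < N, lam i = B i / A i) :
    (T false w N w).card ≤ Module.finrank ℂ (LinearMap.ker (Tab N s A B)) := by
  classical
  let v : ↥(T false w N w) → XX N s := fun t I =>
    cf N lam mu t.1 I.1 * (∏ i ∈ I.1, A i)⁻¹
  have hext : ∀ t (I : Finset ℕ) (hI : I ∈ powersetCard s (range N)), ext N s (v t) I =
      cf N lam mu t.1 I * (∏ i ∈ I, A i)⁻¹ := by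
    intro t I hI
    rw [ext, dif_pos hI]
  have hins : ∀ J ∈ powersetCard (s - 1) (range N), ∀ i ∈ (range N).filter (fun i => i ∉ J),
      insert i J ∈ powersetCard s (range N) := by
    intro J hJ i hi
    rw [mem_powersetCard] at hJ ⊢
    rw [mem_filter] at hi
    refine ⟨insert_subset hi.1 hJ.1, ?_⟩
    rw [card_insert_of_notMem hi.2]
    omega
  have hker : ∀ t, v t ∈ LinearMap.ker (Tab N s A B) := by
    intro t
    obtain ⟨t1, t2, t3⟩ := mem_T.1 t.2
    rw [LinearMap.mem_ker]
    refine Prod.ext ?_ ?_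
    · funext J
      change ∑ i ∈ (range N).filter (fun i => i ∉ J.1), A i * ext N s (v t) (insert i J.1) = 0
      have h1 : ∀ i ∈ (range N).filter (fun i => i ∉ J.1), A i * ext N s (v t) (insert i J.1) =
          (∏ i ∈ J.1, A i)⁻¹ * cf N lam mu t.1 (insert i J.1) := by
        intro i hi
        have hi' := mem_filter.1 hi
        rw [hext t _ (hins J.1 J.2 i hi), prod_insert hi'.2, mul_inv]
        have := hA i (mem_range.1 hi'.1)
        field_simp
      rw [Finset.sum_congr rfl h1, ← Finset.mul_sum, cf_one N lam mu t2 t1.le, mul_zero]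
    · funext J
      change ∑ i ∈ (range N).filter (fun i => i ∉ J.1), B i * ext N s (v t) (insert i J.1) = 0
      have h1 : ∀ i ∈ (range N).filter (fun i => i ∉ J.1), B i * ext N s (v t) (insert i J.1) =
          (∏ i ∈ J.1, A i)⁻¹ * (lam i * cf N lam mu t.1 (insert i J.1)) := by
        intro i hi
        have hi' := mem_filter.1 hi
        rw [hext t _ (hins J.1 J.2 i hi), prod_insert hi'.2, mul_inv, hB i (mem_range.1 hi'.1)]
        have := hA i (mem_range.1 hi'.1)
        field_simp
      rw [Finset.sum_congr rfl h1, ← Finset.mul_sum, cf_two N lam mu t2 t1.le t3, mul_zero]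
  have hli : LinearIndependent ℂ (fun t => (⟨v t, hker t⟩ : LinearMap.ker (Tab N s A B))) := by
    rw [Fintype.linearIndependent_iff]
    intro g hg
    have key := hN (fun t => if ht : t ∈ T false w N w then g ⟨t, ht⟩ else 0) (by
      intro t ht
      obtain ⟨t1, t2, t3⟩ := mem_T.1 ht
      have hcard := Ds_card t t2
      have hmem : Ds t ∈ powersetCard s (range N) := by
        rw [mem_powersetCard]
        refine ⟨fun j hj => mem_range.2 ?_, by omega⟩
        have := Ds_lt t j hj
        omega
      have h1 := congrArg (fun x : LinearMap.ker (Tab N s A B) => x.1 ⟨Ds t, hmem⟩) hg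
      simp only [Submodule.coe_sum, Submodule.coe_smul, Finset.sum_apply, Pi.smul_apply,
        Submodule.coe_zero, Pi.zero_apply, smul_eq_mul] at h1
      have h2 : (∏ i ∈ Ds t, A i)⁻¹ ≠ 0 := by
        apply inv_ne_zero
        rw [Finset.prod_ne_zero_iff]
        intro i hi
        exact hA i (by have := Ds_lt t i hi; omega)
      have h3 : (∑ x : ↥(T false w N w), g x * cf N lam mu x.1 (Ds t)) * (∏ i ∈ Ds t, A i)⁻¹ = 0 := by
        rw [← h1, Finset.sum_mul]
        refine Finset.sum_congr rfl (fun x _ => ?_)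
        simp only [v]
        ring
      have h4 := (mul_eq_zero.1 h3).resolve_right h2
      rw [← h4, ← Finset.sum_coe_sort]
      refine Finset.sum_congr rfl (fun x _ => ?_)
      rw [dif_pos x.2, Sys, Phi_Z t t2, t1]
      rfl)
    intro i
    have h4 := key i.1 i.2
    rw [dif_pos i.2] at h4
    exact h4
  have h5 := hli.fintype_card_le_finrank
  rw [Fintype.card_coe] at h5
  exact h5

/-- the lower bound for all coefficient pairs -/
theorem ker_all (N s w : ℕ) (hs : 1 ≤ s) (hw : 2 * s + w = N) (a b : ℕ → ℂ) :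
    (T false w N w).card ≤ Module.finrank ℂ (LinearMap.ker (Tab N s a b)) := by
  obtain ⟨lam, mu, hD, hN⟩ := exists_params fd false w N N le_rfl
  have hl : ∀ j < N, Tendsto (fun e : ℂ => (lam j + e * b j) / (1 + e * a j)) (𝓝 0) (𝓝 (lam j)) := by
    intro j _
    have h1 : Tendsto (fun e : ℂ => (lam j + e * b j)) (𝓝 0) (𝓝 (lam j + 0 * b j)) :=
      tendsto_const_nhds.add (tendsto_id.mul_const _)
    have h2 : Tendsto (fun e : ℂ => (1 + e * a j)) (𝓝 0) (𝓝 (1 + 0 * a j)) :=
      tendsto_const_nhds.add (tendsto_id.mul_const _)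
    have h3 : Tendsto (fun e : ℂ => (lam j + e * b j) / (1 + e * a j)) (𝓝 0)
        (𝓝 ((lam j + 0 * b j) / (1 + 0 * a j))) := h1.div h2 (by simp)
    simpa using h3
  have e1 := NS_nhds fd false w N w lam mu hD (hN w) hl
  have e2 : ∀ᶠ e : ℂ in 𝓝 0, ∀ j ∈ range N, 1 + e * a j ≠ 0 := by
    rw [Filter.eventually_all_finset]
    intro j _
    have h2 : Tendsto (fun e : ℂ => (1 + e * a j)) (𝓝 0) (𝓝 (1 + 0 * a j)) :=
      tendsto_const_nhds.add (tendsto_id.mul_const _)
    exact h2.eventually_ne (by simp)
  have hrank : ∀ᶠ e : ℂ in 𝓝 0, Module.finrank ℂ (LinearMap.range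
      (Tab N s (fun _ => 1) lam + e • Tab N s a b)) ≤
      Module.finrank ℂ (XX N s) - (T false w N w).card := by
    filter_upwards [e1, e2] with e h1 h2
    rw [← Tab_add]
    have h3 := ker_generic N s w hs hw (fun j => (lam j + e * b j) / (1 + e * a j)) mu h1
      (fun j => 1 + e * a j) (fun j => lam j + e * b j) (fun i hi => h2 i (mem_range.2 hi))
      (fun i _ => rfl)
    have h4 := LinearMap.finrank_range_add_finrank_ker
      (Tab N s (fun j => 1 + e * a j) (fun j => lam j + e * b j))
    omega
  have hfreq := (hrank.filter_mono (nhdsWithin_le_nhds (s := {(0 : ℂ)}ᶜ))).frequently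
  have h6 := Sc.sc _ _ _ hfreq
  have h7 : (T false w N w).card ≤ Module.finrank ℂ (XX N s) := by
    have h3 := ker_generic N s w hs hw lam mu (hN w) (fun _ => 1) lam
      (fun _ _ => one_ne_zero) (fun i _ => by simp)
    have h4 := LinearMap.finrank_range_add_finrank_ker (Tab N s (fun _ => 1) lam)
    omega
  have h8 := LinearMap.finrank_range_add_finrank_ker (Tab N s a b)
  omega

end Pool.Agent.Helper213.LbS
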