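import Mathlib

set_option autoImplicit false

namespace Pool.Agent.Helper213.LbSx

open Finset

namespace LBS

def sh {n : ℕ} (m : Fin n →₀ ℕ) : Finset ℕ := m.support.image (fun i : Fin n => (i : ℕ) + 1)

lemma mem_sh {n : ℕ} {m : Fin n →₀ ℕ} {i : Fin n} : (i : ℕ) + 1 ∈ sh m ↔ m i ≠ 0 := by
  unfold sh
  rw [mem_image]
  constructor
  · rintro ⟨j, hj, h⟩
    have : j = i := by apply Fin.ext; omega
    subst this
    exact Finsupp.mem_support_iff.mp hj
  · intro h
    exact ⟨i, Finsupp.mem_support_iff.mpr h, rfl⟩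

lemma sh_sub {n : ℕ} (m : Fin n →₀ ℕ) {x : ℕ} (hx : x ∈ sh m) : 1 ≤ x ∧ x ≤ n := by
  unfold sh at hx
  rw [mem_image] at hx
  obtain ⟨i, _, rfl⟩ := hx
  have := i.2
  omega

noncomputable def G (n : ℕ) : (Finset ℕ → ℂ) →ₗ[ℂ] ((Fin n →₀ ℕ) → ℂ) where
  toFun c m := open Classical in if (∀ i, m i ≤ 1) then c (sh m) else 0
  map_add' c d := by
    funext m
    simp only [Pi.add_apply]
    split_ifs <;> simp
  map_smul' t c := by
    funext m
    simp only [Pi.smul_apply, RingHom.id_apply]
    split_ifs <;> simp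

noncomputable def F (n : ℕ) : (Finset ℕ → ℂ) →ₗ[ℂ] (MvPolynomial (Fin n) ℂ →ₗ[ℂ] ℂ) :=
  ((MvPolynomial.basisMonomials (Fin n) ℂ).constr ℂ).toLinearMap ∘ₗ G n

lemma F_monomial (n : ℕ) (c : Finset ℕ → ℂ) (m : Fin n →₀ ℕ) :
    F n c (MvPolynomial.monomial m 1) = G n c m := by
  have := (MvPolynomial.basisMonomials (Fin n) ℂ).constr_basis ℂ (G n c) m
  simpa [F] using this

lemma F_monomial' (n : ℕ) (c : Finset ℕ → ℂ) (m : Fin n →₀ ℕ) (t : ℂ) :
    F n c (MvPolynomial.monomial m t) = t * G n c m := by
  have : MvPolynomial.monomial m t = t • MvPolynomial.monomial m (1 : ℂ) := by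
    rw [MvPolynomial.smul_monomial, smul_eq_mul, mul_one]
  rw [this, map_smul, F_monomial, smul_eq_mul]

lemma G_zero_of {n : ℕ} {c : Finset ℕ → ℂ} {m : Fin n →₀ ℕ} (i : Fin n) (h : 2 ≤ m i) :
    G n c m = 0 := by
  simp only [G, LinearMap.coe_mk, AddHom.coe_mk]
  rw [if_neg]
  intro h'
  have := h' i
  omega

lemma G_of {n : ℕ} {c : Finset ℕ → ℂ} {m : Fin n →₀ ℕ} (h : ∀ i, m i ≤ 1) :
    G n c m = c (sh m) := by
  simp only [G, LinearMap.coe_mk, AddHom.coe_mk]
  rw [if_pos h]

lemma F_ext_mul {n : ℕ} {c : Finset ℕ → ℂ} (q : MvPolynomial (Fin n) ℂ)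
    (h : ∀ m : Fin n →₀ ℕ, F n c (q * MvPolynomial.monomial m 1) = 0) (p : MvPolynomial (Fin n) ℂ) :
    F n c (q * p) = 0 := by
  have : (F n c) ∘ₗ (LinearMap.mulLeft ℂ q) = 0 := by
    apply (MvPolynomial.basisMonomials (Fin n) ℂ).ext
    intro m
    simpa using h m
  have h2 := LinearMap.congr_fun this p
  simpa using h2

lemma F_X_sq {n : ℕ} (c : Finset ℕ → ℂ) (i : Fin n) (p : MvPolynomial (Fin n) ℂ) :
    F n c ((MvPolynomial.X i) ^ 2 * p) = 0 := by
  apply F_ext_mul
  intro m
  rw [MvPolynomial.X_pow_eq_monomial, MvPolynomial.monomial_mul, one_mul, F_monomial]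
  apply G_zero_of i
  simp

lemma lin_form {n : ℕ} (l : MvPolynomial (Fin n) ℂ)
    (h : l ∈ MvPolynomial.homogeneousSubmodule (Fin n) ℂ 1) (a : ℕ → ℂ)
    (ha : ∀ i : Fin n, a (i + 1) = MvPolynomial.coeff (Finsupp.single i 1) l) :
    l = ∑ i : Fin n, MvPolynomial.monomial (Finsupp.single i 1) (a (i + 1)) := by
  ext m
  rw [MvPolynomial.coeff_sum]
  simp only [MvPolynomial.coeff_monomial]
  by_cases hm : m.degree = 1
  · obtain ⟨i, rfl⟩ : ∃ i, m = Finsupp.single i 1 := (Finsupp.sum_eq_one_iff _).mp hm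
    rw [Finset.sum_eq_single i]
    · simp [ha]
    · intro j _ hj
      rw [if_neg]
      intro h'
      exact hj ((Finsupp.single_left_inj one_ne_zero).mp h')
    · simp
  · rw [MvPolynomial.mem_homogeneousSubmodule] at h
    rw [h.coeff_eq_zero hm, Finset.sum_eq_zero]
    intro i _
    rw [if_neg]
    rintro rfl
    exact hm (by simp)

noncomputable def S (n : ℕ) (a : ℕ → ℂ) (c : Finset ℕ → ℂ) (J : Finset ℕ) : ℂ :=
  ∑ j : Fin n, if (j : ℕ) + 1 ∈ J then 0 else a (j + 1) * c (insert ((j : ℕ) + 1) J)

lemma inner_sum {n : ℕ} (a : ℕ → ℂ) (c : Finset ℕ → ℂ) (m : Fin n →₀ ℕ) (hm : ∀ i, m i ≤ 1)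
    (i : Fin n) (hi : (i : ℕ) + 1 ∉ sh m) :
    ∑ j : Fin n, a (j + 1) * G n c (Finsupp.single i 1 + Finsupp.single j 1 + m) =
      S n a c (insert ((i : ℕ) + 1) (sh m)) := by
  unfold S
  apply Finset.sum_congr rfl
  intro j _
  have hi0 : m i = 0 := by
    by_contra h
    exact hi (mem_sh.mpr h)
  split_ifs with hj
  · rw [mem_insert] at hj
    rcases hj with hj | hj
    · have : j = i := by apply Fin.ext; omega
      subst this
      rw [G_zero_of j, mul_zero]
      simp
    · rw [mem_sh] at hj
      rw [G_zero_of j, mul_zero]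
      simp only [Finsupp.add_apply, Finsupp.single_eq_same]
      omega
  · rw [mem_insert, not_or] at hj
    obtain ⟨hj1, hj2⟩ := hj
    have hji : j ≠ i := fun h => hj1 (by rw [h])
    have hj0 : m j = 0 := by
      by_contra h
      exact hj2 (mem_sh.mpr h)
    rw [G_of]
    · congr 2
      ext x
      rw [mem_insert, mem_insert]
      constructor
      · intro hx
        have hx' := sh_sub _ hx
        obtain ⟨k, hk⟩ : ∃ k : Fin n, x = (k : ℕ) + 1 := ⟨⟨x - 1, by omega⟩, by simp; omega⟩
        subst hk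
        rw [mem_sh] at hx ⊢
        by_contra hcon
        rw [not_or, not_or, not_not] at hcon
        obtain ⟨h1, h2, h3⟩ := hcon
        apply hx
        have h1' : k ≠ j := fun h => h1 (by rw [h])
        have h2' : k ≠ i := fun h => h2 (by rw [h])
        simp [Finsupp.single_apply, h1'.symm, h2'.symm, h3]
      · rintro (hx | hx | hx)
        · subst hx
          rw [mem_sh]
          simp
        · subst hx
          rw [mem_sh]
          simp
        · have hx' := sh_sub _ hx
          obtain ⟨k, hk⟩ : ∃ k : Fin n, x = (k : ℕ) + 1 := ⟨⟨x - 1, by omega⟩, by simp; omega⟩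
          subst hk
          rw [mem_sh] at hx ⊢
          simp only [Finsupp.add_apply]
          omega
    · intro k
      simp only [Finsupp.add_apply, Finsupp.single_apply]
      have := hm k
      by_cases h1 : i = k
      · subst h1
        rw [if_pos rfl, if_neg hji, hi0]
        omega
      · rw [if_neg h1]
        by_cases h2 : j = k
        · subst h2
          rw [if_pos rfl, hj0]
        · rw [if_neg h2]
          omega

lemma F_l_sq {n : ℕ} (a : ℕ → ℂ) (c : Finset ℕ → ℂ) (π : ℕ) (hπ : π = 0 ∨ π = n + 1)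
    (l : MvPolynomial (Fin n) ℂ)
    (hl : l = ∑ i : Fin n, MvPolynomial.monomial (Finsupp.single i 1) (a (i + 1)))
    (h1 : ∀ J, J ⊆ range (n + 2) → π ∉ J → c (insert π J) + S n a c J = 0)
    (h2 : ∀ J, J ⊆ range (n + 2) → π ∈ J → S n a c J = 0) (p : MvPolynomial (Fin n) ℂ) :
    F n c (l ^ 2 * p) = 0 := by
  apply F_ext_mul
  intro m
  have e1 : F n c (l ^ 2 * MvPolynomial.monomial m 1) =
      ∑ i : Fin n, a (i + 1) * ∑ j : Fin n, a (j + 1) *
        G n c (Finsupp.single i 1 + Finsupp.single j 1 + m) := by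
    rw [hl, pow_two, Finset.sum_mul_sum, Finset.sum_mul, map_sum]
    apply Finset.sum_congr rfl
    intro i _
    rw [Finset.sum_mul, map_sum, Finset.mul_sum]
    apply Finset.sum_congr rfl
    intro j _
    rw [MvPolynomial.monomial_mul, MvPolynomial.monomial_mul, F_monomial']
    ring
  rw [e1]
  by_cases hm : ∀ i, m i ≤ 1
  · have hsub : ∀ x ∈ sh m, x ∈ range (n + 2) := by
      intro x hx
      have := sh_sub m hx
      rw [mem_range]; omega
    have hπm : π ∉ sh m := by
      intro h
      have := sh_sub m h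
      omega
    have e2 : ∀ i : Fin n, a (i + 1) * ∑ j : Fin n, a (j + 1) *
        G n c (Finsupp.single i 1 + Finsupp.single j 1 + m) =
        - (if (i : ℕ) + 1 ∈ insert π (sh m) then 0 else
          a (i + 1) * c (insert ((i : ℕ) + 1) (insert π (sh m)))) := by
      intro i
      have hiπ : (i : ℕ) + 1 ≠ π := by
        have := i.2
        omega
      by_cases hi : (i : ℕ) + 1 ∈ sh m
      · rw [if_pos (mem_insert_of_mem hi), neg_zero, Finset.sum_eq_zero, mul_zero]
        intro j _
        rw [mem_sh] at hi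
        rw [G_zero_of i, mul_zero]
        simp only [Finsupp.add_apply, Finsupp.single_eq_same]
        omega
      · rw [inner_sum a c m hm i hi, if_neg]
        · have := h1 (insert ((i : ℕ) + 1) (sh m)) (by
            intro x hx
            rw [mem_insert] at hx
            rcases hx with hx | hx
            · have := i.2
              rw [mem_range]; omega
            · exact hsub x hx) (by
            rw [mem_insert, not_or]
            exact ⟨hiπ.symm, hπm⟩)
          rw [Finset.insert_comm]
          linear_combination a (i + 1) * this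
        · rw [mem_insert, not_or]
          exact ⟨hiπ, hi⟩
    rw [Finset.sum_congr rfl (fun i _ => e2 i), Finset.sum_neg_distrib, neg_eq_zero]
    exact h2 (insert π (sh m)) (by
      intro x hx
      rw [mem_insert] at hx
      rcases hx with hx | hx
      · rw [mem_range]; omega
      · exact hsub x hx) (mem_insert_self _ _)
  · push Not at hm
    obtain ⟨k, hk⟩ := hm
    apply Finset.sum_eq_zero
    intro i _
    rw [Finset.sum_eq_zero, mul_zero]
    intro j _
    rw [G_zero_of k, mul_zero]
    simp only [Finsupp.add_apply]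
    omega

lemma sum_split (n : ℕ) (f : ℕ → ℂ) :
    ∑ x ∈ range (n + 2), f x = f 0 + (∑ i : Fin n, f (i + 1)) + f (n + 1) := by
  rw [Finset.sum_range_succ, Finset.sum_range_succ', Fin.sum_univ_eq_sum_range (fun i => f (i + 1)) n]
  ring

def W (n s : ℕ) (a b : ℕ → ℂ) : Submodule ℂ (Finset ℕ → ℂ) where
  carrier := {c | (∀ I, ¬ (I ⊆ range (n + 2) ∧ I.card = s) → c I = 0) ∧
    (∀ J ⊆ range (n + 2), J.card + 1 = s →
      ∑ i ∈ (range (n + 2)).filter (fun i => i ∉ J), a i * c (insert i J) = 0) ∧
    (∀ J ⊆ range (n + 2), J.card + 1 = s →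
      ∑ i ∈ (range (n + 2)).filter (fun i => i ∉ J), b i * c (insert i J) = 0)}
  add_mem' := by
    rintro c d ⟨h1, h2, h3⟩ ⟨k1, k2, k3⟩
    refine ⟨fun I hI => ?_, fun J hJ hs => ?_, fun J hJ hs => ?_⟩
    · rw [Pi.add_apply, h1 I hI, k1 I hI, add_zero]
    · simp only [Pi.add_apply, mul_add, Finset.sum_add_distrib, h2 J hJ hs, k2 J hJ hs, add_zero]
    · simp only [Pi.add_apply, mul_add, Finset.sum_add_distrib, h3 J hJ hs, k3 J hJ hs, add_zero]
  zero_mem' := by
    refine ⟨fun I hI => rfl, fun J hJ hs => by simp, fun J hJ hs => by simp⟩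
  smul_mem' := by
    rintro t c ⟨h1, h2, h3⟩
    refine ⟨fun I hI => ?_, fun J hJ hs => ?_, fun J hJ hs => ?_⟩
    · rw [Pi.smul_apply, h1 I hI, smul_zero]
    · have := congrArg (fun z => t * z) (h2 J hJ hs)
      simp only [Finset.mul_sum, mul_zero] at this
      rw [← this]
      apply Finset.sum_congr rfl
      intro i _
      simp only [Pi.smul_apply, smul_eq_mul]
      ring
    · have := congrArg (fun z => t * z) (h3 J hJ hs)
      simp only [Finset.mul_sum, mul_zero] at this
      rw [← this]
      apply Finset.sum_congr rfl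
      intro i _
      simp only [Pi.smul_apply, smul_eq_mul]
      ring

lemma full_eq {n s : ℕ} {a : ℕ → ℂ} {c : Finset ℕ → ℂ}
    (h1 : ∀ I, ¬ (I ⊆ range (n + 2) ∧ I.card = s) → c I = 0)
    (h2 : ∀ J ⊆ range (n + 2), J.card + 1 = s →
      ∑ i ∈ (range (n + 2)).filter (fun i => i ∉ J), a i * c (insert i J) = 0)
    (J : Finset ℕ) (hJ : J ⊆ range (n + 2)) :
    (if 0 ∈ J then 0 else a 0 * c (insert 0 J)) + S n a c J +
      (if n + 1 ∈ J then 0 else a (n + 1) * c (insert (n + 1) J)) = 0 := by
  have e : ∑ i ∈ (range (n + 2)).filter (fun i => i ∉ J), a i * c (insert i J) = 0 := by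
    by_cases hs : J.card + 1 = s
    · exact h2 J hJ hs
    · apply Finset.sum_eq_zero
      intro i hi
      rw [mem_filter] at hi
      rw [h1, mul_zero]
      rintro ⟨_, h⟩
      rw [Finset.card_insert_of_notMem hi.2] at h
      exact hs h
  rw [Finset.sum_filter, sum_split] at e
  simp only [ite_not] at e
  unfold S
  exact e

lemma F_inj {n s : ℕ} {a b : ℕ → ℂ} (ha0 : a 0 = 1) (han : a (n + 1) = 0) (hb0 : b 0 = 0)
    (hbn : b (n + 1) = 1) {c : Finset ℕ → ℂ} (hc : c ∈ W n s a b)
    (h : ∀ p ∈ MvPolynomial.homogeneousSubmodule (Fin n) ℂ s, F n c p = 0) : c = 0 := by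
  obtain ⟨h1, h2, h3⟩ := hc
  have A := full_eq h1 h2
  have B := full_eq h1 h3
  have z1 : ∀ I, I ⊆ range (n + 2) → 0 ∉ I → n + 1 ∉ I → c I = 0 := by
    intro I hI h0 hn
    by_cases hs : I.card = s
    · classical
      let m : Fin n →₀ ℕ := Finsupp.equivFunOnFinite.symm (fun i => if (i : ℕ) + 1 ∈ I then 1 else 0)
      have hm : ∀ i : Fin n, m i = if (i : ℕ) + 1 ∈ I then 1 else 0 := fun i => rfl
      have hsh : sh m = I := by
        ext x
        constructor
        · intro hx
          have hx' := sh_sub _ hx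
          obtain ⟨k, hk⟩ : ∃ k : Fin n, x = (k : ℕ) + 1 := ⟨⟨x - 1, by omega⟩, by simp; omega⟩
          subst hk
          rw [mem_sh, hm] at hx
          by_contra hcon
          rw [if_neg hcon] at hx
          exact hx rfl
        · intro hx
          have hr := mem_range.mp (hI hx)
          have hx0 : x ≠ 0 := fun h => h0 (h ▸ hx)
          have hxn : x ≠ n + 1 := fun h => hn (h ▸ hx)
          obtain ⟨k, hk⟩ : ∃ k : Fin n, x = (k : ℕ) + 1 := ⟨⟨x - 1, by omega⟩, by simp; omega⟩
          subst hk
          rw [mem_sh, hm, if_pos hx]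
          exact one_ne_zero
      have hdeg : m.degree = s := by
        rw [← hs, ← hsh]
        unfold sh
        rw [Finset.card_image_of_injective _ (fun i j hij => by apply Fin.ext; simpa using hij)]
        rw [Finset.card_eq_sum_ones]
        apply Finset.sum_congr rfl
        intro i hi
        rw [Finsupp.mem_support_iff, hm] at hi
        rw [hm]
        split_ifs at hi ⊢ with h'
        · rfl
        · exact absurd rfl hi
      have hF := h (MvPolynomial.monomial m 1) (MvPolynomial.isHomogeneous_monomial _ hdeg)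
      rw [F_monomial, G_of, hsh] at hF
      · exact hF
      · intro i
        rw [hm]
        split_ifs <;> omega
    · exact h1 I (fun h' => hs h'.2)
  have insr : ∀ (j : Fin n) (J : Finset ℕ), J ⊆ range (n + 2) →
      insert ((j : ℕ) + 1) J ⊆ range (n + 2) := by
    intro j J hJ x hx
    rw [mem_insert] at hx
    rcases hx with hx | hx
    · have := j.2
      rw [mem_range]; omega
    · exact hJ hx
  have z2 : ∀ J, J ⊆ range (n + 2) → 0 ∉ J → n + 1 ∉ J → c (insert 0 J) = 0 := by
    intro J hJ h0 hn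
    have e := A J hJ
    rw [if_neg h0, if_neg hn, ha0, han, one_mul, zero_mul, add_zero] at e
    have : S n a c J = 0 := by
      apply Finset.sum_eq_zero
      intro j _
      split_ifs with hj
      · rfl
      · rw [z1 _ (insr j J hJ), mul_zero]
        · rw [mem_insert, not_or]; exact ⟨by omega, h0⟩
        · rw [mem_insert, not_or]; exact ⟨by have := j.2; omega, hn⟩
    rw [this, add_zero] at e
    exact e
  have z3 : ∀ J, J ⊆ range (n + 2) → 0 ∉ J → n + 1 ∉ J → c (insert (n + 1) J) = 0 := by
    intro J hJ h0 hn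
    have e := B J hJ
    rw [if_neg h0, if_neg hn, hb0, hbn, one_mul, zero_mul, zero_add] at e
    have : S n b c J = 0 := by
      apply Finset.sum_eq_zero
      intro j _
      split_ifs with hj
      · rfl
      · rw [z1 _ (insr j J hJ), mul_zero]
        · rw [mem_insert, not_or]; exact ⟨by omega, h0⟩
        · rw [mem_insert, not_or]; exact ⟨by have := j.2; omega, hn⟩
    rw [this, zero_add] at e
    exact e
  have z3' : ∀ I, I ⊆ range (n + 2) → 0 ∉ I → n + 1 ∈ I → c I = 0 := by
    intro I hI h0 hn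
    have := z3 (I.erase (n + 1)) ((Finset.erase_subset _ _).trans hI)
      (fun h => h0 (Finset.mem_of_mem_erase h)) (Finset.notMem_erase _ _)
    rwa [Finset.insert_erase hn] at this
  have z4 : ∀ J, J ⊆ range (n + 2) → 0 ∉ J → n + 1 ∈ J → c (insert 0 J) = 0 := by
    intro J hJ h0 hn
    have e := A J hJ
    rw [if_neg h0, if_pos hn, ha0, one_mul, add_zero] at e
    have : S n a c J = 0 := by
      apply Finset.sum_eq_zero
      intro j _
      split_ifs with hj
      · rfl
      · rw [z3' _ (insr j J hJ), mul_zero]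
        · rw [mem_insert, not_or]; exact ⟨by omega, h0⟩
        · exact mem_insert_of_mem hn
    rw [this, add_zero] at e
    exact e
  funext I
  by_cases hI : I ⊆ range (n + 2)
  · by_cases h0 : 0 ∈ I
    · have hJ : I.erase 0 ⊆ range (n + 2) := (Finset.erase_subset _ _).trans hI
      have h0' : 0 ∉ I.erase 0 := Finset.notMem_erase _ _
      rw [← Finset.insert_erase h0]
      by_cases hn : n + 1 ∈ I.erase 0
      · exact z4 _ hJ h0' hn
      · exact z2 _ hJ h0' hn
    · by_cases hn : n + 1 ∈ I
      · exact z3' I hI h0 hn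
      · exact z1 I hI h0 hn
  · exact h1 I (fun h => hI h.1)

end LBS

open LBS in
theorem lb_S_transfer (n s D : ℕ) (hs : 1 ≤ s) (l₁ l₂ : MvPolynomial (Fin n) ℂ)
    (h₁ : l₁ ∈ MvPolynomial.homogeneousSubmodule (Fin n) ℂ 1)
    (h₂ : l₂ ∈ MvPolynomial.homogeneousSubmodule (Fin n) ℂ 1)
    (a b : ℕ → ℂ) (ha0 : a 0 = 1)
    (ha : ∀ i : Fin n, a (i + 1) = MvPolynomial.coeff (Finsupp.single i 1) l₁)
    (han : a (n + 1) = 0) (hb0 : b 0 = 0)
    (hb : ∀ i : Fin n, b (i + 1) = MvPolynomial.coeff (Finsupp.single i 1) l₂)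
    (hbn : b (n + 1) = 1)
    (c : Fin D → Finset ℕ → ℂ)
    (hsupp : ∀ k I, ¬ (I ⊆ range (n + 2) ∧ I.card = s) → c k I = 0)
    (hli : LinearIndependent ℂ c)
    (hA : ∀ k, ∀ J ⊆ range (n + 2), J.card + 1 = s →
      ∑ i ∈ (range (n + 2)).filter (fun i => i ∉ J), a i * c k (insert i J) = 0)
    (hB : ∀ k, ∀ J ⊆ range (n + 2), J.card + 1 = s →
      ∑ i ∈ (range (n + 2)).filter (fun i => i ∉ J), b i * c k (insert i J) = 0) :
    D ≤ Module.finrank ℂ
          (↥(MvPolynomial.homogeneousSubmodule (Fin n) ℂ s) ⧸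
            Submodule.comap (MvPolynomial.homogeneousSubmodule (Fin n) ℂ s).subtype
              (Submodule.restrictScalars ℂ
                (Ideal.span (Set.range (fun i : Fin n => (MvPolynomial.X i : MvPolynomial (Fin n) ℂ) ^ 2)
                  ∪ {l₁ ^ 2, l₂ ^ 2})))) := by
  have e₁ := lin_form l₁ h₁ a ha
  have e₂ := lin_form l₂ h₂ b hb
  have kill : ∀ d ∈ W n s a b, ∀ x ∈ Ideal.span
      (Set.range (fun i : Fin n => (MvPolynomial.X i : MvPolynomial (Fin n) ℂ) ^ 2)
        ∪ {l₁ ^ 2, l₂ ^ 2}), ∀ r, F n d (x * r) = 0 := by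
    intro d hd x hx
    obtain ⟨k1, k2, k3⟩ := hd
    have A := full_eq k1 k2
    have B := full_eq k1 k3
    induction hx using Submodule.span_induction with
    | mem x hx =>
      intro r
      rcases hx with ⟨i, rfl⟩ | hx
      · exact F_X_sq d i r
      · rcases hx with rfl | hx
        · refine F_l_sq a d 0 (Or.inl rfl) l₁ e₁ ?_ ?_ r
          · intro J hJ h0
            have := A J hJ
            rw [if_neg h0, ha0, han] at this
            simpa using this
          · intro J hJ h0
            have := A J hJ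
            rw [if_pos h0, han] at this
            simpa using this
        · rw [Set.mem_singleton_iff] at hx
          subst hx
          refine F_l_sq b d (n + 1) (Or.inr rfl) l₂ e₂ ?_ ?_ r
          · intro J hJ h0
            have := B J hJ
            rw [if_neg h0, hb0, hbn] at this
            have h' : S n b d J + d (insert (n + 1) J) = 0 := by simpa using this
            rw [add_comm]; exact h'
          · intro J hJ h0
            have := B J hJ
            rw [if_pos h0, hb0] at this
            simpa using this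
    | zero => intro r; simp
    | add x y _ _ hx hy => intro r; rw [add_mul, map_add, hx, hy, add_zero]
    | smul t x _ hx =>
      intro r
      have : t • x * r = x * (t * r) := by rw [smul_eq_mul]; ring
      rw [this]
      exact hx _
  set H := MvPolynomial.homogeneousSubmodule (Fin n) ℂ s with hH
  set K := Submodule.comap H.subtype (Submodule.restrictScalars ℂ
    (Ideal.span (Set.range (fun i : Fin n => (MvPolynomial.X i : MvPolynomial (Fin n) ℂ) ^ 2)
      ∪ {l₁ ^ 2, l₂ ^ 2}))) with hK
  let Ψ : W n s a b →ₗ[ℂ] Module.Dual ℂ (H ⧸ K) :=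
    { toFun := fun d => K.liftQ ((F n d.1) ∘ₗ H.subtype) (by
        intro x hx
        rw [LinearMap.mem_ker]
        have := kill d.1 d.2 x.1 hx 1
        simpa using this)
      map_add' := by
        intro d d'
        apply Submodule.linearMap_qext
        ext x
        simp
      map_smul' := by
        intro t d
        apply Submodule.linearMap_qext
        ext x
        simp }
  have hΨ : LinearMap.ker Ψ = ⊥ := by
    rw [LinearMap.ker_eq_bot']
    intro d hd
    apply Subtype.ext
    refine F_inj (s := s) ha0 han hb0 hbn d.2 ?_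
    intro p hp
    have := LinearMap.congr_fun hd (K.mkQ ⟨p, hp⟩)
    simpa [Ψ] using this
  let c' : Fin D → W n s a b := fun k => ⟨c k, hsupp k, hA k, hB k⟩
  have hli' : LinearIndependent ℂ c' := LinearIndependent.of_comp (W n s a b).subtype hli
  have hli'' := hli'.map' Ψ hΨ
  have : Module.Finite ℂ H := Module.Finite.iff_fg.mpr
    (MvPolynomial.homogeneousSubmodule_fg (σ := Fin n) (R := ℂ) s)
  have := hli''.fintype_card_le_finrank
  rw [Fintype.card_fin, Subspace.dual_finrank_eq] at this
  exact this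

end Pool.Agent.Helper213.LbSx
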