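import Mathlib

set_option autoImplicit false

namespace Pool.Agent.Helper213.SklDefs

universe u v

section presentation

variable {k : Type u} [Field k]

/-- The six defining relations of the Sklyanin algebra, on the free algebra on `x_0, .., x_3`. -/
inductive Rel (α β γ : k) : FreeAlgebra k (Fin 4) → FreeAlgebra k (Fin 4) → Prop
  | comm1 : Rel α β γ
      (FreeAlgebra.ι k 0 * FreeAlgebra.ι k 1 - FreeAlgebra.ι k 1 * FreeAlgebra.ι k 0)
      (α • (FreeAlgebra.ι k 2 * FreeAlgebra.ι k 3 + FreeAlgebra.ι k 3 * FreeAlgebra.ι k 2))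
  | comm2 : Rel α β γ
      (FreeAlgebra.ι k 0 * FreeAlgebra.ι k 2 - FreeAlgebra.ι k 2 * FreeAlgebra.ι k 0)
      (β • (FreeAlgebra.ι k 3 * FreeAlgebra.ι k 1 + FreeAlgebra.ι k 1 * FreeAlgebra.ι k 3))
  | comm3 : Rel α β γ
      (FreeAlgebra.ι k 0 * FreeAlgebra.ι k 3 - FreeAlgebra.ι k 3 * FreeAlgebra.ι k 0)
      (γ • (FreeAlgebra.ι k 1 * FreeAlgebra.ι k 2 + FreeAlgebra.ι k 2 * FreeAlgebra.ι k 1))
  | anti1 : Rel α β γ
      (FreeAlgebra.ι k 0 * FreeAlgebra.ι k 1 + FreeAlgebra.ι k 1 * FreeAlgebra.ι k 0)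
      (FreeAlgebra.ι k 2 * FreeAlgebra.ι k 3 - FreeAlgebra.ι k 3 * FreeAlgebra.ι k 2)
  | anti2 : Rel α β γ
      (FreeAlgebra.ι k 0 * FreeAlgebra.ι k 2 + FreeAlgebra.ι k 2 * FreeAlgebra.ι k 0)
      (FreeAlgebra.ι k 3 * FreeAlgebra.ι k 1 - FreeAlgebra.ι k 1 * FreeAlgebra.ι k 3)
  | anti3 : Rel α β γ
      (FreeAlgebra.ι k 0 * FreeAlgebra.ι k 3 + FreeAlgebra.ι k 3 * FreeAlgebra.ι k 0)
      (FreeAlgebra.ι k 1 * FreeAlgebra.ι k 2 - FreeAlgebra.ι k 2 * FreeAlgebra.ι k 1)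

/-- The 4-dimensional Sklyanin algebra `S(α, β, γ)`. -/
abbrev Skl (α β γ : k) : Type u := RingQuot (Rel α β γ)

/-- The generator `x_i` of `S`. -/
noncomputable def gen (α β γ : k) (i : Fin 4) : Skl α β γ :=
  RingQuot.mkAlgHom k (Rel α β γ) (FreeAlgebra.ι k i)

end presentation

section general

variable {k : Type u} [Field k] {S : Type v} [Ring S] [Algebra k S]

/-- `g_1` fixes `x_0, x_1` and negates `x_2, x_3`; `g_2` fixes `x_0, x_2` and negates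
`x_1, x_3`. -/
structure IsAct (x : Fin 4 → S) (g₁ g₂ : S →ₐ[k] S) : Prop where
  h10 : g₁ (x 0) = x 0
  h11 : g₁ (x 1) = x 1
  h12 : g₁ (x 2) = -x 2
  h13 : g₁ (x 3) = -x 3
  h20 : g₂ (x 0) = x 0
  h21 : g₂ (x 1) = -x 1
  h22 : g₂ (x 2) = x 2
  h23 : g₂ (x 3) = -x 3

/-- `diag(1, -1)`. -/
def D (S : Type v) [Ring S] : Matrix (Fin 2) (Fin 2) S := !![1, 0; 0, -1]

/-- The matrix with rows `(0, 1)` and `(1, 0)`. -/
def E (S : Type v) [Ring S] : Matrix (Fin 2) (Fin 2) S := !![0, 1; 1, 0]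

theorem D_mul_D : D S * D S = 1 := by
  ext i j; fin_cases i <;> fin_cases j <;> simp [D, Matrix.mul_apply]

theorem E_mul_E : E S * E S = 1 := by
  ext i j; fin_cases i <;> fin_cases j <;> simp [E, Matrix.mul_apply]

/-- The matrix `M` over `S` is invariant under the diagonal action of `g_1` and `g_2`:
`g_1` acts by `M ↦ D (g_1 M) D⁻¹` and `g_2` acts by `M ↦ E (g_2 M) E⁻¹`
(here `D⁻¹ = D` and `E⁻¹ = E`). -/
def IsInv (g₁ g₂ : S →ₐ[k] S) (M : Matrix (Fin 2) (Fin 2) S) : Prop :=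
  D S * M.map g₁ * D S = M ∧ E S * M.map g₂ * E S = M

theorem isInv_mul (g₁ g₂ : S →ₐ[k] S) {M N : Matrix (Fin 2) (Fin 2) S} :
    IsInv g₁ g₂ M → IsInv g₁ g₂ N → IsInv g₁ g₂ (M * N) := by
  rintro ⟨hM1, hM2⟩ ⟨hN1, hN2⟩
  constructor
  · conv_rhs => rw [← hM1, ← hN1]
    rw [Matrix.map_mul]
    simp only [mul_assoc]
    rw [← mul_assoc (D S) (D S), D_mul_D, one_mul]
  · conv_rhs => rw [← hM2, ← hN2]
    rw [Matrix.map_mul]
    simp only [mul_assoc]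
    rw [← mul_assoc (E S) (E S), E_mul_E, one_mul]

theorem isInv_add (g₁ g₂ : S →ₐ[k] S) {M N : Matrix (Fin 2) (Fin 2) S} :
    IsInv g₁ g₂ M → IsInv g₁ g₂ N → IsInv g₁ g₂ (M + N) := by
  rintro ⟨hM1, hM2⟩ ⟨hN1, hN2⟩
  constructor
  · conv_rhs => rw [← hM1, ← hN1]
    rw [Matrix.map_add _ (map_add _)]
    simp only [mul_add, add_mul]
  · conv_rhs => rw [← hM2, ← hN2]
    rw [Matrix.map_add _ (map_add _)]
    simp only [mul_add, add_mul]

theorem isInv_algebraMap (g₁ g₂ : S →ₐ[k] S) (r : k) :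
    IsInv g₁ g₂ (algebraMap k (Matrix (Fin 2) (Fin 2) S) r) := by
  rw [Matrix.algebraMap_eq_diagonal]
  constructor
  · rw [Matrix.diagonal_map (map_zero _)]
    ext i j; fin_cases i <;> fin_cases j <;>
      simp [D, Matrix.mul_apply]
  · rw [Matrix.diagonal_map (map_zero _)]
    ext i j; fin_cases i <;> fin_cases j <;>
      simp [E, Matrix.mul_apply]

/-- The algebra of the invariant matrices. -/
def Inv (g₁ g₂ : S →ₐ[k] S) : Subalgebra k (Matrix (Fin 2) (Fin 2) S) where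
  carrier := {M | IsInv g₁ g₂ M}
  mul_mem' := isInv_mul g₁ g₂
  add_mem' := isInv_add g₁ g₂
  algebraMap_mem' := isInv_algebraMap g₁ g₂

/-- The scalar matrix `Ω`. -/
def scal (Ω : S) : Matrix (Fin 2) (Fin 2) S := Matrix.diagonal fun _ => Ω

/-- The relation `scalar Ω ~ 0` on the algebra of invariant matrices. -/
def RelOmega (g₁ g₂ : S →ₐ[k] S) (Ω : S) (M N : Inv g₁ g₂) : Prop :=
  M.1 = scal Ω ∧ N.1 = 0

/-- The quotient of the algebra of invariant matrices by the two-sided ideal generated by the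
scalar matrix `Ω`. -/
def ROmega (g₁ g₂ : S →ₐ[k] S) (Ω : S) : Type v := RingQuot (RelOmega g₁ g₂ Ω)

noncomputable instance ROmega.instRing (g₁ g₂ : S →ₐ[k] S) (Ω : S) : Ring (ROmega g₁ g₂ Ω) :=
  RingQuot.instRing (RelOmega g₁ g₂ Ω)

/-- A ring with nonzero elements `a, b` such that `a b = 0`. -/
def HasZeroDivisors (R : Type v) [Ring R] : Prop := ∃ a b : R, a ≠ 0 ∧ b ≠ 0 ∧ a * b = 0

/-- `z` is central and is a linear combination of products of two of the `x_i`. -/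
def IsCentralQuad (k : Type u) [Field k] {S : Type v} [Ring S] [Algebra k S]
    (x : Fin 4 → S) (z : S) : Prop :=
  (∃ c : Fin 4 → Fin 4 → k, z = ∑ i, ∑ j, c i j • (x i * x j)) ∧ ∀ y : S, y * z = z * y

/-- `Ω₁, Ω₂` span the degree-2 part of the centre. -/
def SpansCentreTwo (k : Type u) [Field k] {S : Type v} [Ring S] [Algebra k S]
    (x : Fin 4 → S) (Ω₁ Ω₂ : S) : Prop :=
  ∀ z : S, IsCentralQuad k x z ↔ ∃ a b : k, z = a • Ω₁ + b • Ω₂

/-- Sklyanin's first quadratic central element. -/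
def Omega1 (x : Fin 4 → S) : S := -(x 0 * x 0) + x 1 * x 1 + x 2 * x 2 + x 3 * x 3

/-- Sklyanin's second quadratic central element. -/
def Omega2 (α β γ : k) (x : Fin 4 → S) : S :=
  x 1 * x 1 + ((1 + α) / (1 - β)) • (x 2 * x 2) + ((1 - α) / (1 + γ)) • (x 3 * x 3)

/-- `a, b` are linearly independent over `k`. -/
def Indep (k : Type u) [Field k] {S : Type v} [Ring S] [Algebra k S] (a b : S) : Prop :=
  ∀ s t : k, s • a + t • b = 0 → s = 0 ∧ t = 0

/-- The two automorphisms exist. -/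
def HasAct (k : Type u) [Field k] {S : Type v} [Ring S] [Algebra k S] (x : Fin 4 → S) : Prop :=
  ∃ g₁ g₂ : S →ₐ[k] S, IsAct x g₁ g₂

/-- For the action of `g_1, g_2`, for any `Ω₁, Ω₂` spanning the degree-2 part of the centre and
any `(c₁, c₂) ≠ (0, 0)`: the scalar matrix `Ω = c₁ Ω₁ + c₂ Ω₂` lies in `A` and the quotient of
`A` by the two-sided ideal generated by it has nonzero elements `a, b` with `a b = 0`. -/
def NeverDomain (k : Type u) [Field k] {S : Type v} [Ring S] [Algebra k S]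
    (x : Fin 4 → S) : Prop :=
  ∀ g₁ g₂ : S →ₐ[k] S, IsAct x g₁ g₂ →
    ∀ Ω₁ Ω₂ : S, SpansCentreTwo k x Ω₁ Ω₂ →
      ∀ c₁ c₂ : k, (c₁, c₂) ≠ (0, 0) →
        scal (c₁ • Ω₁ + c₂ • Ω₂) ∈ Inv g₁ g₂ ∧
        HasZeroDivisors (ROmega g₁ g₂ (c₁ • Ω₁ + c₂ • Ω₂))

end general

end Pool.Agent.Helper213.SklDefs
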