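import Pool.Agent.Helper213.SklDefs

set_option autoImplicit false

namespace Pool.Agent.Helper213.SklProof

open Pool.Agent.Helper213.SklDefs

universe u v

section base

variable {k : Type u} [Field k]

/-- The six relations, for a family `y_0, .., y_3` in an arbitrary `k`-algebra. -/
structure Sat (α β γ : k) {B : Type*} [Ring B] [Algebra k B] (y : Fin 4 → B) : Prop where
  c1 : y 0 * y 1 - y 1 * y 0 = α • (y 2 * y 3 + y 3 * y 2)
  c2 : y 0 * y 2 - y 2 * y 0 = β • (y 3 * y 1 + y 1 * y 3)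
  c3 : y 0 * y 3 - y 3 * y 0 = γ • (y 1 * y 2 + y 2 * y 1)
  a1 : y 0 * y 1 + y 1 * y 0 = y 2 * y 3 - y 3 * y 2
  a2 : y 0 * y 2 + y 2 * y 0 = y 3 * y 1 - y 1 * y 3
  a3 : y 0 * y 3 + y 3 * y 0 = y 1 * y 2 - y 2 * y 1

/-- The algebra presented by the generators `x_i` and the six relations. -/
structure IsSkl (α β γ : k) {S : Type u} [Ring S] [Algebra k S] (x : Fin 4 → S) : Prop where
  sat : Sat α β γ x
  gen : Algebra.adjoin k (Set.range x) = ⊤
  univ : ∀ (B : Type u) [Ring B] [Algebra k B] (y : Fin 4 → B), Sat α β γ y →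
    ∃ f : S →ₐ[k] B, ∀ i, f (x i) = y i

end base

section zerodiv

variable {k : Type u} [Field k] {α β γ : k} {S : Type u} [Ring S] [Algebra k S]
  {x : Fin 4 → S} {g₁ g₂ : S →ₐ[k] S}

/-- The element `sum c_m v_m`. -/
def vmat (x : Fin 4 → S) (i : k) (c : Fin 4 → k) : Matrix (Fin 2) (Fin 2) S :=
  !![c 0 • x 0 + (i * c 1) • x 1, (i * c 2) • x 2 - c 3 • x 3;
    (i * c 2) • x 2 + c 3 • x 3, c 0 • x 0 - (i * c 1) • x 1]

theorem D_conj (M : Matrix (Fin 2) (Fin 2) S) :
    D S * M * D S = !![M 0 0, -M 0 1; -M 1 0, M 1 1] := by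
  rw [Matrix.eta_fin_two M, D]
  simp

theorem E_conj (M : Matrix (Fin 2) (Fin 2) S) :
    E S * M * E S = !![M 1 1, M 1 0; M 0 1, M 0 0] := by
  rw [Matrix.eta_fin_two M, E]
  simp

theorem vmat_mem (hg : IsAct x g₁ g₂) (i : k) (c : Fin 4 → k) :
    vmat x i c ∈ Inv g₁ g₂ := by
  refine ⟨?_, ?_⟩
  · rw [D_conj]
    ext a b; fin_cases a <;> fin_cases b <;>
      simp [vmat, hg.h10, hg.h11, hg.h12, hg.h13] <;> abel
  · rw [E_conj]
    ext a b; fin_cases a <;> fin_cases b <;>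
      simp [vmat, hg.h20, hg.h21, hg.h22, hg.h23] <;> abel

/-- The cross term vanishes. -/
theorem cross [NeZero (2 : k)] {a p q r s : k} {V : Type*} [AddCommGroup V] [Module k V]
    {xi0 x0i xjl xlj : V}
    (h1 : x0i - xi0 = a • (xjl + xlj)) (h2 : x0i + xi0 = xjl - xlj)
    (e1 : 2 * r = -((1 + a) * p + (1 - a) * q)) (e2 : 2 * s = -((1 - a) * p + (1 + a) * q)) :
    p • x0i + q • xi0 + r • xjl - s • xlj = 0 := by
  have h : (2 : k) • (p • x0i + q • xi0 + r • xjl - s • xlj) = 0 := by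
    have e1' : (2 * r) • xjl = (-((1 + a) * p + (1 - a) * q)) • xjl := by rw [e1]
    have e2' : (2 * s) • xlj = (-((1 - a) * p + (1 + a) * q)) • xlj := by rw [e2]
    linear_combination (norm := module) (p - q) • h1 + (p + q) • h2 + e1' - e2'
  exact (smul_eq_zero.1 h).resolve_left (NeZero.ne _)


theorem vmat_mul [NeZero (2 : k)] (hS : Sat α β γ x) (i : k) (hi : i * i = -1) (a b : Fin 4 → k)
    (e1 : 2 * (a 2 * b 3) = -((1 + α) * (a 0 * b 1) + (1 - α) * (a 1 * b 0)))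
    (e1' : 2 * (a 3 * b 2) = -((1 - α) * (a 0 * b 1) + (1 + α) * (a 1 * b 0)))
    (e2 : 2 * (a 3 * b 1) = -((1 + β) * (a 0 * b 2) + (1 - β) * (a 2 * b 0)))
    (e2' : 2 * (a 1 * b 3) = -((1 - β) * (a 0 * b 2) + (1 + β) * (a 2 * b 0)))
    (e3 : 2 * (a 1 * b 2) = -((1 + γ) * (a 0 * b 3) + (1 - γ) * (a 3 * b 0)))
    (e3' : 2 * (a 2 * b 1) = -((1 - γ) * (a 0 * b 3) + (1 + γ) * (a 3 * b 0))) :
    vmat x i a * vmat x i b = Matrix.diagonal fun _ =>
      (a 0 * b 0) • (x 0 * x 0) - (a 1 * b 1) • (x 1 * x 1)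
        - (a 2 * b 2) • (x 2 * x 2) - (a 3 * b 3) • (x 3 * x 3) := by
  have c1 := cross (hS.c1) (hS.a1) e1 e1'
  have c2 := cross (hS.c2) (hS.a2) e2 e2'
  have c3 := cross (hS.c3) (hS.a3) e3 e3'
  have hii : ∀ p q : k, i * p * (i * q) = -(p * q) := by
    intro p q
    linear_combination (p * q) * hi
  ext m n
  fin_cases m <;> fin_cases n <;>
    simp only [vmat, Matrix.mul_fin_two, Fin.zero_eta, Fin.mk_one, Matrix.cons_val_zero, Matrix.cons_val_one,
      Matrix.of_apply, Matrix.diagonal_apply_eq, Matrix.cons_val', Matrix.cons_val_fin_one,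
      Matrix.diagonal_apply_ne, ne_eq, zero_ne_one, one_ne_zero, not_false_eq_true,
      mul_add, add_mul, mul_sub, sub_mul, smul_mul_smul_comm, hii]
  · linear_combination (norm := module) i • c1
  · linear_combination (norm := module) i • c2 - c3
  · linear_combination (norm := module) i • c2 + c3
  · linear_combination (norm := module) -(i • c1)

/-- A map to dual numbers killing degree 2. -/
theorem exists_tau (hS : IsSkl α β γ x) (w : Fin 4 → k) :
    ∃ τ : S →ₐ[k] DualNumber k, ∀ j, τ (x j) = TrivSqZeroExt.inr (w j) :=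
  hS.univ (DualNumber k) (fun j => TrivSqZeroExt.inr (w j))
    ⟨by simp, by simp, by simp, by simp, by simp, by simp⟩

/-- The quotient map. -/
noncomputable def toR (g₁ g₂ : S →ₐ[k] S) (Ω : S) : Inv g₁ g₂ →+* ROmega g₁ g₂ Ω :=
  RingQuot.mkRingHom (RelOmega g₁ g₂ Ω)

/-- An element that vanishes in `R_Ω` is killed by a map to dual numbers that kills `Ω`. -/
theorem tau_of_mk_eq_zero (τ : S →ₐ[k] DualNumber k) {Ω : S} (h : τ Ω = 0)
    (M : Inv g₁ g₂) (hM : toR g₁ g₂ Ω M = 0) (i j : Fin 2) :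
    τ ((M : Matrix (Fin 2) (Fin 2) S) i j) = 0 := by
  let φ : Inv g₁ g₂ →+* Matrix (Fin 2) (Fin 2) (DualNumber k) :=
    (τ.toRingHom.mapMatrix).comp (Inv g₁ g₂).val.toRingHom
  have hφ : ∀ ⦃N N' : Inv g₁ g₂⦄, RelOmega g₁ g₂ Ω N N' → φ N = φ N' := by
    rintro N N' ⟨hN, hN'⟩
    have h0 : N' = 0 := Subtype.ext hN'
    rw [h0, map_zero]
    show ((N : Matrix (Fin 2) (Fin 2) S)).map τ = 0
    rw [hN, scal, Matrix.diagonal_map (map_zero _), h, Matrix.diagonal_zero]
  have h1 : RingQuot.lift ⟨φ, hφ⟩ (RingQuot.mkRingHom (RelOmega g₁ g₂ Ω) M) = φ M :=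
    RingQuot.lift_mkRingHom_apply _ _ _
  have h2 : RingQuot.mkRingHom (RelOmega g₁ g₂ Ω) M = 0 := hM
  rw [h2, map_zero] at h1
  exact congrFun (congrFun h1.symm i) j

end zerodiv

section params

variable {k : Type u} [Field k]

/-- The parameters `(α, β, γ)` written with `u = (1 + α) / (1 - β)`, `v = (1 - α) / (1 + γ)`. -/
structure Par (α β γ u v : k) : Prop where
  hu : u ≠ 0
  hv : v ≠ 0
  hα : α = u - v
  hβ : β * u = v - 1
  hγ : γ * v = 1 - u
  huv : u - v ≠ 0
  hv1 : v - 1 ≠ 0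
  hu1 : 1 - u ≠ 0
  A1 : u + v - 1 ≠ 0
  A2 : 1 + v - u ≠ 0
  A3 : 1 + u - v ≠ 0
  eu : (1 + α) / (1 - β) = u
  ev : (1 - α) / (1 + γ) = v

theorem par_of {α β γ : k} (h : α + β + γ + α * β * γ = 0)
    (hα : α ≠ 0 ∧ α ≠ 1 ∧ α ≠ -1) (hβ : β ≠ 0 ∧ β ≠ 1 ∧ β ≠ -1) (hγ : γ ≠ 0 ∧ γ ≠ 1 ∧ γ ≠ -1) :
    Par α β γ ((1 + α) / (1 - β)) ((1 - α) / (1 + γ)) := by
  have a1 : 1 + α ≠ 0 := fun h0 => hα.2.2 (by linear_combination h0)
  have a2 : 1 - α ≠ 0 := fun h0 => hα.2.1 (by linear_combination -h0)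
  have b1 : 1 + β ≠ 0 := fun h0 => hβ.2.2 (by linear_combination h0)
  have b2 : 1 - β ≠ 0 := fun h0 => hβ.2.1 (by linear_combination -h0)
  have c1 : 1 + γ ≠ 0 := fun h0 => hγ.2.2 (by linear_combination h0)
  have hu : (1 + α) / (1 - β) ≠ 0 := div_ne_zero a1 b2
  have hv : (1 - α) / (1 + γ) ≠ 0 := div_ne_zero a2 c1
  have eα : α = (1 + α) / (1 - β) - (1 - α) / (1 + γ) := by
    field_simp
    linear_combination -h
  have eβ : β * ((1 + α) / (1 - β)) = (1 - α) / (1 + γ) - 1 := by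
    field_simp
    linear_combination h
  have eγ : γ * ((1 - α) / (1 + γ)) = 1 - (1 + α) / (1 - β) := by
    field_simp
    linear_combination h
  refine ⟨hu, hv, eα, eβ, eγ, ?_, ?_, ?_, ?_, ?_, ?_, rfl, rfl⟩
  · rw [← eα]; exact hα.1
  · rw [← eβ]; exact mul_ne_zero hβ.1 hu
  · rw [← eγ]; exact mul_ne_zero hγ.1 hv
  · have : (1 + α) / (1 - β) + (1 - α) / (1 + γ) - 1 = (1 + β) * ((1 + α) / (1 - β)) := by
      linear_combination -eβ
    rw [this]; exact mul_ne_zero b1 hu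
  · have : 1 + (1 - α) / (1 + γ) - (1 + α) / (1 - β) = 1 - α := by
      linear_combination eα
    rw [this]; exact a2
  · have : 1 + (1 + α) / (1 - β) - (1 - α) / (1 + γ) = 1 + α := by
      linear_combination -eα
    rw [this]; exact a1

/-- The factorisation of `Ω` in `A`. -/
theorem exists_factor [IsAlgClosed k] [NeZero (2 : k)] {α β γ u v : k} (P : Par α β γ u v)
    (c t : k) (hct : ¬ (c = 0 ∧ t = 0)) :
    ∃ a b : Fin 4 → k, ∃ κ : k,
      (2 * (a 2 * b 3) = -((1 + α) * (a 0 * b 1) + (1 - α) * (a 1 * b 0))) ∧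
      (2 * (a 3 * b 2) = -((1 - α) * (a 0 * b 1) + (1 + α) * (a 1 * b 0))) ∧
      (2 * (a 3 * b 1) = -((1 + β) * (a 0 * b 2) + (1 - β) * (a 2 * b 0))) ∧
      (2 * (a 1 * b 3) = -((1 - β) * (a 0 * b 2) + (1 + β) * (a 2 * b 0))) ∧
      (2 * (a 1 * b 2) = -((1 + γ) * (a 0 * b 3) + (1 - γ) * (a 3 * b 0))) ∧
      (2 * (a 2 * b 1) = -((1 - γ) * (a 0 * b 3) + (1 + γ) * (a 3 * b 0))) ∧
      a 0 * b 0 = -(κ * c) ∧ -(a 1 * b 1) = κ * (c + t) ∧ -(a 2 * b 2) = κ * (c + t * u) ∧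
      -(a 3 * b 3) = κ * (c + t * v) ∧ a 0 ≠ 0 ∧ (b 0 ≠ 0 ∨ b 1 ≠ 0) := by
  obtain ⟨hu, hv, hα, hβ, hγ, huv, hv1, hu1, A1, A2, A3, -, -⟩ := P
  have h2 : (2 : k) ≠ 0 := NeZero.ne _
  by_cases hc : c = 0
  · have ht : t ≠ 0 := fun ht => hct ⟨hc, ht⟩
    obtain ⟨b1, hb1⟩ := IsAlgClosed.exists_pow_nat_eq (u + v - 1) (n := 2) (by norm_num)
    obtain ⟨b2, hb2⟩ := IsAlgClosed.exists_pow_nat_eq ((1 + v - u) * u) (n := 2) (by norm_num)
    obtain ⟨b3, hb3⟩ := IsAlgClosed.exists_pow_nat_eq ((1 + u - v) * v) (n := 2) (by norm_num)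
    subst hc
    have hb1' : b1 ≠ 0 := by
      rintro rfl
      exact A1 (by linear_combination -hb1)
    refine ⟨![1, -(b2 * b3) / (2 * u * v), -(b3 * b1) / (2 * v), -(b1 * b2) / (2 * u)],
      ![0, b1, b2, b3], b1 * b2 * b3 / (2 * u * v * t), ?_, ?_, ?_, ?_, ?_, ?_, ?_, ?_, ?_, ?_,
      ?_, ?_⟩
    · simp only [Matrix.cons_val]
      field_simp
      linear_combination -2 * b1 * u * hb3 + 2 * b1 * u * v * hα
    · simp only [Matrix.cons_val]
      field_simp
      linear_combination -2 * b1 * v * hb2 - 2 * b1 * u * v * hα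
    · simp only [Matrix.cons_val]
      field_simp
      linear_combination -2 * b2 * v * hb1 + 2 * b2 * v * hβ
    · simp only [Matrix.cons_val]
      field_simp
      linear_combination -2 * b2 * hb3 - 2 * b2 * v * hβ
    · simp only [Matrix.cons_val]
      field_simp
      linear_combination -2 * b3 * hb2 + 2 * b3 * u * hγ
    · simp only [Matrix.cons_val]
      field_simp
      linear_combination -2 * b3 * u * hb1 - 2 * b3 * u * hγ
    · simp
    · simp only [Matrix.cons_val]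
      field_simp
      ring
    · simp only [Matrix.cons_val]
      field_simp
      ring
    · simp only [Matrix.cons_val]
      field_simp
      ring
    · simp
    · right
      simpa using hb1'
  · have hN : (u + v - 1) * (1 + v - u) * (1 + u - v) ≠ 0 := mul_ne_zero (mul_ne_zero A1 A2) A3
    obtain ⟨w, hw⟩ := IsAlgClosed.exists_pow_nat_eq
      (t / ((u + v - 1) * (1 + v - u) * (1 + u - v))) (n := 2) (by norm_num)
    have ht : t = w ^ 2 * ((u + v - 1) * (1 + v - u) * (1 + u - v)) := by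
      rw [hw]; field_simp
    clear hw
    subst ht
    obtain ⟨r1, hr1⟩ := IsAlgClosed.exists_pow_nat_eq
      (c + w ^ 2 * (u * v) * ((1 + v - u) * (1 + u - v))) (n := 2) (by norm_num)
    obtain ⟨r2, hr2⟩ := IsAlgClosed.exists_pow_nat_eq
      (c + w ^ 2 * v * ((1 + u - v) * (u + v - 1))) (n := 2) (by norm_num)
    obtain ⟨r3, hr3⟩ := IsAlgClosed.exists_pow_nat_eq
      (c + w ^ 2 * u * ((u + v - 1) * (1 + v - u))) (n := 2) (by norm_num)
    refine ⟨![c, -(r2 * r3) - w * (u + v - 1) * r1, -(r3 * r1) - w * u * (1 + v - u) * r2,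
        -(r1 * r2) - w * v * (1 + u - v) * r3],
      ![c, -(r2 * r3) + w * (u + v - 1) * r1, -(r3 * r1) + w * u * (1 + v - u) * r2,
        -(r1 * r2) + w * v * (1 + u - v) * r3], -c, ?_, ?_, ?_, ?_, ?_, ?_, ?_, ?_, ?_, ?_,
      ?_, ?_⟩
    · simp only [Matrix.cons_val]
      linear_combination 2 * r2 * r3 * hr1 + 2 * (w * r1 * (u * (1 + v - u) * hr2 - v * (1 + u - v) * hr3) + c * w * r1 * (u + v - 1) * hα)
    · simp only [Matrix.cons_val]
      linear_combination 2 * r2 * r3 * hr1 - 2 * (w * r1 * (u * (1 + v - u) * hr2 - v * (1 + u - v) * hr3) + c * w * r1 * (u + v - 1) * hα)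
    · simp only [Matrix.cons_val]
      linear_combination 2 * r3 * r1 * hr2 + 2 * (w * r2 * (v * (1 + u - v) * hr3 - (u + v - 1) * hr1) + c * w * r2 * (1 + v - u) * hβ)
    · simp only [Matrix.cons_val]
      linear_combination 2 * r3 * r1 * hr2 - 2 * (w * r2 * (v * (1 + u - v) * hr3 - (u + v - 1) * hr1) + c * w * r2 * (1 + v - u) * hβ)
    · simp only [Matrix.cons_val]
      linear_combination 2 * r1 * r2 * hr3 + 2 * (w * r3 * ((u + v - 1) * hr1 - u * (1 + v - u) * hr2) + c * w * r3 * (1 + u - v) * hγ)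
    · simp only [Matrix.cons_val]
      linear_combination 2 * r1 * r2 * hr3 - 2 * (w * r3 * ((u + v - 1) * hr1 - u * (1 + v - u) * hr2) + c * w * r3 * (1 + u - v) * hγ)
    · simp only [Matrix.cons_val]
      ring
    · simp only [Matrix.cons_val]
      linear_combination -(r3 ^ 2) * hr2 - (c + w ^ 2 * v * ((1 + u - v) * (u + v - 1))) * hr3
        + w ^ 2 * (u + v - 1) ^ 2 * hr1
    · simp only [Matrix.cons_val]
      linear_combination -(r1 ^ 2) * hr3 - (c + w ^ 2 * u * ((u + v - 1) * (1 + v - u))) * hr1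
        + w ^ 2 * u ^ 2 * (1 + v - u) ^ 2 * hr2
    · simp only [Matrix.cons_val]
      linear_combination -(r2 ^ 2) * hr1 - (c + w ^ 2 * (u * v) * ((1 + v - u) * (1 + u - v))) * hr2
        + w ^ 2 * v ^ 2 * (1 + u - v) ^ 2 * hr3
    · simpa using hc
    · left
      simpa using hc

variable {S : Type u} [Ring S] [Algebra k S] {x : Fin 4 → S} {g₁ g₂ : S →ₐ[k] S}

theorem diag_mem {Ω : S} (h1 : g₁ Ω = Ω) (h2 : g₂ Ω = Ω) : IsInv g₁ g₂ (scal Ω) := by
  unfold scal
  refine ⟨?_, ?_⟩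
  · rw [D_conj]
    ext a b; fin_cases a <;> fin_cases b <;> simp [h1]
  · rw [E_conj]
    ext a b; fin_cases a <;> fin_cases b <;> simp [h2]

theorem zero_div [IsAlgClosed k] [NeZero (2 : k)] {α β γ u v : k} (hS : IsSkl α β γ x)
    (hg : IsAct x g₁ g₂) (P : Par α β γ u v)
    (c t : k) (hct : ¬ (c = 0 ∧ t = 0)) (Ω : S)
    (hΩ : Ω = c • Omega1 x + t • Omega2 α β γ x) :
    IsInv g₁ g₂ (scal Ω) ∧ HasZeroDivisors (ROmega g₁ g₂ Ω) := by
  have hmem : IsInv g₁ g₂ (scal Ω) := by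
    apply diag_mem
    · rw [hΩ]; simp [Omega1, Omega2, hg.h10, hg.h11, hg.h12, hg.h13]
    · rw [hΩ]; simp [Omega1, Omega2, hg.h20, hg.h21, hg.h22, hg.h23]
  refine ⟨hmem, ?_⟩
  obtain ⟨i, hi⟩ := IsAlgClosed.exists_pow_nat_eq (-1 : k) (n := 2) (by norm_num)
  have hi' : i * i = -1 := by rw [← hi]; ring
  have hi0 : i ≠ 0 := by
    rintro rfl
    simp at hi'
  obtain ⟨a, b, κ, e1, e1', e2, e2', e3, e3', f0, f1, f2, f3, ha, hb⟩ := exists_factor P c t hct
  have hprod := vmat_mul hS.sat i hi' a b e1 e1' e2 e2' e3 e3'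
  have heps : (DualNumber.eps : DualNumber k) ≠ 0 := by
    intro h
    have := congrArg TrivSqZeroExt.snd h
    simp at this
  have hne : ∀ (d : Fin 4 → k), (d 0 ≠ 0 ∨ d 1 ≠ 0) →
      toR g₁ g₂ Ω ⟨vmat x i d, vmat_mem hg i d⟩ ≠ 0 := by
    intro d hd h0
    rcases hd with hd | hd
    · obtain ⟨τ, hτ⟩ := exists_tau hS (Pi.single 0 1)
      have := tau_of_mk_eq_zero τ (by rw [hΩ]; simp [Omega1, Omega2, hτ]) _ h0 0 0
      simp [vmat, hτ] at this
      exact this.elim hd heps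
    · obtain ⟨τ, hτ⟩ := exists_tau hS (Pi.single 1 1)
      have := tau_of_mk_eq_zero τ (by rw [hΩ]; simp [Omega1, Omega2, hτ]) _ h0 0 0
      simp [vmat, hτ] at this
      exact this.elim (fun h => h.elim hi0 hd) heps
  refine ⟨_, _, hne a (Or.inl ha), hne b hb, ?_⟩
  set Z : Inv g₁ g₂ := ⟨scal Ω, hmem⟩ with hZ
  have hab : (⟨vmat x i a, vmat_mem hg i a⟩ : Inv g₁ g₂) * ⟨vmat x i b, vmat_mem hg i b⟩
      = κ • Z := by
    apply Subtype.ext
    show vmat x i a * vmat x i b = κ • (Matrix.diagonal fun _ => Ω)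
    rw [hprod]
    ext m n
    by_cases hmn : m = n
    · subst hmn
      simp only [Matrix.diagonal_apply_eq, Matrix.smul_apply]
      rw [hΩ, Omega1, Omega2, P.eu, P.ev]
      have h0 : (a 0 * b 0) • (x 0 * x 0) = (-(κ * c)) • (x 0 * x 0) := by
        rw [f0]
      have h1 : (-(a 1 * b 1)) • (x 1 * x 1)
          = (κ * (c + t)) • (x 1 * x 1) := by rw [f1]
      have h2 : (-(a 2 * b 2)) • (x 2 * x 2)
          = (κ * (c + t * u)) • (x 2 * x 2) := by rw [f2]
      have h3 : (-(a 3 * b 3)) • (x 3 * x 3)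
          = (κ * (c + t * v)) • (x 3 * x 3) := by rw [f3]
      linear_combination (norm := module) h0 + h1 + h2 + h3
    · simp [Matrix.diagonal_apply_ne _ hmn]
  have hZ0 : toR g₁ g₂ Ω Z = 0 := by
    have h0 : toR g₁ g₂ Ω Z = toR g₁ g₂ Ω 0 := RingQuot.mkRingHom_rel ⟨rfl, rfl⟩
    rw [h0, map_zero]
  rw [← map_mul, hab, Algebra.smul_def, map_mul, hZ0, mul_zero]

end params

section centre

variable {k : Type u} [Field k] {α β γ : k} {S : Type u} [Ring S] [Algebra k S] {x : Fin 4 → S}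

theorem mem_center_of_comm (hgen : Algebra.adjoin k (Set.range x) = ⊤) {z : S}
    (h : ∀ i, x i * z = z * x i) : z ∈ Subalgebra.center k S := by
  rw [Subalgebra.mem_center_iff]
  intro b
  have h1 : Algebra.adjoin k (Set.range x) ≤ Subalgebra.centralizer k {z} := by
    rw [Algebra.adjoin_le_iff]
    rintro _ ⟨i, rfl⟩
    rw [SetLike.mem_coe, Subalgebra.mem_centralizer_iff]
    rintro _ rfl
    exact (h i).symm
  have h2 : b ∈ Subalgebra.centralizer k {z} := h1 (hgen ▸ Algebra.mem_top)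
  rw [Subalgebra.mem_centralizer_iff] at h2
  exact (h2 z rfl).symm

theorem Omega1_center (hgen : Algebra.adjoin k (Set.range x) = ⊤) (hS : Sat α β γ x) :
    Omega1 x ∈ Subalgebra.center k S := by
  have a1 := hS.a1
  have a2 := hS.a2
  have a3 := hS.a3
  have L : ∀ {p q : S} (r : S), p = q → r * p = r * q := fun r h => by rw [h]
  have R : ∀ {p q : S} (r : S), p = q → p * r = q * r := fun r h => by rw [h]
  apply mem_center_of_comm hgen
  intro i
  fin_cases i
  · show x 0 * Omega1 x = Omega1 x * x 0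
    have e1 := L (x 1) a1
    have e1' := R (x 1) a1
    have e2 := L (x 2) a2
    have e2' := R (x 2) a2
    have e3 := L (x 3) a3
    have e3' := R (x 3) a3
    unfold Omega1
    linear_combination (norm := noncomm_ring) e1' - e1 + e2' - e2 + e3' - e3
  · show x 1 * Omega1 x = Omega1 x * x 1
    have e1 := L (x 0) a1
    have e1' := R (x 0) a1
    have e2 := L (x 3) a2
    have e2' := R (x 3) a2
    have e3 := L (x 2) a3
    have e3' := R (x 2) a3
    unfold Omega1
    linear_combination (norm := noncomm_ring) -(e1' - e1) + (e2' + e2) - (e3' + e3)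
  · show x 2 * Omega1 x = Omega1 x * x 2
    have e1 := L (x 0) a2
    have e1' := R (x 0) a2
    have e2 := L (x 1) a3
    have e2' := R (x 1) a3
    have e3 := L (x 3) a1
    have e3' := R (x 3) a1
    unfold Omega1
    linear_combination (norm := noncomm_ring) -(e1' - e1) + (e2' + e2) - (e3' + e3)
  · show x 3 * Omega1 x = Omega1 x * x 3
    have e1 := L (x 0) a3
    have e1' := R (x 0) a3
    have e2 := L (x 2) a1
    have e2' := R (x 2) a1
    have e3 := L (x 1) a2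
    have e3' := R (x 1) a2
    unfold Omega1
    linear_combination (norm := noncomm_ring) -(e1' - e1) + (e2' + e2) - (e3' + e3)

theorem Omega2_center [NeZero (2 : k)] (hgen : Algebra.adjoin k (Set.range x) = ⊤)
    (hS : Sat α β γ x) {u v : k} (P : Par α β γ u v) :
    Omega2 α β γ x ∈ Subalgebra.center k S := by
  have a1 := hS.a1
  have a2 := hS.a2
  have a3 := hS.a3
  have c1 := hS.c1
  have c2 := hS.c2
  have c3 := hS.c3
  obtain ⟨hu, hv, hα, hβ, hγ, huv, hv1, hu1, A1, A2, A3, eu, ev⟩ := P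
  have L : ∀ {p q : S} (r : S), p = q → r * p = r * q := fun r h => by rw [h]
  have R : ∀ {p q : S} (r : S), p = q → p * r = q * r := fun r h => by rw [h]
  have S : ∀ {p q : k} (r : S), p = q → p • r = q • r := fun r h => by rw [h]
  apply mem_center_of_comm hgen
  intro i
  fin_cases i
  · show x 0 * Omega2 α β γ x = Omega2 α β γ x * x 0
    have e1 := L (x 1) a1
    have e1' := R (x 1) a1
    have e2 := L (x 2) a2
    have e2' := R (x 2) a2
    have e3 := L (x 3) a3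
    have e3' := R (x 3) a3
    have f1 := L (x 1) c1
    have f1' := R (x 1) c1
    have f2 := L (x 2) c2
    have f2' := R (x 2) c2
    have f3 := L (x 3) c3
    have f3' := R (x 3) c3
    rw [← sub_eq_zero]
    refine (smul_eq_zero.1 (?_ : (2 : k) • (x 0 * Omega2 α β γ x
      - Omega2 α β γ x * x 0) = 0)).resolve_left (NeZero.ne _)
    unfold Omega2
    rw [eu, ev]
    have g1 := S ((x 2 * x 3 + x 3 * x 2) * x 1 +
      x 1 * (x 2 * x 3 + x 3 * x 2)) hα
    have g2 := S ((x 3 * x 1 + x 1 * x 3) * x 2 +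
      x 2 * (x 3 * x 1 + x 1 * x 3)) hβ
    have g3 := S ((x 1 * x 2 + x 2 * x 1) * x 3 +
      x 3 * (x 1 * x 2 + x 2 * x 1)) hγ
    clear L R S
    simp only [mul_add, add_mul, mul_sub, sub_mul, mul_smul_comm, smul_mul_assoc, ← mul_assoc,
      smul_add, smul_sub] at *
    linear_combination (norm := module) f1 + f1' + e1' - e1 + u • (f2 + f2' + e2' - e2)
      + v • (f3 + f3' + e3' - e3) + g1 + g2 + g3
  · show x 1 * Omega2 α β γ x = Omega2 α β γ x * x 1
    have hg : 1 - γ ≠ 0 := fun h0 => A1 (by linear_combination v * h0 + hγ)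
    have e2 := L (x 3) a2
    have e2' := R (x 3) a2
    have e3 := L (x 2) a3
    have e3' := R (x 2) a3
    have f2 := L (x 3) c2
    have f2' := R (x 3) c2
    have f3 := L (x 2) c3
    have f3' := R (x 2) c3
    rw [← sub_eq_zero]
    refine (smul_eq_zero.1 (?_ : (1 - γ) • (x 1 * Omega2 α β γ x
      - Omega2 α β γ x * x 1) = 0)).resolve_left hg
    unfold Omega2
    rw [eu, ev]
    have g2 := S (x 1 * (x 3 * x 3) - (x 3 * x 3) * x 1) hβ
    have g3 := S (x 1 * (x 3 * x 3) - (x 3 * x 3) * x 1) hγ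
    clear L R S
    simp only [mul_add, add_mul, mul_sub, sub_mul, mul_smul_comm, smul_mul_assoc, ← mul_assoc,
      smul_add, smul_sub] at *
    linear_combination (norm := module) -(u • ((e3' + e3) - (e2' + e2) - (f3' - f3) + (f2' - f2)))
      - g2 - g3
  · show x 2 * Omega2 α β γ x = Omega2 α β γ x * x 2
    have hg : 1 + γ ≠ 0 := by
      intro h0
      rw [h0, div_zero] at ev
      exact hv ev.symm
    have e2 := L (x 1) a3
    have e2' := R (x 1) a3
    have e3 := L (x 3) a1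
    have e3' := R (x 3) a1
    have f2 := L (x 1) c3
    have f2' := R (x 1) c3
    have f3 := L (x 3) c1
    have f3' := R (x 3) c1
    rw [← sub_eq_zero]
    refine (smul_eq_zero.1 (?_ : (1 + γ) • (x 2 * Omega2 α β γ x
      - Omega2 α β γ x * x 2) = 0)).resolve_left hg
    unfold Omega2
    rw [eu, ev]
    have g1 := S (x 2 * (x 3 * x 3) - (x 3 * x 3) * x 2) hα
    have g3 := S (x 2 * (x 3 * x 3) - (x 3 * x 3) * x 2) hγ
    clear L R S
    simp only [mul_add, add_mul, mul_sub, sub_mul, mul_smul_comm, smul_mul_assoc, ← mul_assoc,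
      smul_add, smul_sub] at *
    linear_combination (norm := module) -((e3' + e3) - (e2' + e2) - (f3' - f3) + (f2' - f2))
      + g1 + g3
  · show x 3 * Omega2 α β γ x = Omega2 α β γ x * x 3
    have hg : 1 - β ≠ 0 := by
      intro h0
      rw [h0, div_zero] at eu
      exact hu eu.symm
    have e2 := L (x 2) a1
    have e2' := R (x 2) a1
    have e3 := L (x 1) a2
    have e3' := R (x 1) a2
    have f2 := L (x 2) c1
    have f2' := R (x 2) c1
    have f3 := L (x 1) c2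
    have f3' := R (x 1) c2
    rw [← sub_eq_zero]
    refine (smul_eq_zero.1 (?_ : (1 - β) • (x 3 * Omega2 α β γ x
      - Omega2 α β γ x * x 3) = 0)).resolve_left hg
    unfold Omega2
    rw [eu, ev]
    have g1 := S (x 3 * (x 2 * x 2) - (x 2 * x 2) * x 3) hα
    have g2 := S (x 3 * (x 2 * x 2) - (x 2 * x 2) * x 3) hβ
    clear L R S
    simp only [mul_add, add_mul, mul_sub, sub_mul, mul_smul_comm, smul_mul_assoc, ← mul_assoc,
      smul_add, smul_sub] at *
    linear_combination (norm := module) -((e3' + e3) - (e2' + e2) - (f3' - f3) + (f2' - f2))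
      - g1 - g2

/-- The bilinear form of the six relations vanish at `(p, q)`. -/
structure PRel (α β γ : k) (p q : Fin 4 → k) : Prop where
  c1 : p 0 * q 1 - p 1 * q 0 = α * (p 2 * q 3 + p 3 * q 2)
  c2 : p 0 * q 2 - p 2 * q 0 = β * (p 3 * q 1 + p 1 * q 3)
  c3 : p 0 * q 3 - p 3 * q 0 = γ * (p 1 * q 2 + p 2 * q 1)
  a1 : p 0 * q 1 + p 1 * q 0 = p 2 * q 3 - p 3 * q 2
  a2 : p 0 * q 2 + p 2 * q 0 = p 3 * q 1 - p 1 * q 3
  a3 : p 0 * q 3 + p 3 * q 0 = p 1 * q 2 - p 2 * q 1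

/-- A truncated point module. -/
def tri (o p q : Fin 4 → k) (m : Fin 4) : Matrix (Fin 4) (Fin 4) k :=
  !![0, o m, 0, 0; 0, 0, p m, 0; 0, 0, 0, q m; 0, 0, 0, 0]

theorem tri_mul (o p q : Fin 4 → k) (m n : Fin 4) : tri o p q m * tri o p q n =
    !![0, 0, o m * p n, 0; 0, 0, 0, p m * q n; 0, 0, 0, 0; 0, 0, 0, 0] := by
  ext i j
  fin_cases i <;> fin_cases j <;> simp [tri, Matrix.mul_apply, Fin.sum_univ_four]

theorem sat_tri {o p q : Fin 4 → k} (h : PRel α β γ o p) (h' : PRel α β γ p q) :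
    Sat α β γ (tri o p q) where
  c1 := by
    simp only [tri_mul]
    ext i j
    fin_cases i <;> fin_cases j <;> simp <;> first | exact h.c1 | exact h'.c1
  c2 := by
    simp only [tri_mul]
    ext i j
    fin_cases i <;> fin_cases j <;> simp <;> first | exact h.c2 | exact h'.c2
  c3 := by
    simp only [tri_mul]
    ext i j
    fin_cases i <;> fin_cases j <;> simp <;> first | exact h.c3 | exact h'.c3
  a1 := by
    simp only [tri_mul]
    ext i j
    fin_cases i <;> fin_cases j <;> simp <;> first | exact h.a1 | exact h'.a1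
  a2 := by
    simp only [tri_mul]
    ext i j
    fin_cases i <;> fin_cases j <;> simp <;> first | exact h.a2 | exact h'.a2
  a3 := by
    simp only [tri_mul]
    ext i j
    fin_cases i <;> fin_cases j <;> simp <;> first | exact h.a3 | exact h'.a3

/-- A quadratic element in normal form. -/
noncomputable def quad (x : Fin 4 → S) (f A B : Fin 4 → k) : S :=
  f 0 • (x 0 * x 0) + f 1 • (x 1 * x 1) + f 2 • (x 2 * x 2)
    + f 3 • (x 3 * x 3) + A 1 • (x 0 * x 1) + A 2 • (x 0 * x 2)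
    + A 3 • (x 0 * x 3) + B 1 • (x 1 * x 0)
    + B 2 • (x 2 * x 0) + B 3 • (x 3 * x 0)

/-- Its value at a pair of points. -/
def qval (f A B p q : Fin 4 → k) : k :=
  f 0 * (p 0 * q 0) + f 1 * (p 1 * q 1) + f 2 * (p 2 * q 2) + f 3 * (p 3 * q 3)
    + A 1 * (p 0 * q 1) + A 2 * (p 0 * q 2) + A 3 * (p 0 * q 3)
    + B 1 * (p 1 * q 0) + B 2 * (p 2 * q 0) + B 3 * (p 3 * q 0)

theorem central_eval (hS : IsSkl α β γ x) {f A B o p q : Fin 4 → k} (h : PRel α β γ o p)
    (h' : PRel α β γ p q)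
    (hc : quad x f A B ∈ Subalgebra.center k S) (m : Fin 4) :
    o m * qval f A B p q = qval f A B o p * q m := by
  rw [Subalgebra.mem_center_iff] at hc
  obtain ⟨F, hF⟩ := hS.univ _ (tri o p q) (sat_tri h h')
  have h1 := congrArg F (hc (x m))
  rw [map_mul, map_mul, hF] at h1
  have h2 : F (quad x f A B) =
      !![0, 0, qval f A B o p, 0; 0, 0, 0, qval f A B p q; 0, 0, 0, 0; 0, 0, 0, 0] := by
    simp only [quad, map_add, map_smul, map_mul, hF, tri_mul]
    ext i j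
    fin_cases i <;> fin_cases j <;> simp [qval]
  rw [h2] at h1
  have h3 := congrFun (congrFun h1 0) 3
  simpa [tri, Matrix.mul_apply, Fin.sum_univ_four] using h3

theorem fam0 [NeZero (2 : k)] (hS : IsSkl α β γ x) {u v : k} (P : Par α β γ u v) {f A B : Fin 4 → k}
    (hc : quad x f A B ∈ Subalgebra.center k S) {p1 p2 p3 : k}
    (h1 : p1 ^ 2 = (v - u) * (u + v - 1)) (h2 : p2 ^ 2 = (1 - v) * (1 + v - u))
    (h3 : p3 ^ 2 = (u - 1) * (1 + u - v)) :
    (u + v - 1) * (1 + v - u) * (1 + u - v) *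
        (f 1 * (v - u) + f 2 * (1 - v) + f 3 * (u - 1))
      + 2 * (p1 * p2 * p3) * (B 1 * p1 + B 2 * p2 + B 3 * p3) = 0 ∧
    (u + v - 1) * (1 + v - u) * (1 + u - v) *
        (f 1 * (v - u) + f 2 * (1 - v) + f 3 * (u - 1))
      - 2 * (p1 * p2 * p3) * (A 1 * p1 + A 2 * p2 + A 3 * p3) = 0 := by
  obtain ⟨hu, hv, hα, hβ, hγ, huv, hv1, hu1, A1, A2, A3, -, -⟩ := P
  have n1 : p1 ≠ 0 := by
    rintro rfl
    have : (v - u) * (u + v - 1) ≠ 0 := mul_ne_zero (fun h => huv (by linear_combination -h)) A1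
    exact this (by rw [← h1]; ring)
  have n2 : p2 ≠ 0 := by
    rintro rfl
    have : (1 - v) * (1 + v - u) ≠ 0 := mul_ne_zero (fun h => hv1 (by linear_combination -h)) A2
    exact this (by rw [← h2]; ring)
  have n3 : p3 ≠ 0 := by
    rintro rfl
    have : (u - 1) * (1 + u - v) ≠ 0 := mul_ne_zero (fun h => hu1 (by linear_combination -h)) A3
    exact this (by rw [← h3]; ring)
  have t2 : (2 : k) ≠ 0 := NeZero.ne _
  have r1 : PRel α β γ ![0, p1, p2, p3] ![2 * (p1 * p2 * p3), p1 * ((1 + v - u) * (1 + u - v)),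
      p2 * ((1 + u - v) * (u + v - 1)), p3 * ((u + v - 1) * (1 + v - u))] := by
    constructor <;> simp only [Matrix.cons_val]
    · linear_combination -2 * p2 * p3 * h1 - 2 * p2 * p3 * (u + v - 1) * hα
    · linear_combination -2 * p1 * p3 * h2 - 2 * p1 * p3 * (1 + v - u) * hβ
    · linear_combination -2 * p1 * p2 * h3 - 2 * p1 * p2 * (1 + u - v) * hγ
    · linear_combination 2 * p2 * p3 * h1
    · linear_combination 2 * p1 * p3 * h2
    · linear_combination 2 * p1 * p2 * h3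
  have r2 : PRel α β γ ![-(2 * (p1 * p2 * p3)), p1 * ((1 + v - u) * (1 + u - v)),
      p2 * ((1 + u - v) * (u + v - 1)), p3 * ((u + v - 1) * (1 + v - u))] ![0, p1, p2, p3] := by
    constructor <;> simp only [Matrix.cons_val]
    · linear_combination -2 * p2 * p3 * h1 - 2 * p2 * p3 * (u + v - 1) * hα
    · linear_combination -2 * p1 * p3 * h2 - 2 * p1 * p3 * (1 + v - u) * hβ
    · linear_combination -2 * p1 * p2 * h3 - 2 * p1 * p2 * (1 + u - v) * hγ
    · linear_combination -2 * p2 * p3 * h1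
    · linear_combination -2 * p1 * p3 * h2
    · linear_combination -2 * p1 * p2 * h3
  have e0 := central_eval hS r2 r1 hc 0
  have e1 := central_eval hS r2 r1 hc 1
  simp only [Matrix.cons_val] at e0 e1
  set X := qval f A B ![0, p1, p2, p3] ![2 * (p1 * p2 * p3), p1 * ((1 + v - u) * (1 + u - v)),
      p2 * ((1 + u - v) * (u + v - 1)), p3 * ((u + v - 1) * (1 + v - u))] with hX
  set Y := qval f A B ![-(2 * (p1 * p2 * p3)), p1 * ((1 + v - u) * (1 + u - v)),
      p2 * ((1 + u - v) * (u + v - 1)), p3 * ((u + v - 1) * (1 + v - u))] ![0, p1, p2, p3] with hY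
  have nP : 2 * (p1 * p2 * p3) ≠ 0 := mul_ne_zero t2 (mul_ne_zero (mul_ne_zero n1 n2) n3)
  have nQ : p1 * ((1 + v - u) * (1 + u - v)) ≠ 0 := mul_ne_zero n1 (mul_ne_zero A2 A3)
  have s1 : X + Y = 0 := by
    have : (2 * (p1 * p2 * p3)) * (X + Y) = 0 := by linear_combination -e0
    exact (mul_eq_zero.1 this).resolve_left nP
  have s2 : X - Y = 0 := by
    have : (p1 * ((1 + v - u) * (1 + u - v))) * (X - Y) = 0 := by linear_combination e1
    exact (mul_eq_zero.1 this).resolve_left nQ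
  have sX : X = 0 := by
    have : 2 * X = 0 := by linear_combination s1 + s2
    exact (mul_eq_zero.1 this).resolve_left t2
  have sY : Y = 0 := by
    have : 2 * Y = 0 := by linear_combination s1 - s2
    exact (mul_eq_zero.1 this).resolve_left t2
  rw [hX] at sX
  rw [hY] at sY
  simp only [qval, Matrix.cons_val] at sX sY
  constructor
  · linear_combination sX - f 1 * ((1 + v - u) * (1 + u - v)) * h1
      - f 2 * ((1 + u - v) * (u + v - 1)) * h2 - f 3 * ((u + v - 1) * (1 + v - u)) * h3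
  · linear_combination sY - f 1 * ((1 + v - u) * (1 + u - v)) * h1
      - f 2 * ((1 + u - v) * (u + v - 1)) * h2 - f 3 * ((u + v - 1) * (1 + v - u)) * h3

theorem fam1 [NeZero (2 : k)] (hS : IsSkl α β γ x) (hrel : α + β + γ + α * β * γ = 0)
    {f A B : Fin 4 → k} (hA : ∀ i, A i = 0) (hB : ∀ i, B i = 0)
    (hc : quad x f A B ∈ Subalgebra.center k S) {p0 p2 p3 : k}
    (hβ : 1 - β ≠ 0) (hγ : 1 + γ ≠ 0) (hβγ : β + γ ≠ 0)
    (h0 : p0 ^ 2 = β + γ) (h2 : p2 ^ 2 = 1 - β) (h3 : p3 ^ 2 = -(1 + γ)) :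
    f 0 * (β + γ) + f 2 * (1 + β) - f 3 * (1 - γ) = 0 := by
  have n0 : p0 ≠ 0 := by
    rintro rfl
    exact hβγ (by rw [← h0]; ring)
  have n2 : p2 ≠ 0 := by
    rintro rfl
    exact hβ (by rw [← h2]; ring)
  have n3 : p3 ≠ 0 := by
    rintro rfl
    exact hγ (by linear_combination h3)
  have t2 : (2 : k) ≠ 0 := NeZero.ne _
  have r1 : PRel α β γ ![p0, 0, p2, p3] ![-((1 - β) * (1 + γ)) * p0, 2 * p0 * p2 * p3,
      -((1 + β) * (1 + γ)) * p2, -((1 - γ) * (1 - β)) * p3] := by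
    constructor <;> simp only [Matrix.cons_val]
    · linear_combination 2 * p2 * p3 * h0 + 2 * p2 * p3 * hrel
    · linear_combination -2 * β * p0 * p2 * h3
    · linear_combination -2 * γ * p0 * p3 * h2
    · linear_combination 2 * p2 * p3 * h0
    · linear_combination -2 * p0 * p2 * h3
    · linear_combination 2 * p0 * p3 * h2
  have r2 : PRel α β γ ![-((1 - β) * (1 + γ)) * p0, -(2 * p0 * p2 * p3),
      -((1 + β) * (1 + γ)) * p2, -((1 - γ) * (1 - β)) * p3] ![p0, 0, p2, p3] := by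
    constructor <;> simp only [Matrix.cons_val]
    · linear_combination 2 * p2 * p3 * h0 + 2 * p2 * p3 * hrel
    · linear_combination 2 * β * p0 * p2 * h3
    · linear_combination 2 * γ * p0 * p3 * h2
    · linear_combination -2 * p2 * p3 * h0
    · linear_combination -2 * p0 * p2 * h3
    · linear_combination 2 * p0 * p3 * h2
  have e0 := central_eval hS r2 r1 hc 0
  have e1 := central_eval hS r2 r1 hc 1
  simp only [Matrix.cons_val] at e0 e1
  set X := qval f A B ![p0, 0, p2, p3] ![-((1 - β) * (1 + γ)) * p0, 2 * p0 * p2 * p3,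
      -((1 + β) * (1 + γ)) * p2, -((1 - γ) * (1 - β)) * p3] with hX
  set Y := qval f A B ![-((1 - β) * (1 + γ)) * p0, -(2 * p0 * p2 * p3),
      -((1 + β) * (1 + γ)) * p2, -((1 - γ) * (1 - β)) * p3] ![p0, 0, p2, p3] with hY
  have nP : 2 * p0 * p2 * p3 ≠ 0 := mul_ne_zero (mul_ne_zero (mul_ne_zero t2 n0) n2) n3
  have nQ : (1 - β) * (1 + γ) * p0 ≠ 0 := mul_ne_zero (mul_ne_zero hβ hγ) n0
  have s1 : X + Y = 0 := by
    have : (2 * p0 * p2 * p3) * (X + Y) = 0 := by linear_combination -e1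
    exact (mul_eq_zero.1 this).resolve_left nP
  have s2 : X - Y = 0 := by
    have : ((1 - β) * (1 + γ) * p0) * (X - Y) = 0 := by linear_combination -e0
    exact (mul_eq_zero.1 this).resolve_left nQ
  have sX : X = 0 := by
    have : 2 * X = 0 := by linear_combination s1 + s2
    exact (mul_eq_zero.1 this).resolve_left t2
  rw [hX] at sX
  simp only [qval, Matrix.cons_val, hA, hB] at sX
  have : ((1 - β) * (1 + γ)) * (f 0 * (β + γ) + f 2 * (1 + β) - f 3 * (1 - γ)) = 0 := by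
    linear_combination -sX - f 0 * ((1 - β) * (1 + γ)) * h0
      - f 2 * ((1 + β) * (1 + γ)) * h2 - f 3 * ((1 - γ) * (1 - β)) * h3
  exact (mul_eq_zero.1 this).resolve_left (mul_ne_zero hβ hγ)

theorem quad_add (f A B f' A' B' : Fin 4 → k) :
    quad x f A B + quad x f' A' B' = quad x (f + f') (A + A') (B + B') := by
  simp only [quad, Pi.add_apply]
  module

theorem quad_smul (c : k) (f A B : Fin 4 → k) :
    c • quad x f A B = quad x (c • f) (c • A) (c • B) := by
  simp only [quad, Pi.smul_apply, smul_eq_mul]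
  module

theorem jl_eq [NeZero (2 : k)] {a : k} (ha : a ≠ 0) {V : Type*} [AddCommGroup V] [Module k V]
    {xi0 x0i xjl xlj : V}
    (h1 : x0i - xi0 = a • (xjl + xlj)) (h2 : x0i + xi0 = xjl - xlj) :
    xjl = ((1 + a) / (2 * a)) • x0i + (-(1 - a) / (2 * a)) • xi0 ∧
    xlj = ((1 - a) / (2 * a)) • x0i + (-(1 + a) / (2 * a)) • xi0 := by
  have t2 : (2 : k) ≠ 0 := NeZero.ne _
  have e1 : (2 * a) • xjl = (1 + a) • x0i + (-(1 - a)) • xi0 := by
    linear_combination (norm := module) -h1 - a • h2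
  have e2 : (2 * a) • xlj = (1 - a) • x0i + (-(1 + a)) • xi0 := by
    linear_combination (norm := module) -h1 + a • h2
  constructor
  · rw [div_eq_inv_mul, div_eq_inv_mul, mul_smul, mul_smul, ← smul_add, ← e1, smul_smul,
      inv_mul_cancel₀ (mul_ne_zero t2 ha), one_smul]
  · rw [div_eq_inv_mul, div_eq_inv_mul, mul_smul, mul_smul, ← smul_add, ← e2, smul_smul,
      inv_mul_cancel₀ (mul_ne_zero t2 ha), one_smul]

theorem exists_quad [NeZero (2 : k)] (hS : Sat α β γ x) (hα : α ≠ 0) (hβ : β ≠ 0)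
    (hγ : γ ≠ 0) {z : S}
    (hz : z ∈ Submodule.span k (Set.range fun p : Fin 4 × Fin 4 => x p.1 * x p.2)) :
    ∃ f A B : Fin 4 → k, z = quad x f A B := by
  obtain ⟨h23, h32⟩ := jl_eq hα (hS.c1) (hS.a1)
  obtain ⟨h31, h13⟩ := jl_eq hβ (hS.c2) (hS.a2)
  obtain ⟨h12, h21⟩ := jl_eq hγ (hS.c3) (hS.a3)
  induction hz using Submodule.span_induction with
  | mem z hz =>
    obtain ⟨⟨i, j⟩, rfl⟩ := hz
    fin_cases i <;> fin_cases j
    · exact ⟨![1, 0, 0, 0], 0, 0, by simp [quad]⟩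
    · exact ⟨0, ![0, 1, 0, 0], 0, by simp [quad]⟩
    · exact ⟨0, ![0, 0, 1, 0], 0, by simp [quad]⟩
    · exact ⟨0, ![0, 0, 0, 1], 0, by simp [quad]⟩
    · exact ⟨0, 0, ![0, 1, 0, 0], by simp [quad]⟩
    · exact ⟨![0, 1, 0, 0], 0, 0, by simp [quad]⟩
    · exact ⟨0, ![0, 0, 0, (1 + γ) / (2 * γ)], ![0, 0, 0, -(1 - γ) / (2 * γ)], by
        simpa [quad] using h12⟩
    · exact ⟨0, ![0, 0, (1 - β) / (2 * β), 0], ![0, 0, -(1 + β) / (2 * β), 0], by
        simpa [quad] using h13⟩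
    · exact ⟨0, 0, ![0, 0, 1, 0], by simp [quad]⟩
    · exact ⟨0, ![0, 0, 0, (1 - γ) / (2 * γ)], ![0, 0, 0, -(1 + γ) / (2 * γ)], by
        simpa [quad] using h21⟩
    · exact ⟨![0, 0, 1, 0], 0, 0, by simp [quad]⟩
    · exact ⟨0, ![0, (1 + α) / (2 * α), 0, 0], ![0, -(1 - α) / (2 * α), 0, 0], by
        simpa [quad] using h23⟩
    · exact ⟨0, 0, ![0, 0, 0, 1], by simp [quad]⟩
    · exact ⟨0, ![0, 0, (1 + β) / (2 * β), 0], ![0, 0, -(1 - β) / (2 * β), 0], by
        simpa [quad] using h31⟩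
    · exact ⟨0, ![0, (1 - α) / (2 * α), 0, 0], ![0, -(1 + α) / (2 * α), 0, 0], by
        simpa [quad] using h32⟩
    · exact ⟨![0, 0, 0, 1], 0, 0, by simp [quad]⟩
  | zero => exact ⟨0, 0, 0, by simp [quad]⟩
  | add a b _ _ ha hb =>
    obtain ⟨f, A, B, rfl⟩ := ha
    obtain ⟨f', A', B', rfl⟩ := hb
    exact ⟨_, _, _, quad_add _ _ _ _ _ _⟩
  | smul c a _ ha =>
    obtain ⟨f, A, B, rfl⟩ := ha
    exact ⟨_, _, _, quad_smul _ _ _ _⟩

theorem central_quad [IsAlgClosed k] [NeZero (2 : k)] (hS : IsSkl α β γ x) (hrel : α + β + γ + α * β * γ = 0)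
    (hα0 : α ≠ 0) (hβ' : β ≠ -1)
    {u v : k} (P : Par α β γ u v) {f A B : Fin 4 → k}
    (hc : quad x f A B ∈ Subalgebra.center k S) :
    quad x f A B = (-f 0) • Omega1 x + (f 1 + f 0) • Omega2 α β γ x := by
  obtain ⟨p1, h1⟩ := IsAlgClosed.exists_pow_nat_eq ((v - u) * (u + v - 1)) (n := 2) (by norm_num)
  obtain ⟨p2, h2⟩ := IsAlgClosed.exists_pow_nat_eq ((1 - v) * (1 + v - u)) (n := 2) (by norm_num)
  obtain ⟨p3, h3⟩ := IsAlgClosed.exists_pow_nat_eq ((u - 1) * (1 + u - v)) (n := 2) (by norm_num)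
  have h1' : (-p1) ^ 2 = (v - u) * (u + v - 1) := by rw [neg_sq, h1]
  have h2' : (-p2) ^ 2 = (1 - v) * (1 + v - u) := by rw [neg_sq, h2]
  have h3' : (-p3) ^ 2 = (u - 1) * (1 + u - v) := by rw [neg_sq, h3]
  obtain ⟨s1, t1⟩ := fam0 hS P hc h1 h2 h3
  obtain ⟨s2, t2⟩ := fam0 hS P hc h1 h2' h3'
  obtain ⟨s3, t3⟩ := fam0 hS P hc h1' h2 h3'
  obtain ⟨s4, t4⟩ := fam0 hS P hc h1' h2' h3
  have P' := P
  obtain ⟨hu, hv, hα, hβu, hγ, huv, hv1, hu1, A1, A2, A3, eu, ev⟩ := P
  have two : (2 : k) ≠ 0 := NeZero.ne _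
  have n1 : p1 ≠ 0 := by
    rintro rfl
    have : (v - u) * (u + v - 1) ≠ 0 := mul_ne_zero (fun h => huv (by linear_combination -h)) A1
    exact this (by rw [← h1]; ring)
  have n2 : p2 ≠ 0 := by
    rintro rfl
    have : (1 - v) * (1 + v - u) ≠ 0 := mul_ne_zero (fun h => hv1 (by linear_combination -h)) A2
    exact this (by rw [← h2]; ring)
  have n3 : p3 ≠ 0 := by
    rintro rfl
    have : (u - 1) * (1 + u - v) ≠ 0 := mul_ne_zero (fun h => hu1 (by linear_combination -h)) A3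
    exact this (by rw [← h3]; ring)
  have nP : 2 * 2 * 2 * (p1 * p2 * p3) ≠ 0 :=
    mul_ne_zero (mul_ne_zero (mul_ne_zero two two) two) (mul_ne_zero (mul_ne_zero n1 n2) n3)
  have hB1 : B 1 = 0 := by
    have : 2 * 2 * 2 * (p1 * p2 * p3) * p1 * B 1 = 0 := by
      linear_combination s1 + s2 - s3 - s4
    exact (mul_eq_zero.1 this).resolve_left (mul_ne_zero nP n1)
  have hB2 : B 2 = 0 := by
    have : 2 * 2 * 2 * (p1 * p2 * p3) * p2 * B 2 = 0 := by
      linear_combination s1 - s2 + s3 - s4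
    exact (mul_eq_zero.1 this).resolve_left (mul_ne_zero nP n2)
  have hB3 : B 3 = 0 := by
    have : 2 * 2 * 2 * (p1 * p2 * p3) * p3 * B 3 = 0 := by
      linear_combination s1 - s2 - s3 + s4
    exact (mul_eq_zero.1 this).resolve_left (mul_ne_zero nP n3)
  have hA1 : A 1 = 0 := by
    have : 2 * 2 * 2 * (p1 * p2 * p3) * p1 * A 1 = 0 := by
      linear_combination -t1 - t2 + t3 + t4
    exact (mul_eq_zero.1 this).resolve_left (mul_ne_zero nP n1)
  have hA2 : A 2 = 0 := by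
    have : 2 * 2 * 2 * (p1 * p2 * p3) * p2 * A 2 = 0 := by
      linear_combination -t1 + t2 - t3 + t4
    exact (mul_eq_zero.1 this).resolve_left (mul_ne_zero nP n2)
  have hA3 : A 3 = 0 := by
    have : 2 * 2 * 2 * (p1 * p2 * p3) * p3 * A 3 = 0 := by
      linear_combination -t1 + t2 + t3 - t4
    exact (mul_eq_zero.1 this).resolve_left (mul_ne_zero nP n3)
  have hI : f 1 * (v - u) + f 2 * (1 - v) + f 3 * (u - 1) = 0 := by
    have : (2 * 2 * ((u + v - 1) * (1 + v - u) * (1 + u - v))) *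
        (f 1 * (v - u) + f 2 * (1 - v) + f 3 * (u - 1)) = 0 := by
      linear_combination s1 + s2 + s3 + s4
    exact (mul_eq_zero.1 this).resolve_left
      (mul_ne_zero (mul_ne_zero two two) (mul_ne_zero (mul_ne_zero A1 A2) A3))
  have hq : quad x f A B = quad x f 0 0 := by
    simp only [quad, hA1, hA2, hA3, hB1, hB2, hB3, Pi.zero_apply]
  rw [hq] at hc
  have hg : 1 + γ ≠ 0 := by
    intro h0
    rw [h0, div_zero] at ev
    exact hv ev.symm
  have hb : 1 - β ≠ 0 := by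
    intro h0
    rw [h0, div_zero] at eu
    exact hu eu.symm
  have hbg : β + γ ≠ 0 := by
    intro h0
    have e : α * (1 + β * γ) = 0 := by linear_combination hrel - h0
    have e1 : 1 + β * γ = 0 := (mul_eq_zero.1 e).resolve_left hα0
    have e2 : (1 - β) * (1 + β) = 0 := by linear_combination e1 - β * h0
    rcases mul_eq_zero.1 e2 with e3 | e3
    · exact hb e3
    · exact hβ' (by linear_combination e3)
  obtain ⟨q0, g0⟩ := IsAlgClosed.exists_pow_nat_eq (β + γ) (n := 2) (by norm_num)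
  obtain ⟨q2, g2⟩ := IsAlgClosed.exists_pow_nat_eq (1 - β) (n := 2) (by norm_num)
  obtain ⟨q3, g3⟩ := IsAlgClosed.exists_pow_nat_eq (-(1 + γ)) (n := 2) (by norm_num)
  have hII := fam1 hS hrel (A := 0) (B := 0) (fun _ => rfl) (fun _ => rfl) hc hb hg hbg g0 g2 g3
  have e1 : v * (f 0 + f 2) = u * (f 0 + f 3) := by
    have : (u + v - 1) * (v * (f 0 + f 2) - u * (f 0 + f 3)) = 0 := by
      linear_combination u * v * hII - (f 0 + f 2) * v * hβu + (f 0 + f 3) * u * (-hγ)
    have := (mul_eq_zero.1 this).resolve_left A1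
    linear_combination this
  have e2 : f 2 + f 0 = u * (f 1 + f 0) := by
    have : (u - v) * ((f 2 + f 0) - u * (f 1 + f 0)) = 0 := by
      linear_combination u * hI + (u - 1) * e1
    have := (mul_eq_zero.1 this).resolve_left huv
    linear_combination this
  have e3 : f 3 + f 0 = v * (f 1 + f 0) := by
    have : u * ((f 3 + f 0) - v * (f 1 + f 0)) = 0 := by
      linear_combination v * e2 - e1
    have := (mul_eq_zero.1 this).resolve_left hu
    linear_combination this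
  rw [hq]
  simp only [quad, Omega1, Omega2, eu, ev, Pi.zero_apply, zero_smul, add_zero]
  have r2 : f 2 = u * (f 1 + f 0) - f 0 := by linear_combination e2
  have r3 : f 3 = v * (f 1 + f 0) - f 0 := by linear_combination e3
  rw [r2, r3]
  module

theorem sat_single (m : Fin 4) : Sat α β γ (Pi.single m (1 : k) : Fin 4 → k) := by
  constructor <;> fin_cases m <;> simp

theorem omega_indep (hS : IsSkl α β γ x) {s t : k}
    (h : s • Omega1 x + t • Omega2 α β γ x = 0) : s = 0 ∧ t = 0 := by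
  obtain ⟨F, hF⟩ := hS.univ k _ (sat_single 0)
  obtain ⟨G, hG⟩ := hS.univ k _ (sat_single 1)
  have h0 := congrArg F h
  have h1 := congrArg G h
  simp [Omega1, Omega2, hF] at h0
  simp [Omega1, Omega2, hG] at h1
  subst h0
  simpa using h1

theorem quad_mem {z : S} :
    IsCentralQuad k x z ↔
      z ∈ Submodule.span k (Set.range fun p : Fin 4 × Fin 4 => x p.1 * x p.2) ∧
      z ∈ Subalgebra.center k S := by
  rw [IsCentralQuad, Subalgebra.mem_center_iff]
  refine and_congr ?_ Iff.rfl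
  constructor
  · rintro ⟨c, rfl⟩
    exact Submodule.sum_mem _ fun i _ => Submodule.sum_mem _ fun j _ =>
      Submodule.smul_mem _ _ (Submodule.subset_span ⟨(i, j), rfl⟩)
  · intro h
    obtain ⟨c, hc⟩ := (Submodule.mem_span_range_iff_exists_fun k).1 h
    refine ⟨fun i j => c (i, j), ?_⟩
    rw [← hc, Fintype.sum_prod_type]

theorem spans [IsAlgClosed k] [NeZero (2 : k)] (hS : IsSkl α β γ x)
    (hrel : α + β + γ + α * β * γ = 0)
    (hα0 : α ≠ 0) (hβ0 : β ≠ 0) (hγ0 : γ ≠ 0) (hβ' : β ≠ -1)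
    {u v : k} (P : Par α β γ u v) :
    SpansCentreTwo k x (Omega1 x) (Omega2 α β γ x) := by
  intro z
  rw [quad_mem]
  constructor
  · rintro ⟨hz1, hz2⟩
    obtain ⟨f, A, B, rfl⟩ := exists_quad hS.sat hα0 hβ0 hγ0 hz1
    exact ⟨_, _, central_quad hS hrel hα0 hβ' P hz2⟩
  · rintro ⟨a, b, rfl⟩
    have hx : ∀ i j, x i * x j ∈
        Submodule.span k (Set.range fun p : Fin 4 × Fin 4 => x p.1 * x p.2) :=
      fun i j => Submodule.subset_span ⟨(i, j), rfl⟩
    constructor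
    · refine Submodule.add_mem _ (Submodule.smul_mem _ _ ?_) (Submodule.smul_mem _ _ ?_)
      · exact Submodule.add_mem _ (Submodule.add_mem _ (Submodule.add_mem _
          (Submodule.neg_mem _ (hx 0 0)) (hx 1 1)) (hx 2 2)) (hx 3 3)
      · exact Submodule.add_mem _ (Submodule.add_mem _ (hx 1 1)
          (Submodule.smul_mem _ _ (hx 2 2))) (Submodule.smul_mem _ _ (hx 3 3))
    · exact Subalgebra.add_mem _ (Subalgebra.smul_mem _ (Omega1_center hS.gen hS.sat) _)
        (Subalgebra.smul_mem _ (Omega2_center hS.gen hS.sat P) _)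

end centre

section final

variable {k : Type u} [Field k] {α β γ : k} {S : Type u} [Ring S] [Algebra k S] {x : Fin 4 → S}

/-- The main theorem for any algebra with the presentation. -/
theorem main [IsAlgClosed k] [CharZero k] (hS : IsSkl α β γ x) {g₁ g₂ : S →ₐ[k] S}
    (hg : IsAct x g₁ g₂) (hrel : α + β + γ + α * β * γ = 0)
    (hα : α ≠ 0 ∧ α ≠ 1 ∧ α ≠ -1) (hβ : β ≠ 0 ∧ β ≠ 1 ∧ β ≠ -1)
    (hγ : γ ≠ 0 ∧ γ ≠ 1 ∧ γ ≠ -1) :
    SpansCentreTwo k x (Omega1 x) (Omega2 α β γ x) ∧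
    (∀ s t : k, s • Omega1 x + t • Omega2 α β γ x = 0 → s = 0 ∧ t = 0) ∧
    ∀ Ω₁ Ω₂ : S, SpansCentreTwo k x Ω₁ Ω₂ →
      ∀ c₁ c₂ : k, (c₁, c₂) ≠ (0, 0) →
        IsInv g₁ g₂ (scal (c₁ • Ω₁ + c₂ • Ω₂)) ∧
        HasZeroDivisors (ROmega g₁ g₂ (c₁ • Ω₁ + c₂ • Ω₂)) := by
  have : NeZero (2 : k) := ⟨two_ne_zero⟩
  have P := par_of hrel hα hβ hγ
  have hspan := spans hS hrel hα.1 hβ.1 hγ.1 hβ.2.2 P
  refine ⟨hspan, fun s t => omega_indep hS, ?_⟩
  intro Ω₁ Ω₂ h12 c₁ c₂ hc
  obtain ⟨c, t, hct⟩ := (hspan (c₁ • Ω₁ + c₂ • Ω₂)).1 ((h12 _).2 ⟨c₁, c₂, rfl⟩)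
  refine zero_div hS hg P c t ?_ _ hct
  rintro ⟨rfl, rfl⟩
  rw [zero_smul, zero_smul, add_zero] at hct
  obtain ⟨a1, b1, e1⟩ := (h12 _).1 ((hspan (Omega1 x)).2 ⟨1, 0, by simp⟩)
  obtain ⟨a2, b2, e2⟩ := (h12 _).1 ((hspan (Omega2 α β γ x)).2 ⟨0, 1, by simp⟩)
  have hc1 : c₁ = 0 := by
    by_contra h0
    have f1 : c₁ • Omega1 x = (b1 * c₁ - a1 * c₂) • Ω₂ := by
      rw [e1]
      linear_combination (norm := module) a1 • hct
    have f2 : c₁ • Omega2 α β γ x = (b2 * c₁ - a2 * c₂) • Ω₂ := by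
      rw [e2]
      linear_combination (norm := module) a2 • hct
    have f3 : ((b2 * c₁ - a2 * c₂) * c₁) • Omega1 x
        + (-(b1 * c₁ - a1 * c₂) * c₁) • Omega2 α β γ x = 0 := by
      linear_combination (norm := module)
        (b2 * c₁ - a2 * c₂) • f1 - (b1 * c₁ - a1 * c₂) • f2
    have f4 := (omega_indep hS f3).2
    have f5 : b1 * c₁ - a1 * c₂ = 0 := by
      rcases mul_eq_zero.1 f4 with h | h
      · linear_combination -h
      · exact absurd h h0
    rw [f5, zero_smul] at f1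
    have f6 : c₁ • Omega1 x + (0 : k) • Omega2 α β γ x = 0 := by rw [f1]; simp
    exact h0 (omega_indep hS f6).1
  have hc2 : c₂ = 0 := by
    by_contra h0
    have f1 : c₂ • Omega1 x = (a1 * c₂ - b1 * c₁) • Ω₁ := by
      rw [e1]
      linear_combination (norm := module) b1 • hct
    have f2 : c₂ • Omega2 α β γ x = (a2 * c₂ - b2 * c₁) • Ω₁ := by
      rw [e2]
      linear_combination (norm := module) b2 • hct
    have f3 : ((a2 * c₂ - b2 * c₁) * c₂) • Omega1 x
        + (-(a1 * c₂ - b1 * c₁) * c₂) • Omega2 α β γ x = 0 := by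
      linear_combination (norm := module)
        (a2 * c₂ - b2 * c₁) • f1 - (a1 * c₂ - b1 * c₁) • f2
    have f4 := (omega_indep hS f3).2
    have f5 : a1 * c₂ - b1 * c₁ = 0 := by
      rcases mul_eq_zero.1 f4 with h | h
      · linear_combination -h
      · exact absurd h h0
    rw [f5, zero_smul] at f1
    have f6 : c₂ • Omega1 x + (0 : k) • Omega2 α β γ x = 0 := by rw [f1]; simp
    exact h0 (omega_indep hS f6).1
  exact hc (by rw [hc1, hc2])

end final

section model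

variable {k : Type u} [Field k]

theorem sat_model (α β γ : k) : Sat α β γ (gen α β γ) where
  c1 := by
    have := RingQuot.mkAlgHom_rel k (Rel.comm1 (α := α) (β := β) (γ := γ))
    simpa [gen] using this
  c2 := by
    have := RingQuot.mkAlgHom_rel k (Rel.comm2 (α := α) (β := β) (γ := γ))
    simpa [gen] using this
  c3 := by
    have := RingQuot.mkAlgHom_rel k (Rel.comm3 (α := α) (β := β) (γ := γ))
    simpa [gen] using this
  a1 := by
    have := RingQuot.mkAlgHom_rel k (Rel.anti1 (α := α) (β := β) (γ := γ))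
    simpa [gen] using this
  a2 := by
    have := RingQuot.mkAlgHom_rel k (Rel.anti2 (α := α) (β := β) (γ := γ))
    simpa [gen] using this
  a3 := by
    have := RingQuot.mkAlgHom_rel k (Rel.anti3 (α := α) (β := β) (γ := γ))
    simpa [gen] using this

theorem lift_rel {α β γ : k} {B : Type u} [Ring B] [Algebra k B] (y : Fin 4 → B)
    (h : Sat α β γ y) ⦃a b : FreeAlgebra k (Fin 4)⦄ (r : Rel α β γ a b) :
    FreeAlgebra.lift k y a = FreeAlgebra.lift k y b := by
  cases r with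
  | comm1 => simpa using h.c1
  | comm2 => simpa using h.c2
  | comm3 => simpa using h.c3
  | anti1 => simpa using h.a1
  | anti2 => simpa using h.a2
  | anti3 => simpa using h.a3

theorem model (α β γ : k) : IsSkl α β γ (gen α β γ) where
  sat := sat_model α β γ
  gen := by
    rw [eq_top_iff]
    rintro z -
    obtain ⟨f, rfl⟩ := RingQuot.mkAlgHom_surjective k (Rel α β γ) z
    have hf : f ∈ Algebra.adjoin k (Set.range (FreeAlgebra.ι k : Fin 4 → _)) := by
      rw [FreeAlgebra.adjoin_range_ι]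
      exact Algebra.mem_top
    have h1 : RingQuot.mkAlgHom k (Rel α β γ) f ∈
        (Algebra.adjoin k (Set.range (FreeAlgebra.ι k : Fin 4 → _))).map
          (RingQuot.mkAlgHom k (Rel α β γ)) := Subalgebra.mem_map.2 ⟨f, hf, rfl⟩
    rw [AlgHom.map_adjoin, ← Set.range_comp] at h1
    exact h1
  univ := by
    intro B _ _ y h
    refine ⟨RingQuot.liftAlgHom k ⟨FreeAlgebra.lift k y, lift_rel y h⟩, fun i => ?_⟩
    have h1 := RingQuot.liftAlgHom_mkAlgHom_apply (S := k) (FreeAlgebra.lift k y)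
      (s := Rel α β γ) (lift_rel y h) (FreeAlgebra.ι k i)
    exact h1.trans (FreeAlgebra.lift_ι_apply _ _)

theorem exists_act {α β γ : k} {S : Type u} [Ring S] [Algebra k S] {x : Fin 4 → S}
    (hS : IsSkl α β γ x) : ∃ g₁ g₂ : S →ₐ[k] S, IsAct x g₁ g₂ := by
  obtain ⟨g₁, h₁⟩ := hS.univ S ![x 0, x 1, -x 2, -x 3] (by
    obtain ⟨c1, c2, c3, a1, a2, a3⟩ := hS.sat
    constructor <;> simp only [Matrix.cons_val, neg_mul, mul_neg, neg_neg]
    · exact c1
    · linear_combination (norm := module) -c2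
    · linear_combination (norm := module) -c3
    · exact a1
    · linear_combination (norm := module) -a2
    · linear_combination (norm := module) -a3)
  obtain ⟨g₂, h₂⟩ := hS.univ S ![x 0, -x 1, x 2, -x 3] (by
    obtain ⟨c1, c2, c3, a1, a2, a3⟩ := hS.sat
    constructor <;> simp only [Matrix.cons_val, neg_mul, mul_neg, neg_neg]
    · linear_combination (norm := module) -c1
    · exact c2
    · linear_combination (norm := module) -c3
    · linear_combination (norm := module) -a1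
    · exact a2
    · linear_combination (norm := module) -a3)
  exact ⟨g₁, g₂, h₁ 0, h₁ 1, h₁ 2, h₁ 3, h₂ 0, h₂ 1, h₂ 2, h₂ 3⟩

end model

end Pool.Agent.Helper213.SklProof
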