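import Mathlib

set_option autoImplicit false

namespace Pool.Agent.Helper213.UbEx

open Finset

namespace UBE

noncomputable def M {E : Type*} [Ring E] (a : ℕ → E) (m : ℕ) (I : Finset ℕ) : E :=
  ((List.range m).map (fun i => if i ∈ I then a i else 1)).prod

section
variable {E : Type*} [Ring E] (a : ℕ → E)

theorem M_zero (I : Finset ℕ) : M a 0 I = 1 := by simp [M]

theorem M_succ (m : ℕ) (I : Finset ℕ) :
    M a (m + 1) I = M a m I * (if m ∈ I then a m else 1) := by
  unfold M
  rw [List.range_succ, List.map_append, List.prod_append]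
  simp

theorem M_congr (m : ℕ) (I J : Finset ℕ) (h : ∀ i < m, (i ∈ I ↔ i ∈ J)) : M a m I = M a m J := by
  induction m with
  | zero => rw [M_zero, M_zero]
  | succ m ih =>
    rw [M_succ, M_succ, ih (fun i hi => h i (by omega))]
    have := h m (by omega)
    simp only [this]

theorem M_eq_zero (m : ℕ) (I : Finset ℕ) (k : ℕ) (hk : k < m) (hkI : k ∈ I) (ha : a k = 0) :
    M a m I = 0 := by
  induction m with
  | zero => omega
  | succ m ih =>
    rw [M_succ]
    rcases Nat.lt_succ_iff_lt_or_eq.1 hk with h | h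
    · rw [ih h, zero_mul]
    · subst h
      rw [if_pos hkI, ha, mul_zero]

theorem z_comm (hac : ∀ i j, a i * a j = - (a j * a i)) (b i : ℕ) :
    (a b * a (b + 1)) * a i = a i * (a b * a (b + 1)) := by
  rw [mul_assoc, hac (b + 1) i, mul_neg, ← mul_assoc, hac b i, neg_mul, neg_neg, mul_assoc]

theorem z_M_comm (hac : ∀ i j, a i * a j = - (a j * a i)) (b m : ℕ) (J : Finset ℕ) :
    (a b * a (b + 1)) * M a m J = M a m J * (a b * a (b + 1)) := by
  induction m with
  | zero => rw [M_zero, mul_one, one_mul]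
  | succ m ih =>
    rw [M_succ, ← mul_assoc, ih]
    split_ifs
    · rw [mul_assoc, z_comm a hac, ← mul_assoc]
    · rw [mul_one, mul_one]

theorem z_mul_M (hac : ∀ i j, a i * a j = - (a j * a i)) (hsq : ∀ i, a i * a i = 0)
    (b : ℕ) (J : Finset ℕ) (m : ℕ) (hm : b + 2 ≤ m) :
    (a b * a (b + 1)) * M a m J =
      if Disjoint ({b, b + 1} : Finset ℕ) J then M a m (J ∪ {b, b + 1}) else 0 := by
  induction m, hm using Nat.le_induction with
  | base =>
    rw [M_succ, M_succ, M_succ, M_succ]
    have h1 : b ∈ J ∪ {b, b + 1} := by simp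
    have h2 : b + 1 ∈ J ∪ {b, b + 1} := by simp
    rw [if_pos h1, if_pos h2]
    have h3 : M a b (J ∪ {b, b + 1}) = M a b J := by
      apply M_congr
      intro i hi
      simp only [Finset.mem_union, Finset.mem_insert, Finset.mem_singleton]
      constructor
      · rintro (h | h | h)
        · exact h
        · omega
        · omega
      · intro h; exact Or.inl h
    rw [h3, ← mul_assoc, ← mul_assoc, z_M_comm a hac]
    by_cases hb : b ∈ J
    · have hd : ¬ Disjoint ({b, b + 1} : Finset ℕ) J := by
        intro h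
        exact Finset.disjoint_left.1 h (by simp) hb
      rw [if_neg hd, if_pos hb]
      have : M a b J * (a b * a (b + 1)) * a b = 0 := by
        rw [mul_assoc, mul_assoc, hac (b + 1) b, mul_neg, ← mul_assoc (a b), hsq, zero_mul,
          neg_zero, mul_zero]
      rw [this, zero_mul]
    · rw [if_neg hb, mul_one]
      by_cases hb1 : b + 1 ∈ J
      · have hd : ¬ Disjoint ({b, b + 1} : Finset ℕ) J := by
          intro h
          exact Finset.disjoint_left.1 h (by simp) hb1
        rw [if_neg hd, if_pos hb1]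
        rw [mul_assoc, mul_assoc, hsq, mul_zero, mul_zero]
      · have hd : Disjoint ({b, b + 1} : Finset ℕ) J := by
          rw [Finset.disjoint_left]
          intro x hx
          simp only [Finset.mem_insert, Finset.mem_singleton] at hx
          rcases hx with rfl | rfl
          · exact hb
          · exact hb1
        rw [if_pos hd, if_neg hb1, mul_one, mul_assoc]
  | succ m hm ih =>
    rw [M_succ, ← mul_assoc, ih]
    split_ifs with h1 h2 h2
    · rw [M_succ, if_pos (Finset.mem_union_left _ h2)]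
    · rw [M_succ, if_neg]
      simp only [Finset.mem_union, Finset.mem_insert, Finset.mem_singleton, not_or]
      exact ⟨h2, by omega, by omega⟩
    · rw [zero_mul]
    · rw [zero_mul]

end

section
variable {E : Type*} [Ring E] [Algebra ℂ E] (a : ℕ → E)

theorem a_M_comm (hac : ∀ i j, a i * a j = - (a j * a i)) (i m : ℕ) (J : Finset ℕ) :
    ∃ ε : ℂ, a i * M a m J = ε • (M a m J * a i) := by
  induction m with
  | zero => exact ⟨1, by rw [M_zero, mul_one, one_mul, one_smul]⟩
  | succ m ih =>
    obtain ⟨ε, h⟩ := ih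
    rw [M_succ, ← mul_assoc, h]
    split_ifs
    · refine ⟨-ε, ?_⟩
      rw [smul_mul_assoc, mul_assoc, hac i m, mul_neg, ← mul_assoc, smul_neg, neg_smul]
    · refine ⟨ε, ?_⟩
      rw [mul_one, mul_one]

theorem a_mul_M (hac : ∀ i j, a i * a j = - (a j * a i)) (hsq : ∀ i, a i * a i = 0)
    (i : ℕ) (J : Finset ℕ) (m : ℕ) (hm : i + 1 ≤ m) :
    (i ∈ J → a i * M a m J = 0) ∧
    (i ∉ J → ∃ ε : ℂ, a i * M a m J = ε • M a m (insert i J)) := by
  induction m, hm using Nat.le_induction with
  | base =>
    obtain ⟨ε, h⟩ := a_M_comm a hac i i J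
    constructor
    · intro hi
      rw [M_succ, if_pos hi, ← mul_assoc, h, smul_mul_assoc, mul_assoc, hsq, mul_zero, smul_zero]
    · intro hi
      refine ⟨ε, ?_⟩
      rw [M_succ, if_neg hi, mul_one, h, M_succ, if_pos (Finset.mem_insert_self _ _)]
      congr 2
      apply M_congr
      intro k hk
      rw [Finset.mem_insert]
      constructor
      · intro h; exact Or.inr h
      · rintro (h | h)
        · omega
        · exact h
  | succ m hm ih =>
    constructor
    · intro hi
      rw [M_succ, ← mul_assoc, ih.1 hi, zero_mul]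
    · intro hi
      obtain ⟨ε, h⟩ := ih.2 hi
      refine ⟨ε, ?_⟩
      rw [M_succ, ← mul_assoc, h, M_succ, smul_mul_assoc]
      have : (m ∈ J) ↔ m ∈ insert i J := by
        rw [Finset.mem_insert]
        constructor
        · intro h; exact Or.inr h
        · rintro (h | h)
          · omega
          · exact h
      simp only [this]

end

variable (n : ℕ)

noncomputable def T (i : ℕ) : Fin n → ℂ :=
  if h : 1 ≤ i ∧ i ≤ n then Pi.single ⟨i - 1, by omega⟩ 1 else 0

noncomputable def a (i : ℕ) : ExteriorAlgebra ℂ (Fin n → ℂ) := ExteriorAlgebra.ι ℂ (T n i)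

theorem a_sq (i : ℕ) : a n i * a n i = 0 := ExteriorAlgebra.ι_sq_zero _

theorem a_anti (i j : ℕ) : a n i * a n j = - (a n j * a n i) := by
  have h := ExteriorAlgebra.ι_add_mul_swap (R := ℂ) (T n i) (T n j)
  exact eq_neg_of_add_eq_zero_left h

noncomputable abbrev A1 : Submodule ℂ (ExteriorAlgebra ℂ (Fin n → ℂ)) :=
  LinearMap.range (ExteriorAlgebra.ι ℂ : (Fin n → ℂ) →ₗ[ℂ] ExteriorAlgebra ℂ (Fin n → ℂ))

theorem a_mem (i : ℕ) : a n i ∈ A1 n := ⟨T n i, rfl⟩

theorem M_mem (m : ℕ) (I : Finset ℕ) : M (a n) m I ∈ (A1 n) ^ ((I.filter (· < m)).card) := by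
  induction m with
  | zero =>
    rw [M_zero]
    have : I.filter (· < 0) = ∅ := by
      rw [Finset.filter_eq_empty_iff]
      intro x _
      omega
    rw [this, Finset.card_empty, pow_zero]
    exact Submodule.one_le.1 le_rfl
  | succ m ih =>
    rw [M_succ]
    split_ifs with h
    · have h1 : I.filter (· < m + 1) = insert m (I.filter (· < m)) := by
        ext x
        simp only [Finset.mem_filter, Finset.mem_insert]
        constructor
        · rintro ⟨h1, h2⟩
          by_cases hx : x = m
          · exact Or.inl hx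
          · exact Or.inr ⟨h1, by omega⟩
        · rintro (h1 | ⟨h1, h2⟩)
          · subst h1; exact ⟨h, by omega⟩
          · exact ⟨h1, by omega⟩
      rw [h1, Finset.card_insert_of_notMem (by simp), pow_succ]
      exact Submodule.mul_mem_mul ih (a_mem n m)
    · have h1 : I.filter (· < m + 1) = I.filter (· < m) := by
        ext x
        simp only [Finset.mem_filter]
        constructor
        · rintro ⟨h1, h2⟩
          refine ⟨h1, ?_⟩
          have : x ≠ m := by rintro rfl; exact h h1
          omega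
        · rintro ⟨h1, h2⟩
          exact ⟨h1, by omega⟩
      rw [h1, mul_one]
      exact ih

theorem M_mem' (m : ℕ) (I : Finset ℕ) (hI : I ⊆ range m) : M (a n) m I ∈ (A1 n) ^ I.card := by
  have h := M_mem n m I
  rwa [Finset.filter_true_of_mem (fun x hx => Finset.mem_range.1 (hI hx))] at h

theorem pow_le_span (s : ℕ) : (A1 n) ^ s ≤
    Submodule.span ℂ {x | ∃ I : Finset ℕ, I ⊆ range (n + 2) ∧ I.card = s ∧ x = M (a n) (n + 2) I} := by
  induction s with
  | zero =>
    rw [pow_zero, Submodule.one_eq_span, Submodule.span_le]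
    intro x hx
    rw [Set.mem_singleton_iff] at hx
    apply Submodule.subset_span
    refine ⟨∅, Finset.empty_subset _, Finset.card_empty, ?_⟩
    rw [hx]
    simp [M]
  | succ s ih =>
    rw [pow_succ', Submodule.mul_le]
    rintro _ ⟨v, rfl⟩ y hy
    have hy' := ih hy
    clear hy
    have hv : (ExteriorAlgebra.ι ℂ v) = ∑ i : Fin n, v i • a n (i.val + 1) := by
      have h1 : v = ∑ i : Fin n, v i • T n (i.val + 1) := by
        have h2 : ∀ i : Fin n, T n (i.val + 1) = Pi.single i (1 : ℂ) := by
          intro i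
          unfold T
          rw [dif_pos ⟨by omega, by omega⟩]
          congr 1
        simp only [h2]
        funext k
        simp [Finset.sum_apply, Pi.single_apply]
      conv_lhs => rw [h1]
      rw [map_sum]
      simp only [map_smul, a]
    rw [hv]
    induction hy' using Submodule.span_induction with
    | mem y hy =>
      obtain ⟨I, hI, hc, rfl⟩ := hy
      rw [Finset.sum_mul]
      apply Submodule.sum_mem
      intro i _
      rw [smul_mul_assoc]
      apply Submodule.smul_mem
      have hi := i.isLt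
      have h := a_mul_M (a n) (a_anti n) (a_sq n) (i.val + 1) I (n + 2) (by omega)
      by_cases hiI : i.val + 1 ∈ I
      · rw [h.1 hiI]
        exact Submodule.zero_mem _
      · obtain ⟨ε, hε⟩ := h.2 hiI
        rw [hε]
        apply Submodule.smul_mem
        apply Submodule.subset_span
        refine ⟨insert (i.val + 1) I, ?_, ?_, rfl⟩
        · intro x hx
          rw [Finset.mem_insert] at hx
          rcases hx with rfl | hx
          · rw [Finset.mem_range]; omega
          · exact hI hx
        · rw [Finset.card_insert_of_notMem hiI, hc]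
    | zero =>
      rw [mul_zero]
      exact Submodule.zero_mem _
    | add x y _ _ hx hy =>
      rw [mul_add]
      exact Submodule.add_mem _ hx hy
    | smul c x _ hx =>
      rw [mul_smul_comm]
      exact Submodule.smul_mem _ _ hx

end UBE

theorem ub_E_transfer (n s : ℕ) (hs : 1 ≤ s) (δ : ℝ) (h0 : 0 < δ) (G : Finset (Finset ℕ))
    (core : ∀ c : Finset ℕ → ℂ,
      (∀ J ⊆ range (n + 2), J.card + 2 = s →
        ∑ i ∈ (range (n / 2)).filter (fun i => Disjoint ({2 * i + 1, 2 * i + 2} : Finset ℕ) J),
          ((δ : ℂ) ^ (2 ^ i)) * c (J ∪ {2 * i + 1, 2 * i + 2}) = 0) →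
      (∀ J ⊆ range (n + 2), J.card + 2 = s →
        ∑ i ∈ (range (n / 2)).filter (fun i => Disjoint ({n - (2 * i + 1), n - 2 * i} : Finset ℕ) J),
          ((δ : ℂ) ^ (2 ^ i)) * c (J ∪ {n - (2 * i + 1), n - 2 * i}) = 0) →
      (∀ I ⊆ range (n + 2), (0 ∈ I ∨ n + 1 ∈ I) → c I = 0) →
      (∀ I ∈ G, c I = 0) → ∀ I ⊆ range (n + 2), I.card = s → c I = 0) :
    ∃ f ∈ LinearMap.range (ExteriorAlgebra.ι ℂ : (Fin n → ℂ) →ₗ[ℂ] ExteriorAlgebra ℂ (Fin n → ℂ)) ^ 2,
      ∃ g ∈ LinearMap.range (ExteriorAlgebra.ι ℂ : (Fin n → ℂ) →ₗ[ℂ] ExteriorAlgebra ℂ (Fin n → ℂ)) ^ 2,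
        Module.finrank ℂ
          (↥(LinearMap.range (ExteriorAlgebra.ι ℂ : (Fin n → ℂ) →ₗ[ℂ] ExteriorAlgebra ℂ (Fin n → ℂ)) ^ s) ⧸
            Submodule.comap (LinearMap.range (ExteriorAlgebra.ι ℂ : (Fin n → ℂ) →ₗ[ℂ] ExteriorAlgebra ℂ (Fin n → ℂ)) ^ s).subtype
              (Submodule.span ℂ {x : ExteriorAlgebra ℂ (Fin n → ℂ) |
                ∃ u v : ExteriorAlgebra ℂ (Fin n → ℂ), x = u * f * v ∨ x = u * g * v})) ≤ G.card := by
  classical
  let f : ExteriorAlgebra ℂ (Fin n → ℂ) :=
    ∑ i ∈ range (n / 2), ((δ : ℂ) ^ (2 ^ i)) • (UBE.a n (2 * i + 1) * UBE.a n (2 * i + 1 + 1))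
  let g : ExteriorAlgebra ℂ (Fin n → ℂ) :=
    ∑ i ∈ range (n / 2), ((δ : ℂ) ^ (2 ^ i)) •
      (UBE.a n (n - (2 * i + 1)) * UBE.a n (n - (2 * i + 1) + 1))
  have hz : ∀ i j : ℕ, UBE.a n i * UBE.a n j ∈ (UBE.A1 n) ^ 2 := by
    intro i j
    rw [pow_two]
    exact Submodule.mul_mem_mul (UBE.a_mem n i) (UBE.a_mem n j)
  have hf : f ∈ (UBE.A1 n) ^ 2 :=
    Submodule.sum_mem _ (fun i _ => Submodule.smul_mem _ _ (hz _ _))
  have hg : g ∈ (UBE.A1 n) ^ 2 :=
    Submodule.sum_mem _ (fun i _ => Submodule.smul_mem _ _ (hz _ _))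
  refine ⟨f, hf, g, hg, ?_⟩
  set W : Submodule ℂ (ExteriorAlgebra ℂ (Fin n → ℂ)) :=
    Submodule.span ℂ {x : ExteriorAlgebra ℂ (Fin n → ℂ) |
      ∃ u v : ExteriorAlgebra ℂ (Fin n → ℂ), x = u * f * v ∨ x = u * g * v} with hW
  have hfW : ∀ v, f * v ∈ W := by
    intro v
    apply Submodule.subset_span
    exact ⟨1, v, Or.inl (by rw [one_mul])⟩
  have hgW : ∀ v, g * v ∈ W := by
    intro v
    apply Submodule.subset_span
    exact ⟨1, v, Or.inr (by rw [one_mul])⟩
  set P : Submodule ℂ ↥((UBE.A1 n) ^ s) := Submodule.comap ((UBE.A1 n) ^ s).subtype W with hP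
  change Module.finrank ℂ (↥((UBE.A1 n) ^ s) ⧸ P) ≤ G.card
  let cl : Finset ℕ → (↥((UBE.A1 n) ^ s) ⧸ P) := fun I =>
    if h : I ⊆ range (n + 2) ∧ I.card = s then
      P.mkQ ⟨UBE.M (UBE.a n) (n + 2) I, by
        have := UBE.M_mem' n (n + 2) I h.1
        rwa [h.2] at this⟩
    else 0
  have hspan : Submodule.span ℂ ((G.image cl : Finset (↥((UBE.A1 n) ^ s) ⧸ P)) :
      Set (↥((UBE.A1 n) ^ s) ⧸ P)) = ⊤ := by
    by_contra hne
    obtain ⟨φ, hφ0, hφ⟩ := Submodule.exists_le_ker_of_lt_top _ (lt_top_iff_ne_top.2 hne)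
    apply hφ0
    obtain ⟨ψ, hψ⟩ := LinearMap.exists_extend (φ.comp P.mkQ)
    have hψ' : ∀ (x : ExteriorAlgebra ℂ (Fin n → ℂ)) (hx : x ∈ (UBE.A1 n) ^ s),
        ψ x = φ (P.mkQ ⟨x, hx⟩) := by
      intro x hx
      have := LinearMap.congr_fun hψ ⟨x, hx⟩
      exact this
    have hψW : ∀ x, x ∈ (UBE.A1 n) ^ s → x ∈ W → ψ x = 0 := by
      intro x hx hxW
      rw [hψ' x hx]
      have : P.mkQ ⟨x, hx⟩ = 0 := by
        rw [Submodule.mkQ_apply, Submodule.Quotient.mk_eq_zero]
        exact hxW
      rw [this, map_zero]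
    let c : Finset ℕ → ℂ := fun I =>
      if I ⊆ range (n + 2) ∧ I.card = s then ψ (UBE.M (UBE.a n) (n + 2) I) else 0
    have hc : ∀ I ⊆ range (n + 2), I.card = s → c I = 0 := by
      apply core c
      · intro J hJ hJc
        have h1 : f * UBE.M (UBE.a n) (n + 2) J ∈ (UBE.A1 n) ^ s := by
          have h2 := Submodule.mul_mem_mul hf (UBE.M_mem' n (n + 2) J hJ)
          rw [← pow_add] at h2
          rwa [show 2 + J.card = s by omega] at h2
        have h3 := hψW _ h1 (hfW _)
        rw [← h3]
        simp only [f]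
        rw [Finset.sum_mul, map_sum, Finset.sum_filter]
        apply Finset.sum_congr rfl
        intro i hi
        rw [Finset.mem_range] at hi
        rw [smul_mul_assoc, map_smul,
          UBE.z_mul_M (UBE.a n) (UBE.a_anti n) (UBE.a_sq n) (2 * i + 1) J (n + 2) (by omega)]
        have e : 2 * i + 1 + 1 = 2 * i + 2 := rfl
        rw [e]
        by_cases hd : Disjoint ({2 * i + 1, 2 * i + 2} : Finset ℕ) J
        · rw [if_pos hd, if_pos hd, smul_eq_mul]
          congr 1
          simp only [c]
          rw [if_pos]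
          refine ⟨?_, ?_⟩
          · apply Finset.union_subset hJ
            intro x hx
            simp only [Finset.mem_insert, Finset.mem_singleton] at hx
            rw [Finset.mem_range]
            omega
          · rw [Finset.card_union_of_disjoint hd.symm, Finset.card_pair (by omega), hJc]
        · rw [if_neg hd, if_neg hd, map_zero, smul_zero]
      · intro J hJ hJc
        have h1 : g * UBE.M (UBE.a n) (n + 2) J ∈ (UBE.A1 n) ^ s := by
          have h2 := Submodule.mul_mem_mul hg (UBE.M_mem' n (n + 2) J hJ)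
          rw [← pow_add] at h2
          rwa [show 2 + J.card = s by omega] at h2
        have h3 := hψW _ h1 (hgW _)
        rw [← h3]
        simp only [g]
        rw [Finset.sum_mul, map_sum, Finset.sum_filter]
        apply Finset.sum_congr rfl
        intro i hi
        rw [Finset.mem_range] at hi
        rw [smul_mul_assoc, map_smul,
          UBE.z_mul_M (UBE.a n) (UBE.a_anti n) (UBE.a_sq n) (n - (2 * i + 1)) J (n + 2) (by omega)]
        have e : n - (2 * i + 1) + 1 = n - 2 * i := by omega
        rw [e]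
        by_cases hd : Disjoint ({n - (2 * i + 1), n - 2 * i} : Finset ℕ) J
        · rw [if_pos hd, if_pos hd, smul_eq_mul]
          congr 1
          simp only [c]
          rw [if_pos]
          refine ⟨?_, ?_⟩
          · apply Finset.union_subset hJ
            intro x hx
            simp only [Finset.mem_insert, Finset.mem_singleton] at hx
            rw [Finset.mem_range]
            omega
          · rw [Finset.card_union_of_disjoint hd.symm, Finset.card_pair (by omega), hJc]
        · rw [if_neg hd, if_neg hd, map_zero, smul_zero]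
      · intro I hI h
        simp only [c]
        split_ifs with h1
        · have h2 : UBE.M (UBE.a n) (n + 2) I = 0 := by
            rcases h with h | h
            · apply UBE.M_eq_zero _ _ _ 0 (by omega) h
              unfold UBE.a UBE.T
              rw [dif_neg (by omega), map_zero]
            · apply UBE.M_eq_zero _ _ _ (n + 1) (by omega) h
              unfold UBE.a UBE.T
              rw [dif_neg (by omega), map_zero]
          rw [h2, map_zero]
        · rfl
      · intro I hI
        simp only [c]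
        split_ifs with h1
        · have hm : UBE.M (UBE.a n) (n + 2) I ∈ (UBE.A1 n) ^ s := by
            have := UBE.M_mem' n (n + 2) I h1.1
            rwa [h1.2] at this
          rw [hψ' _ hm]
          have h2 : cl I = P.mkQ ⟨UBE.M (UBE.a n) (n + 2) I, hm⟩ := by
            simp only [cl]
            rw [dif_pos h1]
          rw [← h2]
          have h3 : cl I ∈ Submodule.span ℂ ((G.image cl : Finset (↥((UBE.A1 n) ^ s) ⧸ P)) :
              Set (↥((UBE.A1 n) ^ s) ⧸ P)) := by
            apply Submodule.subset_span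
            rw [Finset.coe_image]
            exact ⟨I, hI, rfl⟩
          exact hφ h3
        · rfl
    have hker : Submodule.span ℂ {x | ∃ I : Finset ℕ, I ⊆ range (n + 2) ∧ I.card = s ∧
        x = UBE.M (UBE.a n) (n + 2) I} ≤ LinearMap.ker ψ := by
      rw [Submodule.span_le]
      rintro _ ⟨I, hI, hIc, rfl⟩
      rw [SetLike.mem_coe, LinearMap.mem_ker]
      have h1 := hc I hI hIc
      simp only [c] at h1
      rwa [if_pos ⟨hI, hIc⟩] at h1
    have hall : ∀ x, x ∈ (UBE.A1 n) ^ s → ψ x = 0 := fun x hx =>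
      LinearMap.mem_ker.1 (hker (UBE.pow_le_span n s hx))
    apply LinearMap.ext
    intro q
    obtain ⟨⟨x, hx⟩, rfl⟩ := P.mkQ_surjective q
    rw [← hψ' x hx, hall x hx, LinearMap.zero_apply]
  rw [← finrank_top, ← hspan]
  refine (finrank_span_finset_le_card _).trans ?_
  exact Finset.card_image_le

end Pool.Agent.Helper213.UbEx
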