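import Mathlib

set_option autoImplicit false

namespace Pool.Agent.Helper213.UbSx

open Finset

namespace UBS

variable (n : ℕ) (δ : ℝ)

noncomputable def l1 : MvPolynomial (Fin n) ℂ :=
  ((δ : ℂ)⁻¹) • ∑ i : Fin n, ((δ : ℂ) ^ (2 ^ ((i : ℕ) + 1))) • MvPolynomial.X i

noncomputable def l2 : MvPolynomial (Fin n) ℂ :=
  ((δ : ℂ)⁻¹) • ∑ i : Fin n, ((δ : ℂ) ^ (2 ^ ((i : ℕ) + 1))) • MvPolynomial.X (Fin.rev i)

noncomputable def z (i : ℕ) : MvPolynomial (Fin n) ℂ :=
  if i = 0 then - l1 n δ else if h : i - 1 < n then MvPolynomial.X ⟨i - 1, h⟩ else - l2 n δ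

noncomputable def II : Ideal (MvPolynomial (Fin n) ℂ) :=
  Ideal.span (Set.range (fun i : Fin n => (MvPolynomial.X i : MvPolynomial (Fin n) ℂ) ^ 2)
                  ∪ {l1 n δ ^ 2, l2 n δ ^ 2})

theorem l1_hom : (l1 n δ).IsHomogeneous 1 := by
  have : l1 n δ ∈ MvPolynomial.homogeneousSubmodule (Fin n) ℂ 1 := by
    unfold l1
    refine Submodule.smul_mem _ _ (Submodule.sum_mem _ fun i _ => Submodule.smul_mem _ _ ?_)
    exact MvPolynomial.isHomogeneous_X _ _
  exact this

theorem l2_hom : (l2 n δ).IsHomogeneous 1 := by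
  have : l2 n δ ∈ MvPolynomial.homogeneousSubmodule (Fin n) ℂ 1 := by
    unfold l2
    refine Submodule.smul_mem _ _ (Submodule.sum_mem _ fun i _ => Submodule.smul_mem _ _ ?_)
    exact MvPolynomial.isHomogeneous_X _ _
  exact this

theorem z_hom (i : ℕ) : (z n δ i).IsHomogeneous 1 := by
  unfold z
  split_ifs with h1 h2
  · exact (l1_hom n δ).neg
  · exact MvPolynomial.isHomogeneous_X _ _
  · exact (l2_hom n δ).neg

theorem z_sq (i : ℕ) : z n δ i ^ 2 ∈ II n δ := by
  unfold z II
  split_ifs with h1 h2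
  · rw [neg_sq]; exact Ideal.subset_span (Or.inr (by simp))
  · exact Ideal.subset_span (Or.inl ⟨_, rfl⟩)
  · rw [neg_sq]; exact Ideal.subset_span (Or.inr (by simp))

theorem sum1 (h0 : 0 < δ) :
    ∑ i ∈ range (n + 1), ((δ : ℂ) ^ (2 ^ i)) • z n δ i = 0 := by
  have hδ : (δ : ℂ) ≠ 0 := by exact_mod_cast h0.ne'
  rw [Finset.sum_range_succ']
  have h1 : ∑ k ∈ range n, ((δ : ℂ) ^ (2 ^ (k + 1))) • z n δ (k + 1) = (δ : ℂ) • l1 n δ := by
    unfold l1
    rw [smul_smul, mul_inv_cancel₀ hδ, one_smul, Finset.sum_range]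
    refine Finset.sum_congr rfl fun i _ => ?_
    simp [z]
  rw [h1]
  simp [z]

theorem sum2 (h0 : 0 < δ) :
    ∑ i ∈ range (n + 1), ((δ : ℂ) ^ (2 ^ i)) • z n δ (n + 1 - i) = 0 := by
  have hδ : (δ : ℂ) ≠ 0 := by exact_mod_cast h0.ne'
  rw [Finset.sum_range_succ']
  have h1 : ∑ k ∈ range n, ((δ : ℂ) ^ (2 ^ (k + 1))) • z n δ (n + 1 - (k + 1))
      = (δ : ℂ) • l2 n δ := by
    unfold l2
    rw [smul_smul, mul_inv_cancel₀ hδ, one_smul, Finset.sum_range]
    refine Finset.sum_congr rfl fun i _ => ?_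
    have hi := i.2
    have e1 : n + 1 - ((i : ℕ) + 1) ≠ 0 := by omega
    have e2 : n + 1 - ((i : ℕ) + 1) - 1 < n := by omega
    have : z n δ (n + 1 - ((i : ℕ) + 1)) = MvPolynomial.X (Fin.rev i) := by
      unfold z
      rw [if_neg e1, dif_pos e2]
      congr 1
      ext
      simp [Fin.rev]
      omega
    rw [this]
  rw [h1]
  have : z n δ (n + 1) = - l2 n δ := by simp [z]
  simp [this]

noncomputable def mono (J : Finset ℕ) : MvPolynomial (Fin n) ℂ := ∏ i ∈ J, z n δ i

theorem mono_hom (J : Finset ℕ) : (mono n δ J).IsHomogeneous J.card := by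
  have := MvPolynomial.IsHomogeneous.prod J (fun i => z n δ i) (fun _ => 1) (fun i _ => z_hom n δ i)
  simpa [mono] using this

theorem z_mul_mono (J : Finset ℕ) (i : ℕ) (hi : i ∈ J) : z n δ i * mono n δ J ∈ II n δ := by
  unfold mono
  rw [← Finset.mul_prod_erase J _ hi, ← mul_assoc, ← sq]
  exact Ideal.mul_mem_right _ _ (z_sq n δ i)


abbrev HH (s : ℕ) := ↥(MvPolynomial.homogeneousSubmodule (Fin n) ℂ s)

noncomputable def hc (s : ℕ) : MvPolynomial (Fin n) ℂ →ₗ[ℂ] HH n s :=
  LinearMap.codRestrict _ (MvPolynomial.homogeneousComponent s)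
    (fun p => MvPolynomial.homogeneousComponent_isHomogeneous s p)

theorem hc_of_hom (s : ℕ) (p : MvPolynomial (Fin n) ℂ) (hp : p.IsHomogeneous s) :
    hc n s p = ⟨p, hp⟩ := by
  apply Subtype.ext
  change MvPolynomial.homogeneousComponent s p = p
  exact MvPolynomial.homogeneousComponent_of_mem (m := s) (n := s) hp |>.trans (by simp)

noncomputable abbrev NN (s : ℕ) : Submodule ℂ (HH n s) :=
  Submodule.comap (MvPolynomial.homogeneousSubmodule (Fin n) ℂ s).subtype
    (Submodule.restrictScalars ℂ (II n δ))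

theorem key (s : ℕ) (hs : 1 ≤ s) (h0 : 0 < δ) (G : Finset (Finset ℕ))
    (core : ∀ c : Finset ℕ → ℂ,
      (∀ J ⊆ range (n + 2), J.card + 1 = s →
        ∑ i ∈ (range (n + 1)).filter (fun i => i ∉ J), ((δ : ℂ) ^ (2 ^ i)) * c (insert i J) = 0) →
      (∀ J ⊆ range (n + 2), J.card + 1 = s →
        ∑ i ∈ (range (n + 1)).filter (fun i => n + 1 - i ∉ J),
          ((δ : ℂ) ^ (2 ^ i)) * c (insert (n + 1 - i) J) = 0) →
      (∀ I ∈ G, c I = 0) → ∀ I ⊆ range (n + 2), I.card = s → c I = 0)
    (ψ : HH n s →ₗ[ℂ] ℂ) (hψ : ∀ x ∈ NN n δ s, ψ x = 0)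
    (hG : ∀ I ∈ G, ψ (hc n s (mono n δ I)) = 0) : ψ = 0 := by
  have hΨ : ∀ p : MvPolynomial (Fin n) ℂ, p.IsHomogeneous s → p ∈ II n δ → ψ (hc n s p) = 0 := by
    intro p hp hI
    rw [hc_of_hom n s p hp]
    exact hψ _ hI
  have hc0 := core (fun I => ψ (hc n s (mono n δ I))) ?_ ?_ hG
  · -- conclusion
    have hmon : ∀ m : Fin n →₀ ℕ, m.degree = s → ψ (hc n s (MvPolynomial.monomial m 1)) = 0 := by
      intro m hm
      by_cases hsq : ∃ j, 2 ≤ m j
      · obtain ⟨j, hj⟩ := hsq
        apply hΨ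
        · exact MvPolynomial.isHomogeneous_monomial _ hm
        · have : MvPolynomial.monomial m (1 : ℂ) =
              MvPolynomial.X j ^ 2 * MvPolynomial.monomial (m - Finsupp.single j 2) 1 := by
            have e : Finsupp.single j 2 + (m - Finsupp.single j 2) = m := by
              ext k
              by_cases hk : k = j
              · subst hk; simp; omega
              · simp [Finsupp.single_apply, Ne.symm hk]
            rw [MvPolynomial.X_pow_eq_monomial, MvPolynomial.monomial_mul, e, one_mul]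
          rw [this]
          exact Ideal.mul_mem_right _ _ (Ideal.subset_span (Or.inl ⟨j, rfl⟩))
      · push Not at hsq
        set I : Finset ℕ := m.support.image (fun j : Fin n => (j : ℕ) + 1) with hIdef
        have hinj : Function.Injective (fun j : Fin n => (j : ℕ) + 1) := by
          intro a b hab
          simp at hab
          exact Fin.ext hab
        have hone : ∀ j ∈ m.support, m j = 1 := by
          intro j hj
          have := hsq j
          have := Finsupp.mem_support_iff.1 hj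
          omega
        have hcard : I.card = s := by
          rw [hIdef, Finset.card_image_of_injective _ hinj, ← hm, Finsupp.degree]
          simp only [Finset.card_eq_sum_ones]
          exact Finset.sum_congr rfl (fun j hj => (hone j hj).symm)
        have hsub : I ⊆ range (n + 2) := by
          intro k hk
          rw [hIdef, Finset.mem_image] at hk
          obtain ⟨j, _, rfl⟩ := hk
          have := j.2
          simp
        have hmo : mono n δ I = MvPolynomial.monomial m 1 := by
          unfold mono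
          rw [hIdef, Finset.prod_image (fun a _ b _ h => hinj h), MvPolynomial.monomial_eq]
          simp only [map_one, one_mul, Finsupp.prod]
          refine Finset.prod_congr rfl fun j hj => ?_
          rw [hone j hj, pow_one]
          simp [z]
        rw [← hmo]
        exact hc0 I hsub hcard
    apply LinearMap.ext
    rintro ⟨p, hp⟩
    have h1 : (⟨p, hp⟩ : HH n s) = hc n s p := (hc_of_hom n s p hp).symm
    rw [h1]
    conv_lhs => rw [MvPolynomial.as_sum p]
    rw [map_sum, map_sum]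
    simp only [LinearMap.zero_apply]
    refine Finset.sum_eq_zero fun m hm => ?_
    have hdeg : m.degree = s := by
      have hp' : p.IsHomogeneous s := hp
      have := hp' (MvPolynomial.mem_support_iff.1 hm)
      rw [← this, Finsupp.degree_eq_weight_one]
      rfl
    have : MvPolynomial.monomial m (MvPolynomial.coeff m p) =
        (MvPolynomial.coeff m p) • MvPolynomial.monomial m (1 : ℂ) := by
      rw [MvPolynomial.smul_monomial]; simp
    rw [this, map_smul, map_smul, hmon m hdeg, smul_zero]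
  · -- first relation
    intro J hJ hJs
    have e : ∀ i ∈ (range (n + 1)).filter (fun i => i ∉ J),
        ((δ : ℂ) ^ (2 ^ i)) * ψ (hc n s (mono n δ (insert i J))) =
        ψ (hc n s (((δ : ℂ) ^ (2 ^ i)) • (z n δ i * mono n δ J))) := by
      intro i hi
      rw [map_smul, map_smul, smul_eq_mul]
      rw [Finset.mem_filter] at hi
      have : mono n δ (insert i J) = z n δ i * mono n δ J := by
        unfold mono; rw [Finset.prod_insert hi.2]
      rw [this]
    rw [Finset.sum_congr rfl e, ← map_sum, ← map_sum]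
    apply hΨ
    · refine MvPolynomial.IsHomogeneous.sum _ _ _ fun i _ => ?_
      have := (z_hom n δ i).mul (mono_hom n δ J)
      rw [show 1 + J.card = s by omega] at this
      exact (MvPolynomial.homogeneousSubmodule (Fin n) ℂ s).smul_mem _ this
    · have hz : ∑ i ∈ range (n + 1), ((δ : ℂ) ^ (2 ^ i)) • (z n δ i * mono n δ J) = 0 := by
        have := sum1 n δ h0
        calc ∑ i ∈ range (n + 1), ((δ : ℂ) ^ (2 ^ i)) • (z n δ i * mono n δ J)
            = (∑ i ∈ range (n + 1), ((δ : ℂ) ^ (2 ^ i)) • z n δ i) * mono n δ J := by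
              rw [Finset.sum_mul]; exact Finset.sum_congr rfl fun i _ => by rw [smul_mul_assoc]
          _ = 0 := by rw [this, zero_mul]
      rw [← Finset.sum_filter_add_sum_filter_not (range (n + 1)) (fun i => i ∉ J)] at hz
      rw [eq_neg_of_add_eq_zero_left hz]
      refine (II n δ).neg_mem (Ideal.sum_mem _ fun i hi => ?_)
      rw [Finset.mem_filter, not_not] at hi
      rw [MvPolynomial.smul_eq_C_mul]
      exact Ideal.mul_mem_left _ _ (z_mul_mono n δ J i hi.2)
  · -- second relation
    intro J hJ hJs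
    have e : ∀ i ∈ (range (n + 1)).filter (fun i => n + 1 - i ∉ J),
        ((δ : ℂ) ^ (2 ^ i)) * ψ (hc n s (mono n δ (insert (n + 1 - i) J))) =
        ψ (hc n s (((δ : ℂ) ^ (2 ^ i)) • (z n δ (n + 1 - i) * mono n δ J))) := by
      intro i hi
      rw [map_smul, map_smul, smul_eq_mul]
      rw [Finset.mem_filter] at hi
      have : mono n δ (insert (n + 1 - i) J) = z n δ (n + 1 - i) * mono n δ J := by
        unfold mono; rw [Finset.prod_insert hi.2]
      rw [this]
    rw [Finset.sum_congr rfl e, ← map_sum, ← map_sum]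
    apply hΨ
    · refine MvPolynomial.IsHomogeneous.sum _ _ _ fun i _ => ?_
      have := (z_hom n δ (n + 1 - i)).mul (mono_hom n δ J)
      rw [show 1 + J.card = s by omega] at this
      exact (MvPolynomial.homogeneousSubmodule (Fin n) ℂ s).smul_mem _ this
    · have hz : ∑ i ∈ range (n + 1), ((δ : ℂ) ^ (2 ^ i)) • (z n δ (n + 1 - i) * mono n δ J) = 0 := by
        have := sum2 n δ h0
        calc ∑ i ∈ range (n + 1), ((δ : ℂ) ^ (2 ^ i)) • (z n δ (n + 1 - i) * mono n δ J)
            = (∑ i ∈ range (n + 1), ((δ : ℂ) ^ (2 ^ i)) • z n δ (n + 1 - i)) * mono n δ J := by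
              rw [Finset.sum_mul]; exact Finset.sum_congr rfl fun i _ => by rw [smul_mul_assoc]
          _ = 0 := by rw [this, zero_mul]
      rw [← Finset.sum_filter_add_sum_filter_not (range (n + 1)) (fun i => n + 1 - i ∉ J)] at hz
      rw [eq_neg_of_add_eq_zero_left hz]
      refine (II n δ).neg_mem (Ideal.sum_mem _ fun i hi => ?_)
      rw [Finset.mem_filter, not_not] at hi
      rw [MvPolynomial.smul_eq_C_mul]
      exact Ideal.mul_mem_left _ _ (z_mul_mono n δ J (n + 1 - i) hi.2)

end UBS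

theorem ub_S_transfer (n s : ℕ) (hs : 1 ≤ s) (δ : ℝ) (h0 : 0 < δ) (G : Finset (Finset ℕ))
    (core : ∀ c : Finset ℕ → ℂ,
      (∀ J ⊆ range (n + 2), J.card + 1 = s →
        ∑ i ∈ (range (n + 1)).filter (fun i => i ∉ J), ((δ : ℂ) ^ (2 ^ i)) * c (insert i J) = 0) →
      (∀ J ⊆ range (n + 2), J.card + 1 = s →
        ∑ i ∈ (range (n + 1)).filter (fun i => n + 1 - i ∉ J),
          ((δ : ℂ) ^ (2 ^ i)) * c (insert (n + 1 - i) J) = 0) →
      (∀ I ∈ G, c I = 0) → ∀ I ⊆ range (n + 2), I.card = s → c I = 0) :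
    ∃ l₁ ∈ MvPolynomial.homogeneousSubmodule (Fin n) ℂ 1,
      ∃ l₂ ∈ MvPolynomial.homogeneousSubmodule (Fin n) ℂ 1,
        Module.finrank ℂ
          (↥(MvPolynomial.homogeneousSubmodule (Fin n) ℂ s) ⧸
            Submodule.comap (MvPolynomial.homogeneousSubmodule (Fin n) ℂ s).subtype
              (Submodule.restrictScalars ℂ
                (Ideal.span (Set.range (fun i : Fin n => (MvPolynomial.X i : MvPolynomial (Fin n) ℂ) ^ 2)
                  ∪ {l₁ ^ 2, l₂ ^ 2})))) ≤ G.card := by
  classical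
  refine ⟨UBS.l1 n δ, UBS.l1_hom n δ, UBS.l2 n δ, UBS.l2_hom n δ, ?_⟩
  change Module.finrank ℂ (UBS.HH n s ⧸ UBS.NN n δ s) ≤ G.card
  set w : Finset ℕ → (UBS.HH n s ⧸ UBS.NN n δ s) :=
    fun I => (UBS.NN n δ s).mkQ (UBS.hc n s (UBS.mono n δ I)) with hw
  have hspan : Submodule.span ℂ ((G.image w : Finset _) : Set (UBS.HH n s ⧸ UBS.NN n δ s)) = ⊤ := by
    by_contra hne
    obtain ⟨x, hx⟩ : ∃ x, x ∉ Submodule.span ℂ ((G.image w : Finset _) : Set (UBS.HH n s ⧸ UBS.NN n δ s)) := by
      by_contra hcon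
      push Not at hcon
      exact hne (Submodule.eq_top_iff'.2 hcon)
    obtain ⟨f, hf1, hf2⟩ := Submodule.exists_le_ker_of_notMem hx
    have h0' : f.comp (UBS.NN n δ s).mkQ = 0 := by
      apply UBS.key n δ s hs h0 G core
      · intro y hy
        have : (UBS.NN n δ s).mkQ y = 0 := by simpa using hy
        simp [this]
      · intro I hI
        have : w I ∈ Submodule.span ℂ ((G.image w : Finset _) : Set (UBS.HH n s ⧸ UBS.NN n δ s)) :=
          Submodule.subset_span (by simp; exact ⟨I, hI, rfl⟩)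
        exact hf2 this
    apply hf1
    obtain ⟨y, rfl⟩ := (UBS.NN n δ s).mkQ_surjective x
    exact LinearMap.congr_fun h0' y
  have h1 := finrank_span_finset_le_card (R := ℂ) (G.image w)
  rw [Set.finrank, hspan, finrank_top] at h1
  exact h1.trans Finset.card_image_le

end Pool.Agent.Helper213.UbSx
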